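import Pool.Agent.W65.FS.Theta
import Pool.Agent.W65.FS.Farey

/-!
# Project FP: definitions for the circle method part

`x² + 3 y² + 5 z² + 7 w²`, theta series, Gauss sums, singular series.
-/

set_option autoImplicit false
open Finset Complex MeasureTheory

namespace Pool.Agent.R496.FP

open Pool.Agent.W65.FS

/-- the form of the problem (same as `Pool.Agent.W65.FS.pf`) -/
def qf (X : Fin 4 → ℤ) : ℤ := X 0 ^ 2 + 3 * X 1 ^ 2 + 5 * X 2 ^ 2 + 7 * X 3 ^ 2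

/-- the representations of `m` by the form -/
noncomputable def rp (m : ℕ) : Finset (Fin 4 → ℤ) :=
  (Fintype.piFinset fun _ => Finset.Icc (-(m : ℤ)) m).filter (fun X => qf X = m)

/-- the generating function of the numbers of representations -/
noncomputable def Fth (y α : ℝ) : ℂ :=
  theta y 1 0 α * theta (3 * y) 1 0 (3 * α) *
    (theta (5 * y) 1 0 (5 * α) * theta (7 * y) 1 0 (7 * α))

/-- the Gauss sum -/
noncomputable def g0 (c : ℕ) [NeZero c] (b : ZMod c) : ℂ := ∑ s : ZMod c, ZMod.stdAddChar (b * s ^ 2)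

/-- the product of the four Gauss sums -/
noncomputable def G4 (c : ℕ) [NeZero c] (a : ZMod c) : ℂ :=
  g0 c a * g0 c (3 * a) * (g0 c (5 * a) * g0 c (7 * a))

/-- the term of the singular series at `c` -/
noncomputable def As (c : ℕ) [NeZero c] (P : ℕ) : ℂ :=
  ((c : ℂ) ^ 4)⁻¹ * ∑ u : (ZMod c)ˣ, G4 c (u : ZMod c) * ZMod.stdAddChar (-((u : ZMod c) * (P : ZMod c)))

/-- the truncated singular series (`c = 1, …, Q`) -/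
noncomputable def SS (Q P : ℕ) : ℂ := ∑ c ∈ range Q, As (c + 1) P

/-- the number of solutions modulo `d` -/
noncomputable def Ns (d : ℕ) [NeZero d] (P : ℕ) : ℕ := by
  classical
  exact ((univ : Finset (Fin 4 → ZMod d)).filter
    (fun s => s 0 ^ 2 + 3 * s 1 ^ 2 + 5 * s 2 ^ 2 + 7 * s 3 ^ 2 = (P : ZMod d))).card

/-- the part of the Farey dissection (of order `H`) with denominator `c` -/
noncomputable def row (Φ : ℝ → ℂ) (H c : ℕ) : ℂ :=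
  ∑ v ∈ (Ioc (H - c) H).filter (fun v => Nat.Coprime c v),
    ((∫ β in (0:ℝ)..(1 / (c * (c + v))), Φ ((aa c v : ℝ) / c + β)) +
      ∫ β in (0:ℝ)..(1 / (c * (c + v))), Φ (-((aa c v : ℝ) / c + β)))

/-- `e(x)` -/
noncomputable def ee (x : ℝ) : ℂ := cexp (2 * Real.pi * I * x)

/-! ### The statements -/

/-- GB: the bound for Gauss sums -/
def GB : Prop := ∀ (c : ℕ) [NeZero c] (a : ℤ), IsCoprime a (c : ℤ) → ∀ j : ℕ, 1 ≤ j → j ≤ 7 →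
  ∀ k : ZMod c, ‖gs c 1 ((j : ZMod c) * (a : ZMod c)) 0 k‖ ^ 2 ≤ 14 * c

/-- FA: continuity, period, symmetry -/
def FA : Prop := ∀ y : ℝ, 0 < y → Continuous (Fth y) ∧ (∀ x, Fth y (x + 1) = Fth y x) ∧
  ∀ x, Fth y (-x) = (starRingEnd ℂ) (Fth y x)

/-- EX: extraction of the coefficients -/
def EX : Prop := ∀ y : ℝ, 0 < y → ∀ m : ℕ,
  ∫ α in (0:ℝ)..1, Fth y α * ee (-(m * α)) = ((rp m).card : ℂ) * Real.exp (-(2 * Real.pi * y * m))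

/-- FB: the generating function near rational points -/
def FB : Prop := ∃ C : ℝ, 0 < C ∧ ∀ (y : ℝ), 0 < y → y ≤ 1 → ∀ (c : ℕ) [NeZero c] (a : ℤ),
  IsCoprime a (c : ℤ) → ∀ β : ℝ, (c : ℝ) ^ 2 * (y ^ 2 + β ^ 2) ≤ 5 * y →
    ‖Fth y ((a : ℝ) / c + β)‖ ≤ C / ((c : ℝ) ^ 2 * (y ^ 2 + β ^ 2)) ∧
    ‖Fth y ((a : ℝ) / c + β) -
      ((c : ℂ) ^ 4)⁻¹ * G4 c (a : ZMod c) / (4 * (Real.sqrt 105 : ℂ) * ((y : ℂ) - β * I) ^ 2)‖ ≤ C / y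

/-- IN: the singular integral -/
def IN : Prop := ∃ C : ℝ, 0 < C ∧ ∀ (y : ℝ), 0 < y → y ≤ 1 → ∀ P : ℕ,
  |2 * (∫ β in (0:ℝ)..(1 / 2), ee (-(P * β)) / ((y : ℂ) - β * I) ^ 2).re -
    4 * Real.pi ^ 2 * P * Real.exp (-(2 * Real.pi * y * P))| ≤ C

/-- MI: the minor arcs; `X` is the size of the primes, `y = 1 / X`, `H = √X` -/
def MI : Prop := ∃ C : ℝ, 0 < C ∧ ∀ X : ℕ, 1 ≤ X → ∀ S : Finset ℕ, ∀ Q : ℕ, 1 ≤ Q → Q ≤ Nat.sqrt X →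
  ‖∑ c ∈ Ioc Q (Nat.sqrt X),
      row (fun α => Fth (1 / (X : ℝ)) α * ∑ P ∈ S, ee (-(P * α))) (Nat.sqrt X) c‖ ≤
    C * (X : ℝ) ^ (3 / 2 : ℝ) * Real.sqrt S.card / Q

/-- MA: the major arcs -/
def MA : Prop := ∃ C : ℝ, 0 < C ∧ ∀ X : ℕ, 1 ≤ X → ∀ P : ℕ, ∀ Q : ℕ, 1 ≤ Q → Q ≤ Nat.sqrt X →
  ‖∑ c ∈ Icc 1 Q, row (fun α => Fth (1 / (X : ℝ)) α * ee (-(P * α))) (Nat.sqrt X) c -
    ((Real.pi ^ 2 / Real.sqrt 105 * P * Real.exp (-(2 * Real.pi * P / X)) : ℝ) : ℂ) * SS Q P‖ ≤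
    C * Q * Real.sqrt X

/-- OR: orthogonality -/
def OR : Prop := ∀ (d : ℕ) [NeZero d] (P : ℕ), (Ns d P : ℂ) =
  (d : ℂ) ^ 3 * ∑ q ∈ d.divisors, if h : q = 0 then 0 else haveI : NeZero q := ⟨h⟩; As q P

/-- CR: Chinese remainder theorem -/
def CR : Prop := ∀ (m n : ℕ) [NeZero m] [NeZero n] [NeZero (m * n)] (P : ℕ), Nat.Coprime m n →
  Ns (m * n) P = Ns m P * Ns n P

/-- HO: Hensel's lemma at odd primes -/
def HO : Prop := ∀ (l k : ℕ) [NeZero (l ^ k)] [NeZero (l ^ (k + 1))] (P : ℕ), l.Prime → l ≠ 2 →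
  ¬ l ∣ P → 1 ≤ k → Ns (l ^ (k + 1)) P = l ^ 3 * Ns (l ^ k) P

/-- HT: Hensel's lemma at `2` -/
def HT : Prop := ∀ (k : ℕ) [NeZero (2 ^ k)] [NeZero (2 ^ (k + 1))] (P : ℕ), Odd P → 3 ≤ k →
  Ns (2 ^ (k + 1)) P = 8 * Ns (2 ^ k) P

/-- LC: the number of solutions modulo a prime, and solvability at the small primes -/
def LC : Prop := (∀ (l : ℕ) [NeZero l] (P : ℕ), l.Prime → 7 < l → ¬ l ∣ P →
    |(Ns l P : ℝ) - (l : ℝ) ^ 3| ≤ l) ∧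
  (∀ (l : ℕ) [NeZero l] (P : ℕ), (l = 3 ∨ l = 5 ∨ l = 7) → ¬ l ∣ P → 0 < Ns l P) ∧
  (∀ P : ℕ, Odd P → 0 < Ns 8 P)

/-- AM: multiplicativity of the terms of the singular series -/
def AM : Prop := ∀ (m n : ℕ) [NeZero m] [NeZero n] [NeZero (m * n)] (P : ℕ), Nat.Coprime m n →
  As (m * n) P = As m P * As n P

/-- AV: the terms at prime powers, and the trivial bound -/
def AV : Prop :=
  (∀ (l k : ℕ) [NeZero (l ^ k)] (P : ℕ), l.Prime → l ≠ 2 → ¬ l ∣ P → 2 ≤ k → As (l ^ k) P = 0) ∧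
  (∀ (k : ℕ) [NeZero (2 ^ k)] (P : ℕ), Odd P → 4 ≤ k → As (2 ^ k) P = 0) ∧
  (∀ (l : ℕ) [NeZero l] (P : ℕ), l.Prime → 7 < l → ¬ l ∣ P → ‖As l P‖ ≤ 1 / (l : ℝ) ^ 2) ∧
  (∀ (c : ℕ) [NeZero c] (P : ℕ), ‖As c P‖ ≤ 196 / (c : ℝ))

/-- SG: the singular series is bounded below -/
def SG : Prop := ∃ c0 : ℝ, 0 < c0 ∧ ∃ Q0 : ℕ, ∀ P : ℕ, P.Prime → 7 < P → ∀ Q : ℕ, Q0 ≤ Q → Q < P →
  c0 ≤ (SS Q P).re

/-- LO: the lower bound for the number of representations of the members of a set of primes -/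
def LO : Prop := ∀ κ : ℝ, 0 < κ → ∃ c : ℝ, 0 < c ∧ ∃ X0 : ℕ, ∀ X : ℕ, X0 ≤ X → ∀ S : Finset ℕ,
  (∀ P ∈ S, P.Prime ∧ X < 2 * P ∧ P ≤ X) → κ * X / Real.log X ^ 2 ≤ S.card →
    c * X * S.card ≤ ∑ P ∈ S, ((rp P).card : ℝ)

end Pool.Agent.R496.FP
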