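import Mathlib
import Pool.Agent.R496.FP.Defs

/-! FP-AM (helper26): multiplicativity of the terms of the singular series. -/

set_option autoImplicit false
open Finset

namespace Pool.Agent.R496.FP

namespace AMaux

noncomputable def AsF (P : ℕ) : ArithmeticFunction ℂ :=
  ⟨fun q => if h : q = 0 then 0 else haveI : NeZero q := ⟨h⟩; As q P, by simp⟩

noncomputable def RF (P : ℕ) : ArithmeticFunction ℂ :=
  ⟨fun d => if h : d = 0 then 0 else haveI : NeZero d := ⟨h⟩; (Ns d P : ℂ) / (d : ℂ) ^ 3, by simp⟩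

theorem AsF_apply (P c : ℕ) [NeZero c] : AsF P c = As c P := dif_neg (NeZero.ne c)

theorem RF_apply (P c : ℕ) [NeZero c] : RF P c = (Ns c P : ℂ) / (c : ℂ) ^ 3 := dif_neg (NeZero.ne c)

theorem RF_eq (hOR : OR) (P : ℕ) :
    AsF P * ((ArithmeticFunction.zeta : ArithmeticFunction ℕ) : ArithmeticFunction ℂ) = RF P := by
  ext d
  rcases eq_or_ne d 0 with rfl | hd
  · simp
  · haveI : NeZero d := ⟨hd⟩
    rw [ArithmeticFunction.coe_mul_zeta_apply, RF_apply, hOR d P]
    have h1 : (d : ℂ) ^ 3 ≠ 0 := pow_ne_zero 3 (Nat.cast_ne_zero.2 hd)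
    rw [mul_div_cancel_left₀ _ h1]
    rfl

theorem Ns_one (P : ℕ) : Ns 1 P = 1 := by
  unfold Ns
  rw [Finset.filter_true_of_mem (fun s _ => Subsingleton.elim _ _)]
  simp

theorem RF_mult (hCR : CR) (P : ℕ) : (RF P).IsMultiplicative := by
  rw [ArithmeticFunction.IsMultiplicative.iff_ne_zero]
  constructor
  · rw [RF_apply, Ns_one]
    simp
  · intro m n hm hn hmn
    haveI : NeZero m := ⟨hm⟩
    haveI : NeZero n := ⟨hn⟩
    haveI : NeZero (m * n) := ⟨mul_ne_zero hm hn⟩
    rw [RF_apply, RF_apply, RF_apply, hCR m n P hmn]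
    push_cast
    rw [mul_pow, mul_div_mul_comm]

theorem AsF_mult (hOR : OR) (hCR : CR) (P : ℕ) : (AsF P).IsMultiplicative := by
  have h1 : AsF P = RF P * ((ArithmeticFunction.moebius : ArithmeticFunction ℤ) : ArithmeticFunction ℂ) := by
    rw [← RF_eq hOR, mul_assoc, ArithmeticFunction.coe_zeta_mul_coe_moebius, mul_one]
  rw [h1]
  exact (RF_mult hCR P).mul ArithmeticFunction.isMultiplicative_moebius.intCast

end AMaux

open AMaux in
theorem am (hOR : OR) (hCR : CR) : AM := by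
  intro m n _ _ _ P hmn
  have h1 := (AsF_mult hOR hCR P).map_mul_of_coprime hmn
  rwa [AsF_apply, AsF_apply, AsF_apply] at h1

end Pool.Agent.R496.FP
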