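import Pool.Agent.R496.FP.Defs

/-!
FP-AV (MP_0ad054_nt): the terms of the singular series at prime powers, and the trivial bound.
-/

set_option autoImplicit false
open Finset Complex MeasureTheory

namespace Pool.Agent.R496.FP

open Pool.Agent.W65.FS

namespace AVaux

/-- total version of `As` -/
noncomputable def As' (q P : ℕ) : ℂ := if h : q = 0 then 0 else haveI : NeZero q := ⟨h⟩; As q P

theorem As'_eq (q P : ℕ) [h : NeZero q] : As' q P = As q P := by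
  unfold As'
  rw [dif_neg (NeZero.ne q)]

theorem sum_pow (hOR : OR) (l k P : ℕ) (hl : l.Prime) [NeZero (l ^ k)] :
    ∑ i ∈ range (k + 1), As' (l ^ i) P = (Ns (l ^ k) P : ℂ) / ((l ^ k : ℕ) : ℂ) ^ 3 := by
  have h := hOR (l ^ k) P
  rw [Nat.sum_divisors_prime_pow hl] at h
  have h0 : ((l ^ k : ℕ) : ℂ) ^ 3 ≠ 0 := pow_ne_zero _ (Nat.cast_ne_zero.2 (NeZero.ne _))
  rw [eq_div_iff h0, h, mul_comm]
  rfl

theorem As'_succ (hOR : OR) (l k P : ℕ) (hl : l.Prime) [NeZero (l ^ k)] [NeZero (l ^ (k + 1))] :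
    As' (l ^ (k + 1)) P = (Ns (l ^ (k + 1)) P : ℂ) / ((l ^ (k + 1) : ℕ) : ℂ) ^ 3 -
      (Ns (l ^ k) P : ℂ) / ((l ^ k : ℕ) : ℂ) ^ 3 := by
  rw [← sum_pow hOR l k P hl, ← sum_pow hOR l (k + 1) P hl, sum_range_succ _ (k + 1)]
  ring

theorem zero_of (hOR : OR) (l k P : ℕ) (hl : l.Prime) [NeZero (l ^ k)] [NeZero (l ^ (k + 1))]
    (h : Ns (l ^ (k + 1)) P = l ^ 3 * Ns (l ^ k) P) : As (l ^ (k + 1)) P = 0 := by
  rw [← As'_eq, As'_succ hOR l k P hl, h]
  have hl0 : (l : ℂ) ≠ 0 := Nat.cast_ne_zero.2 hl.ne_zero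
  have e : ((l ^ (k + 1) : ℕ) : ℂ) ^ 3 = ((l ^ k : ℕ) : ℂ) ^ 3 * (l : ℂ) ^ 3 := by
    push_cast
    ring
  rw [e, Nat.cast_mul, Nat.cast_pow l 3, mul_comm ((l : ℂ) ^ 3) (Ns (l ^ k) P : ℂ),
    mul_div_mul_right _ _ (pow_ne_zero 3 hl0), sub_self]

theorem Ns_one (P : ℕ) : Ns 1 P = 1 := by
  classical
  unfold Ns
  rw [Finset.card_eq_one]
  refine ⟨fun _ => 0, ?_⟩
  ext s
  simp only [mem_filter, mem_univ, true_and, mem_singleton]
  exact ⟨fun _ => Subsingleton.elim _ _, fun _ => Subsingleton.elim _ _⟩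

theorem g0_le (hGB : GB) (c : ℕ) [NeZero c] (u : (ZMod c)ˣ) (j : ℕ) (h1 : 1 ≤ j) (h7 : j ≤ 7) :
    ‖g0 c ((j : ZMod c) * (u : ZMod c))‖ ≤ Real.sqrt (14 * c) := by
  have h := hGB c (((u : ZMod c).val : ℕ) : ℤ) (by
    rw [Nat.isCoprime_iff_coprime]
    exact ZMod.val_coe_unit_coprime u) j h1 h7 0
  have e : gs c 1 ((j : ZMod c) * (((((u : ZMod c).val : ℕ) : ℤ)) : ZMod c)) 0 0 =
      g0 c ((j : ZMod c) * (u : ZMod c)) := by
    unfold gs g0
    refine sum_congr rfl fun s _ => ?_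
    congr 1
    push_cast
    rw [ZMod.natCast_val, ZMod.cast_id]
    ring
  rw [e] at h
  exact Real.le_sqrt_of_sq_le h

theorem bound (hGB : GB) (c P : ℕ) [NeZero c] : ‖As c P‖ ≤ 196 / (c : ℝ) := by
  have hc : (0 : ℝ) < c := Nat.cast_pos.2 (Nat.pos_of_ne_zero (NeZero.ne c))
  unfold As
  rw [norm_mul, norm_inv, norm_pow, Complex.norm_natCast]
  have hterm : ∀ u : (ZMod c)ˣ, ‖G4 c (u : ZMod c) *
      ZMod.stdAddChar (-((u : ZMod c) * (P : ZMod c)))‖ ≤ (14 * c) ^ 2 := by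
    intro u
    rw [norm_mul, AddChar.norm_apply, mul_one]
    unfold G4
    rw [norm_mul, norm_mul, norm_mul]
    have a1 := g0_le hGB c u 1 le_rfl (by norm_num)
    have a3 := g0_le hGB c u 3 (by norm_num) (by norm_num)
    have a5 := g0_le hGB c u 5 (by norm_num) (by norm_num)
    have a7 := g0_le hGB c u 7 (by norm_num) (by norm_num)
    push_cast at a1 a3 a5 a7
    rw [one_mul] at a1
    have hs : Real.sqrt (14 * c) * Real.sqrt (14 * c) = 14 * c :=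
      Real.mul_self_sqrt (by positivity)
    calc ‖g0 c (u : ZMod c)‖ * ‖g0 c (3 * (u : ZMod c))‖ *
        (‖g0 c (5 * (u : ZMod c))‖ * ‖g0 c (7 * (u : ZMod c))‖) ≤
        Real.sqrt (14 * c) * Real.sqrt (14 * c) * (Real.sqrt (14 * c) * Real.sqrt (14 * c)) := by
          gcongr
      _ = (14 * c) ^ 2 := by
        rw [hs]
        ring
  have hsum : ‖∑ u : (ZMod c)ˣ, G4 c (u : ZMod c) *
      ZMod.stdAddChar (-((u : ZMod c) * (P : ZMod c)))‖ ≤ c * (14 * c) ^ 2 := by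
    refine le_trans (norm_sum_le _ _) ?_
    refine le_trans (Finset.sum_le_card_nsmul _ _ _ fun u _ => hterm u) ?_
    rw [nsmul_eq_mul, card_univ, ZMod.card_units_eq_totient]
    gcongr
    exact Nat.totient_le c
  calc ((c : ℝ) ^ 4)⁻¹ * ‖∑ u : (ZMod c)ˣ, G4 c (u : ZMod c) *
      ZMod.stdAddChar (-((u : ZMod c) * (P : ZMod c)))‖ ≤ ((c : ℝ) ^ 4)⁻¹ * (c * (14 * c) ^ 2) := by
        gcongr
    _ = 196 / (c : ℝ) := by
        field_simp
        norm_num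

end AVaux

open AVaux in
theorem av (hGB : GB) (hOR : OR) (hHO : HO) (hHT : HT) (hLC : LC) : AV := by
  refine ⟨?_, ?_, ?_, fun c _ P => bound hGB c P⟩
  · intro l k hk P hl hl2 hP h2
    obtain ⟨k, rfl⟩ : ∃ m, k = m + 1 := ⟨k - 1, by omega⟩
    have : NeZero (l ^ k) := ⟨pow_ne_zero _ hl.ne_zero⟩
    exact zero_of hOR l k P hl (hHO l k P hl hl2 hP (by omega))
  · intro k hk P hP h4
    obtain ⟨k, rfl⟩ : ∃ m, k = m + 1 := ⟨k - 1, by omega⟩
    have : NeZero (2 ^ k) := ⟨pow_ne_zero _ two_ne_zero⟩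
    exact zero_of hOR 2 k P Nat.prime_two (by
      rw [hHT k P hP (by omega)]
      norm_num)
  · intro l hl0 P hl h7 hP
    have h1 := hLC.1 l P hl h7 hP
    have hl' : (0 : ℝ) < l := Nat.cast_pos.2 hl.pos
    have hOR1 := hOR 1 P
    rw [Ns_one, Nat.divisors_one, sum_singleton] at hOR1
    have hA1 : As' 1 P = 1 := by
      have : As' 1 P = (1 : ℂ) ^ 3 * As' 1 P := by ring
      rw [this]
      push_cast at hOR1
      exact hOR1.symm
    have hORl := hOR l P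
    rw [Nat.Prime.sum_divisors hl] at hORl
    have hORl' : (Ns l P : ℂ) = (l : ℂ) ^ 3 * (As' l P + As' 1 P) := hORl
    rw [hA1, As'_eq l P] at hORl'
    have h2 : (l : ℂ) ^ 3 * As l P = (((Ns l P : ℝ) - (l : ℝ) ^ 3 : ℝ) : ℂ) := by
      push_cast
      rw [hORl']
      ring
    have h3 : (l : ℝ) ^ 3 * ‖As l P‖ ≤ l := by
      have h4 := congrArg norm h2
      rw [norm_mul, norm_pow, Complex.norm_natCast, Complex.norm_real, Real.norm_eq_abs] at h4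
      rw [h4]
      exact h1
    rw [le_div_iff₀ (by positivity)]
    have h5 : (l : ℝ) * (‖As l P‖ * (l : ℝ) ^ 2) ≤ (l : ℝ) * 1 := by
      calc (l : ℝ) * (‖As l P‖ * (l : ℝ) ^ 2) = (l : ℝ) ^ 3 * ‖As l P‖ := by ring
        _ ≤ (l : ℝ) := h3
        _ = (l : ℝ) * 1 := (mul_one _).symm
    exact le_of_mul_le_mul_left h5 hl'

end Pool.Agent.R496.FP
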