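import Pool.Agent.W65.FS.Sieve

/-!
# Project FP: statements for the sieve part
-/

set_option autoImplicit false
open Finset

namespace Pool.Agent.R496.FP

open Pool.Agent.W65.FS

/-- LD: lower bound for the density of `p (p - 2) ≡ 0` on the sphere modulo `l` -/
def LD : Prop := ∀ l : ℕ, l.Prime → 7 < l → ∀ n : ℕ, ¬ l ∣ n →
  (2 / (l : ℝ) - 20 / (l : ℝ) ^ (3 / 2 : ℝ)) * ((Gl n l).card : ℝ) ≤ ((Bl ff n l).card : ℝ)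

/-- UP: upper bound of the right order for the number of primitive representations of an odd `n`
for which `p (p - 2)` has no prime factor `≤ n ^ η` -/
def UP : Prop := ∀ η : ℝ, 0 < η → ∃ C : ℝ, 0 < C ∧ ∃ n0 : ℕ, ∀ n : ℕ, Odd n → n0 ≤ n →
  ∀ S : Finset (Fin 4 → ℤ), S ⊆ preps n →
    (∀ X ∈ S, ∀ l : ℕ, l.Prime → (l : ℝ) ≤ (n : ℝ) ^ η → ¬ (l : ℤ) ∣ ff X) →
    (S.card : ℝ) ≤ C * ((n : ℝ) / Nat.totient n) ^ 2 * ((preps n).card : ℝ) / Real.log n ^ 2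

/-- M2: second moment of the number of representations as a sum of four squares -/
def M2 : Prop := ∃ C : ℝ, 0 < C ∧ ∀ N : ℕ,
  ∑ n ∈ range (N + 1), ((reps n).card : ℝ) ^ 2 ≤ C * ((N : ℝ) + 1) ^ 3

/-- PH: a moment of `n / φ(n)` -/
def PH : Prop := ∃ C : ℝ, 0 < C ∧ ∀ N : ℕ,
  ∑ n ∈ Icc 1 N, ((n : ℝ) / Nat.totient n) ^ 8 ≤ C * N

/-- CH: Chen primes -/
def CH : Prop := ∃ η κ : ℝ, 0 < η ∧ 0 < κ ∧ ∃ X0 : ℕ, ∀ X : ℕ, X0 ≤ X → ∃ S : Finset ℕ,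
  (∀ P ∈ S, P.Prime ∧ X < 2 * P ∧ P ≤ X ∧ (P - 2).primeFactorsList.length ≤ 2 ∧
    ∀ l : ℕ, l.Prime → l ∣ P - 2 → (X : ℝ) ^ η < l) ∧
  κ * X / Real.log X ^ 2 ≤ S.card

end Pool.Agent.R496.FP
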