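import Pool.Agent.R463.ChenG
import Pool.Agent.R496.FP.Defs2

/-!
# Project FP, piece CH: Chen primes
-/

set_option autoImplicit false
open Finset

namespace Pool.Agent.R496.FP

namespace CH394

/-- the number of residues for the twin problem -/
theorem nu_le {q : ℕ} (hq : q.Prime) : Pool.Agent.R463.CG.nu 1 (-2) (fun _ => ∅) q ≤ if q = 2 then 1 else 2 := by
  unfold Pool.Agent.R463.CG.nu
  have h1 : ((range q).filter (fun m : ℕ => (q : ℤ) ∣ (m : ℤ) ∨ (q : ℤ) ∣ 1 * m + -2 ∨
      ∃ a ∈ (∅ : Finset ℤ), (q : ℤ) ∣ m - a)) ⊆ if q = 2 then {0} else {0, 2} := by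
    intro m hm
    rw [mem_filter, mem_range] at hm
    obtain ⟨hmq, hm⟩ := hm
    have hm' : m = 0 ∨ (q : ℤ) ∣ (m : ℤ) - 2 := by
      rcases hm with h | h | ⟨a, ha, _⟩
      · left
        have h2 : q ∣ m := by exact_mod_cast h
        exact Nat.eq_zero_of_dvd_of_lt h2 hmq
      · right
        rw [show (m : ℤ) - 2 = 1 * m + -2 by ring]
        exact h
      · exact absurd ha (Finset.notMem_empty a)
    rcases hm' with rfl | h
    · split_ifs <;> simp
    · by_cases hq2 : q = 2
      · rw [if_pos hq2]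
        subst hq2
        have : m = 0 := by omega
        subst this
        simp
      · rw [if_neg hq2]
        have hq3 : 3 ≤ q := by
          have := hq.two_le
          omega
        have h2 : (m : ℤ) - 2 = 0 := by
          apply Int.eq_zero_of_abs_lt_dvd h
          rw [abs_lt]
          constructor <;> omega
        have : m = 2 := by omega
        subst this
        simp
  refine (card_le_card h1).trans ?_
  split_ifs <;> simp

/-- the convergent factor -/
noncomputable def gf (q : ℕ) : ℝ := if q = 2 then 1 else 1 - 1 / ((q : ℝ) - 1) ^ 2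

theorem gf_prod (X : ℕ) (hX : 2 ≤ X) :
    1 / 2 * ((X : ℝ) / (X - 1)) ≤ ∏ q ∈ (Icc 1 X).filter Nat.Prime, gf q := by
  induction X, hX using Nat.le_induction with
  | base =>
    have : (Icc 1 2).filter Nat.Prime = {2} := by decide
    rw [this, prod_singleton]
    unfold gf
    norm_num
  | succ X hX ih =>
    have hXR : (2 : ℝ) ≤ X := by exact_mod_cast hX
    have hI : Icc 1 (X + 1) = insert (X + 1) (Icc 1 X) := by
      ext a
      rw [mem_insert, mem_Icc, mem_Icc]
      omega
    have hstep : 1 / 2 * (((X : ℝ) + 1) / X) ≤ 1 / 2 * ((X : ℝ) / (X - 1)) := by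
      refine mul_le_mul_of_nonneg_left ?_ (by norm_num)
      rw [div_le_div_iff₀ (by linarith) (by linarith)]
      nlinarith
    push_cast
    rw [show (X : ℝ) + 1 - 1 = X by ring]
    by_cases hp : (X + 1).Prime
    · rw [hI, filter_insert, if_pos hp, prod_insert (by simp)]
      have hg : gf (X + 1) = 1 - 1 / (X : ℝ) ^ 2 := by
        unfold gf
        rw [if_neg (by omega)]
        push_cast
        rw [show (X : ℝ) + 1 - 1 = X by ring]
      rw [hg]
      have h0 : 0 ≤ 1 - 1 / (X : ℝ) ^ 2 := by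
        have : 1 / (X : ℝ) ^ 2 ≤ 1 := by
          rw [div_le_one (by positivity)]
          nlinarith
        linarith
      refine le_trans (le_of_eq ?_) (mul_le_mul_of_nonneg_left ih h0)
      have h1 : (X : ℝ) - 1 ≠ 0 := by
        have : (0:ℝ) < (X : ℝ) - 1 := by linarith
        exact this.ne'
      have h2 : (X : ℝ) ≠ 0 := by linarith
      field_simp
      ring
    · rw [hI, filter_insert, if_neg hp]
      exact hstep.trans ih

theorem V_ge : ∃ c : ℝ, 0 < c ∧ ∀ X : ℕ, 2 ≤ X →
    c / Real.log X ^ 2 ≤ Pool.Agent.R463.CG.V 1 (-2) (fun _ => ∅) X := by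
  obtain ⟨c, _, hc, _, hV⟩ := Pool.Agent.Y843.HG.V1_bounds
  refine ⟨c ^ 2 * (1 / 2), by positivity, fun X hX => ?_⟩
  have hlog : 0 < Real.log X := Real.log_pos (by exact_mod_cast (show 1 < X by omega))
  have h1 := (hV X hX).1
  have hPr : Pool.Agent.Y843.HS.Pr 0 X = (Icc 1 X).filter Nat.Prime := by
    unfold Pool.Agent.Y843.HS.Pr
    congr 1
  have h2 : Pool.Agent.Y843.HG.V1 X = ∏ q ∈ (Icc 1 X).filter Nat.Prime, (1 - 1 / (q : ℝ)) := by
    unfold Pool.Agent.Y843.HG.V1
    rw [hPr]
  have h3 : 1 / 2 ≤ ∏ q ∈ (Icc 1 X).filter Nat.Prime, gf q := by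
    refine le_trans ?_ (gf_prod X hX)
    have hXR : (2 : ℝ) ≤ X := by exact_mod_cast hX
    have : 1 ≤ (X : ℝ) / (X - 1) := by
      rw [le_div_iff₀ (by linarith)]
      linarith
    linarith
  have h4 : (∏ q ∈ (Icc 1 X).filter Nat.Prime, (1 - 1 / (q : ℝ))) ^ 2 *
      ∏ q ∈ (Icc 1 X).filter Nat.Prime, gf q ≤ Pool.Agent.R463.CG.V 1 (-2) (fun _ => ∅) X := by
    unfold Pool.Agent.R463.CG.V
    rw [← prod_pow, ← prod_mul_distrib]
    refine prod_le_prod ?_ ?_
    · intro q hq
      have hqp := (mem_filter.1 hq).2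
      have hq2 : (2 : ℝ) ≤ q := by exact_mod_cast hqp.two_le
      refine mul_nonneg (sq_nonneg _) ?_
      unfold gf
      split_ifs with h
      · norm_num
      · have hq3 : (3 : ℝ) ≤ q := by
          have : 3 ≤ q := by
            have := hqp.two_le
            omega
          exact_mod_cast this
        have : 1 / ((q : ℝ) - 1) ^ 2 ≤ 1 := by
          rw [div_le_one (by nlinarith)]
          nlinarith
        linarith
    · intro q hq
      have hqp := (mem_filter.1 hq).2
      have hq2 : (2 : ℝ) ≤ q := by exact_mod_cast hqp.two_le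
      have h5 := nu_le hqp
      unfold gf
      by_cases h : q = 2
      · rw [if_pos h] at h5 ⊢
        subst h
        have h6 : (Pool.Agent.R463.CG.nu 1 (-2) (fun _ => ∅) 2 : ℝ) ≤ 1 := by exact_mod_cast h5
        push_cast
        linarith
      · rw [if_neg h] at h5 ⊢
        have h6 : (Pool.Agent.R463.CG.nu 1 (-2) (fun _ => ∅) q : ℝ) ≤ 2 := by exact_mod_cast h5
        have hq3 : (3 : ℝ) ≤ q := by
          have : 3 ≤ q := by
            have := hqp.two_le
            omega
          exact_mod_cast this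
        have h7 : (1 - 1 / (q : ℝ)) ^ 2 * (1 - 1 / ((q : ℝ) - 1) ^ 2) = 1 - 2 / q := by
          have e1 : (q : ℝ) ≠ 0 := by linarith
          have e2 : (q : ℝ) - 1 ≠ 0 := by
            have : (0:ℝ) < (q : ℝ) - 1 := by linarith
            exact this.ne'
          field_simp
          ring
        rw [h7]
        have h8 : (Pool.Agent.R463.CG.nu 1 (-2) (fun _ => ∅) q : ℝ) / q ≤ 2 / q :=
          div_le_div_of_nonneg_right h6 (by linarith)
        linarith
  refine le_trans ?_ h4
  rw [← h2]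
  have h5 : (c / Real.log X) ^ 2 ≤ Pool.Agent.Y843.HG.V1 X ^ 2 := pow_le_pow_left₀ (by positivity) h1 2
  calc c ^ 2 * (1 / 2) / Real.log X ^ 2 = (c / Real.log X) ^ 2 * (1 / 2) := by
        field_simp
    _ ≤ Pool.Agent.Y843.HG.V1 X ^ 2 * (1 / 2) := mul_le_mul_of_nonneg_right h5 (by norm_num)
    _ ≤ _ := mul_le_mul_of_nonneg_left h3 (sq_nonneg _)

end CH394

open CH394 in
theorem ch : CH := by
  classical
  obtain ⟨t, ht, c, hc, H, -⟩ := Pool.Agent.R463.CG.chen 1 (by norm_num) 0
  obtain ⟨c1, hc1, hV⟩ := V_ge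
  obtain ⟨X₀, hX₀⟩ := H (1 / 4) (by norm_num)
  refine ⟨1 / 9, c * (1 / 2) * c1, by norm_num, by positivity, max X₀ 4, fun X hX => ?_⟩
  have hX4 : 4 ≤ X := (le_max_right _ _).trans hX
  have hXR : (4 : ℝ) ≤ X := by exact_mod_cast hX4
  have hsys : Pool.Agent.R463.CG.Sys 0 1 (-2) (fun _ => ∅) := by
    intro q hq
    refine ⟨by simp, ?_⟩
    have h1 := nu_le hq
    have h2 := hq.two_le
    split_ifs at h1 with h <;> omega
  have hhalf : ((X / 2 : ℕ) : ℝ) ≤ (X : ℝ) / 2 := Nat.cast_div_le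
  have h1 := hX₀ X ((le_max_left _ _).trans hX) (-2) (by norm_num)
    (by
      rw [show |(-2 : ℤ)| = 2 by norm_num]
      exact_mod_cast (show 2 ≤ X by omega)) (fun _ => ∅) hsys (X / 2) X le_rfl (by linarith)
  refine ⟨Pool.Agent.R463.CG.G 1 (-2) t X (X / 2) X (fun _ => ∅), ?_, ?_⟩
  · intro P hP
    unfold Pool.Agent.R463.CG.G at hP
    rw [mem_filter, mem_Ioc] at hP
    obtain ⟨⟨hP1, hP2⟩, hp, -, hne, hlen, hdiv, -⟩ := hP
    have hcast : (1 * (P : ℤ) + -2) = ((P - 2 : ℕ) : ℤ) := by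
      rw [Nat.cast_sub hp.two_le]
      push_cast
      ring
    rw [hcast] at hlen hdiv
    rw [Int.natAbs_natCast] at hlen
    refine ⟨hp, by omega, hP2, hlen, fun l hl hld => ?_⟩
    exact (hdiv l hl (by exact_mod_cast hld)).1
  · refine le_trans ?_ h1
    have h2 := hV X (by omega)
    have hlog : 0 < Real.log X := Real.log_pos (by linarith)
    have h3 : (1 / 2 : ℝ) * X ≤ (X : ℝ) - ((X / 2 : ℕ) : ℝ) := by linarith
    have h4 : c * (1 / 2 * X) ≤ c * ((X : ℝ) - ((X / 2 : ℕ) : ℝ)) := mul_le_mul_of_nonneg_left h3 hc.le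
    calc c * (1 / 2) * c1 * X / Real.log X ^ 2 = c * (1 / 2 * X) * (c1 / Real.log X ^ 2) := by
          field_simp
      _ ≤ c * ((X : ℝ) - ((X / 2 : ℕ) : ℝ)) * (c1 / Real.log X ^ 2) :=
          mul_le_mul_of_nonneg_right h4 (by positivity)
      _ ≤ _ := mul_le_mul_of_nonneg_left h2 (by
          refine mul_nonneg hc.le ?_
          linarith)

end Pool.Agent.R496.FP
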