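import Pool.Agent.R496.FP.Defs

/-!
# Project FP, piece CR: Chinese remainder theorem for the number of solutions
-/

set_option autoImplicit false
open Finset

namespace Pool.Agent.R496.FP

theorem cr : CR := by
  intro m n _ _ _ P hmn
  classical
  let e := ZMod.chineseRemainder hmn
  unfold Ns
  rw [← Finset.card_product]
  refine Finset.card_bij' (fun s _ => (fun i => (e (s i)).1, fun i => (e (s i)).2))
    (fun q _ => fun i => e.symm (q.1 i, q.2 i)) ?_ ?_ ?_ ?_
  · intro s hs
    rw [Finset.mem_filter] at hs
    have h := congrArg e hs.2
    simp only [map_add, map_mul, map_pow, map_natCast, map_ofNat] at h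
    have h1 := congrArg Prod.fst h
    have h2 := congrArg Prod.snd h
    simp only [Finset.mem_product, Finset.mem_filter, Finset.mem_univ, true_and]
    exact ⟨by simpa using h1, by simpa using h2⟩
  · intro q hq
    simp only [Finset.mem_product, Finset.mem_filter, Finset.mem_univ, true_and] at hq
    simp only [Finset.mem_filter, Finset.mem_univ, true_and]
    apply e.injective
    simp only [map_add, map_mul, map_pow, map_natCast, map_ofNat, RingEquiv.apply_symm_apply]
    refine Prod.ext ?_ ?_
    · simpa using hq.1
    · simpa using hq.2
  · intro s _
    funext i
    simp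
  · intro q _
    refine Prod.ext ?_ ?_
    · funext i; simp
    · funext i; simp

end Pool.Agent.R496.FP
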