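import Pool.Agent.R496.FP.Defs

/-!
# Project FP, piece EX: extraction of the coefficients
-/

set_option autoImplicit false
open Finset Complex MeasureTheory intervalIntegral

namespace Pool.Agent.R496.FP

open Pool.Agent.W65.FS

namespace EXaux

lemma mem_rp (m : ℕ) (X : Fin 4 → ℤ) : X ∈ rp m ↔ qf X = m := by
  unfold rp
  rw [Finset.mem_filter, Fintype.mem_piFinset]
  refine ⟨fun h => h.2, fun h => ⟨fun i => ?_, h⟩⟩
  have h1 : X i ^ 2 ≤ m := by
    rw [← h]
    unfold qf
    fin_cases i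
    · show X 0 ^ 2 ≤ _
      nlinarith [sq_nonneg (X 0), sq_nonneg (X 1), sq_nonneg (X 2), sq_nonneg (X 3)]
    · show X 1 ^ 2 ≤ _
      nlinarith [sq_nonneg (X 0), sq_nonneg (X 1), sq_nonneg (X 2), sq_nonneg (X 3)]
    · show X 2 ^ 2 ≤ _
      nlinarith [sq_nonneg (X 0), sq_nonneg (X 1), sq_nonneg (X 2), sq_nonneg (X 3)]
    · show X 3 ^ 2 ≤ _
      nlinarith [sq_nonneg (X 0), sq_nonneg (X 1), sq_nonneg (X 2), sq_nonneg (X 3)]
  rw [Finset.mem_Icc]
  constructor
  · by_contra hlt
    push Not at hlt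
    nlinarith
  · by_contra hlt
    push Not at hlt
    nlinarith

/-- index type -/
abbrev QQ := (ℤ × ℤ) × (ℤ × ℤ)

/-- the value of the form at the point with index `t` -/
def qv (t : QQ) : ℤ :=
  t.1.1 ^ 2 + 3 * t.1.2 ^ 2 + (5 * t.2.1 ^ 2 + 7 * t.2.2 ^ 2)

/-- the term of the product -/
noncomputable def tr (y α : ℝ) (t : QQ) : ℂ :=
  tht y 1 0 α t.1.1 * tht (3 * y) 1 0 (3 * α) t.1.2 *
    (tht (5 * y) 1 0 (5 * α) t.2.1 * tht (7 * y) 1 0 (7 * α) t.2.2)

lemma tr_eq (y α : ℝ) (t : QQ) :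
    tr y α t = cexp (2 * Real.pi * I * (qv t : ℤ) * ((α : ℂ) + y * I)) := by
  unfold tr tht qv
  rw [← Complex.exp_add, ← Complex.exp_add, ← Complex.exp_add]
  congr 1
  push_cast
  ring

lemma norm_tr (y α : ℝ) (t : QQ) :
    ‖tr y α t‖ = Real.exp (-2 * Real.pi * y * (qv t : ℝ)) := by
  unfold tr qv
  rw [norm_mul, norm_mul, norm_mul, norm_tht, norm_tht, norm_tht, norm_tht, ← Real.exp_add, ← Real.exp_add, ← Real.exp_add]
  congr 1
  push_cast
  ring

lemma summable_tr (y : ℝ) (hy : 0 < y) :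
    Summable (fun t : QQ => Real.exp (-2 * Real.pi * y * (qv t : ℝ))) := by
  have h01 := (summable_norm_tht y hy 1 one_pos 0 0).mul_norm
    (summable_norm_tht (3 * y) (by linarith) 1 one_pos 0 (3 * 0))
  have h23 := (summable_norm_tht (5 * y) (by linarith) 1 one_pos 0 (5 * 0)).mul_norm
    (summable_norm_tht (7 * y) (by linarith) 1 one_pos 0 (7 * 0))
  have h := h01.mul_norm h23
  refine h.congr fun t => ?_
  rw [← norm_tr y 0 t]
  rfl

lemma Fth_eq (y : ℝ) (hy : 0 < y) (α : ℝ) :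
    Fth y α = ∑' t : QQ, tr y α t := by
  unfold Fth theta
  have h0 := summable_norm_tht y hy 1 one_pos 0 α
  have h1 := summable_norm_tht (3 * y) (by linarith) 1 one_pos 0 (3 * α)
  have h2 := summable_norm_tht (5 * y) (by linarith) 1 one_pos 0 (5 * α)
  have h3 := summable_norm_tht (7 * y) (by linarith) 1 one_pos 0 (7 * α)
  rw [tsum_mul_tsum_of_summable_norm h0 h1, tsum_mul_tsum_of_summable_norm h2 h3,
    tsum_mul_tsum_of_summable_norm (h0.mul_norm h1) (h2.mul_norm h3)]
  rfl

lemma tr_continuous (y : ℝ) (t : QQ) : Continuous (fun α => tr y α t) := by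
  unfold tr tht
  fun_prop

lemma int_exp (k : ℤ) : ∫ α in (0:ℝ)..1, cexp (2 * Real.pi * I * k * α) = if k = 0 then 1 else 0 := by
  by_cases hk : k = 0
  · simp [hk]
  · rw [if_neg hk]
    have hne : (2 * Real.pi * I * k : ℂ) ≠ 0 := by
      have hk' : (k : ℂ) ≠ 0 := by exact_mod_cast hk
      have hpi : (Real.pi : ℂ) ≠ 0 := by exact_mod_cast Real.pi_ne_zero
      simp [hk', hpi]
    rw [integral_exp_mul_complex hne]
    have : (2 * Real.pi * I * k * ((1 : ℝ) : ℂ) : ℂ) = (k : ℤ) * (2 * Real.pi * I) := by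
      push_cast; ring
    rw [this, Complex.exp_int_mul_two_pi_mul_I]
    simp

end EXaux

open EXaux

theorem ex : EX := by
  classical
  intro y hy n
  have h1 : ∀ α : ℝ, Fth y α * ee (-(n * α)) = ∑' t : QQ, (tr y α t * ee (-(n * α))) := by
    intro α
    rw [Fth_eq y hy, tsum_mul_right]
  have hc : ∀ t : QQ, Continuous (fun α : ℝ => tr y α t * ee (-(n * α))) := by
    intro t
    have := tr_continuous y t
    unfold ee
    fun_prop
  let f : QQ → C(ℝ, ℂ) := fun t => ⟨fun α => tr y α t * ee (-(n * α)), hc t⟩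
  have hn : ∀ (t : QQ) (α : ℝ), ‖tr y α t * ee (-(n * α))‖ =
      Real.exp (-2 * Real.pi * y * (qv t : ℝ)) := by
    intro t α
    rw [norm_mul, norm_tr, ee]
    have : 2 * Real.pi * I * ((-(n * α) : ℝ) : ℂ) = ((-(2 * Real.pi * n * α) : ℝ) : ℂ) * I := by
      push_cast; ring
    rw [this, Complex.norm_exp_ofReal_mul_I, mul_one]
  have hf : Summable fun t => ‖(f t).restrict (⟨Set.uIcc (0:ℝ) 1, isCompact_uIcc⟩ : TopologicalSpace.Compacts ℝ)‖ := by
    refine Summable.of_nonneg_of_le (fun t => norm_nonneg _) (fun t => ?_) (summable_tr y hy)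
    rw [ContinuousMap.norm_le _ (Real.exp_nonneg _)]
    intro x
    exact (hn t x).le
  have h2 := intervalIntegral.hasSum_intervalIntegral_of_summable_norm (a := 0) (b := 1) hf
  have h3 : ∫ α in (0:ℝ)..1, Fth y α * ee (-(n * α)) = ∑' t : QQ, ∫ α in (0:ℝ)..1, (f t) α := by
    rw [h2.tsum_eq]
    apply intervalIntegral.integral_congr
    intro α _
    exact h1 α
  have h4 : ∀ t : QQ, ∫ α in (0:ℝ)..1, (f t) α =
      if qv t = n then (Real.exp (-(2 * Real.pi * y * n)) : ℂ) else 0 := by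
    intro t
    have h5 : ∀ α : ℝ, (f t) α = cexp (-2 * Real.pi * y * (qv t : ℤ)) *
        cexp (2 * Real.pi * I * ((qv t - n : ℤ) : ℂ) * α) := by
      intro α
      show tr y α t * ee (-(n * α)) = _
      rw [tr_eq, ee, ← Complex.exp_add, ← Complex.exp_add]
      congr 1
      push_cast
      ring_nf
      rw [I_sq]
      ring
    simp_rw [h5]
    rw [intervalIntegral.integral_const_mul, int_exp]
    by_cases h6 : qv t = n
    · rw [if_pos h6, if_pos (by omega), h6]
      push_cast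
      rw [mul_one]
      congr 1
      ring
    · rw [if_neg h6, if_neg (by omega), mul_zero]
  rw [h3]
  simp_rw [h4]
  -- now count
  set S : Finset QQ := (rp n).image (fun X => ((X 0, X 1), (X 2, X 3))) with hS
  have hmemS : ∀ t : QQ, t ∈ S ↔ qv t = n := by
    intro t
    rw [hS, Finset.mem_image]
    constructor
    · rintro ⟨X, hX, rfl⟩
      rw [mem_rp] at hX
      unfold qv
      rw [← hX]
      unfold qf
      ring
    · intro h
      refine ⟨![t.1.1, t.1.2, t.2.1, t.2.2], ?_, ?_⟩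
      · rw [mem_rp, ← h]
        unfold qf qv
        simp only [Matrix.cons_val_zero, Matrix.cons_val_one, Matrix.cons_val]
        ring
      · simp only [Matrix.cons_val_zero, Matrix.cons_val_one, Matrix.cons_val]
  have hcard : S.card = (rp n).card := by
    rw [hS]
    apply Finset.card_image_of_injOn
    intro X hX Y hY hXY
    simp only [Prod.mk.injEq] at hXY
    obtain ⟨⟨e0, e1⟩, ⟨e2, e3⟩⟩ := hXY
    funext i
    fin_cases i
    · exact e0
    · exact e1
    · exact e2
    · exact e3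
  rw [tsum_eq_sum (s := S)]
  · rw [Finset.sum_congr rfl (fun t ht => if_pos ((hmemS t).1 ht))]
    rw [Finset.sum_const, hcard, nsmul_eq_mul]
  · intro t ht
    rw [if_neg]
    rwa [hmemS] at ht

end Pool.Agent.R496.FP
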