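import Pool.Agent.R496.FP.Defs

/-!
FP-FA (MP_0ad054_nt): continuity, period, symmetry of the generating function.
-/

set_option autoImplicit false
open Finset Complex MeasureTheory

namespace Pool.Agent.R496.FP

open Pool.Agent.W65.FS

namespace FAux

theorem theta_cont (y : ℝ) (hy : 0 < y) : Continuous (theta y 1 0) := by
  have hs : Summable (fun t : ℤ => Real.exp (-2 * Real.pi * y * ((0 + (1 : ℕ) * t : ℤ) : ℝ) ^ 2)) := by
    refine (summable_norm_tht y hy 1 one_pos 0 0).congr fun t => ?_
    rw [norm_tht]
  refine continuous_tsum (fun t => ?_) hs fun t α => le_of_eq (norm_tht y 1 0 α t)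
  unfold tht
  fun_prop

theorem theta_add (y α : ℝ) (k : ℤ) : theta y 1 0 (α + k) = theta y 1 0 α := by
  unfold theta
  refine tsum_congr fun t => ?_
  unfold tht
  rw [Complex.exp_eq_exp_iff_exists_int]
  refine ⟨(0 + (1 : ℕ) * t) ^ 2 * k, ?_⟩
  push_cast
  ring

theorem theta_neg (y α : ℝ) : theta y 1 0 (-α) = (starRingEnd ℂ) (theta y 1 0 α) := by
  unfold theta
  rw [Complex.conj_tsum]
  refine tsum_congr fun t => ?_
  unfold tht
  rw [← Complex.exp_conj]
  congr 1
  simp only [map_mul, map_add, map_pow, Complex.conj_ofReal, Complex.conj_I, map_ofNat,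
    map_intCast]
  push_cast
  ring

end FAux

open FAux in
theorem fa : FA := by
  intro y hy
  refine ⟨?_, fun x => ?_, fun x => ?_⟩
  · unfold Fth
    have h1 := theta_cont y hy
    have h3 := theta_cont (3 * y) (by positivity)
    have h5 := theta_cont (5 * y) (by positivity)
    have h7 := theta_cont (7 * y) (by positivity)
    exact (h1.mul (h3.comp (by fun_prop))).mul ((h5.comp (by fun_prop)).mul (h7.comp (by fun_prop)))
  · unfold Fth
    have e1 := theta_add y x 1
    have e3 := theta_add (3 * y) (3 * x) 3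
    have e5 := theta_add (5 * y) (5 * x) 5
    have e7 := theta_add (7 * y) (7 * x) 7
    push_cast at e1 e3 e5 e7
    rw [show 3 * (x + 1) = 3 * x + 3 by ring, show 5 * (x + 1) = 5 * x + 5 by ring,
      show 7 * (x + 1) = 7 * x + 7 by ring, e1, e3, e5, e7]
  · unfold Fth
    rw [show 3 * -x = -(3 * x) by ring, show 5 * -x = -(5 * x) by ring,
      show 7 * -x = -(7 * x) by ring, theta_neg, theta_neg, theta_neg, theta_neg, map_mul, map_mul,
      map_mul]

end Pool.Agent.R496.FP
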