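import Pool.Agent.R496.FP.Defs

/-!
# Project FP: the generating function near rational points
-/

set_option autoImplicit false
open Finset Complex MeasureTheory

namespace Pool.Agent.R496.FP

open Pool.Agent.W65.FS

namespace FBaux

/-- the constant of the tails -/
noncomputable def S0 : ℝ := ∑' k : ℤ, Real.exp (-2 * Real.pi * (1 / 300) * (k : ℝ) ^ 2)

lemma summable_S0 : Summable (fun k : ℤ => Real.exp (-2 * Real.pi * (1 / 300) * (k : ℝ) ^ 2)) :=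
  summable_gauss (1 / 300) (by norm_num)

lemma S0_nonneg : 0 ≤ S0 := tsum_nonneg fun _ => (Real.exp_pos _).le

lemma re_inv_w (c : ℕ) (hc : 0 < c) (y β : ℝ) (hy : 0 < y) (j : ℝ) (hj : 0 < j) :
    ((((j : ℝ) : ℂ) * (2 * (c : ℂ) ^ 2 * ((y : ℂ) - β * I)))⁻¹).re =
      y / ((c : ℝ) ^ 2 * (y ^ 2 + β ^ 2)) / (2 * j) := by
  have hc' : (0 : ℝ) < c := by exact_mod_cast hc
  have hyb : 0 < y ^ 2 + β ^ 2 := by positivity
  have h1 : (((j : ℝ) : ℂ) * (2 * (c : ℂ) ^ 2 * ((y : ℂ) - β * I))) =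
      ((j * 2 * (c : ℝ) ^ 2 * y : ℝ) : ℂ) + ((-(j * 2 * (c : ℝ) ^ 2 * β) : ℝ) : ℂ) * I := by
    push_cast
    ring
  rw [h1, Complex.inv_re, Complex.normSq_add_mul_I, Complex.add_re, Complex.ofReal_re,
    Complex.re_ofReal_mul, Complex.I_re]
  field_simp
  ring

lemma sqrt_factor (A : ℂ) (hA : A ≠ 0) (j : ℝ) (hj : 0 < j) :
    (((j : ℝ) : ℂ) * A) ^ (1 / 2 : ℂ) = ((Real.sqrt j : ℝ) : ℂ) * A ^ (1 / 2 : ℂ) := by
  have hj0 : ((j : ℝ) : ℂ) ≠ 0 := by exact_mod_cast hj.ne'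
  rw [Complex.cpow_def_of_ne_zero (mul_ne_zero hj0 hA), Complex.cpow_def_of_ne_zero hA,
    Complex.log_ofReal_mul hj hA, add_mul, Complex.exp_add]
  congr 1
  rw [Real.sqrt_eq_rpow, Real.rpow_def_of_pos hj, Complex.ofReal_exp]
  congr 1
  push_cast
  ring

lemma g0_eq (c : ℕ) [NeZero c] (b : ZMod c) : gs c 1 b 0 0 = g0 c b := by
  unfold gs g0
  apply Finset.sum_congr rfl
  intro s _
  congr 1
  push_cast
  ring

lemma exponent (ρ : ℝ) (hρ : 1 / 5 ≤ ρ) (j : ℝ) (hj : 0 < j) (hj7 : j ≤ 7) (k : ℤ) (hk : k ≠ 0) :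
    -Real.pi * (k : ℝ) ^ 2 * (ρ / (2 * j)) ≤ -ρ / 10 + (-2 * Real.pi * (1 / 300) * (k : ℝ) ^ 2) := by
  have hk1 : (1 : ℝ) ≤ (k : ℝ) ^ 2 := by
    have : (1 : ℤ) ≤ k ^ 2 := by
      have := sq_nonneg k
      have h2 : k ^ 2 ≠ 0 := pow_ne_zero 2 hk
      omega
    exact_mod_cast this
  have hπ := Real.pi_gt_three
  have hπ2 := Real.pi_lt_d2
  have h1 : ρ / 14 ≤ ρ / (2 * j) := by
    apply div_le_div_of_nonneg_left (by linarith) (by linarith) (by linarith)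
  have h2 : Real.pi * (k : ℝ) ^ 2 * (ρ / 14) ≤ Real.pi * (k : ℝ) ^ 2 * (ρ / (2 * j)) := by
    apply mul_le_mul_of_nonneg_left h1
    positivity
  have h3 : ρ / 10 * 1 ≤ ρ / 10 * (k : ℝ) ^ 2 := by
    apply mul_le_mul_of_nonneg_left hk1
    linarith
  have h4 : 0 ≤ (k : ℝ) ^ 2 * (Real.pi * (ρ / 14) - ρ / 10 - 2 * Real.pi * (1 / 300)) := by
    apply mul_nonneg (by positivity)
    have h5 : Real.pi / 14 - 1 / 10 ≥ 0 := by linarith
    have h6 : (1 / 5) * (Real.pi / 14 - 1 / 10) ≤ ρ * (Real.pi / 14 - 1 / 10) :=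
      mul_le_mul_of_nonneg_right hρ h5
    have h7 : ρ * (Real.pi / 14 - 1 / 10) = Real.pi * (ρ / 14) - ρ / 10 := by ring
    have h8 := Real.pi_gt_d2
    linarith
  nlinarith

lemma theta_j (hGB : GB) (y : ℝ) (hy : 0 < y) (c : ℕ) [NeZero c] (a : ℤ)
    (hac : IsCoprime a (c : ℤ)) (β : ℝ) (hβ : (c : ℝ) ^ 2 * (y ^ 2 + β ^ 2) ≤ 5 * y)
    (j : ℕ) (h1 : 1 ≤ j) (h7 : j ≤ 7) :
    ∃ T : ℂ, theta (j * y) 1 0 (j * ((a : ℝ) / c + β)) =
        1 / ((Real.sqrt j : ℂ) * (2 * (c : ℂ) ^ 2 * ((y : ℂ) - β * I)) ^ (1 / 2 : ℂ)) * T ∧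
      ‖T - g0 c ((j : ZMod c) * (a : ZMod c))‖ ≤
        Real.sqrt (14 * c) * (S0 * Real.exp (-(y / ((c : ℝ) ^ 2 * (y ^ 2 + β ^ 2))) / 10)) ∧
      ‖g0 c ((j : ZMod c) * (a : ZMod c))‖ ≤ Real.sqrt (14 * c) := by
  have hc : 0 < c := Nat.pos_of_ne_zero (NeZero.ne c)
  have hc' : (0 : ℝ) < c := by exact_mod_cast hc
  have hc0 : (c : ℂ) ≠ 0 := by exact_mod_cast hc.ne'
  have hj : (0 : ℝ) < j := by exact_mod_cast h1
  have hj7 : (j : ℝ) ≤ 7 := by exact_mod_cast h7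
  have hyb : 0 < y ^ 2 + β ^ 2 := by positivity
  set ρ : ℝ := y / ((c : ℝ) ^ 2 * (y ^ 2 + β ^ 2)) with hρ
  have hρ5 : 1 / 5 ≤ ρ := by
    rw [hρ, le_div_iff₀ (by positivity)]
    linarith
  set w : ℂ := (y : ℂ) - β * I with hw
  have hwre : w.re = y := by simp [hw]
  have hw0 : w ≠ 0 := by
    intro h
    rw [h] at hwre
    simp at hwre
    exact hy.ne hwre
  set A : ℂ := 2 * (c : ℂ) ^ 2 * w with hA
  have hA0 : A ≠ 0 := mul_ne_zero (mul_ne_zero two_ne_zero (pow_ne_zero 2 hc0)) hw0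
  have hAj : -2 * I * ((c * 1 : ℕ) : ℂ) ^ 2 * (((j * β : ℝ) : ℂ) + ((j * y : ℝ) : ℂ) * I) =
      ((j : ℝ) : ℂ) * A := by
    rw [hA, hw]
    push_cast
    ring_nf
    rw [I_sq]
    ring
  have hgs : ∀ k : ZMod c, ‖gs c 1 ((j : ZMod c) * (a : ZMod c)) 0 k‖ ≤ Real.sqrt (14 * c) := by
    intro k
    apply Real.le_sqrt_of_sq_le
    exact hGB c a hac j h1 h7 k
  set f : ℤ → ℂ := fun k => gs c 1 ((j : ZMod c) * (a : ZMod c)) 0 (k : ZMod c) *
    cexp (-Real.pi * k ^ 2 / (((j : ℝ) : ℂ) * A)) with hf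
  have hAre : 0 < (((j : ℝ) : ℂ) * A).re := by
    have : ((j : ℝ) : ℂ) * A = ((j * 2 * (c : ℝ) ^ 2 * y : ℝ) : ℂ) +
        ((-(j * 2 * (c : ℝ) ^ 2 * β) : ℝ) : ℂ) * I := by
      rw [hA, hw]
      push_cast
      ring
    rw [this, Complex.add_re, Complex.ofReal_re, Complex.re_ofReal_mul, Complex.I_re]
    have : 0 < (j : ℝ) * 2 * (c : ℝ) ^ 2 * y := by positivity
    linarith
  have hfn : Summable (fun k : ℤ => ‖f k‖) := by
    refine Summable.of_nonneg_of_le (fun _ => norm_nonneg _) (fun k => ?_)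
      ((summable_dual (((j : ℝ) : ℂ) * A) hAre).mul_left (Real.sqrt (14 * c)))
    rw [hf]
    simp only
    rw [norm_mul]
    exact mul_le_mul_of_nonneg_right (hgs _) (norm_nonneg _)
  have hth : theta (j * y) 1 0 (j * ((a : ℝ) / c + β)) =
      1 / ((Real.sqrt j : ℂ) * A ^ (1 / 2 : ℂ)) * ∑' k : ℤ, f k := by
    have h2 := theta_rational (j * y) (by positivity) 1 one_pos 0 c (j * a) (j * β)
    have h3 : (((j * a : ℤ) : ℝ) / c + j * β : ℝ) = j * ((a : ℝ) / c + β) := by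
      push_cast
      ring
    rw [h3] at h2
    rw [h2, hAj, sqrt_factor A hA0 j hj]
    congr 1
    apply tsum_congr
    intro k
    rw [hf]
    simp only
    congr 1
    have h4 : cexp (2 * Real.pi * I * (k * ((0 : ℤ) : ℂ) / ((c * 1 : ℕ) : ℂ))) = 1 := by
      rw [Int.cast_zero, mul_zero, zero_div, mul_zero, Complex.exp_zero]
    rw [h4, one_mul]
    push_cast
    rfl
  have hf0 : f 0 = g0 c ((j : ZMod c) * (a : ZMod c)) := by
    rw [hf]
    simp only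
    rw [Int.cast_zero, Int.cast_zero, g0_eq]
    simp
  refine ⟨∑' k : ℤ, f k, hth, ?_, ?_⟩
  · rw [← hf0, hfn.of_norm.tsum_eq_add_tsum_ite 0, add_sub_cancel_left]
    have hs : HasSum (fun k : ℤ => Real.sqrt (14 * c) *
        (Real.exp (-2 * Real.pi * (1 / 300) * (k : ℝ) ^ 2) * Real.exp (-ρ / 10)))
        (Real.sqrt (14 * c) * (S0 * Real.exp (-ρ / 10))) :=
      (summable_S0.hasSum.mul_right _).mul_left _
    refine tsum_of_norm_bounded hs fun k => ?_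
    by_cases hk : k = 0
    · rw [if_pos hk, norm_zero]
      positivity
    · rw [if_neg hk, hf]
      simp only
      rw [norm_mul]
      refine mul_le_mul (hgs _) ?_ (norm_nonneg _) (Real.sqrt_nonneg _)
      rw [norm_dual, ← Real.exp_add]
      apply Real.exp_le_exp.mpr
      have h5 : ((((j : ℝ) : ℂ) * A)⁻¹).re = ρ / (2 * j) := by
        rw [hA, hw, hρ]
        exact re_inv_w c hc y β hy j hj
      rw [h5, add_comm]
      exact exponent ρ hρ5 j hj hj7 k hk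
  · have := hgs 0
    rwa [g0_eq] at this

end FBaux

open FBaux

theorem fb (hGB : GB) : FB := by
  have hS := S0_nonneg
  refine ⟨7840 * (1 + S0) ^ 4, by positivity, ?_⟩
  intro y hy hy1 c _ a hac β hβ
  have hc : 0 < c := Nat.pos_of_ne_zero (NeZero.ne c)
  have hc' : (0 : ℝ) < c := by exact_mod_cast hc
  have hc0 : (c : ℂ) ≠ 0 := by exact_mod_cast hc.ne'
  have hyb : 0 < y ^ 2 + β ^ 2 := by positivity
  obtain ⟨T1, e1, d1, b1⟩ := theta_j hGB y hy c a hac β hβ 1 (by norm_num) (by norm_num)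
  obtain ⟨T3, e3, d3, b3⟩ := theta_j hGB y hy c a hac β hβ 3 (by norm_num) (by norm_num)
  obtain ⟨T5, e5, d5, b5⟩ := theta_j hGB y hy c a hac β hβ 5 (by norm_num) (by norm_num)
  obtain ⟨T7, e7, d7, b7⟩ := theta_j hGB y hy c a hac β hβ 7 (by norm_num) (by norm_num)
  set ρ : ℝ := y / ((c : ℝ) ^ 2 * (y ^ 2 + β ^ 2)) with hρ
  have hρ0 : 0 < ρ := by positivity
  set w : ℂ := (y : ℂ) - β * I with hw
  have hwre : w.re = y := by simp [hw]
  have hw0 : w ≠ 0 := by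
    intro h
    rw [h] at hwre
    simp at hwre
    exact hy.ne hwre
  set A : ℂ := 2 * (c : ℂ) ^ 2 * w with hA
  have hA0 : A ≠ 0 := mul_ne_zero (mul_ne_zero two_ne_zero (pow_ne_zero 2 hc0)) hw0
  set G : ℝ := Real.sqrt (14 * c) with hG
  have hG0 : 0 ≤ G := Real.sqrt_nonneg _
  have hG2 : G ^ 2 = 14 * c := Real.sq_sqrt (by positivity)
  have hG4 : G ^ 4 = 196 * (c : ℝ) ^ 2 := by
    calc G ^ 4 = (G ^ 2) ^ 2 := by ring
      _ = _ := by rw [hG2]; ring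
  set e : ℝ := Real.exp (-ρ / 10) with he
  have he0 : 0 < e := Real.exp_pos _
  have he1 : e ≤ 1 := Real.exp_le_one_iff.mpr (by linarith)
  have hρe : ρ * e ≤ 10 := by
    have h1 := Real.add_one_le_exp (ρ / 10)
    have h2 : Real.exp (ρ / 10) * e = 1 := by
      rw [he, ← Real.exp_add]
      rw [show ρ / 10 + -ρ / 10 = 0 by ring, Real.exp_zero]
    have h3 : ρ / 10 * e ≤ Real.exp (ρ / 10) * e :=
      mul_le_mul_of_nonneg_right (by linarith) he0.le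
    linarith
  -- the product of the square roots
  have hpow : (A ^ (1 / 2 : ℂ)) ^ 2 = A := by
    have := Complex.cpow_nat_inv_pow A (n := 2) (by norm_num)
    rw [one_div]
    exact_mod_cast this
  have hAh : A ^ (1 / 2 : ℂ) ≠ 0 := by
    intro h
    rw [h] at hpow
    apply hA0
    rw [← hpow]
    norm_num
  set s105 : ℝ := Real.sqrt 105 with hs105
  have hs1 : 1 ≤ s105 := by
    rw [hs105, Real.one_le_sqrt]
    norm_num
  have hprod : ((Real.sqrt (1 : ℕ) : ℝ) : ℂ) * ((Real.sqrt (3 : ℕ) : ℝ) : ℂ) *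
      (((Real.sqrt (5 : ℕ) : ℝ) : ℂ) * ((Real.sqrt (7 : ℕ) : ℝ) : ℂ)) = (s105 : ℂ) := by
    rw [← Complex.ofReal_mul, ← Complex.ofReal_mul, ← Complex.ofReal_mul]
    congr 1
    rw [← Real.sqrt_mul (by positivity), ← Real.sqrt_mul (by positivity),
      ← Real.sqrt_mul (by positivity), hs105]
    norm_num
  have hq1 : ((Real.sqrt (1 : ℕ) : ℝ) : ℂ) ≠ 0 := by
    simp
  have hq3 : ((Real.sqrt (3 : ℕ) : ℝ) : ℂ) ≠ 0 := by
    simp
  have hq5 : ((Real.sqrt (5 : ℕ) : ℝ) : ℂ) ≠ 0 := by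
    simp
  have hq7 : ((Real.sqrt (7 : ℕ) : ℝ) : ℂ) ≠ 0 := by
    simp
  have hs0 : (s105 : ℂ) ≠ 0 := by
    have : s105 ≠ 0 := by linarith
    exact_mod_cast this
  have hF : Fth y ((a : ℝ) / c + β) =
      ((c : ℂ) ^ 4)⁻¹ * (T1 * T3 * (T5 * T7)) / (4 * (s105 : ℂ) * w ^ 2) := by
    unfold Fth
    have e1' : theta y 1 0 ((a : ℝ) / c + β) =
        1 / (((Real.sqrt (1 : ℕ) : ℝ) : ℂ) * A ^ (1 / 2 : ℂ)) * T1 := by
      rw [← e1]
      norm_num
    have e3' : theta (3 * y) 1 0 (3 * ((a : ℝ) / c + β)) =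
        1 / (((Real.sqrt (3 : ℕ) : ℝ) : ℂ) * A ^ (1 / 2 : ℂ)) * T3 := by
      rw [← e3]
      norm_num
    have e5' : theta (5 * y) 1 0 (5 * ((a : ℝ) / c + β)) =
        1 / (((Real.sqrt (5 : ℕ) : ℝ) : ℂ) * A ^ (1 / 2 : ℂ)) * T5 := by
      rw [← e5]
      norm_num
    have e7' : theta (7 * y) 1 0 (7 * ((a : ℝ) / c + β)) =
        1 / (((Real.sqrt (7 : ℕ) : ℝ) : ℂ) * A ^ (1 / 2 : ℂ)) * T7 := by
      rw [← e7]
      norm_num
    rw [e1', e3', e5', e7', ← hprod]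
    have hw2 : w ^ 2 = A ^ 2 / (4 * (c : ℂ) ^ 4) := by
      rw [hA]
      field_simp
      ring
    rw [hw2]
    conv_rhs => rw [← hpow]
    field_simp
    try ring
  have hwn : ‖w‖ ^ 2 = y ^ 2 + β ^ 2 := by
    rw [← Complex.normSq_eq_norm_sq, Complex.normSq_apply]
    simp [hw]
    ring
  have hden : ‖((c : ℂ) ^ 4)⁻¹‖ = ((c : ℝ) ^ 4)⁻¹ := by
    rw [norm_inv, norm_pow, Complex.norm_natCast]
  have hden2 : ‖(4 * (s105 : ℂ) * w ^ 2)‖ = 4 * s105 * (y ^ 2 + β ^ 2) := by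
    rw [norm_mul, norm_mul, norm_pow, hwn, Complex.norm_real, Real.norm_of_nonneg (by linarith)]
    norm_num
  have hgen : ∀ (z : ℂ) (B : ℝ), 0 ≤ B → ‖z‖ ≤ B * G ^ 4 →
      ‖((c : ℂ) ^ 4)⁻¹ * z / (4 * (s105 : ℂ) * w ^ 2)‖ ≤
        196 * B / ((c : ℝ) ^ 2 * (y ^ 2 + β ^ 2)) := by
    intro z B hB hz
    rw [norm_div, norm_mul, hden, hden2]
    have h1 : ((c : ℝ) ^ 4)⁻¹ * ‖z‖ ≤ 196 * B / (c : ℝ) ^ 2 := by
      calc ((c : ℝ) ^ 4)⁻¹ * ‖z‖ ≤ ((c : ℝ) ^ 4)⁻¹ * (B * G ^ 4) :=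
            mul_le_mul_of_nonneg_left hz (by positivity)
        _ = 196 * B / (c : ℝ) ^ 2 := by
            rw [hG4]
            field_simp
    have h2 : y ^ 2 + β ^ 2 ≤ 4 * s105 * (y ^ 2 + β ^ 2) := by nlinarith
    calc ((c : ℝ) ^ 4)⁻¹ * ‖z‖ / (4 * s105 * (y ^ 2 + β ^ 2)) ≤
          (196 * B / (c : ℝ) ^ 2) / (y ^ 2 + β ^ 2) :=
          div_le_div₀ (by positivity) h1 hyb h2
      _ = _ := by rw [div_div]
  -- bounds for the sums
  have hT : ∀ (T g : ℂ), ‖T - g‖ ≤ G * (S0 * e) → ‖g‖ ≤ G → ‖T‖ ≤ G * (1 + S0) := by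
    intro T g h1 h2
    have h3 : ‖T‖ ≤ ‖T - g‖ + ‖g‖ := by
      calc ‖T‖ = ‖(T - g) + g‖ := by rw [sub_add_cancel]
        _ ≤ _ := norm_add_le _ _
    have h4 : G * (S0 * e) ≤ G * S0 := by
      apply mul_le_mul_of_nonneg_left _ hG0
      calc S0 * e ≤ S0 * 1 := mul_le_mul_of_nonneg_left he1 hS
        _ = S0 := mul_one _
    linarith
  have t1 := hT _ _ d1 b1
  have t3 := hT _ _ d3 b3
  have t5 := hT _ _ d5 b5
  have t7 := hT _ _ d7 b7
  have hGS : 0 ≤ G * (1 + S0) := by positivity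
  have hGK : G ≤ G * (1 + S0) := by nlinarith
  constructor
  · rw [hF]
    have hB : ‖T1 * T3 * (T5 * T7)‖ ≤ (1 + S0) ^ 4 * G ^ 4 := by
      rw [norm_mul, norm_mul, norm_mul]
      calc ‖T1‖ * ‖T3‖ * (‖T5‖ * ‖T7‖) ≤
            (G * (1 + S0)) * (G * (1 + S0)) * ((G * (1 + S0)) * (G * (1 + S0))) := by gcongr
        _ = _ := by ring
    refine (hgen _ _ (by positivity) hB).trans ?_
    apply div_le_div_of_nonneg_right _ (by positivity)
    have : 0 ≤ (1 + S0) ^ 4 := by positivity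
    linarith
  · rw [hF]
    have hG4' : G4 c (a : ZMod c) = g0 c (((1 : ℕ) : ZMod c) * (a : ZMod c)) *
        g0 c (((3 : ℕ) : ZMod c) * (a : ZMod c)) * (g0 c (((5 : ℕ) : ZMod c) * (a : ZMod c)) *
        g0 c (((7 : ℕ) : ZMod c) * (a : ZMod c))) := by
      unfold G4
      norm_num
    rw [hG4']
    set g1 := g0 c (((1 : ℕ) : ZMod c) * (a : ZMod c)) with hg1
    set g3 := g0 c (((3 : ℕ) : ZMod c) * (a : ZMod c)) with hg3
    set g5 := g0 c (((5 : ℕ) : ZMod c) * (a : ZMod c)) with hg5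
    set g7 := g0 c (((7 : ℕ) : ZMod c) * (a : ZMod c)) with hg7
    have hsub : ((c : ℂ) ^ 4)⁻¹ * (T1 * T3 * (T5 * T7)) / (4 * (s105 : ℂ) * w ^ 2) -
        ((c : ℂ) ^ 4)⁻¹ * (g1 * g3 * (g5 * g7)) / (4 * (s105 : ℂ) * w ^ 2) =
        ((c : ℂ) ^ 4)⁻¹ * (T1 * T3 * (T5 * T7) - g1 * g3 * (g5 * g7)) /
          (4 * (s105 : ℂ) * w ^ 2) := by ring
    rw [hsub]
    have hB : ‖T1 * T3 * (T5 * T7) - g1 * g3 * (g5 * g7)‖ ≤
        (4 * ((1 + S0) ^ 4 * e)) * G ^ 4 := by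
      have hid : T1 * T3 * (T5 * T7) - g1 * g3 * (g5 * g7) =
          (T1 - g1) * T3 * (T5 * T7) + g1 * (T3 - g3) * (T5 * T7) +
          (g1 * g3 * ((T5 - g5) * T7) + g1 * g3 * (g5 * (T7 - g7))) := by ring
      rw [hid]
      have hGe : G * (S0 * e) ≤ G * (1 + S0) * e := by nlinarith [mul_nonneg hG0 he0.le]
      have n1 : ‖(T1 - g1) * T3 * (T5 * T7)‖ ≤ (1 + S0) ^ 4 * e * G ^ 4 := by
        rw [norm_mul, norm_mul, norm_mul]
        calc ‖T1 - g1‖ * ‖T3‖ * (‖T5‖ * ‖T7‖) ≤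
              (G * (1 + S0) * e) * (G * (1 + S0)) * ((G * (1 + S0)) * (G * (1 + S0))) := by
              gcongr
              exact d1.trans hGe
          _ = _ := by ring
      have n2 : ‖g1 * (T3 - g3) * (T5 * T7)‖ ≤ (1 + S0) ^ 4 * e * G ^ 4 := by
        rw [norm_mul, norm_mul, norm_mul]
        calc ‖g1‖ * ‖T3 - g3‖ * (‖T5‖ * ‖T7‖) ≤
              (G * (1 + S0)) * (G * (1 + S0) * e) * ((G * (1 + S0)) * (G * (1 + S0))) := by
              gcongr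
              · exact b1.trans hGK
              · exact d3.trans hGe
          _ = _ := by ring
      have n3 : ‖g1 * g3 * ((T5 - g5) * T7)‖ ≤ (1 + S0) ^ 4 * e * G ^ 4 := by
        rw [norm_mul, norm_mul, norm_mul]
        calc ‖g1‖ * ‖g3‖ * (‖T5 - g5‖ * ‖T7‖) ≤
              (G * (1 + S0)) * (G * (1 + S0)) * ((G * (1 + S0) * e) * (G * (1 + S0))) := by
              gcongr
              · exact b1.trans hGK
              · exact b3.trans hGK
              · exact d5.trans hGe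
          _ = _ := by ring
      have n4 : ‖g1 * g3 * (g5 * (T7 - g7))‖ ≤ (1 + S0) ^ 4 * e * G ^ 4 := by
        rw [norm_mul, norm_mul, norm_mul]
        calc ‖g1‖ * ‖g3‖ * (‖g5‖ * ‖T7 - g7‖) ≤
              (G * (1 + S0)) * (G * (1 + S0)) * ((G * (1 + S0)) * (G * (1 + S0) * e)) := by
              gcongr
              · exact b1.trans hGK
              · exact b3.trans hGK
              · exact b5.trans hGK
              · exact d7.trans hGe
          _ = _ := by ring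
      refine (norm_add_le _ _).trans ?_
      have m1 := norm_add_le ((T1 - g1) * T3 * (T5 * T7)) (g1 * (T3 - g3) * (T5 * T7))
      have m2 := norm_add_le (g1 * g3 * ((T5 - g5) * T7)) (g1 * g3 * (g5 * (T7 - g7)))
      linarith
    refine (hgen _ _ (by positivity) hB).trans ?_
    have h1 : 196 * (4 * ((1 + S0) ^ 4 * e)) / ((c : ℝ) ^ 2 * (y ^ 2 + β ^ 2)) =
        784 * (1 + S0) ^ 4 * (ρ * e) / y := by
      rw [hρ]
      field_simp
      ring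
    rw [h1]
    apply div_le_div_of_nonneg_right _ hy.le
    have : 784 * (1 + S0) ^ 4 * (ρ * e) ≤ 784 * (1 + S0) ^ 4 * 10 :=
      mul_le_mul_of_nonneg_left hρe (by positivity)
    linarith

end Pool.Agent.R496.FP
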