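import Pool.Agent.R496.FP.Defs
import Pool.Agent.R496.FP.Defs2

/-!
# Project FP: the assembly
-/

set_option autoImplicit false
open Finset

namespace Pool.Agent.R496.FP

open Pool.Agent.W65.FS

/-- the statement that is proved -/
def FN : Prop := ∃ η : ℝ, 0 < η ∧ ∃ c : ℝ, 0 < c ∧ ∃ N0 : ℕ, ∀ N : ℕ, N0 ≤ N → ∃ A : Finset ℕ,
  c * N ≤ (A.card : ℝ) ∧ ∀ n ∈ A, 1 ≤ n ∧ n ≤ N ∧ Odd n ∧ ∃ R : Finset (Fin 4 → ℤ),
    c * N / Real.log N ^ 2 ≤ (R.card : ℝ) ∧ ∀ X ∈ R, ∃ p : ℕ,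
    (n : ℤ) = X 0 ^ 2 + X 1 ^ 2 + X 2 ^ 2 + X 3 ^ 2 ∧
    (p : ℤ) = X 0 ^ 2 + 3 * X 1 ^ 2 + 5 * X 2 ^ 2 + 7 * X 3 ^ 2 ∧
    7 < p ∧ p.Prime ∧ (p - 2).primeFactorsList.length ≤ 2 ∧
    ∀ l : ℕ, l.Prime → l ∣ p - 2 → (n : ℝ) ^ η < l

/-- the norm as a natural number -/
def nu (X : Fin 4 → ℤ) : ℕ := (∑ i, X i ^ 2).toNat

lemma nu_cast (X : Fin 4 → ℤ) : (nu X : ℤ) = ∑ i, X i ^ 2 :=
  Int.toNat_of_nonneg (Finset.sum_nonneg fun _ _ => sq_nonneg _)

lemma mem_rp (m : ℕ) (X : Fin 4 → ℤ) (h : X ∈ rp m) : qf X = m := by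
  unfold rp at h
  exact (Finset.mem_filter.1 h).2

/-- facts about a representation of a prime -/
lemma facts (P : ℕ) (hP : P.Prime) (hP7 : 7 < P) (X : Fin 4 → ℤ) (hX : qf X = P) :
    Odd (nu X) ∧ nu X ≤ P ∧ P ≤ 7 * nu X ∧ X ∈ preps (nu X) := by
  have hn := nu_cast X
  have h4 : ∑ i, X i ^ 2 = X 0 ^ 2 + X 1 ^ 2 + X 2 ^ 2 + X 3 ^ 2 := by rw [Fin.sum_univ_four]
  have hq : X 0 ^ 2 + 3 * X 1 ^ 2 + 5 * X 2 ^ 2 + 7 * X 3 ^ 2 = (P : ℤ) := hX
  have s0 := sq_nonneg (X 0)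
  have s1 := sq_nonneg (X 1)
  have s2 := sq_nonneg (X 2)
  have s3 := sq_nonneg (X 3)
  have hPo : Odd P := hP.odd_of_ne_two (by omega)
  refine ⟨?_, ?_, ?_, ?_⟩
  · have h5 : (nu X : ℤ) = P - 2 * (X 1 ^ 2 + 2 * X 2 ^ 2 + 3 * X 3 ^ 2) := by
      rw [hn, h4, ← hq]; ring
    have h6 : Odd (nu X : ℤ) := by
      rw [h5]
      have : Odd (P : ℤ) := by exact_mod_cast hPo
      exact this.sub_even (even_two_mul _)
    exact_mod_cast h6
  · have : (nu X : ℤ) ≤ P := by rw [hn, h4, ← hq]; linarith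
    exact_mod_cast this
  · have : (P : ℤ) ≤ 7 * nu X := by rw [hn, h4, ← hq]; linarith
    exact_mod_cast this
  · unfold preps
    rw [Finset.mem_filter, mem_reps]
    refine ⟨hn.symm, ?_⟩
    set g : ℕ := gc X with hg
    have hdvd : ∀ i, (g : ℤ) ∣ X i := by
      intro i
      have h1 : g ∣ (X i).natAbs := Finset.gcd_dvd (Finset.mem_univ i)
      exact Int.natCast_dvd.2 h1
    have hsq : ∀ i, ((g : ℤ) ^ 2) ∣ X i ^ 2 := fun i => pow_dvd_pow_of_dvd (hdvd i) 2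
    have h7 : ((g : ℤ) ^ 2) ∣ (P : ℤ) := by
      rw [← hq]
      exact dvd_add (dvd_add (dvd_add (hsq 0) ((hsq 1).mul_left _)) ((hsq 2).mul_left _))
        ((hsq 3).mul_left _)
    have h8 : g ^ 2 ∣ P := by exact_mod_cast h7
    have h9 : g * g ∣ P := by rw [← sq]; exact h8
    exact Nat.isUnit_iff.1 (hP.prime.squarefree g h9)

/-- the sieve condition -/
lemma rough (η η' : ℝ) (hη' : 0 < η') (h1 : η' ≤ η) (h2 : η' ≤ 1 / 2) (N P : ℕ) (hP : P.Prime)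
    (hP7 : 7 < P) (X : Fin 4 → ℤ) (hX : qf X = P) (hPN : P ≤ N)
    (hr : ∀ l : ℕ, l.Prime → l ∣ P - 2 → (N : ℝ) ^ η < l) (l : ℕ) (hl : l.Prime)
    (hln : (l : ℝ) ≤ (nu X : ℝ) ^ η') : ¬ (l : ℤ) ∣ ff X := by
  obtain ⟨hodd, hnP, hPn, -⟩ := facts P hP hP7 X hX
  have hN1 : (1 : ℝ) ≤ N := by exact_mod_cast (show 1 ≤ N by omega)
  have hn2 : 2 ≤ nu X := by omega
  intro hd
  have hpf : pf X = P := hX
  unfold ff at hd
  rw [hpf] at hd
  have hlp : Prime (l : ℤ) := Nat.prime_iff_prime_int.1 hl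
  rcases hlp.dvd_or_dvd hd with h | h
  · have h3 : l ∣ P := by exact_mod_cast h
    have h4 : l = P := (Nat.prime_dvd_prime_iff_eq hl hP).1 h3
    have h5 : (nu X : ℝ) ^ η' ≤ (nu X : ℝ) ^ (1 / 2 : ℝ) :=
      Real.rpow_le_rpow_of_exponent_le (by exact_mod_cast (show 1 ≤ nu X by omega)) h2
    have h6 : (nu X : ℝ) ^ (1 / 2 : ℝ) < nu X := by
      conv_rhs => rw [← Real.rpow_one (nu X : ℝ)]
      exact Real.rpow_lt_rpow_of_exponent_lt (by exact_mod_cast hn2) (by norm_num)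
    have h7 : (nu X : ℝ) ≤ P := by exact_mod_cast hnP
    rw [h4] at hln
    linarith
  · have h3 : ((P : ℤ) - 2) = ((P - 2 : ℕ) : ℤ) := by omega
    rw [h3] at h
    have h4 : l ∣ P - 2 := by exact_mod_cast h
    have h5 := hr l hl h4
    have h6 : (nu X : ℝ) ^ η' ≤ (N : ℝ) ^ η' :=
      Real.rpow_le_rpow (by positivity) (by exact_mod_cast hnP.trans hPN) hη'.le
    have h7 : (N : ℝ) ^ η' ≤ (N : ℝ) ^ η := Real.rpow_le_rpow_of_exponent_le hN1 h1
    linarith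

lemma nu_mem (N P : ℕ) (h : N < 2 * P) (X : Fin 4 → ℤ) (hPn : P ≤ 7 * nu X) : N < 14 * nu X := by
  omega

/-- the analytic inequality at the end -/
lemma final_ineq (A : Finset ℕ) (f r : ℕ → ℝ) (X c5 C3 C4 : ℝ) (hX : 0 < X) (hc5 : 0 < c5)
    (hC3 : 0 < C3) (hC4 : 0 < C4) (_hf : ∀ n, 0 ≤ f n)
    (h1 : c5 * X ^ 2 ≤ ∑ n ∈ A, f n * r n)
    (h2 : ∑ n ∈ A, r n ^ 2 ≤ C3 * X ^ 3) (h3 : ∑ n ∈ A, (f n ^ 2) ^ 2 ≤ C4 * X) :
    c5 ^ 4 / (C3 ^ 2 * C4) * X ≤ (A.card : ℝ) := by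
  have e1 : (∑ n ∈ A, f n * r n) ^ 2 ≤ (∑ n ∈ A, f n ^ 2) * ∑ n ∈ A, r n ^ 2 :=
    Finset.sum_mul_sq_le_sq_mul_sq A f r
  have e2 : (∑ n ∈ A, f n ^ 2 * 1) ^ 2 ≤ (∑ n ∈ A, (f n ^ 2) ^ 2) * ∑ n ∈ A, (1 : ℝ) ^ 2 :=
    Finset.sum_mul_sq_le_sq_mul_sq A (fun n => f n ^ 2) (fun _ => 1)
  simp only [mul_one, one_pow, Finset.sum_const, nsmul_eq_mul] at e2
  set F : ℝ := ∑ n ∈ A, f n ^ 2 with hF
  have hF0 : 0 ≤ F := Finset.sum_nonneg fun _ _ => sq_nonneg _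
  have hA0 : (0 : ℝ) ≤ A.card := by positivity
  have e3 : (c5 * X ^ 2) ^ 2 ≤ F * (C3 * X ^ 3) := by
    calc (c5 * X ^ 2) ^ 2 ≤ (∑ n ∈ A, f n * r n) ^ 2 := by gcongr
      _ ≤ F * ∑ n ∈ A, r n ^ 2 := e1
      _ ≤ F * (C3 * X ^ 3) := by gcongr
  have e4 : c5 ^ 2 * X ≤ F * C3 := by
    have : (c5 ^ 2 * X) * X ^ 3 ≤ (F * C3) * X ^ 3 := by nlinarith [e3]
    exact le_of_mul_le_mul_right this (by positivity)
  have e5 : F ^ 2 ≤ (C4 * X) * A.card := e2.trans (by gcongr)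
  have e6 : (c5 ^ 2 * X) ^ 2 ≤ (F * C3) ^ 2 := by gcongr
  have e7 : c5 ^ 4 * X * X ≤ (C3 ^ 2 * C4 * A.card) * X := by
    calc c5 ^ 4 * X * X = (c5 ^ 2 * X) ^ 2 := by ring
      _ ≤ (F * C3) ^ 2 := e6
      _ = F ^ 2 * C3 ^ 2 := by ring
      _ ≤ ((C4 * X) * A.card) * C3 ^ 2 := by gcongr
      _ = _ := by ring
  have e8 : c5 ^ 4 * X ≤ C3 ^ 2 * C4 * A.card := le_of_mul_le_mul_right e7 hX
  rw [div_mul_eq_mul_div, div_le_iff₀ (by positivity)]
  linarith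

theorem fin (hUP : UP) (hM2 : M2) (hPH : PH) (hCH : CH) (hLO : LO) : FN := by
  obtain ⟨η, κ, hη, hκ, X0, hch⟩ := hCH
  obtain ⟨c1, hc1, X1, hlo⟩ := hLO κ hκ
  set η' : ℝ := min η (1 / 2) with hη'def
  have hη' : 0 < η' := lt_min hη (by norm_num)
  have hη1 : η' ≤ η := min_le_left _ _
  have hη2 : η' ≤ 1 / 2 := min_le_right _ _
  obtain ⟨C2, hC2, n0, hup⟩ := hUP η' hη'
  obtain ⟨C3, hC3, hm2⟩ := hM2
  obtain ⟨C4, hC4, hph⟩ := hPH
  set c5 : ℝ := c1 * κ / (8 * C2) with hc5def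
  have hc5 : 0 < c5 := by positivity
  set c6 : ℝ := min (c5 ^ 4 / ((8 * C3) ^ 2 * C4)) (c1 * κ / 2) with hc6def
  have hc6 : 0 < c6 := lt_min (by positivity) (by positivity)
  have hc61 : c6 ≤ c5 ^ 4 / ((8 * C3) ^ 2 * C4) := min_le_left _ _
  have hc62 : c6 ≤ c1 * κ / 2 := min_le_right _ _
  refine ⟨η', hη', c6, hc6, max (max X0 X1) (max 196 (14 * n0)), ?_⟩
  intro N hN
  have hN0 : X0 ≤ N := le_trans (le_trans (le_max_left _ _) (le_max_left _ _)) hN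
  have hN1 : X1 ≤ N := le_trans (le_trans (le_max_right _ _) (le_max_left _ _)) hN
  have hN2 : 196 ≤ N := le_trans (le_trans (le_max_left _ _) (le_max_right _ _)) hN
  have hN3 : 14 * n0 ≤ N := le_trans (le_trans (le_max_right _ _) (le_max_right _ _)) hN
  obtain ⟨S, hS, hScard⟩ := hch N hN0
  have hlow := hlo N hN1 S (fun P hP => ⟨(hS P hP).1, (hS P hP).2.1, (hS P hP).2.2.1⟩) hScard
  classical
  set T : Finset (Fin 4 → ℤ) := S.biUnion rp with hT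
  set A : Finset ℕ := T.image nu with hA
  have hNr : (196 : ℝ) ≤ N := by exact_mod_cast hN2
  have hNpos : (0 : ℝ) < N := by linarith
  have hlogN : 0 < Real.log N := Real.log_pos (by linarith)
  have hP7 : ∀ P ∈ S, 7 < P := fun P hP => by have := (hS P hP).2.1; omega
  -- facts about the elements of `T`
  have hTm : ∀ X ∈ T, ∃ P ∈ S, qf X = P := by
    intro X hX
    rw [hT, Finset.mem_biUnion] at hX
    obtain ⟨P, hP, hXP⟩ := hX
    exact ⟨P, hP, mem_rp P X hXP⟩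
  have hAm : ∀ n ∈ A, ∃ X ∈ T, nu X = n := by
    intro n hn
    rw [hA, Finset.mem_image] at hn
    exact hn
  have hAN : ∀ n ∈ A, 1 ≤ n ∧ n ≤ N ∧ Odd n ∧ N < 14 * n := by
    intro n hn
    obtain ⟨X, hX, rfl⟩ := hAm n hn
    obtain ⟨P, hP, hXP⟩ := hTm X hX
    obtain ⟨h1, h2, h3, -⟩ := facts P (hS P hP).1 (hP7 P hP) X hXP
    have h4 := (hS P hP).2.1
    have h5 := (hS P hP).2.2.1
    refine ⟨by omega, by omega, h1, by omega⟩
  -- the number of elements of `T`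
  have hTcard : (∑ P ∈ S, ((rp P).card : ℝ)) = T.card := by
    rw [hT, Finset.card_biUnion]
    · push_cast; rfl
    · intro P hP Q hQ hPQ
      refine Finset.disjoint_left.2 ?_
      intro X h1 h2
      have e1 := mem_rp P X h1
      have e2 := mem_rp Q X h2
      apply hPQ
      have : (P : ℤ) = Q := by rw [← e1, ← e2]
      exact_mod_cast this
  have hfib : (T.card : ℝ) = ∑ n ∈ A, (((T.filter (fun X => nu X = n)).card : ℕ) : ℝ) := by
    rw [Finset.card_eq_sum_card_image nu T]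
    push_cast
    rfl
  -- the bound for the fibres
  have hfb : ∀ n ∈ A, (((T.filter (fun X => nu X = n)).card : ℕ) : ℝ) ≤
      4 * C2 / Real.log N ^ 2 * ((((n : ℝ) / Nat.totient n) ^ 2) * ((reps n).card : ℝ)) := by
    intro n hn
    obtain ⟨h1, h2, h3, h4⟩ := hAN n hn
    have hn0 : n0 ≤ n := by omega
    have hsub : T.filter (fun X => nu X = n) ⊆ preps n := by
      intro X hX
      rw [Finset.mem_filter] at hX
      obtain ⟨P, hP, hXP⟩ := hTm X hX.1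
      have := (facts P (hS P hP).1 (hP7 P hP) X hXP).2.2.2
      rwa [hX.2] at this
    have hr : ∀ X ∈ T.filter (fun X => nu X = n), ∀ l : ℕ, l.Prime → (l : ℝ) ≤ (n : ℝ) ^ η' →
        ¬ (l : ℤ) ∣ ff X := by
      intro X hX l hl hln
      rw [Finset.mem_filter] at hX
      obtain ⟨P, hP, hXP⟩ := hTm X hX.1
      refine rough η η' hη' hη1 hη2 N P (hS P hP).1 (hP7 P hP) X hXP (hS P hP).2.2.1
        (hS P hP).2.2.2.2 l hl ?_
      rw [hX.2]; exact hln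
    have hb := hup n h3 hn0 _ hsub hr
    have hpr : ((preps n).card : ℝ) ≤ (reps n).card := by
      exact_mod_cast Finset.card_le_card (by unfold preps; exact Finset.filter_subset _ _)
    have hnr : (1 : ℝ) ≤ n := by exact_mod_cast h1
    have h4r : (N : ℝ) < 14 * n := by exact_mod_cast h4
    have hlog : Real.log N ≤ 2 * Real.log n := by
      have hN14 : (N : ℝ) ≤ (n : ℝ) ^ 2 := by
        have h14 : (14 : ℝ) ≤ n := by
          have : 14 ≤ n := by omega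
          exact_mod_cast this
        nlinarith
      calc Real.log N ≤ Real.log ((n : ℝ) ^ 2) := Real.log_le_log hNpos hN14
        _ = 2 * Real.log n := by rw [Real.log_pow]; norm_num
    have hlogn : 0 < Real.log n := by linarith
    have hinv : 1 / Real.log n ^ 2 ≤ 4 / Real.log N ^ 2 := by
      rw [div_le_div_iff₀ (by positivity) (by positivity)]
      nlinarith
    calc (((T.filter (fun X => nu X = n)).card : ℕ) : ℝ)
        ≤ C2 * ((n : ℝ) / Nat.totient n) ^ 2 * ((preps n).card : ℝ) / Real.log n ^ 2 := hb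
      _ = C2 * ((n : ℝ) / Nat.totient n) ^ 2 * ((preps n).card : ℝ) * (1 / Real.log n ^ 2) := by ring
      _ ≤ C2 * ((n : ℝ) / Nat.totient n) ^ 2 * ((reps n).card : ℝ) * (4 / Real.log N ^ 2) := by
          gcongr
      _ = _ := by ring
  set τ : ℝ := c1 * κ / 2 * N / Real.log N ^ 2 with hτ
  have hτ0 : 0 ≤ τ := by positivity
  set A' : Finset ℕ := A.filter (fun n => τ ≤ (((T.filter (fun X => nu X = n)).card : ℕ) : ℝ)) with hA'
  have hA'A : A' ⊆ A := Finset.filter_subset _ _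
  have hAcard : (A.card : ℝ) ≤ N := by
    have h1 : A ⊆ Icc 1 N := by
      intro n hn
      rw [Finset.mem_Icc]
      exact ⟨(hAN n hn).1, (hAN n hn).2.1⟩
    have h2 := Finset.card_le_card h1
    rw [Nat.card_Icc] at h2
    have h3 : A.card ≤ N := by omega
    exact_mod_cast h3
  have hsplit : c1 * N * S.card ≤
      ∑ n ∈ A', (((T.filter (fun X => nu X = n)).card : ℕ) : ℝ) + N * τ := by
    calc c1 * N * S.card ≤ ∑ P ∈ S, ((rp P).card : ℝ) := hlow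
      _ = ∑ n ∈ A, (((T.filter (fun X => nu X = n)).card : ℕ) : ℝ) := by rw [hTcard, hfib]
      _ ≤ ∑ n ∈ A, ((if τ ≤ (((T.filter (fun X => nu X = n)).card : ℕ) : ℝ) then
            (((T.filter (fun X => nu X = n)).card : ℕ) : ℝ) else 0) + τ) := by
          apply Finset.sum_le_sum
          intro n _
          split_ifs with h
          · linarith
          · linarith [not_le.1 h]
      _ = ∑ n ∈ A', (((T.filter (fun X => nu X = n)).card : ℕ) : ℝ) + A.card * τ := by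
          rw [Finset.sum_add_distrib, hA', Finset.sum_filter, Finset.sum_const, nsmul_eq_mul]
      _ ≤ _ := by gcongr
  have hsum : c1 * κ / 2 * (N : ℝ) ^ 2 / Real.log N ^ 2 ≤ 4 * C2 / Real.log N ^ 2 *
      ∑ n ∈ A', (((n : ℝ) / Nat.totient n) ^ 2) * ((reps n).card : ℝ) := by
    have e1 : c1 * N * (κ * N / Real.log N ^ 2) ≤ c1 * N * S.card := by gcongr
    have e2 : c1 * N * (κ * N / Real.log N ^ 2) - N * τ = c1 * κ / 2 * (N : ℝ) ^ 2 / Real.log N ^ 2 := by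
      rw [hτ]; ring
    have e3 : ∑ n ∈ A', (((T.filter (fun X => nu X = n)).card : ℕ) : ℝ) ≤ 4 * C2 / Real.log N ^ 2 *
        ∑ n ∈ A', (((n : ℝ) / Nat.totient n) ^ 2) * ((reps n).card : ℝ) := by
      rw [Finset.mul_sum]
      exact Finset.sum_le_sum fun n hn => hfb n (hA'A hn)
    linarith
  have hmain : c5 * (N : ℝ) ^ 2 ≤
      ∑ n ∈ A', (((n : ℝ) / Nat.totient n) ^ 2) * ((reps n).card : ℝ) := by
    set Y : ℝ := ∑ n ∈ A', (((n : ℝ) / Nat.totient n) ^ 2) * ((reps n).card : ℝ) with hY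
    have e2 : c1 * κ / 2 * (N : ℝ) ^ 2 ≤ 4 * C2 * Y := by
      have e3 : (c1 * κ / 2 * (N : ℝ) ^ 2) / Real.log N ^ 2 ≤ (4 * C2 * Y) / Real.log N ^ 2 := by
        calc (c1 * κ / 2 * (N : ℝ) ^ 2) / Real.log N ^ 2
            ≤ 4 * C2 / Real.log N ^ 2 * Y := hsum
          _ = _ := by ring
      exact (div_le_div_iff_of_pos_right (by positivity)).1 e3
    rw [hc5def, div_mul_eq_mul_div, div_le_iff₀ (by positivity)]
    linarith
  have hA1 : ∑ n ∈ A', ((reps n).card : ℝ) ^ 2 ≤ (8 * C3) * (N : ℝ) ^ 3 := by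
    calc ∑ n ∈ A', ((reps n).card : ℝ) ^ 2 ≤ ∑ n ∈ range (N + 1), ((reps n).card : ℝ) ^ 2 := by
          apply Finset.sum_le_sum_of_subset_of_nonneg
          · intro n hn
            rw [Finset.mem_range]
            have := (hAN n (hA'A hn)).2.1
            omega
          · intro _ _ _; positivity
      _ ≤ C3 * ((N : ℝ) + 1) ^ 3 := hm2 N
      _ ≤ C3 * (2 * (N : ℝ)) ^ 3 := by gcongr; linarith
      _ = _ := by ring
  have hA2 : ∑ n ∈ A', ((((n : ℝ) / Nat.totient n) ^ 2) ^ 2) ^ 2 ≤ C4 * (N : ℝ) := by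
    calc ∑ n ∈ A', ((((n : ℝ) / Nat.totient n) ^ 2) ^ 2) ^ 2
        = ∑ n ∈ A', ((n : ℝ) / Nat.totient n) ^ 8 := by
          apply Finset.sum_congr rfl; intro n _; ring
      _ ≤ ∑ n ∈ Icc 1 N, ((n : ℝ) / Nat.totient n) ^ 8 := by
          apply Finset.sum_le_sum_of_subset_of_nonneg
          · intro n hn
            rw [Finset.mem_Icc]
            exact ⟨(hAN n (hA'A hn)).1, (hAN n (hA'A hn)).2.1⟩
          · intro _ _ _; positivity
      _ ≤ C4 * N := hph N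
  refine ⟨A', ?_, ?_⟩
  · have := final_ineq A' (fun n => ((n : ℝ) / Nat.totient n) ^ 2) (fun n => ((reps n).card : ℝ)) N c5
      (8 * C3) C4 hNpos hc5 (by positivity) hC4 (fun n => sq_nonneg _) hmain hA1 hA2
    exact le_trans (by gcongr) this
  · intro n hn
    obtain ⟨h1, h2, h3, h4⟩ := hAN n (hA'A hn)
    refine ⟨h1, h2, h3, T.filter (fun X => nu X = n), ?_, ?_⟩
    · have h5 : τ ≤ (((T.filter (fun X => nu X = n)).card : ℕ) : ℝ) := by
        rw [hA', Finset.mem_filter] at hn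
        exact hn.2
      refine le_trans ?_ h5
      rw [hτ]
      gcongr
    · intro X hX
      rw [Finset.mem_filter] at hX
      obtain ⟨P, hP, hXP⟩ := hTm X hX.1
      refine ⟨P, ?_, hXP.symm, hP7 P hP, (hS P hP).1, (hS P hP).2.2.2.1, ?_⟩
      · rw [← hX.2, nu_cast, Fin.sum_univ_four]
      · intro l hl hld
        have e1 := (hS P hP).2.2.2.2 l hl hld
        have e2 : (n : ℝ) ^ η' ≤ (N : ℝ) ^ η' :=
          Real.rpow_le_rpow (by positivity) (by exact_mod_cast h2) hη'.le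
        have e3 : (N : ℝ) ^ η' ≤ (N : ℝ) ^ η := Real.rpow_le_rpow_of_exponent_le (by linarith) hη1
        linarith

end Pool.Agent.R496.FP
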