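import Pool.Agent.R496.FP.FIN

/-!
# Project FP: passage to the plain statement
-/

set_option autoImplicit false
open Finset

namespace Pool.Agent.R496.FP

/-- `v = (x, y, z, w)` is a representation of `n` as a sum of four squares for which
`p = x² + 3 y² + 5 z² + 7 w²` is a prime, `p > 7`, and `p - 2` is a product of at most two primes,
all of them larger than `n ^ η`. -/
def ChenRep (η : ℝ) (n : ℕ) (v : ℤ × ℤ × ℤ × ℤ) : Prop :=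
  (n : ℤ) = v.1 ^ 2 + v.2.1 ^ 2 + v.2.2.1 ^ 2 + v.2.2.2 ^ 2 ∧
  ∃ p : ℕ, (p : ℤ) = v.1 ^ 2 + 3 * v.2.1 ^ 2 + 5 * v.2.2.1 ^ 2 + 7 * v.2.2.2 ^ 2 ∧
    p.Prime ∧ 7 < p ∧ (p - 2).primeFactorsList.length ≤ 2 ∧
    ∀ l : ℕ, l.Prime → l ∣ p - 2 → (n : ℝ) ^ η < l

lemma finite_chenRep (η : ℝ) (n : ℕ) : {v : ℤ × ℤ × ℤ × ℤ | ChenRep η n v}.Finite := by
  have hfin : ((Set.Icc (-(n : ℤ)) n) ×ˢ ((Set.Icc (-(n : ℤ)) n) ×ˢ ((Set.Icc (-(n : ℤ)) n) ×ˢ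
      (Set.Icc (-(n : ℤ)) n)))).Finite :=
    (Set.finite_Icc _ _).prod ((Set.finite_Icc _ _).prod ((Set.finite_Icc _ _).prod
      (Set.finite_Icc _ _)))
  refine hfin.subset ?_
  rintro ⟨x, y, z, w⟩ ⟨h, -⟩
  simp only at h
  have key : ∀ a r : ℤ, 0 ≤ r → (n : ℤ) = a ^ 2 + r → a ∈ Set.Icc (-(n : ℤ)) n := by
    intro a r hr ha
    have h1 : a ^ 2 ≤ n := by linarith
    have h2 : |a| ≤ a ^ 2 := by
      rcases eq_or_ne a 0 with h0 | h0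
      · simp [h0]
      · have h3 : 1 ≤ |a| := Int.one_le_abs h0
        rw [← sq_abs]; nlinarith
    exact abs_le.1 (h2.trans h1)
  refine ⟨key x (y ^ 2 + z ^ 2 + w ^ 2) (by positivity) (by rw [h]; ring),
    key y (x ^ 2 + z ^ 2 + w ^ 2) (by positivity) (by rw [h]; ring),
    key z (x ^ 2 + y ^ 2 + w ^ 2) (by positivity) (by rw [h]; ring),
    key w (x ^ 2 + y ^ 2 + z ^ 2) (by positivity) (by rw [h]; ring)⟩

theorem plain (h : FN) : ∃ η : ℝ, 0 < η ∧ ∃ c : ℝ, 0 < c ∧ ∃ N₀ : ℕ, ∀ N : ℕ, N₀ ≤ N →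
    c * N ≤ (({n : ℕ | n ≤ N ∧ Odd n ∧
      c * N / Real.log N ^ 2 ≤ (({v : ℤ × ℤ × ℤ × ℤ | ChenRep η n v}).ncard : ℝ)}).ncard : ℝ) := by
  classical
  obtain ⟨η, hη, c, hc, N0, h⟩ := h
  refine ⟨η, hη, c, hc, N0, fun N hN => ?_⟩
  obtain ⟨A, hA, hA2⟩ := h N hN
  refine hA.trans ?_
  have hfin : {n : ℕ | n ≤ N ∧ Odd n ∧
      c * N / Real.log N ^ 2 ≤ (({v : ℤ × ℤ × ℤ × ℤ | ChenRep η n v}).ncard : ℝ)}.Finite :=
    (Set.finite_Iic N).subset fun n hn => hn.1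
  have hsub : (A : Set ℕ) ⊆ {n : ℕ | n ≤ N ∧ Odd n ∧
      c * N / Real.log N ^ 2 ≤ (({v : ℤ × ℤ × ℤ × ℤ | ChenRep η n v}).ncard : ℝ)} := by
    intro n hn
    obtain ⟨h1, h2, h3, R, hR, hR2⟩ := hA2 n hn
    refine ⟨h2, h3, hR.trans ?_⟩
    have hinj : Function.Injective (fun X : Fin 4 → ℤ => (X 0, X 1, X 2, X 3)) := by
      intro X Y hXY
      simp only [Prod.mk.injEq] at hXY
      obtain ⟨h0, h1, h2, h3⟩ := hXY
      funext i
      fin_cases i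
      · exact h0
      · exact h1
      · exact h2
      · exact h3
    have hc1 : R.card = (R.image (fun X : Fin 4 → ℤ => (X 0, X 1, X 2, X 3))).card :=
      (Finset.card_image_of_injective R hinj).symm
    rw [hc1]
    have hs : ((R.image (fun X : Fin 4 → ℤ => (X 0, X 1, X 2, X 3)) : Finset (ℤ × ℤ × ℤ × ℤ)) :
        Set (ℤ × ℤ × ℤ × ℤ)) ⊆ {v : ℤ × ℤ × ℤ × ℤ | ChenRep η n v} := by
      intro v hv
      rw [Finset.mem_coe, Finset.mem_image] at hv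
      obtain ⟨X, hX, rfl⟩ := hv
      obtain ⟨p, e1, e2, e3, e4, e5, e6⟩ := hR2 X hX
      exact ⟨e1, p, e2, e4, e3, e5, e6⟩
    have h5 := Set.ncard_le_ncard hs (finite_chenRep η n)
    rw [Set.ncard_coe_finset] at h5
    exact_mod_cast h5
  have h6 := Set.ncard_le_ncard hsub hfin
  rw [Set.ncard_coe_finset] at h6
  exact_mod_cast h6

end Pool.Agent.R496.FP
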