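import Pool.Agent.R496.FP.Defs

/-!
# Project FP, piece GB: the bound for Gauss sums
-/

set_option autoImplicit false
open Finset Complex

namespace Pool.Agent.R496.FP

open Pool.Agent.W65.FS

theorem card_mul_eq_zero (c : ℕ) [NeZero c] (m : ℕ) (hm : 1 ≤ m) :
    ((univ : Finset (ZMod c)).filter fun h => (m : ZMod c) * h = 0).card ≤ m := by
  classical
  have hc : 0 < c := Nat.pos_of_ne_zero (NeZero.ne c)
  have hdvd : ∀ h : ZMod c, (m : ZMod c) * h = 0 → c ∣ m * h.val := by
    intro h hh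
    rw [← ZMod.natCast_eq_zero_iff]
    push_cast
    rw [ZMod.natCast_zmod_val]
    exact hh
  have hcard : m = (Finset.range m).card := (Finset.card_range m).symm
  conv_rhs => rw [hcard]
  refine Finset.card_le_card_of_injOn (fun h : ZMod c => m * h.val / c) ?_ ?_
  · intro h hh
    have hh' := hdvd h (Finset.mem_filter.1 hh).2
    rw [Finset.coe_range, Set.mem_Iio]
    rw [Nat.div_lt_iff_lt_mul hc]
    exact Nat.mul_lt_mul_of_pos_left (ZMod.val_lt h) (by omega)
  · intro h hh h' hh' heq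
    have h1 := hdvd h (Finset.mem_filter.1 hh).2
    have h2 := hdvd h' (Finset.mem_filter.1 hh').2
    have h3 : m * h.val / c = m * h'.val / c := heq
    have h4 : m * h.val = m * h'.val := by
      rw [← Nat.div_mul_cancel h1, ← Nat.div_mul_cancel h2, h3]
    have h5 : h.val = h'.val := Nat.eq_of_mul_eq_mul_left (by omega) h4
    exact ZMod.val_injective c h5

theorem gb : GB := by
  intro c _ a ha j hj1 hj7 k
  classical
  set b : ZMod c := (j : ZMod c) * (a : ZMod c) with hb
  have hS : gs c 1 b 0 k = ∑ s : ZMod c, ZMod.stdAddChar (b * s ^ 2 + k * s) := by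
    unfold gs
    refine Finset.sum_congr rfl fun s _ => ?_
    simp
  have h1 : ((‖gs c 1 b 0 k‖ ^ 2 : ℝ) : ℂ) = ∑ h : ZMod c,
      (ZMod.stdAddChar (b * h ^ 2 + k * h) : ℂ) * (if 2 * b * h = 0 then (c : ℂ) else 0) := by
    have e0 : ((‖gs c 1 b 0 k‖ ^ 2 : ℝ) : ℂ) =
        gs c 1 b 0 k * (starRingEnd ℂ) (gs c 1 b 0 k) := by
      rw [Complex.mul_conj, Complex.normSq_eq_norm_sq]
    rw [e0, hS, map_sum, Finset.sum_mul_sum, Finset.sum_comm]
    have e1 : ∀ t : ZMod c, ∑ s : ZMod c, (ZMod.stdAddChar (b * s ^ 2 + k * s) : ℂ) *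
        (starRingEnd ℂ) (ZMod.stdAddChar (b * t ^ 2 + k * t) : ℂ) =
        ∑ h : ZMod c, (ZMod.stdAddChar (b * h ^ 2 + k * h) : ℂ) *
          (ZMod.stdAddChar (t * (2 * b * h)) : ℂ) := by
      intro t
      rw [← Equiv.sum_comp (Equiv.addLeft t)]
      refine Finset.sum_congr rfl fun h _ => ?_
      rw [← AddChar.map_neg_eq_conj, ← AddChar.map_add_eq_mul, ← AddChar.map_add_eq_mul]
      congr 1
      simp only [Equiv.coe_addLeft]
      ring
    rw [Finset.sum_congr rfl fun t _ => e1 t, Finset.sum_comm]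
    refine Finset.sum_congr rfl fun h _ => ?_
    rw [← Finset.mul_sum, AddChar.sum_mulShift _ (ZMod.isPrimitive_stdAddChar c), ZMod.card]
    split_ifs <;> simp
  have hu : IsUnit (a : ZMod c) := by
    obtain ⟨x, y, hxy⟩ := ha
    refine IsUnit.of_mul_eq_one (x : ZMod c) ?_
    have := congrArg (Int.cast : ℤ → ZMod c) hxy
    push_cast at this
    rw [ZMod.natCast_self, mul_zero, add_zero] at this
    rw [mul_comm]
    exact this
  have hiff : ∀ h : ZMod c, 2 * b * h = 0 → ((2 * j : ℕ) : ZMod c) * h = 0 := by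
    intro h hh
    have h2 : (a : ZMod c) * (((2 * j : ℕ) : ZMod c) * h) = 0 := by
      rw [← hh, hb]
      push_cast
      ring
    exact (hu.mul_right_eq_zero).1 h2
  have h2 : ‖gs c 1 b 0 k‖ ^ 2 ≤ (c : ℝ) *
      (((univ : Finset (ZMod c)).filter fun h => 2 * b * h = 0).card : ℝ) := by
    have e1 : ‖((‖gs c 1 b 0 k‖ ^ 2 : ℝ) : ℂ)‖ = ‖gs c 1 b 0 k‖ ^ 2 := by
      rw [Complex.norm_real, Real.norm_of_nonneg (by positivity)]
    rw [← e1, h1]
    refine (norm_sum_le _ _).trans ?_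
    have e2 : ∀ h : ZMod c, ‖(ZMod.stdAddChar (b * h ^ 2 + k * h) : ℂ) *
        (if 2 * b * h = 0 then (c : ℂ) else 0)‖ = if 2 * b * h = 0 then (c : ℝ) else 0 := by
      intro h
      rw [norm_mul, AddChar.norm_apply, one_mul]
      split_ifs <;> simp
    rw [Finset.sum_congr rfl fun h _ => e2 h, ← Finset.sum_filter, Finset.sum_const, nsmul_eq_mul,
      mul_comm]
  have h3 : ((univ : Finset (ZMod c)).filter fun h => 2 * b * h = 0).card ≤ 14 := by
    calc _ ≤ ((univ : Finset (ZMod c)).filter fun h => ((2 * j : ℕ) : ZMod c) * h = 0).card := by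
          refine Finset.card_le_card fun h hh => ?_
          rw [Finset.mem_filter] at hh ⊢
          exact ⟨hh.1, hiff h hh.2⟩
      _ ≤ 2 * j := card_mul_eq_zero c (2 * j) (by omega)
      _ ≤ 14 := by omega
  calc ‖gs c 1 b 0 k‖ ^ 2 ≤ (c : ℝ) *
      (((univ : Finset (ZMod c)).filter fun h => 2 * b * h = 0).card : ℝ) := h2
    _ ≤ (c : ℝ) * 14 := by
        refine mul_le_mul_of_nonneg_left ?_ (by positivity)
        exact_mod_cast h3
    _ = 14 * c := by ring

end Pool.Agent.R496.FP
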