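import Pool.Agent.R496.FP.Defs

/-! # Project FP, piece HO: Hensel's lemma at odd primes -/

set_option autoImplicit false
open Finset

namespace Pool.Agent.R496.FP

namespace HOs

/-- vectors of natural numbers `< d` -/
abbrev bx (d : ℕ) : Finset (Fin 4 → ℕ) := Fintype.piFinset fun _ => Finset.range d

theorem mem_bx {d : ℕ} {x : Fin 4 → ℕ} : x ∈ bx d ↔ ∀ i, x i < d := by
  simp [bx, Fintype.mem_piFinset]

theorem conv (d : ℕ) [NeZero d] (Q : (Fin 4 → ZMod d) → Prop) [DecidablePred Q]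
    [DecidablePred (fun x : Fin 4 → ℕ => Q (fun i => (x i : ZMod d)))] :
    (univ.filter Q).card = ((bx d).filter (fun x => Q (fun i => (x i : ZMod d)))).card := by
  symm
  refine Finset.card_bij (fun x _ => fun i => (x i : ZMod d)) ?_ ?_ ?_
  · intro x hx
    rw [Finset.mem_filter] at hx ⊢
    exact ⟨Finset.mem_univ _, hx.2⟩
  · intro x hx y hy h
    rw [Finset.mem_filter, mem_bx] at hx hy
    funext i
    have := congrArg ZMod.val (congrFun h i)
    rwa [ZMod.val_cast_of_lt (hx.1 i), ZMod.val_cast_of_lt (hy.1 i)] at this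
  · intro s hs
    have e : (fun i => (((s i).val : ℕ) : ZMod d)) = s := by
      funext i
      exact ZMod.natCast_zmod_val _
    refine ⟨fun i => (s i).val, ?_, e⟩
    rw [Finset.mem_filter, mem_bx]
    refine ⟨fun i => ZMod.val_lt _, ?_⟩
    rw [e]
    exact (Finset.mem_filter.1 hs).2

/-- the value of the form minus `P` -/
def qz (x : Fin 4 → ℕ) (P : ℕ) : ℤ :=
  (x 0 : ℤ) ^ 2 + 3 * (x 1 : ℤ) ^ 2 + 5 * (x 2 : ℤ) ^ 2 + 7 * (x 3 : ℤ) ^ 2 - P

theorem Ns_eq (d : ℕ) [NeZero d] (P : ℕ) :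
    Ns d P = ((bx d).filter (fun x => (d : ℤ) ∣ qz x P)).card := by
  classical
  unfold Ns
  rw [conv]
  refine congrArg Finset.card (Finset.filter_congr (fun x _ => ?_))
  rw [← ZMod.intCast_zmod_eq_zero_iff_dvd, qz, ← sub_eq_zero]
  push_cast
  exact Iff.rfl

/-- number of solutions of a nontrivial linear equation -/
theorem lin_card (l : ℕ) [Fact l.Prime] (b : Fin 4 → ZMod l) (hb : b ≠ 0) (e : ZMod l) :
    ((univ : Finset (Fin 4 → ZMod l)).filter (fun t => ∑ i, b i * t i = e)).card = l ^ 3 := by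
  classical
  let f : (Fin 4 → ZMod l) →+ ZMod l :=
    { toFun := fun t => ∑ i, b i * t i
      map_zero' := by simp
      map_add' := by
        intro x y
        simp [mul_add, Finset.sum_add_distrib] }
  obtain ⟨j, hj⟩ : ∃ j, b j ≠ 0 := by
    by_contra h
    push Not at h
    exact hb (funext h)
  have hsurj : ∀ c, c ∈ Set.range f := by
    intro c
    refine ⟨Pi.single j ((b j)⁻¹ * c), ?_⟩
    show ∑ i, b i * (Pi.single j ((b j)⁻¹ * c) : Fin 4 → ZMod l) i = c
    rw [Finset.sum_eq_single j]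
    · rw [Pi.single_eq_same, ← mul_assoc, mul_inv_cancel₀ hj, one_mul]
    · intro i _ hi
      rw [Pi.single_eq_of_ne hi, mul_zero]
    · intro h
      exact absurd (Finset.mem_univ j) h
  have hcard : ∀ c, (univ.filter (fun t => f t = c)).card = (univ.filter (fun t => f t = e)).card :=
    fun c => AddMonoidHom.card_fiber_eq_of_mem_range f (hsurj c) (hsurj e)
  have htot : ∑ c : ZMod l, (univ.filter (fun t => f t = c)).card = l ^ 4 := by
    rw [← Finset.card_eq_sum_card_fiberwise (fun _ _ => Finset.mem_univ _)]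
    rw [Finset.card_univ, Fintype.card_fun, ZMod.card, Fintype.card_fin]
  rw [Finset.sum_congr rfl (fun c _ => hcard c), Finset.sum_const, Finset.card_univ, ZMod.card,
    smul_eq_mul, pow_succ'] at htot
  exact Nat.eq_of_mul_eq_mul_left (Fact.out : l.Prime).pos htot

/-- the fibre of the reduction -/
theorem fibre (l k : ℕ) (P : ℕ) (hl : l.Prime) (hl2 : l ≠ 2) (hP : ¬ l ∣ P) (hk : 1 ≤ k)
    (s : Fin 4 → ℕ) (hs : s ∈ bx (l ^ k)) :
    (((bx (l ^ (k + 1))).filter (fun x => ((l ^ (k + 1) : ℕ) : ℤ) ∣ qz x P)).filter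
      (fun x => (fun i => x i % l ^ k) = s)).card =
      if ((l ^ k : ℕ) : ℤ) ∣ qz s P then l ^ 3 else 0 := by
  classical
  set m := l ^ k with hm
  have hm0 : 0 < m := Nat.pow_pos hl.pos
  have hM : l ^ (k + 1) = m * l := pow_succ _ _
  have hlm : (l : ℤ) ∣ (m : ℤ) := by
    have : l ∣ m := dvd_pow_self l (by omega)
    exact_mod_cast this
  have : Fact l.Prime := ⟨hl⟩
  have : NeZero l := ⟨hl.ne_zero⟩
  have hexp : ∀ t : Fin 4 → ℕ, qz (fun i => s i + m * t i) P = qz s P +
      m * (2 * ((s 0 : ℤ) * t 0 + 3 * s 1 * t 1 + 5 * s 2 * t 2 + 7 * s 3 * t 3) +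
        m * ((t 0 : ℤ) ^ 2 + 3 * (t 1 : ℤ) ^ 2 + 5 * (t 2 : ℤ) ^ 2 + 7 * (t 3 : ℤ) ^ 2)) := by
    intro t
    unfold qz
    push_cast
    ring
  rw [mem_bx] at hs
  have hbij : (((bx (l ^ (k + 1))).filter (fun x => ((l ^ (k + 1) : ℕ) : ℤ) ∣ qz x P)).filter
      (fun x => (fun i => x i % m) = s)).card =
      ((bx l).filter (fun t => ((l ^ (k + 1) : ℕ) : ℤ) ∣ qz (fun i => s i + m * t i) P)).card := by
    symm
    refine Finset.card_bij (fun t _ => fun i => s i + m * t i) ?_ ?_ ?_
    · intro t ht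
      rw [Finset.mem_filter, mem_bx] at ht
      rw [Finset.mem_filter, Finset.mem_filter, mem_bx]
      refine ⟨⟨fun i => ?_, ht.2⟩, ?_⟩
      · rw [hM]
        have h1 := hs i
        have h2 := ht.1 i
        calc s i + m * t i < m + m * t i := by omega
          _ = m * (t i + 1) := by ring
          _ ≤ m * l := Nat.mul_le_mul_left _ h2
      · funext i
        rw [Nat.add_mul_mod_self_left, Nat.mod_eq_of_lt (hs i)]
    · intro t ht t' ht' h
      funext i
      have h' : s i + m * t i = s i + m * t' i := congrFun h i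
      exact Nat.eq_of_mul_eq_mul_left hm0 (by omega)
    · intro x hx
      rw [Finset.mem_filter, Finset.mem_filter, mem_bx] at hx
      obtain ⟨⟨hx1, hx2⟩, hx3⟩ := hx
      have e : (fun i => s i + m * (x i / m)) = x := by
        funext i
        rw [← congrFun hx3 i]
        exact Nat.mod_add_div _ _
      refine ⟨fun i => x i / m, ?_, e⟩
      rw [Finset.mem_filter, mem_bx]
      refine ⟨fun i => ?_, ?_⟩
      · rw [Nat.div_lt_iff_lt_mul hm0, mul_comm, ← hM]
        exact hx1 i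
      · rw [e]; exact hx2
  rw [hbij]
  split_ifs with hsol
  · obtain ⟨e, he⟩ := hsol
    have hcond : ∀ t : Fin 4 → ℕ, ((l ^ (k + 1) : ℕ) : ℤ) ∣ qz (fun i => s i + m * t i) P ↔
        (l : ℤ) ∣ e + 2 * ((s 0 : ℤ) * t 0 + 3 * s 1 * t 1 + 5 * s 2 * t 2 + 7 * s 3 * t 3) := by
      intro t
      rw [hexp, he, ← mul_add, hM]
      push_cast
      rw [mul_dvd_mul_iff_left (by exact_mod_cast hm0.ne'), ← add_assoc]
      exact (Int.dvd_add_left (Dvd.dvd.mul_right hlm _))
    have hb : (![2 * (s 0 : ZMod l), 6 * s 1, 10 * s 2, 14 * s 3] : Fin 4 → ZMod l) ≠ 0 := by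
      intro h
      have h0 := congrFun h 0
      have h1 := congrFun h 1
      have h2 := congrFun h 2
      have h3 := congrFun h 3
      simp only [Matrix.cons_val, Pi.zero_apply] at h0 h1 h2 h3
      have h20 : (2 : ZMod l) ≠ 0 := by
        intro h
        have : ((2 : ℕ) : ZMod l) = 0 := by exact_mod_cast h
        rw [ZMod.natCast_eq_zero_iff] at this
        exact hl2 ((Nat.prime_dvd_prime_iff_eq hl Nat.prime_two).1 this)
      have hz : ((qz s P : ℤ) : ZMod l) = 0 := by
        rw [ZMod.intCast_zmod_eq_zero_iff_dvd, he]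
        exact Dvd.dvd.mul_right hlm _
      apply hP
      rw [← ZMod.natCast_eq_zero_iff]
      unfold qz at hz
      push_cast at hz
      have : (2 : ZMod l) * (P : ZMod l) = 0 := by
        linear_combination (s 0 : ZMod l) * h0 + (s 1 : ZMod l) * h1 + (s 2 : ZMod l) * h2 +
          (s 3 : ZMod l) * h3 - 2 * hz
      exact (mul_eq_zero.1 this).resolve_left h20
    rw [← lin_card l _ hb (-(e : ZMod l)), conv]
    refine congrArg Finset.card (Finset.filter_congr (fun t _ => ?_))
    rw [hcond, ← ZMod.intCast_zmod_eq_zero_iff_dvd, Fin.sum_univ_four, ← sub_eq_zero]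
    simp only [Matrix.cons_val]
    push_cast
    constructor
    · intro h
      linear_combination h
    · intro h
      linear_combination h
  · rw [Finset.card_eq_zero, Finset.filter_eq_empty_iff]
    intro t _ ht
    apply hsol
    rw [hexp] at ht
    have h1 : (m : ℤ) ∣ qz s P + m * (2 * ((s 0 : ℤ) * t 0 + 3 * s 1 * t 1 + 5 * s 2 * t 2 +
        7 * s 3 * t 3) + m * ((t 0 : ℤ) ^ 2 + 3 * (t 1 : ℤ) ^ 2 + 5 * (t 2 : ℤ) ^ 2 +
          7 * (t 3 : ℤ) ^ 2)) := by
      refine dvd_trans ?_ ht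
      rw [hM]
      push_cast
      exact Dvd.intro _ rfl
    exact (Int.dvd_add_left (Dvd.intro _ rfl)).1 h1

end HOs

open HOs in
theorem ho : HO := by
  intro l k _ _ P hl hl2 hP hk
  classical
  rw [Ns_eq, Ns_eq]
  rw [Finset.card_eq_sum_card_fiberwise (f := fun (x : Fin 4 → ℕ) => fun i => x i % l ^ k)
    (t := bx (l ^ k))]
  · rw [Finset.sum_congr rfl (fun s hs => fibre l k P hl hl2 hP hk s hs), ← Finset.sum_filter,
      Finset.sum_const, smul_eq_mul, mul_comm]
  · intro x _
    show (fun i => x i % l ^ k) ∈ ((bx (l ^ k) : Finset (Fin 4 → ℕ)) : Set (Fin 4 → ℕ))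
    rw [Finset.mem_coe, mem_bx]
    exact fun i => Nat.mod_lt _ (Nat.pow_pos hl.pos)

end Pool.Agent.R496.FP
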