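import Pool.Agent.R496.FP.Defs

/-!
# FP-HT: Hensel's lemma at `2` for `x² + 3 y² + 5 z² + 7 w²`
-/

set_option autoImplicit false
open Finset

namespace Pool.Agent.R496.FP

namespace HTp

/-- the form over `ZMod n` -/
def qz {n : ℕ} (s : Fin 4 → ZMod n) : ZMod n := s 0 ^ 2 + 3 * s 1 ^ 2 + 5 * s 2 ^ 2 + 7 * s 3 ^ 2

lemma Ns_eq (d : ℕ) [NeZero d] (P : ℕ) :
    Ns d P = ((univ : Finset (Fin 4 → ZMod d)).filter (fun s => qz s = (P : ZMod d))).card := by
  classical
  unfold Ns qz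
  congr

/-- parity -/
def par (k : ℕ) : ZMod (2 ^ (k + 1)) →+* ZMod 2 := ZMod.castHom (dvd_pow_self 2 (by omega)) (ZMod 2)

/-- reduction -/
def red (k : ℕ) : ZMod (2 ^ (k + 1)) →+* ZMod (2 ^ k) :=
  ZMod.castHom (pow_dvd_pow 2 (by omega)) (ZMod (2 ^ k))

lemma two_pow_zero (k : ℕ) : ((2 : ZMod (2 ^ (k + 1))) ^ (k + 1)) = 0 := by
  have := ZMod.natCast_self (2 ^ (k + 1))
  push_cast at this
  exact this

lemma two_pow_ne (k : ℕ) : ((2 : ZMod (2 ^ (k + 1))) ^ k) ≠ 0 := by
  intro h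
  have h2 : ((2 ^ k : ℕ) : ZMod (2 ^ (k + 1))) = 0 := by push_cast; exact h
  rw [ZMod.natCast_eq_zero_iff] at h2
  have := Nat.le_of_dvd (by positivity) h2
  have : 2 ^ k < 2 ^ (k + 1) := Nat.pow_lt_pow_right (by norm_num) (by omega)
  omega

lemma two_pow_mul (k : ℕ) (m : ℕ) :
    (2 : ZMod (2 ^ (k + 1))) ^ k * (m : ZMod (2 ^ (k + 1))) = if Even m then 0 else 2 ^ k := by
  have h0 := two_pow_zero k
  split_ifs with h
  · obtain ⟨j, rfl⟩ := h
    push_cast
    have : (2 : ZMod (2 ^ (k + 1))) ^ k * ((j : ZMod (2 ^ (k + 1))) + j) = 2 ^ (k + 1) * j := by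
      ring
    rw [this, h0, zero_mul]
  · rw [Nat.not_even_iff_odd] at h
    obtain ⟨j, rfl⟩ := h
    push_cast
    have : (2 : ZMod (2 ^ (k + 1))) ^ k * (2 * (j : ZMod (2 ^ (k + 1))) + 1) =
        2 ^ (k + 1) * j + 2 ^ k := by
      ring
    rw [this, h0, zero_mul, zero_add]

lemma odd_mul (k : ℕ) (x : ZMod (2 ^ (k + 1))) (hx : par k x = 1) :
    (2 : ZMod (2 ^ (k + 1))) ^ k * x = 2 ^ k := by
  obtain ⟨n, rfl⟩ := ZMod.natCast_zmod_surjective x
  rw [map_natCast, ZMod.natCast_eq_one_iff_odd] at hx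
  rw [two_pow_mul, if_neg (Nat.not_even_iff_odd.2 hx)]

lemma red_eq (k : ℕ) (x y : ZMod (2 ^ (k + 1))) (h : red k x = red k y) : x = y ∨ x = y + 2 ^ k := by
  obtain ⟨n, hn⟩ := ZMod.natCast_zmod_surjective (x - y)
  have h1 : red k (x - y) = 0 := by rw [map_sub, h, sub_self]
  rw [← hn, map_natCast, ZMod.natCast_eq_zero_iff] at h1
  obtain ⟨m, rfl⟩ := h1
  push_cast at hn
  rw [two_pow_mul] at hn
  split_ifs at hn with h2
  · left
    exact (sub_eq_zero.1 hn.symm)
  · right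
    rw [hn]
    ring

lemma red_two_pow (k : ℕ) : red k (2 ^ k) = 0 := by
  rw [map_pow, map_ofNat]
  have := ZMod.natCast_self (2 ^ k)
  push_cast at this
  exact this

/-- the shift -/
def Tt (k : ℕ) (t : ZMod (2 ^ (k + 1))) (s : Fin 4 → ZMod (2 ^ (k + 1))) :
    Fin 4 → ZMod (2 ^ (k + 1)) :=
  if par k (s 0) = 1 then ![s 0 + t, s 1, s 2, s 3]
  else if par k (s 1) = 1 then ![s 0, s 1 + t, s 2, s 3]
  else if par k (s 2) = 1 then ![s 0, s 1, s 2 + t, s 3]
  else ![s 0, s 1, s 2, s 3 + t]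

lemma Tt_inv (k : ℕ) (t : ZMod (2 ^ (k + 1))) (ht : par k t = 0)
    (s : Fin 4 → ZMod (2 ^ (k + 1))) : Tt k (-t) (Tt k t s) = s := by
  have hs : s = ![s 0, s 1, s 2, s 3] := by
    funext i
    fin_cases i <;> rfl
  by_cases h0 : par k (s 0) = 1
  · have e : Tt k t s = ![s 0 + t, s 1, s 2, s 3] := by unfold Tt; rw [if_pos h0]
    rw [e]
    unfold Tt
    have : par k ((![s 0 + t, s 1, s 2, s 3] : Fin 4 → ZMod (2 ^ (k + 1))) 0) = 1 := by
      show par k (s 0 + t) = 1
      rw [map_add, ht, add_zero, h0]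
    rw [if_pos this]
    nth_rewrite 9 [hs]
    funext i
    fin_cases i <;> simp
  · by_cases h1 : par k (s 1) = 1
    · have e : Tt k t s = ![s 0, s 1 + t, s 2, s 3] := by unfold Tt; rw [if_neg h0, if_pos h1]
      rw [e]
      unfold Tt
      have a1 : ¬ par k ((![s 0, s 1 + t, s 2, s 3] : Fin 4 → ZMod (2 ^ (k + 1))) 0) = 1 := h0
      have a2 : par k ((![s 0, s 1 + t, s 2, s 3] : Fin 4 → ZMod (2 ^ (k + 1))) 1) = 1 := by
        show par k (s 1 + t) = 1
        rw [map_add, ht, add_zero, h1]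
      rw [if_neg a1, if_pos a2]
      funext i
      fin_cases i <;> simp
    · by_cases h2 : par k (s 2) = 1
      · have e : Tt k t s = ![s 0, s 1, s 2 + t, s 3] := by
          unfold Tt; rw [if_neg h0, if_neg h1, if_pos h2]
        rw [e]
        unfold Tt
        have a1 : ¬ par k ((![s 0, s 1, s 2 + t, s 3] : Fin 4 → ZMod (2 ^ (k + 1))) 0) = 1 := h0
        have a2 : ¬ par k ((![s 0, s 1, s 2 + t, s 3] : Fin 4 → ZMod (2 ^ (k + 1))) 1) = 1 := h1
        have a3 : par k ((![s 0, s 1, s 2 + t, s 3] : Fin 4 → ZMod (2 ^ (k + 1))) 2) = 1 := by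
          show par k (s 2 + t) = 1
          rw [map_add, ht, add_zero, h2]
        rw [if_neg a1, if_neg a2, if_pos a3]
        funext i
        fin_cases i <;> simp
      · have e : Tt k t s = ![s 0, s 1, s 2, s 3 + t] := by
          unfold Tt; rw [if_neg h0, if_neg h1, if_neg h2]
        rw [e]
        unfold Tt
        have a1 : ¬ par k ((![s 0, s 1, s 2, s 3 + t] : Fin 4 → ZMod (2 ^ (k + 1))) 0) = 1 := h0
        have a2 : ¬ par k ((![s 0, s 1, s 2, s 3 + t] : Fin 4 → ZMod (2 ^ (k + 1))) 1) = 1 := h1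
        have a3 : ¬ par k ((![s 0, s 1, s 2, s 3 + t] : Fin 4 → ZMod (2 ^ (k + 1))) 2) = 1 := h2
        rw [if_neg a1, if_neg a2, if_neg a3]
        funext i
        fin_cases i <;> simp

lemma Tt_inj (k : ℕ) (t : ZMod (2 ^ (k + 1))) (ht : par k t = 0) :
    Function.Injective (Tt k t) := by
  intro a b h
  rw [← Tt_inv k t ht a, h, Tt_inv k t ht b]

lemma qz_Tt (k : ℕ) (hk : 3 ≤ k) (s : Fin 4 → ZMod (2 ^ (k + 1))) (hs : par k (qz s) = 1) :
    qz (Tt k (2 ^ (k - 1)) s) = qz s + 2 ^ k := by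
  have h2 : (2 : ZMod (2 ^ (k + 1))) * 2 ^ (k - 1) = 2 ^ k := by
    rw [← pow_succ', Nat.sub_add_cancel (by omega)]
  have h3 : ((2 : ZMod (2 ^ (k + 1))) ^ (k - 1)) ^ 2 = 0 := by
    have e : ((2 : ZMod (2 ^ (k + 1))) ^ (k - 1)) ^ 2 =
        (2 : ZMod (2 ^ (k + 1))) ^ (k + 1) * (2 : ZMod (2 ^ (k + 1))) ^ (k - 3) := by
      rw [← pow_mul, ← pow_add (2 : ZMod (2 ^ (k + 1)))]
      congr 1
      omega
    rw [e, two_pow_zero, zero_mul]
  have ho : ∀ x : ZMod (2 ^ (k + 1)), par k x = 1 → (2 : ZMod (2 ^ (k + 1))) ^ k * x = 2 ^ k :=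
    odd_mul k
  have h3' : par k 3 = 1 := by rw [map_ofNat]; rfl
  have h5' : par k 5 = 1 := by rw [map_ofNat]; rfl
  have h7' : par k 7 = 1 := by rw [map_ofNat]; rfl
  by_cases h0 : par k (s 0) = 1
  · have e : Tt k (2 ^ (k - 1)) s = ![s 0 + 2 ^ (k - 1), s 1, s 2, s 3] := by
      unfold Tt; rw [if_pos h0]
    rw [e]
    show (s 0 + 2 ^ (k - 1)) ^ 2 + 3 * s 1 ^ 2 + 5 * s 2 ^ 2 + 7 * s 3 ^ 2 = _
    unfold qz
    have := ho _ h0
    linear_combination h3 + s 0 * h2 + this
  · by_cases h1 : par k (s 1) = 1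
    · have e : Tt k (2 ^ (k - 1)) s = ![s 0, s 1 + 2 ^ (k - 1), s 2, s 3] := by
        unfold Tt; rw [if_neg h0, if_pos h1]
      rw [e]
      show s 0 ^ 2 + 3 * (s 1 + 2 ^ (k - 1)) ^ 2 + 5 * s 2 ^ 2 + 7 * s 3 ^ 2 = _
      unfold qz
      have := ho (3 * s 1) (by rw [map_mul, h3', h1, one_mul])
      linear_combination 3 * h3 + 3 * s 1 * h2 + this
    · by_cases h2' : par k (s 2) = 1
      · have e : Tt k (2 ^ (k - 1)) s = ![s 0, s 1, s 2 + 2 ^ (k - 1), s 3] := by
          unfold Tt; rw [if_neg h0, if_neg h1, if_pos h2']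
        rw [e]
        show s 0 ^ 2 + 3 * s 1 ^ 2 + 5 * (s 2 + 2 ^ (k - 1)) ^ 2 + 7 * s 3 ^ 2 = _
        unfold qz
        have := ho (5 * s 2) (by rw [map_mul, h5', h2', one_mul])
        linear_combination 5 * h3 + 5 * s 2 * h2 + this
      · have z : ∀ x : ZMod 2, ¬ x = 1 → x = 0 := by decide
        have z0 := z _ h0
        have z1 := z _ h1
        have z2 := z _ h2'
        have h3'' : par k (s 3) = 1 := by
          by_contra hc
          have z3 := z _ hc
          unfold qz at hs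
          simp only [map_add, map_mul, map_pow, z0, z1, z2, z3] at hs
          simp at hs
        have e : Tt k (2 ^ (k - 1)) s = ![s 0, s 1, s 2, s 3 + 2 ^ (k - 1)] := by
          unfold Tt; rw [if_neg h0, if_neg h1, if_neg h2']
        rw [e]
        show s 0 ^ 2 + 3 * s 1 ^ 2 + 5 * s 2 ^ 2 + 7 * (s 3 + 2 ^ (k - 1)) ^ 2 = _
        unfold qz
        have := ho (7 * s 3) (by rw [map_mul, h7', h3'', one_mul])
        linear_combination 7 * h3 + 7 * s 3 * h2 + this

lemma red_surj (k : ℕ) : Function.Surjective (red k) := ZMod.castHom_surjective _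

/-- the reduction of vectors -/
def Red (k : ℕ) : (Fin 4 → ZMod (2 ^ (k + 1))) →+ (Fin 4 → ZMod (2 ^ k)) where
  toFun s := fun i => red k (s i)
  map_zero' := by funext i; simp
  map_add' s t := by funext i; simp

lemma Red_surj (k : ℕ) : Function.Surjective (Red k) := by
  intro t
  choose f hf using red_surj k
  exact ⟨fun i => f (t i), funext fun i => hf _⟩

lemma fiber_card (k : ℕ) [NeZero (2 ^ k)] [NeZero (2 ^ (k + 1))] (y : Fin 4 → ZMod (2 ^ k)) :
    (univ.filter (fun s : Fin 4 → ZMod (2 ^ (k + 1)) => Red k s = y)).card = 16 := by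
  have h1 : ∀ y' : Fin 4 → ZMod (2 ^ k),
      (univ.filter (fun s : Fin 4 → ZMod (2 ^ (k + 1)) => Red k s = y')).card =
      (univ.filter (fun s : Fin 4 → ZMod (2 ^ (k + 1)) => Red k s = y)).card := fun y' =>
    AddMonoidHom.card_fiber_eq_of_mem_range (Red k) (Red_surj k y') (Red_surj k y)
  have h2 := Finset.card_eq_sum_card_fiberwise (s := (univ : Finset (Fin 4 → ZMod (2 ^ (k + 1)))))
    (t := (univ : Finset (Fin 4 → ZMod (2 ^ k)))) (f := Red k) (fun _ _ => Finset.mem_coe.2 (mem_univ _))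
  rw [Finset.sum_congr rfl (fun y' _ => h1 y'), Finset.sum_const, Finset.card_univ,
    Finset.card_univ, Fintype.card_fun, Fintype.card_fun, ZMod.card, ZMod.card, Fintype.card_fin,
    smul_eq_mul] at h2
  have h3 : (2 ^ (k + 1)) ^ 4 = (2 ^ k) ^ 4 * 16 := by ring
  rw [h3] at h2
  exact (Nat.eq_of_mul_eq_mul_left (by positivity) h2).symm

lemma qz_Red (k : ℕ) (s : Fin 4 → ZMod (2 ^ (k + 1))) : qz (Red k s) = red k (qz s) := by
  unfold qz
  simp only [map_add, map_mul, map_pow, map_ofNat]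
  rfl

end HTp

open HTp in
theorem ht : HT := by
  intro k _ _ P hP hk
  classical
  rw [Ns_eq, Ns_eq]
  set A := (univ : Finset (Fin 4 → ZMod (2 ^ (k + 1)))).filter
    (fun s => qz s = (P : ZMod (2 ^ (k + 1)))) with hA
  set B := (univ : Finset (Fin 4 → ZMod (2 ^ (k + 1)))).filter
    (fun s => qz s = (P : ZMod (2 ^ (k + 1))) + 2 ^ k) with hB
  set M := (univ : Finset (Fin 4 → ZMod (2 ^ (k + 1)))).filter
    (fun s => red k (qz s) = (P : ZMod (2 ^ k))) with hM
  have hparP : par k (P : ZMod (2 ^ (k + 1))) = 1 := by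
    rw [map_natCast, ZMod.natCast_eq_one_iff_odd]
    exact hP
  have hpar2 : ∀ j : ℕ, 1 ≤ j → par k (2 ^ j) = 0 := by
    intro j hj
    rw [map_pow, map_ofNat]
    have : (OfNat.ofNat 2 : ZMod 2) = 0 := rfl
    rw [this, zero_pow (by omega)]
  have hMAB : M = A ∪ B := by
    ext s
    simp only [hM, hA, hB, mem_filter, mem_univ, true_and, mem_union]
    constructor
    · intro h
      apply red_eq
      rw [h, map_natCast]
    · rintro (h | h)
      · rw [h, map_natCast]
      · rw [h, map_add, map_natCast, red_two_pow, add_zero]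
  have hdisj : Disjoint A B := by
    rw [Finset.disjoint_left]
    intro s h1 h2
    simp only [hA, hB, mem_filter, mem_univ, true_and] at h1 h2
    rw [h1] at h2
    exact two_pow_ne k (by simpa using h2.symm)
  have ht0 : par k (2 ^ (k - 1)) = 0 := hpar2 _ (by omega)
  have hAB : A.card ≤ B.card := by
    refine Finset.card_le_card_of_injOn (Tt k (2 ^ (k - 1))) ?_ ((Tt_inj k _ ht0).injOn)
    intro s hs
    simp only [hA, coe_filter, mem_univ, true_and, Set.mem_ofPred_eq] at hs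
    simp only [hB, coe_filter, mem_univ, true_and, Set.mem_ofPred_eq]
    rw [qz_Tt k hk s (by rw [hs]; exact hparP), hs]
  have hBA : B.card ≤ A.card := by
    refine Finset.card_le_card_of_injOn (Tt k (2 ^ (k - 1))) ?_ ((Tt_inj k _ ht0).injOn)
    intro s hs
    simp only [hB, coe_filter, mem_univ, true_and, Set.mem_ofPred_eq] at hs
    simp only [hA, coe_filter, mem_univ, true_and, Set.mem_ofPred_eq]
    rw [qz_Tt k hk s (by rw [hs, map_add, hparP, hpar2 k (by omega), add_zero]), hs]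
    have := two_pow_zero k
    linear_combination this
  have hMc : M.card = 16 * ((univ : Finset (Fin 4 → ZMod (2 ^ k))).filter
      (fun s => qz s = (P : ZMod (2 ^ k)))).card := by
    have h2 := Finset.card_eq_sum_card_fiberwise (s := M)
      (t := (univ : Finset (Fin 4 → ZMod (2 ^ k))).filter
      (fun s => qz s = (P : ZMod (2 ^ k)))) (f := Red k) (by
        intro s hs
        simp only [hM, coe_filter, mem_univ, true_and, Set.mem_ofPred_eq] at hs ⊢
        rw [qz_Red, hs])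
    rw [h2]
    have h3 : ∀ y ∈ (univ : Finset (Fin 4 → ZMod (2 ^ k))).filter
      (fun s => qz s = (P : ZMod (2 ^ k))), (M.filter (fun s => Red k s = y)).card = 16 := by
      intro y hy
      rw [← fiber_card k y]
      congr 1
      ext s
      simp only [hM, mem_filter, mem_univ, true_and] at hy ⊢
      constructor
      · exact fun h => h.2
      · intro h
        refine ⟨?_, h⟩
        rw [← qz_Red, h, hy]
    rw [Finset.sum_congr rfl h3, Finset.sum_const, smul_eq_mul, mul_comm]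
  have hc : M.card = A.card + B.card := by
    rw [hMAB, Finset.card_union_of_disjoint hdisj]
  omega

end Pool.Agent.R496.FP
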