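import Pool.Agent.R496.FP.Defs

/-!
# Project FP, piece IN: the singular integral
-/

set_option autoImplicit false
open Finset Complex MeasureTheory

namespace Pool.Agent.R496.FP

lemma in_sinh_sub (u : ℂ) : ‖Complex.sinh u - u‖ ≤ ‖u‖ ^ 3 * Real.exp ‖u‖ := by
  have h1 := Complex.norm_exp_sub_sum_le_norm_mul_exp u 3
  have h2 := Complex.norm_exp_sub_sum_le_norm_mul_exp (-u) 3
  rw [norm_neg] at h2
  have h3 : Complex.sinh u - u = ((cexp u - ∑ m ∈ range 3, u ^ m / (m.factorial : ℂ)) -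
      (cexp (-u) - ∑ m ∈ range 3, (-u) ^ m / (m.factorial : ℂ))) / 2 := by
    rw [Complex.sinh]
    simp [Finset.sum_range_succ, Nat.factorial]
    ring
  rw [h3, norm_div]
  have h4 := norm_sub_le (cexp u - ∑ m ∈ range 3, u ^ m / (m.factorial : ℂ))
    (cexp (-u) - ∑ m ∈ range 3, (-u) ^ m / (m.factorial : ℂ))
  have h5 : ‖(2 : ℂ)‖ = 2 := by simp
  rw [h5]
  linarith

lemma in_sinh_low (u : ℂ) (h0 : 0 ≤ u.re) (h1 : |u.im| ≤ Real.pi / 2) :
    (2 / Real.pi) ^ 2 * ‖u‖ ^ 2 ≤ ‖Complex.sinh u‖ ^ 2 := by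
  have hre : (Complex.sinh u).re = Real.sinh u.re * Real.cos u.im := by
    conv_lhs => rw [← Complex.re_add_im u, Complex.sinh_add, Complex.sinh_mul_I, Complex.cosh_mul_I]
    simp [← Complex.ofReal_sinh, ← Complex.ofReal_cosh, ← Complex.ofReal_sin, ← Complex.ofReal_cos]
  have him : (Complex.sinh u).im = Real.cosh u.re * Real.sin u.im := by
    conv_lhs => rw [← Complex.re_add_im u, Complex.sinh_add, Complex.sinh_mul_I, Complex.cosh_mul_I]
    simp [← Complex.ofReal_sinh, ← Complex.ofReal_cosh, ← Complex.ofReal_sin, ← Complex.ofReal_cos]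
  rw [Complex.sq_norm, Complex.sq_norm, Complex.normSq_apply, Complex.normSq_apply, hre, him]
  have h2 : u.re ≤ Real.sinh u.re := Real.self_le_sinh_iff.2 h0
  have h3 := Real.mul_abs_le_abs_sin h1
  have h4 := Real.cosh_sq u.re
  have h5 := Real.sin_sq_add_cos_sq u.im
  have h6 : (2 / Real.pi * |u.im|) ^ 2 ≤ Real.sin u.im ^ 2 := by
    rw [← sq_abs (Real.sin u.im)]
    have : (0 : ℝ) ≤ 2 / Real.pi * |u.im| := by positivity
    gcongr
  have h7 : u.re ^ 2 ≤ Real.sinh u.re ^ 2 := by gcongr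
  have h8 : (2 / Real.pi) ^ 2 ≤ 1 := by
    have : 2 / Real.pi ≤ 1 := by
      rw [div_le_one Real.pi_pos]
      linarith [Real.pi_gt_three]
    have h9 : 0 ≤ 2 / Real.pi := by positivity
    nlinarith
  have h10 : Real.sinh u.re * Real.cos u.im * (Real.sinh u.re * Real.cos u.im) +
      Real.cosh u.re * Real.sin u.im * (Real.cosh u.re * Real.sin u.im) =
      Real.sinh u.re ^ 2 + Real.sin u.im ^ 2 := by
    have : Real.cosh u.re * Real.sin u.im * (Real.cosh u.re * Real.sin u.im) =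
      Real.cosh u.re ^ 2 * Real.sin u.im ^ 2 := by ring
    rw [this, h4]
    have : Real.sinh u.re * Real.cos u.im * (Real.sinh u.re * Real.cos u.im) =
      Real.sinh u.re ^ 2 * Real.cos u.im ^ 2 := by ring
    rw [this]
    have h11 : Real.cos u.im ^ 2 = 1 - Real.sin u.im ^ 2 := by linarith
    rw [h11]
    ring
  rw [h10]
  rw [mul_pow, sq_abs] at h6
  have h12 : (2 / Real.pi) ^ 2 * (u.re * u.re) ≤ u.re ^ 2 := by
    have : 0 ≤ u.re ^ 2 := sq_nonneg _
    nlinarith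
  nlinarith

/-- the comparison of the two kernels -/
lemma in_kernel (u : ℂ) (h0 : 0 < u.re) (h1 : |u.im| ≤ Real.pi / 2) (h2 : ‖u‖ ≤ 4) :
    ‖1 / Complex.sinh u ^ 2 - 1 / u ^ 2‖ ≤
      Real.exp 4 * (16 * Real.exp 4 + 2) * (Real.pi / 2) ^ 2 := by
  have hu : u ≠ 0 := by
    rintro rfl
    simp at h0
  have hupos : 0 < ‖u‖ := norm_pos_iff.2 hu
  have hlow := in_sinh_low u h0.le h1
  have hspos : 0 < ‖Complex.sinh u‖ ^ 2 := by
    refine lt_of_lt_of_le ?_ hlow
    have := Real.pi_pos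
    positivity
  have hs : Complex.sinh u ≠ 0 := by
    intro h
    rw [h] at hspos
    simp at hspos
  have h3 := in_sinh_sub u
  have h4 : ‖Complex.sinh u - u‖ ≤ ‖u‖ ^ 3 * Real.exp 4 := by
    refine h3.trans ?_
    gcongr
  have h5 : ‖Complex.sinh u + u‖ ≤ ‖u‖ * (16 * Real.exp 4 + 2) := by
    have h6 : Complex.sinh u + u = (Complex.sinh u - u) + 2 * u := by ring
    rw [h6]
    refine (norm_add_le _ _).trans ?_
    rw [norm_mul]
    have h7 : ‖(2 : ℂ)‖ = 2 := by simp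
    rw [h7]
    have h8 : ‖u‖ ^ 3 * Real.exp 4 ≤ ‖u‖ * (16 * Real.exp 4) := by
      have h9 : ‖u‖ ^ 2 ≤ 16 := by nlinarith
      have h10 : ‖u‖ ^ 3 * Real.exp 4 = ‖u‖ * (‖u‖ ^ 2 * Real.exp 4) := by ring
      rw [h10]
      gcongr
    linarith
  have h6 : 1 / Complex.sinh u ^ 2 - 1 / u ^ 2 =
      -((Complex.sinh u - u) * (Complex.sinh u + u)) / (u ^ 2 * Complex.sinh u ^ 2) := by
    field_simp
    ring
  rw [h6, norm_div, norm_neg, norm_mul, norm_mul, norm_pow, norm_pow, div_le_iff₀ (by positivity)]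
  have hpi := Real.pi_pos
  calc ‖Complex.sinh u - u‖ * ‖Complex.sinh u + u‖ ≤
      (‖u‖ ^ 3 * Real.exp 4) * (‖u‖ * (16 * Real.exp 4 + 2)) := by gcongr
    _ = Real.exp 4 * (16 * Real.exp 4 + 2) * (Real.pi / 2) ^ 2 *
        (‖u‖ ^ 2 * ((2 / Real.pi) ^ 2 * ‖u‖ ^ 2)) := by
      field_simp
    _ ≤ _ := by gcongr

/-- `w = y - i β` -/
noncomputable def inw (y β : ℝ) : ℂ := (y : ℂ) - β * I

/-- `z = exp (-2 π w)` -/
noncomputable def inz (y β : ℝ) : ℂ := cexp (-(2 * Real.pi * inw y β))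

lemma inz_eq (y β : ℝ) : inz y β = (Real.exp (-(2 * Real.pi * y)) : ℝ) * ee β := by
  rw [inz, inw, ee, Complex.ofReal_exp, ← Complex.exp_add]
  congr 1
  push_cast
  ring

lemma norm_ee (x : ℝ) : ‖ee x‖ = 1 := by
  rw [ee]
  have : (2 * (Real.pi : ℂ) * I * x) = ((2 * Real.pi * x : ℝ) : ℂ) * I := by
    push_cast
    ring
  rw [this, Complex.norm_exp_ofReal_mul_I]

lemma norm_inz (y β : ℝ) : ‖inz y β‖ = Real.exp (-(2 * Real.pi * y)) := by
  rw [inz_eq, norm_mul, norm_ee, mul_one, Complex.norm_real, Real.norm_eq_abs,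
    abs_of_pos (Real.exp_pos _)]

lemma norm_inz_lt {y : ℝ} (hy : 0 < y) (β : ℝ) : ‖inz y β‖ < 1 := by
  rw [norm_inz, Real.exp_lt_one_iff]
  have := Real.pi_pos
  have : 0 < 2 * Real.pi * y := by positivity
  linarith

lemma inw_ne {y : ℝ} (hy : 0 < y) (β : ℝ) : inw y β ≠ 0 := by
  intro h
  have := congrArg Complex.re h
  simp [inw] at this
  exact hy.ne' this

lemma one_sub_inz_ne {y : ℝ} (hy : 0 < y) (β : ℝ) : 1 - inz y β ≠ 0 := by
  intro h
  have h1 : inz y β = 1 := (sub_eq_zero.1 h).symm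
  have h2 := norm_inz_lt hy β
  rw [h1, norm_one] at h2
  exact lt_irrefl _ h2

lemma continuous_inw (y : ℝ) : Continuous (inw y) := by
  unfold inw
  fun_prop

lemma continuous_inz (y : ℝ) : Continuous (inz y) := by
  unfold inz
  exact Complex.continuous_exp.comp ((continuous_const.mul (continuous_inw y)).neg)

lemma continuous_ee : Continuous ee := by
  unfold ee
  fun_prop

/-- the kernel -/
noncomputable def inK (y β : ℝ) : ℂ := inz y β / (1 - inz y β) ^ 2

lemma continuous_inK {y : ℝ} (hy : 0 < y) : Continuous (inK y) := by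
  unfold inK
  exact (continuous_inz y).div ((continuous_const.sub (continuous_inz y)).pow 2)
    fun β => pow_ne_zero 2 (one_sub_inz_ne hy β)

lemma inK_eq {y : ℝ} (hy : 0 < y) (β : ℝ) :
    inK y β = 1 / (4 * Complex.sinh (Real.pi * inw y β) ^ 2) := by
  have h1 := one_sub_inz_ne hy β
  have h2 : inz y β = cexp (-(Real.pi * inw y β)) ^ 2 := by
    rw [inz, ← Complex.exp_nat_mul]
    congr 1
    push_cast
    ring
  have h3 : cexp (Real.pi * inw y β) * cexp (-(Real.pi * inw y β)) = 1 := by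
    rw [← Complex.exp_add]
    simp
  have h4 : cexp (-(Real.pi * inw y β)) ≠ 0 := Complex.exp_ne_zero _
  rw [h2] at h1
  rw [inK, h2, Complex.sinh]
  have h5 : cexp (Real.pi * inw y β) = 1 / cexp (-(Real.pi * inw y β)) := by
    rw [eq_div_iff h4, h3]
  rw [h5]
  generalize cexp (-(Real.pi * inw y β)) = E at h1 h4
  field_simp
  norm_num

lemma in_diff {y : ℝ} (hy : 0 < y) (hy1 : y ≤ 1) {β : ℝ} (h0 : 0 ≤ β) (h1 : β ≤ 1 / 2) :
    ‖1 / inw y β ^ 2 - 4 * (Real.pi : ℂ) ^ 2 * inK y β‖ ≤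
      Real.pi ^ 2 * (Real.exp 4 * (16 * Real.exp 4 + 2) * (Real.pi / 2) ^ 2) := by
  have hpi := Real.pi_pos
  have hre : ((Real.pi : ℂ) * inw y β).re = Real.pi * y := by simp [inw]
  have him : ((Real.pi : ℂ) * inw y β).im = -(Real.pi * β) := by simp [inw]
  have hn : ‖(Real.pi : ℂ) * inw y β‖ ≤ 4 := by
    have h2 : ‖(Real.pi : ℂ) * inw y β‖ ^ 2 ≤ 4 ^ 2 := by
      rw [Complex.sq_norm, Complex.normSq_apply, hre, him]
      have h3 : Real.pi * y * (Real.pi * y) + -(Real.pi * β) * -(Real.pi * β) =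
          Real.pi ^ 2 * (y ^ 2 + β ^ 2) := by ring
      rw [h3]
      have h4 : y ^ 2 + β ^ 2 ≤ 5 / 4 := by nlinarith
      have h5 : Real.pi ^ 2 ≤ 3.15 ^ 2 := by
        have := Real.pi_lt_d2
        gcongr
      calc Real.pi ^ 2 * (y ^ 2 + β ^ 2) ≤ 3.15 ^ 2 * (5 / 4) := by gcongr
        _ ≤ 4 ^ 2 := by norm_num
    exact le_of_sq_le_sq h2 (by norm_num)
  have hk := in_kernel ((Real.pi : ℂ) * inw y β) (by rw [hre]; positivity) (by
    rw [him, abs_neg, abs_of_nonneg (by positivity)]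
    nlinarith) hn
  have hs : 1 / inw y β ^ 2 - 4 * (Real.pi : ℂ) ^ 2 * inK y β =
      -((Real.pi : ℂ) ^ 2 * (1 / Complex.sinh (Real.pi * inw y β) ^ 2 -
        1 / (Real.pi * inw y β) ^ 2)) := by
    rw [inK_eq hy]
    have hw := inw_ne hy β
    have hpic : (Real.pi : ℂ) ≠ 0 := by exact_mod_cast hpi.ne'
    rw [mul_sub]
    have h6 : (Real.pi : ℂ) ^ 2 * (1 / (Real.pi * inw y β) ^ 2) = 1 / inw y β ^ 2 := by
      field_simp
    have h7 : 4 * (Real.pi : ℂ) ^ 2 * (1 / (4 * Complex.sinh (Real.pi * inw y β) ^ 2)) =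
        (Real.pi : ℂ) ^ 2 * (1 / Complex.sinh (Real.pi * inw y β) ^ 2) := by
      rw [one_div, one_div, mul_inv]
      ring
    rw [h6, h7]
    ring
  rw [hs, norm_neg, norm_mul, norm_pow, Complex.norm_real, Real.norm_eq_abs, abs_of_pos hpi]
  gcongr

/-- the integral of one term -/
lemma in_J (k : ℤ) : (∫ β in (0:ℝ)..(1 / 2), ee (k * β)).re = if k = 0 then 1 / 2 else 0 := by
  split_ifs with hk
  · subst hk
    simp [ee]
  · have h1 : ∀ β : ℝ, ee (k * β) = cexp ((2 * Real.pi * I * k) * β) := by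
      intro β
      rw [ee]
      congr 1
      push_cast
      ring
    simp_rw [h1]
    have hpic : (Real.pi : ℂ) ≠ 0 := by exact_mod_cast Real.pi_ne_zero
    have hkc : (k : ℂ) ≠ 0 := by exact_mod_cast hk
    have hc : (2 * (Real.pi : ℂ) * I * k) ≠ 0 := by
      simp [hpic, hkc]
    rw [integral_exp_mul_complex hc]
    have h2 : cexp (2 * (Real.pi : ℂ) * I * k * ((1 / 2 : ℝ) : ℂ)) = (((-1 : ℝ) ^ k : ℝ) : ℂ) := by
      have h3 : 2 * (Real.pi : ℂ) * I * k * ((1 / 2 : ℝ) : ℂ) = k * (Real.pi * I) := by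
        push_cast
        ring
      rw [h3, Complex.exp_int_mul, Complex.exp_pi_mul_I]
      push_cast
      rfl
    have h4 : cexp (2 * (Real.pi : ℂ) * I * k * ((0 : ℝ) : ℂ)) = ((1 : ℝ) : ℂ) := by simp
    rw [h2, h4]
    have h5 : ((((-1 : ℝ) ^ k : ℝ) : ℂ) - ((1 : ℝ) : ℂ)) / (2 * (Real.pi : ℂ) * I * k) =
        ((-(((-1 : ℝ) ^ k - 1) / (2 * Real.pi * k)) : ℝ) : ℂ) * I := by
      rw [div_eq_iff hc]
      push_cast
      field_simp
      rw [Complex.I_sq]
      ring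
    rw [h5, Complex.re_ofReal_mul, Complex.I_re, mul_zero]

/-- (a): the integral of the kernel -/
lemma in_main {y : ℝ} (hy : 0 < y) (P : ℕ) :
    (∫ β in (0:ℝ)..(1 / 2), ee (-(P * β)) * inK y β).re =
      P * Real.exp (-(2 * Real.pi * y * P)) / 2 := by
  set r : ℝ := Real.exp (-(2 * Real.pi * y)) with hr
  have hr0 : 0 < r := Real.exp_pos _
  have hr1 : r < 1 := by
    have := norm_inz_lt hy 0
    rwa [norm_inz] at this
  have hbs : Summable fun n : ℕ => (n : ℝ) * r ^ n := by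
    have := hasSum_coe_mul_geometric_of_norm_lt_one (𝕜 := ℝ) (r := r) (by
      rw [Real.norm_eq_abs, abs_of_pos hr0]; exact hr1)
    exact this.summable
  have hsum : HasSum (fun m : ℕ => ∫ β in (0:ℝ)..(1 / 2), ee (-(P * β)) * ((m : ℂ) * inz y β ^ m))
      (∫ β in (0:ℝ)..(1 / 2), ee (-(P * β)) * inK y β) := by
    refine intervalIntegral.hasSum_integral_of_dominated_convergence
      (fun n _ => (n : ℝ) * r ^ n) ?_ ?_ ?_ ?_ ?_
    · intro n
      refine Continuous.aestronglyMeasurable ?_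
      exact (continuous_ee.comp (by fun_prop)).mul (continuous_const.mul ((continuous_inz y).pow n))
    · intro n
      refine Filter.Eventually.of_forall fun β _ => ?_
      rw [norm_mul, norm_mul, norm_pow, norm_ee, norm_inz, one_mul]
      simp [hr]
    · exact Filter.Eventually.of_forall fun β _ => hbs
    · exact intervalIntegrable_const
    · refine Filter.Eventually.of_forall fun β _ => ?_
      exact (hasSum_coe_mul_geometric_of_norm_lt_one (norm_inz_lt hy β)).mul_left _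
  have hterm : ∀ m : ℕ, (∫ β in (0:ℝ)..(1 / 2), ee (-(P * β)) * ((m : ℂ) * inz y β ^ m)) =
      ((m * r ^ m : ℝ) : ℂ) * ∫ β in (0:ℝ)..(1 / 2), ee (((m - P : ℤ) : ℝ) * β) := by
    intro m
    rw [← intervalIntegral.integral_const_mul]
    congr 1
    funext β
    rw [inz_eq, ← hr, mul_pow]
    have h1 : ee (-(P * β)) * ee β ^ m = ee (((m - P : ℤ) : ℝ) * β) := by
      rw [ee, ee, ee, ← Complex.exp_nat_mul, ← Complex.exp_add]
      congr 1
      push_cast
      ring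
    rw [← h1]
    push_cast
    ring
  have hre := Complex.reCLM.hasSum hsum
  simp only [Complex.reCLM_apply] at hre
  have hre2 : ∀ m : ℕ, (∫ β in (0:ℝ)..(1 / 2), ee (-(P * β)) * ((m : ℂ) * inz y β ^ m)).re =
      if m = P then P * r ^ P / 2 else 0 := by
    intro m
    rw [hterm m, Complex.re_ofReal_mul, in_J]
    by_cases h : m = P
    · subst h
      simp
      ring
    · rw [if_neg h, if_neg]
      · simp
      · intro h2
        apply h
        omega
  have hfin : HasSum (fun m : ℕ => (∫ β in (0:ℝ)..(1 / 2), ee (-(P * β)) *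
      ((m : ℂ) * inz y β ^ m)).re) (P * r ^ P / 2) := by
    simp_rw [hre2]
    exact hasSum_ite_eq P _
  rw [hre.unique hfin, hr, ← Real.exp_nat_mul]
  congr 3
  ring

theorem inn : IN := by
  refine ⟨Real.pi ^ 2 * (Real.exp 4 * (16 * Real.exp 4 + 2) * (Real.pi / 2) ^ 2), ?_, ?_⟩
  · have := Real.pi_pos
    positivity
  intro y hy hy1 P
  have hc1 : Continuous fun β : ℝ => ee (-(P * β)) := continuous_ee.comp (by fun_prop)
  have hc2 : Continuous fun β : ℝ => ee (-(P * β)) * (1 / inw y β ^ 2) :=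
    hc1.mul (continuous_const.div ((continuous_inw y).pow 2) fun β => pow_ne_zero 2 (inw_ne hy β))
  have hc3 : Continuous fun β : ℝ => ee (-(P * β)) * inK y β := hc1.mul (continuous_inK hy)
  have hc4 : Continuous fun β : ℝ => ((4 * Real.pi ^ 2 : ℝ) : ℂ) * (ee (-(P * β)) * inK y β) :=
    continuous_const.mul hc3
  have h1 : (∫ β in (0:ℝ)..(1 / 2), ee (-(P * β)) / ((y : ℂ) - β * I) ^ 2) -
      (4 * Real.pi ^ 2 : ℝ) * ∫ β in (0:ℝ)..(1 / 2), ee (-(P * β)) * inK y β =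
      ∫ β in (0:ℝ)..(1 / 2), ee (-(P * β)) *
        (1 / inw y β ^ 2 - 4 * (Real.pi : ℂ) ^ 2 * inK y β) := by
    rw [← intervalIntegral.integral_const_mul]
    have h2 : (∫ β in (0:ℝ)..(1 / 2), ee (-(P * β)) / ((y : ℂ) - β * I) ^ 2) =
        ∫ β in (0:ℝ)..(1 / 2), ee (-(P * β)) * (1 / inw y β ^ 2) := by
      congr 1
      funext β
      rw [inw, mul_one_div]
    rw [h2, ← intervalIntegral.integral_sub (hc2.intervalIntegrable _ _)
      (hc4.intervalIntegrable _ _)]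
    congr 1
    funext β
    push_cast
    ring
  have h3 : ‖∫ β in (0:ℝ)..(1 / 2), ee (-(P * β)) *
        (1 / inw y β ^ 2 - 4 * (Real.pi : ℂ) ^ 2 * inK y β)‖ ≤
      Real.pi ^ 2 * (Real.exp 4 * (16 * Real.exp 4 + 2) * (Real.pi / 2) ^ 2) *
        |1 / 2 - (0 : ℝ)| := by
    apply intervalIntegral.norm_integral_le_of_norm_le_const
    intro β hβ
    rw [Set.uIoc_of_le (by norm_num)] at hβ
    rw [norm_mul, norm_ee, one_mul]
    exact in_diff hy hy1 hβ.1.le hβ.2
  rw [← h1] at h3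
  have h4 := Complex.abs_re_le_norm ((∫ β in (0:ℝ)..(1 / 2), ee (-(P * β)) /
      ((y : ℂ) - β * I) ^ 2) -
      (4 * Real.pi ^ 2 : ℝ) * ∫ β in (0:ℝ)..(1 / 2), ee (-(P * β)) * inK y β)
  rw [Complex.sub_re, Complex.re_ofReal_mul, in_main hy P] at h4
  have h5 : 2 * (∫ β in (0:ℝ)..(1 / 2), ee (-(P * β)) / ((y : ℂ) - β * I) ^ 2).re -
      4 * Real.pi ^ 2 * P * Real.exp (-(2 * Real.pi * y * P)) =
      2 * ((∫ β in (0:ℝ)..(1 / 2), ee (-(P * β)) / ((y : ℂ) - β * I) ^ 2).re -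
      4 * Real.pi ^ 2 * (P * Real.exp (-(2 * Real.pi * y * P)) / 2)) := by ring
  rw [h5, abs_mul, abs_of_pos (by norm_num : (0:ℝ) < 2)]
  have h6 : |1 / 2 - (0 : ℝ)| = 1 / 2 := by norm_num
  rw [h6] at h3
  linarith

end Pool.Agent.R496.FP
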