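import Pool.Agent.R496.FP.Defs
import Pool.Agent.W65.FS.NegOne

/-!
# Project FP, piece LC: the number of solutions modulo a prime, and solvability at the small primes
-/

set_option autoImplicit false
open Finset Complex MeasureTheory

namespace Pool.Agent.R496.FP

open Pool.Agent.W65.FS

theorem Ns_pos (d : ℕ) [NeZero d] (P : ℕ) (s : Fin 4 → ZMod d)
    (h : s 0 ^ 2 + 3 * s 1 ^ 2 + 5 * s 2 ^ 2 + 7 * s 3 ^ 2 = (P : ZMod d)) : 0 < Ns d P := by
  classical
  unfold Ns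
  exact Finset.card_pos.2 ⟨s, Finset.mem_filter.2 ⟨Finset.mem_univ _, h⟩⟩

/-- The Gauss sum as a character sum. -/
theorem g0_char (l : ℕ) [NeZero l] [Fact l.Prime] (hl : l ≠ 2) (a : ZMod l) (ha : a ≠ 0) :
    g0 l a = ∑ x : ZMod l, ((quadraticChar (ZMod l) x : ℤ) : ℂ) * ZMod.stdAddChar (a * x) := by
  classical
  have hF : ringChar (ZMod l) ≠ 2 := by rwa [ZMod.ringChar_zmod_n]
  unfold g0
  have h1 : ∑ s : ZMod l, (ZMod.stdAddChar (a * s ^ 2) : ℂ) =
      ∑ x : ZMod l, ∑ s ∈ univ.filter (fun s : ZMod l => s ^ 2 = x),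
        (ZMod.stdAddChar (a * s ^ 2) : ℂ) := by
    rw [Finset.sum_fiberwise]
  rw [h1]
  have h2 : ∀ x : ZMod l, ∑ s ∈ univ.filter (fun s : ZMod l => s ^ 2 = x),
      (ZMod.stdAddChar (a * s ^ 2) : ℂ) =
      (((quadraticChar (ZMod l) x : ℤ) : ℂ) + 1) * ZMod.stdAddChar (a * x) := by
    intro x
    rw [Finset.sum_congr rfl (g := fun _ => (ZMod.stdAddChar (a * x) : ℂ)) (fun s hs => by
      rw [(Finset.mem_filter.1 hs).2]), Finset.sum_const, nsmul_eq_mul]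
    congr 1
    have h3 := quadraticChar_card_sqrts hF x
    have h4 : (univ.filter (fun s : ZMod l => s ^ 2 = x)) = {s : ZMod l | s ^ 2 = x}.toFinset := by
      ext s; simp
    rw [h4]
    have h5 := congrArg (fun z : ℤ => (z : ℂ)) h3
    simp only [Int.cast_natCast, Int.cast_add, Int.cast_one] at h5
    exact h5
  simp_rw [h2, add_mul, one_mul]
  rw [Finset.sum_add_distrib]
  have h6 : ∑ x : ZMod l, (ZMod.stdAddChar (a * x) : ℂ) = 0 := by
    have h7 := AddChar.sum_mulShift a (ZMod.isPrimitive_stdAddChar l)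
    rw [if_neg ha] at h7
    simp_rw [mul_comm a]
    exact_mod_cast h7
  rw [h6, add_zero]

/-- The dependence of the Gauss sum on the parameter. -/
theorem g0_mul (l : ℕ) [NeZero l] [Fact l.Prime] (hl : l ≠ 2) (b : ZMod l) (hb : b ≠ 0) :
    ∃ ε : ℂ, (ε = 1 ∨ ε = -1) ∧ ∀ a : ZMod l, a ≠ 0 → g0 l (b * a) = ε * g0 l a := by
  classical
  refine ⟨((quadraticChar (ZMod l) b : ℤ) : ℂ), ?_, fun a ha => ?_⟩
  · rcases quadraticChar_dichotomy hb with h | h
    · left; rw [h]; simp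
    · right; rw [h]; simp
  · rw [g0_char l hl _ (mul_ne_zero hb ha), g0_char l hl a ha, Finset.mul_sum]
    rw [← Equiv.sum_comp (Equiv.mulLeft₀ b hb)
      (fun x => ((quadraticChar (ZMod l) b : ℤ) : ℂ) *
        (((quadraticChar (ZMod l) x : ℤ) : ℂ) * ZMod.stdAddChar (a * x)))]
    apply Finset.sum_congr rfl
    intro x _
    have h1 : quadraticChar (ZMod l) b * quadraticChar (ZMod l) b = 1 := by
      rcases quadraticChar_dichotomy hb with h | h <;> rw [h] <;> norm_num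
    have h2 := congrArg (fun z : ℤ => (z : ℂ)) h1
    simp only [Int.cast_mul, Int.cast_one] at h2
    have hE : (Equiv.mulLeft₀ b hb) x = b * x := rfl
    simp only [hE, map_mul, Int.cast_mul]
    have h3 : a * (b * x) = b * a * x := by ring
    rw [h3]
    linear_combination (-((quadraticChar (ZMod l) x : ℤ) : ℂ) * ZMod.stdAddChar (b * a * x)) * h2

theorem count_form (l : ℕ) [NeZero l] [Fact l.Prime] (hl7 : 7 < l) (P : ℕ) (hP : ¬ l ∣ P) :
    ∃ ε : ℂ, (ε = 1 ∨ ε = -1) ∧ (Ns l P : ℂ) * l = (l : ℂ) ^ 4 - ε * (l : ℂ) ^ 2 := by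
  classical
  have hlp : l.Prime := Fact.out
  have hl2 : l ≠ 2 := by omega
  have hlo : Odd l := hlp.odd_of_ne_two hl2
  have hne : ∀ j : ℕ, 0 < j → j < l → (j : ZMod l) ≠ 0 := by
    intro j hj hjl h
    rw [ZMod.natCast_eq_zero_iff] at h
    exact absurd (Nat.le_of_dvd hj h) (by omega)
  have h3 : (3 : ZMod l) ≠ 0 := by exact_mod_cast hne 3 (by norm_num) (by omega)
  have h5 : (5 : ZMod l) ≠ 0 := by exact_mod_cast hne 5 (by norm_num) (by omega)
  have h7 : (7 : ZMod l) ≠ 0 := by exact_mod_cast hne 7 (by norm_num) hl7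
  have hPz : (P : ZMod l) ≠ 0 := by
    rw [Ne, ZMod.natCast_eq_zero_iff]; exact hP
  obtain ⟨e3, he3, hg3⟩ := g0_mul l hl2 3 h3
  obtain ⟨e5, he5, hg5⟩ := g0_mul l hl2 5 h5
  obtain ⟨e7, he7, hg7⟩ := g0_mul l hl2 7 h7
  refine ⟨e3 * e5 * e7, ?_, ?_⟩
  · rcases he3 with h | h <;> rcases he5 with h' | h' <;> rcases he7 with h'' | h'' <;>
      rw [h, h', h''] <;> norm_num
  set n : ZMod l := (P : ZMod l) with hn
  let q : (Fin 4 → ZMod l) → ZMod l := fun s => s 0 ^ 2 + 3 * s 1 ^ 2 + 5 * s 2 ^ 2 + 7 * s 3 ^ 2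
  have h1 : (Ns l P : ℂ) * l =
      ∑ u : Fin 4 → ZMod l, ∑ a : ZMod l, ZMod.stdAddChar (a * (q u - n)) := by
    have : ∀ u : Fin 4 → ZMod l, ∑ a : ZMod l, (ZMod.stdAddChar (a * (q u - n)) : ℂ) =
        if q u = n then (l : ℂ) else 0 := by
      intro u
      rw [AddChar.sum_mulShift _ (ZMod.isPrimitive_stdAddChar l), ZMod.card]
      by_cases h : q u = n
      · rw [if_pos h, if_pos (by rw [h, sub_self])]
      · rw [if_neg h, if_neg (by rwa [sub_eq_zero]), Nat.cast_zero]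
    simp_rw [this]
    rw [← Finset.sum_filter, Finset.sum_const, nsmul_eq_mul]
    unfold Ns
    congr 2
  rw [h1, Finset.sum_comm]
  have h2 : ∀ a : ZMod l, ∑ u : Fin 4 → ZMod l, (ZMod.stdAddChar (a * (q u - n)) : ℂ) =
      ZMod.stdAddChar (a * (-n)) * G4 l a := by
    intro a
    let cf : Fin 4 → ZMod l := ![1, 3, 5, 7]
    have e1 : G4 l a = ∏ i : Fin 4, ∑ r : ZMod l, (ZMod.stdAddChar (cf i * a * r ^ 2) : ℂ) := by
      rw [Fin.prod_univ_four]
      unfold G4 g0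
      simp only [cf, Matrix.cons_val_zero, Matrix.cons_val_one, Matrix.cons_val, one_mul]
      ring
    rw [e1, Finset.prod_univ_sum, Finset.mul_sum, Fintype.piFinset_univ]
    apply Finset.sum_congr rfl
    intro u _
    rw [Fin.prod_univ_four, ← AddChar.map_add_eq_mul, ← AddChar.map_add_eq_mul,
      ← AddChar.map_add_eq_mul, ← AddChar.map_add_eq_mul]
    congr 1
    simp only [cf, q, Matrix.cons_val_zero, Matrix.cons_val_one, Matrix.cons_val]
    ring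
  simp_rw [h2]
  rw [← Finset.add_sum_erase _ _ (Finset.mem_univ (0 : ZMod l))]
  have hfour : ∀ a : ZMod l, a ≠ 0 → G4 l a = e3 * e5 * e7 * (l : ℂ) ^ 2 := by
    intro a ha
    have h4 := gauss_four l hlo a (isUnit_iff_ne_zero.2 ha)
    unfold G4
    rw [hg3 a ha, hg5 a ha, hg7 a ha, ← h4]
    have : g0 l a = ∑ r : ZMod l, (ZMod.stdAddChar (a * r ^ 2) : ℂ) := rfl
    rw [← this]
    ring
  have h0 : G4 l 0 = (l : ℂ) ^ 4 := by
    unfold G4 g0
    simp only [mul_zero, zero_mul, AddChar.map_zero_eq_one, Finset.sum_const, Finset.card_univ,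
      ZMod.card, nsmul_eq_mul, mul_one]
    ring
  have h3' : ∀ a ∈ univ.erase (0 : ZMod l), (ZMod.stdAddChar (a * (-n)) : ℂ) * G4 l a =
      (e3 * e5 * e7 * (l : ℂ) ^ 2) * ZMod.stdAddChar (a * (-n)) := by
    intro a ha
    rw [hfour a (Finset.ne_of_mem_erase ha)]
    ring
  rw [Finset.sum_congr rfl h3', ← Finset.mul_sum]
  have h4 : ∑ a ∈ univ.erase (0 : ZMod l), (ZMod.stdAddChar (a * (-n)) : ℂ) = - 1 := by
    have h5 := AddChar.sum_mulShift (-n) (ZMod.isPrimitive_stdAddChar l)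
    rw [← Finset.add_sum_erase _ _ (Finset.mem_univ (0 : ZMod l)), ZMod.card] at h5
    rw [if_neg (neg_ne_zero.2 hPz)] at h5
    simp only [zero_mul, AddChar.map_zero_eq_one] at h5
    push_cast at h5
    linear_combination h5
  rw [h4, h0]
  simp only [zero_mul, AddChar.map_zero_eq_one]
  ring

theorem lc : LC := by
  refine ⟨fun l _ P hlp hl7 hP => ?_, fun l _ P hl hP => ?_, fun P hP => ?_⟩
  · have : Fact l.Prime := ⟨hlp⟩
    obtain ⟨ε, hε, h⟩ := count_form l hl7 P hP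
    have hl0 : (0 : ℝ) < l := by exact_mod_cast hlp.pos
    have key : ∃ e : ℝ, (e = 1 ∨ e = -1) ∧ (Ns l P : ℝ) * l = (l : ℝ) ^ 4 - e * (l : ℝ) ^ 2 := by
      rcases hε with h' | h'
      · refine ⟨1, Or.inl rfl, ?_⟩
        rw [h'] at h
        exact_mod_cast h
      · refine ⟨-1, Or.inr rfl, ?_⟩
        rw [h'] at h
        have : (((Ns l P : ℝ) * l : ℝ) : ℂ) = (((l : ℝ) ^ 4 - (-1) * (l : ℝ) ^ 2 : ℝ) : ℂ) := by
          push_cast
          exact h
        exact_mod_cast this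
    obtain ⟨e, he, hk⟩ := key
    have h2 : (Ns l P : ℝ) - (l : ℝ) ^ 3 = - e * l := by
      have h3 : ((Ns l P : ℝ) - (l : ℝ) ^ 3 + e * l) * l = 0 := by linear_combination hk
      rcases mul_eq_zero.1 h3 with h4 | h4
      · linarith
      · exact absurd h4 hl0.ne'
    rw [h2]
    rcases he with h4 | h4 <;> rw [h4, abs_mul] <;> simp [abs_of_pos hl0]
  · rcases hl with rfl | rfl | rfl
    · have h1 : ∀ p : ZMod 3, p ≠ 0 → ∃ x w : ZMod 3,
          x ^ 2 + 3 * 0 ^ 2 + 5 * 0 ^ 2 + 7 * w ^ 2 = p := by decide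
      obtain ⟨x, w, h⟩ := h1 (P : ZMod 3) (by rw [Ne, ZMod.natCast_eq_zero_iff]; exact hP)
      exact Ns_pos 3 P ![x, 0, 0, w] h
    · have h1 : ∀ p : ZMod 5, p ≠ 0 → ∃ x y : ZMod 5,
          x ^ 2 + 3 * y ^ 2 + 5 * 0 ^ 2 + 7 * 0 ^ 2 = p := by decide
      obtain ⟨x, y, h⟩ := h1 (P : ZMod 5) (by rw [Ne, ZMod.natCast_eq_zero_iff]; exact hP)
      exact Ns_pos 5 P ![x, y, 0, 0] h
    · have h1 : ∀ p : ZMod 7, p ≠ 0 → ∃ x y : ZMod 7,
          x ^ 2 + 3 * y ^ 2 + 5 * 0 ^ 2 + 7 * 0 ^ 2 = p := by decide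
      obtain ⟨x, y, h⟩ := h1 (P : ZMod 7) (by rw [Ne, ZMod.natCast_eq_zero_iff]; exact hP)
      exact Ns_pos 7 P ![x, y, 0, 0] h
  · have h1 : P % 8 = 1 ∨ P % 8 = 3 ∨ P % 8 = 5 ∨ P % 8 = 7 := by
      obtain ⟨k, rfl⟩ := hP
      omega
    have h2 : (P : ZMod 8) = ((P % 8 : ℕ) : ZMod 8) := (ZMod.natCast_mod P 8).symm
    rcases h1 with h | h | h | h <;> rw [h] at h2
    · exact Ns_pos 8 P ![1, 0, 0, 0] (by rw [h2]; decide)
    · exact Ns_pos 8 P ![0, 1, 0, 0] (by rw [h2]; decide)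
    · exact Ns_pos 8 P ![0, 0, 1, 0] (by rw [h2]; decide)
    · exact Ns_pos 8 P ![0, 0, 0, 1] (by rw [h2]; decide)

end Pool.Agent.R496.FP
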