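import Pool.Agent.R496.FP.Defs2

/-!
# Project FP, piece LD: lower bound for a local density
-/

set_option autoImplicit false
open Finset

namespace Pool.Agent.R496.FP

open Pool.Agent.W65.FS

namespace LDx

section field

variable {F : Type} [Field F] [Fintype F] [DecidableEq F]

/-- the coefficients -/
def co (i : Fin 4) : F := (![1, 3, 5, 7] : Fin 4 → F) i

/-- sum of squares -/
def s2 (s : Fin 4 → F) : F := ∑ i, s i ^ 2

/-- the form -/
def q2 (s : Fin 4 → F) : F := ∑ i, co i * s i ^ 2

/-- number of solutions -/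
def NN (p : F × F) : ℕ := (univ.filter (fun s : Fin 4 → F => (s2 s, q2 s) = p)).card

omit [DecidableEq F] in
theorem card_fun4 : Fintype.card (Fin 4 → F) = Fintype.card F ^ 4 := by
  rw [Fintype.card_fun, Fintype.card_fin]

theorem sum_NN : ∑ p : F × F, NN p = Fintype.card F ^ 4 := by
  unfold NN
  rw [← Finset.card_eq_sum_card_fiberwise (f := fun s : Fin 4 → F => (s2 s, q2 s))
    (s := univ) (t := univ) (fun _ _ => Finset.mem_coe.2 (mem_univ _))]
  rw [Finset.card_univ, card_fun4]

/-- pairs with the same values -/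
def TT : Finset ((Fin 4 → F) × (Fin 4 → F)) :=
  univ.filter (fun x => (s2 x.1, q2 x.1) = (s2 x.2, q2 x.2))

theorem sum_NN_sq : ∑ p : F × F, NN p ^ 2 = (TT (F := F)).card := by
  rw [Finset.card_eq_sum_card_fiberwise (f := fun x : (Fin 4 → F) × (Fin 4 → F) =>
    (s2 x.1, q2 x.1)) (s := TT (F := F)) (t := univ) (fun _ _ => Finset.mem_coe.2 (mem_univ _))]
  apply Finset.sum_congr rfl
  intro p _
  unfold NN
  rw [sq, ← Finset.card_product]
  congr 1
  ext x
  unfold TT
  simp only [mem_product, mem_filter, mem_univ, true_and]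
  constructor
  · rintro ⟨h1, h2⟩
    exact ⟨by rw [h1, h2], h1⟩
  · rintro ⟨h1, h2⟩
    exact ⟨h2, by rw [← h1, h2]⟩

/-- pairs of vectors orthogonal in two ways -/
def Wu (u : Fin 4 → F) : Finset (Fin 4 → F) :=
  univ.filter (fun v => ∑ i, u i * v i = 0 ∧ ∑ i, co i * (u i * v i) = 0)

theorem TT_le (h2 : (2 : F) ≠ 0) : (TT (F := F)).card ≤ ∑ u : Fin 4 → F, (Wu u).card := by
  rw [← Finset.card_sigma]
  apply Finset.card_le_card_of_injOn (fun x => ⟨x.1 - x.2, x.1 + x.2⟩)
  · intro x hx
    rw [mem_coe] at hx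
    unfold TT at hx
    rw [mem_filter] at hx
    have h3 := (Prod.mk.injEq _ _ _ _).mp hx.2
    rw [mem_coe, Finset.mem_sigma]
    refine ⟨mem_univ _, ?_⟩
    unfold Wu
    rw [mem_filter]
    refine ⟨mem_univ _, ?_, ?_⟩
    · have h4 := h3.1
      unfold s2 at h4
      rw [← sub_eq_zero, ← Finset.sum_sub_distrib] at h4
      rw [← h4]
      apply Finset.sum_congr rfl
      intro i _
      simp only [Pi.sub_apply, Pi.add_apply]
      ring
    · have h4 := h3.2
      unfold q2 at h4
      rw [← sub_eq_zero, ← Finset.sum_sub_distrib] at h4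
      rw [← h4]
      apply Finset.sum_congr rfl
      intro i _
      simp only [Pi.sub_apply, Pi.add_apply]
      ring
  · intro x _ y _ hxy
    simp only [Sigma.mk.injEq, heq_eq_eq] at hxy
    obtain ⟨h3, h4⟩ := hxy
    have h5 : ∀ i, x.1 i = y.1 i ∧ x.2 i = y.2 i := by
      intro i
      have e1 := congrFun h3 i
      have e2 := congrFun h4 i
      simp only [Pi.sub_apply, Pi.add_apply] at e1 e2
      constructor
      · apply mul_left_cancel₀ h2
        linear_combination e1 + e2
      · apply mul_left_cancel₀ h2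
        linear_combination e2 - e1
    exact Prod.ext (funext fun i => (h5 i).1) (funext fun i => (h5 i).2)

theorem Wu_le (hco : ∀ i j : Fin 4, i ≠ j → (co i : F) ≠ co j) (u : Fin 4 → F) :
    (Wu u).card ≤ Fintype.card F ^ 2 + (if u = 0 then Fintype.card F ^ 4 else 0) +
      ∑ i : Fin 4, (if ∀ j, j ≠ i → u j = 0 then Fintype.card F ^ 3 else 0) := by
  by_cases hu : u = 0
  · rw [if_pos hu]
    have : (Wu u).card ≤ Fintype.card F ^ 4 := by
      rw [← card_fun4]
      exact Finset.card_le_univ _
    omega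
  · rw [if_neg hu]
    obtain ⟨i, hi⟩ := Function.ne_iff.1 hu
    have hi' : u i ≠ 0 := hi
    by_cases hs : ∀ j, j ≠ i → u j = 0
    · have h1 : (Wu u).card ≤ Fintype.card F ^ 3 := by
        have hc : Fintype.card ({k : Fin 4 // k ≠ i} → F) = Fintype.card F ^ 3 := by
          rw [Fintype.card_fun]
          congr 1
          rw [Fintype.card_subtype_compl, Fintype.card_fin, Fintype.card_unique]
        rw [← hc, ← Finset.card_univ]
        apply Finset.card_le_card_of_injOn (fun v (k : {k : Fin 4 // k ≠ i}) => v k)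
        · intro v _
          exact Finset.mem_coe.2 (mem_univ _)
        · intro v hv w hw hvw
          have hz : ∀ v ∈ Wu u, v i = 0 := by
            intro v hv
            unfold Wu at hv
            rw [mem_filter] at hv
            have h3 := hv.2.1
            rw [Finset.sum_eq_single i (fun j _ hj => by rw [hs j hj, zero_mul])
              (fun h => absurd (mem_univ i) h)] at h3
            exact (mul_eq_zero.1 h3).resolve_left hi'
          funext k
          by_cases hk : k = i
          · rw [hk, hz v hv, hz w hw]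
          · exact congrFun hvw ⟨k, hk⟩
      have h2 : Fintype.card F ^ 3 ≤
          ∑ i : Fin 4, (if ∀ j, j ≠ i → u j = 0 then Fintype.card F ^ 3 else 0) := by
        have h3 := Finset.single_le_sum
          (f := fun i : Fin 4 => if ∀ j, j ≠ i → u j = 0 then Fintype.card F ^ 3 else 0)
          (fun _ _ => Nat.zero_le _) (mem_univ i)
        simp only [if_pos hs] at h3
        exact h3
      omega
    · push Not at hs
      obtain ⟨j, hji, hj⟩ := hs
      have h1 : (Wu u).card ≤ Fintype.card F ^ 2 := by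
        have hc : Fintype.card ({k : Fin 4 // ¬ (k = i ∨ k = j)} → F) = Fintype.card F ^ 2 := by
          rw [Fintype.card_fun]
          congr 1
          rw [Fintype.card_subtype_compl, Fintype.card_fin, Fintype.card_subtype]
          have : (univ.filter fun k : Fin 4 => k = i ∨ k = j) = {i, j} := by
            ext k
            simp
          rw [this, Finset.card_pair (Ne.symm hji)]
        rw [← hc, ← Finset.card_univ]
        apply Finset.card_le_card_of_injOn (fun v (k : {k : Fin 4 // ¬ (k = i ∨ k = j)}) => v k)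
        · intro v _
          exact Finset.mem_coe.2 (mem_univ _)
        · intro v hv w hw hvw
          rw [mem_coe] at hv hw
          unfold Wu at hv hw
          rw [mem_filter] at hv hw
          have hoff : ∀ k, k ≠ i ∧ k ≠ j → v k = w k := by
            intro k hk
            exact congrFun hvw ⟨k, by rintro (h | h); exacts [hk.1 h, hk.2 h]⟩
          have e1 : ∑ k, u k * (v k - w k) = u i * (v i - w i) + u j * (v j - w j) := by
            apply Fintype.sum_eq_add i j (Ne.symm hji)
            intro k hk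
            rw [hoff k hk, sub_self, mul_zero]
          have e2 : ∑ k, co k * (u k * (v k - w k)) =
              co i * (u i * (v i - w i)) + co j * (u j * (v j - w j)) := by
            apply Fintype.sum_eq_add i j (Ne.symm hji)
            intro k hk
            rw [hoff k hk, sub_self, mul_zero, mul_zero]
          have e3 : ∑ k, u k * (v k - w k) = 0 := by
            simp_rw [mul_sub]
            rw [Finset.sum_sub_distrib, hv.2.1, hw.2.1, sub_zero]
          have e4 : ∑ k, co k * (u k * (v k - w k)) = 0 := by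
            simp_rw [mul_sub]
            rw [Finset.sum_sub_distrib, hv.2.2, hw.2.2, sub_zero]
          rw [e1] at e3
          rw [e2] at e4
          have hd : (co j : F) - co i ≠ 0 := sub_ne_zero.2 (hco j i hji)
          have e5 : (co j - co i) * (u j * (v j - w j)) = 0 := by
            linear_combination e4 - co i * e3
          have e6 : v j - w j = 0 :=
            (mul_eq_zero.1 ((mul_eq_zero.1 e5).resolve_left hd)).resolve_left hj
          rw [e6, mul_zero, add_zero] at e3
          have e7 : v i - w i = 0 := (mul_eq_zero.1 e3).resolve_left hi'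
          funext k
          by_cases hk1 : k = i
          · rw [hk1]
            exact sub_eq_zero.1 e7
          · by_cases hk2 : k = j
            · rw [hk2]
              exact sub_eq_zero.1 e6
            · exact hoff k ⟨hk1, hk2⟩
      omega

theorem sum_Wu_le (hco : ∀ i j : Fin 4, i ≠ j → (co i : F) ≠ co j) :
    ∑ u : Fin 4 → F, (Wu u).card ≤ Fintype.card F ^ 6 + 5 * Fintype.card F ^ 4 := by
  refine (Finset.sum_le_sum (fun u _ => Wu_le hco u)).trans ?_
  rw [Finset.sum_add_distrib, Finset.sum_add_distrib, Finset.sum_const, Finset.card_univ,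
    card_fun4, smul_eq_mul, Finset.sum_ite_eq' univ (0 : Fin 4 → F) (fun _ => Fintype.card F ^ 4),
    if_pos (mem_univ _), Finset.sum_comm]
  have h1 : ∀ i : Fin 4, ∑ u : Fin 4 → F, (if ∀ j, j ≠ i → u j = 0 then Fintype.card F ^ 3 else 0)
      ≤ Fintype.card F ^ 4 := by
    intro i
    rw [← Finset.sum_filter, Finset.sum_const, smul_eq_mul]
    have h2 : (univ.filter fun u : Fin 4 → F => ∀ j, j ≠ i → u j = 0).card ≤ Fintype.card F := by
      rw [← Finset.card_univ]
      apply Finset.card_le_card_of_injOn (fun u => u i)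
      · intro v _
        exact Finset.mem_coe.2 (mem_univ _)
      · intro v hv w hw hvw
        rw [mem_coe, mem_filter] at hv hw
        funext k
        by_cases hk : k = i
        · rw [hk]
          exact hvw
        · rw [hv.2 k hk, hw.2 k hk]
    calc _ ≤ Fintype.card F * Fintype.card F ^ 3 := Nat.mul_le_mul_right _ h2
      _ = _ := by ring
  have h3 : ∑ i : Fin 4, ∑ u : Fin 4 → F,
      (if ∀ j, j ≠ i → u j = 0 then Fintype.card F ^ 3 else 0) ≤ 4 * Fintype.card F ^ 4 := by
    refine (Finset.sum_le_sum (fun i _ => h1 i)).trans ?_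
    rw [Finset.sum_const, Finset.card_univ, Fintype.card_fin, smul_eq_mul]
  calc _ ≤ Fintype.card F ^ 4 * Fintype.card F ^ 2 + Fintype.card F ^ 4 +
        4 * Fintype.card F ^ 4 := Nat.add_le_add_left h3 _
    _ = _ := by ring

theorem variance (h2 : (2 : F) ≠ 0) (hco : ∀ i j : Fin 4, i ≠ j → (co i : F) ≠ co j) :
    ∑ p : F × F, ((NN p : ℝ) - (Fintype.card F : ℝ) ^ 2) ^ 2 ≤ 5 * (Fintype.card F : ℝ) ^ 4 := by
  have e1 : ∑ p : F × F, (NN p : ℝ) = (Fintype.card F : ℝ) ^ 4 := by exact_mod_cast sum_NN (F := F)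
  have e2 : ∑ p : F × F, (NN p : ℝ) ^ 2 ≤
      (Fintype.card F : ℝ) ^ 6 + 5 * (Fintype.card F : ℝ) ^ 4 := by
    have h3 := (sum_NN_sq (F := F)).le.trans ((TT_le h2).trans (sum_Wu_le hco))
    exact_mod_cast h3
  have e3 : ∑ p : F × F, ((NN p : ℝ) - (Fintype.card F : ℝ) ^ 2) ^ 2 =
      ∑ p : F × F, (NN p : ℝ) ^ 2 - 2 * (Fintype.card F : ℝ) ^ 2 * ∑ p : F × F, (NN p : ℝ) +
        (Fintype.card F : ℝ) ^ 2 * (Fintype.card F : ℝ) ^ 4 := by
    have e4 : (Fintype.card F : ℝ) ^ 2 * (Fintype.card F : ℝ) ^ 4 =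
        ∑ _p : F × F, (Fintype.card F : ℝ) ^ 4 := by
      rw [Finset.sum_const, Finset.card_univ, Fintype.card_prod, nsmul_eq_mul]
      push_cast
      ring
    rw [e4, Finset.mul_sum, ← Finset.sum_sub_distrib, ← Finset.sum_add_distrib]
    apply Finset.sum_congr rfl
    intro p _
    ring
  rw [e3, e1]
  nlinarith [e2]

theorem NN_scale (c : F) (hc : c ≠ 0) (p : F × F) : NN (c ^ 2 * p.1, c ^ 2 * p.2) = NN p := by
  unfold NN
  symm
  apply Finset.card_nbij' (fun s i => c * s i) (fun s i => c⁻¹ * s i)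
  · intro s hs
    rw [mem_coe, mem_filter] at hs ⊢
    refine ⟨mem_univ _, ?_⟩
    rw [← hs.2]
    unfold s2 q2
    simp only
    rw [Finset.mul_sum, Finset.mul_sum]
    congr 1
    · apply Finset.sum_congr rfl
      intro i _
      ring
    · apply Finset.sum_congr rfl
      intro i _
      ring
  · intro s hs
    rw [mem_coe, mem_filter] at hs ⊢
    refine ⟨mem_univ _, ?_⟩
    have h3 := (Prod.mk.injEq _ _ _ _).mp hs.2
    have h4 : p = (c⁻¹ ^ 2 * (c ^ 2 * p.1), c⁻¹ ^ 2 * (c ^ 2 * p.2)) := by
      have : c⁻¹ ^ 2 * c ^ 2 = 1 := by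
        rw [← mul_pow, inv_mul_cancel₀ hc, one_pow]
      rw [← mul_assoc, ← mul_assoc, this, one_mul, one_mul]
    rw [h4, ← h3.1, ← h3.2]
    unfold s2 q2
    rw [Finset.mul_sum, Finset.mul_sum]
    congr 1
    · apply Finset.sum_congr rfl
      intro i _
      ring
    · apply Finset.sum_congr rfl
      intro i _
      ring
  · intro s _
    funext i
    simp only
    rw [← mul_assoc, inv_mul_cancel₀ hc, one_mul]
  · intro s _
    funext i
    simp only
    rw [← mul_assoc, mul_inv_cancel₀ hc, one_mul]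

theorem orbit (h2 : (2 : F) ≠ 0) (hco : ∀ i j : Fin 4, i ≠ j → (co i : F) ≠ co j) (p : F × F)
    (hp : p.1 ≠ 0) :
    ((Fintype.card F : ℝ) - 1) * ((NN p : ℝ) - (Fintype.card F : ℝ) ^ 2) ^ 2 ≤
      10 * (Fintype.card F : ℝ) ^ 4 := by
  set f : F → F × F := fun c => (c ^ 2 * p.1, c ^ 2 * p.2) with hf
  set O := (univ.erase (0 : F)).image f with hO
  have h3 : (univ.erase (0 : F)).card ≤ 2 * O.card := by
    apply Finset.card_le_mul_card_image
    intro a ha
    rw [mem_image] at ha
    obtain ⟨c, _, rfl⟩ := ha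
    have hsub : ((univ.erase (0 : F)).filter fun x => f x = f c) ⊆ {c, -c} := by
      intro x hx
      rw [mem_filter] at hx
      have h4 := congrArg Prod.fst hx.2
      simp only [hf] at h4
      have h5 : x ^ 2 = c ^ 2 := mul_right_cancel₀ hp h4
      rw [mem_insert, mem_singleton]
      exact sq_eq_sq_iff_eq_or_eq_neg.1 h5
    exact (Finset.card_le_card hsub).trans Finset.card_le_two
  have h4 : (Fintype.card F : ℝ) - 1 ≤ 2 * (O.card : ℝ) := by
    rw [Finset.card_erase_of_mem (mem_univ _), Finset.card_univ] at h3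
    have h5 : Fintype.card F ≤ 2 * O.card + 1 := by omega
    have h6 : (Fintype.card F : ℝ) ≤ 2 * (O.card : ℝ) + 1 := by exact_mod_cast h5
    linarith
  have h5 : ∑ x ∈ O, ((NN x : ℝ) - (Fintype.card F : ℝ) ^ 2) ^ 2 =
      O.card * ((NN p : ℝ) - (Fintype.card F : ℝ) ^ 2) ^ 2 := by
    rw [← nsmul_eq_mul, ← Finset.sum_const]
    apply Finset.sum_congr rfl
    intro x hx
    rw [hO, mem_image] at hx
    obtain ⟨c, hc, rfl⟩ := hx
    simp only [hf]
    rw [NN_scale c (Finset.ne_of_mem_erase hc) p]
  have h6 : ∑ x ∈ O, ((NN x : ℝ) - (Fintype.card F : ℝ) ^ 2) ^ 2 ≤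
      ∑ x : F × F, ((NN x : ℝ) - (Fintype.card F : ℝ) ^ 2) ^ 2 :=
    Finset.sum_le_sum_of_subset_of_nonneg (subset_univ _) (fun _ _ _ => sq_nonneg _)
  have h7 := variance h2 hco
  rw [h5] at h6
  have h8 := mul_le_mul_of_nonneg_right h4 (sq_nonneg ((NN p : ℝ) - (Fintype.card F : ℝ) ^ 2))
  linarith

end field

/-- the lower bound for the number of solutions modulo `l` -/
theorem NN_lower (l : ℕ) [Fact l.Prime] (hl : 7 < l) (p : ZMod l × ZMod l) (hp : p.1 ≠ 0) :
    (l : ℝ) ^ 2 - 4 * (l : ℝ) ^ (3 / 2 : ℝ) ≤ (NN p : ℝ) := by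
  have hlp : l.Prime := Fact.out
  have hl11 : 11 ≤ l := by
    by_contra h
    push Not at h
    interval_cases l <;> revert hlp <;> decide
  have hnz : ∀ k : ℕ, 0 < k → k < l → ((k : ℕ) : ZMod l) ≠ 0 := by
    intro k hk hkl h
    rw [ZMod.natCast_eq_zero_iff] at h
    exact absurd (Nat.le_of_dvd hk h) (by omega)
  have h2 : (2 : ZMod l) ≠ 0 := by exact_mod_cast hnz 2 (by norm_num) (by omega)
  have h4 : (4 : ZMod l) ≠ 0 := by exact_mod_cast hnz 4 (by norm_num) (by omega)
  have h6 : (6 : ZMod l) ≠ 0 := by exact_mod_cast hnz 6 (by norm_num) (by omega)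
  have hco : ∀ i j : Fin 4, i ≠ j → (co i : ZMod l) ≠ co j := by
    intro i j hij h
    fin_cases i <;> fin_cases j <;> simp [co] at h hij
    · exact h2 (by linear_combination -h)
    · exact h4 (by linear_combination -h)
    · exact h6 (by linear_combination -h)
    · exact h2 (by linear_combination h)
    · exact h2 (by linear_combination -h)
    · exact h4 (by linear_combination -h)
    · exact h4 (by linear_combination h)
    · exact h2 (by linear_combination h)
    · exact h2 (by linear_combination -h)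
    · exact h6 (by linear_combination h)
    · exact h4 (by linear_combination h)
    · exact h2 (by linear_combination h)
  have h := orbit h2 hco p hp
  rw [ZMod.card] at h
  have hl' : (11 : ℝ) ≤ l := by exact_mod_cast hl11
  have hl0 : (0 : ℝ) < l := by linarith
  set D := (NN p : ℝ) - (l : ℝ) ^ 2 with hD
  have hD2 : D ^ 2 ≤ 11 * (l : ℝ) ^ 3 := by
    have h8 : ((l : ℝ) - 1) * D ^ 2 ≤ ((l : ℝ) - 1) * (11 * (l : ℝ) ^ 3) := by
      refine h.trans ?_
      have : 0 ≤ (l : ℝ) ^ 3 := by positivity
      nlinarith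
    exact le_of_mul_le_mul_left h8 (by linarith)
  have hr : ((l : ℝ) ^ (3 / 2 : ℝ)) ^ 2 = (l : ℝ) ^ 3 := by
    rw [← Real.rpow_natCast, ← Real.rpow_mul hl0.le]
    norm_num
  have hr0 : 0 ≤ (l : ℝ) ^ (3 / 2 : ℝ) := by positivity
  have hD3 : |D| ≤ 4 * (l : ℝ) ^ (3 / 2 : ℝ) := by
    apply abs_le_of_sq_le_sq _ (by positivity)
    rw [mul_pow, hr]
    have : 0 ≤ (l : ℝ) ^ 3 := by positivity
    linarith
  have := neg_le_of_abs_le hD3
  linarith

end LDx

open LDx

theorem ld : LD := by
  classical
  intro l hlp hl n hn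
  have : NeZero l := ⟨hlp.ne_zero⟩
  have : Fact l.Prime := ⟨hlp⟩
  have hl2 : l ≠ 2 := by omega
  have hlo : Odd l := hlp.odd_of_ne_two hl2
  have hl0 : (0 : ℝ) < l := by exact_mod_cast hlp.pos
  have hlz : (0 : ℤ) < l := by exact_mod_cast hlp.pos
  have hnz : (n : ZMod l) ≠ 0 := by
    intro h
    rw [ZMod.natCast_eq_zero_iff] at h
    exact hn h
  have h2z : (2 : ZMod l) ≠ 0 := by
    intro h
    have h' : ((2 : ℕ) : ZMod l) = 0 := by exact_mod_cast h
    rw [ZMod.natCast_eq_zero_iff] at h'
    exact absurd (Nat.le_of_dvd (by norm_num) h') (by omega)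
  -- upper bound for `Gl`
  have hGl : ((Gl n l).card : ℝ) ≤ (l : ℝ) ^ 3 := by
    set S := univ.filter (fun u : Fin 4 → ZMod l => ∑ i, u i ^ 2 = (n : ZMod l)) with hS
    have h1 := count_quad l hlo (n : ZMod l)
    rw [← hS, if_neg hnz] at h1
    have h2 : (S.card : ℝ) * l = (l : ℝ) ^ 4 + (l : ℝ) ^ 2 * (0 - 1) := by
      have h3 : (((S.card : ℝ) * l : ℝ) : ℂ) = (((l : ℝ) ^ 4 + (l : ℝ) ^ 2 * (0 - 1) : ℝ) : ℂ) := by
        push_cast
        rw [h1]
      exact_mod_cast h3
    have h3 : (S.card : ℝ) ≤ (l : ℝ) ^ 3 := by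
      have h4 : (S.card : ℝ) * l ≤ (l : ℝ) ^ 3 * l := by
        rw [h2]
        have : 0 ≤ (l : ℝ) ^ 2 := by positivity
        nlinarith
      exact le_of_mul_le_mul_right h4 hl0
    have h4 : (Gl n l).card ≤ S.card := by
      apply Finset.card_le_card_of_injOn (fun c i => ((c i : ℤ) : ZMod l))
      · intro c hc
        rw [mem_coe, mem_Gl] at hc
        rw [mem_coe, hS, mem_filter]
        refine ⟨mem_univ _, ?_⟩
        have := (ZMod.intCast_zmod_eq_zero_iff_dvd _ l).2 hc.2.1
        push_cast at this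
        exact sub_eq_zero.1 this
      · intro c hc d hd hcd
        rw [mem_coe, mem_Gl] at hc hd
        funext i
        have h5 := congrFun hcd i
        simp only at h5
        rw [ZMod.intCast_eq_intCast_iff] at h5
        have h6 : c i % l = d i % l := h5
        rwa [Int.emod_eq_of_lt (hc.1 i).1 (hc.1 i).2, Int.emod_eq_of_lt (hd.1 i).1 (hd.1 i).2] at h6
    have h5 : ((Gl n l).card : ℝ) ≤ (S.card : ℝ) := by exact_mod_cast h4
    linarith
  -- lower bound for `Bl`
  set S0 := univ.filter (fun s : Fin 4 → ZMod l => (s2 s, q2 s) = ((n : ZMod l), (0 : ZMod l)))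
    with hS0
  set S2 := univ.filter (fun s : Fin 4 → ZMod l => (s2 s, q2 s) = ((n : ZMod l), (2 : ZMod l)))
    with hS2
  have hdisj : Disjoint S0 S2 := by
    rw [Finset.disjoint_left]
    intro s hs hs'
    rw [hS0, mem_filter] at hs
    rw [hS2, mem_filter] at hs'
    have h1 := congrArg Prod.snd hs.2
    have h2 := congrArg Prod.snd hs'.2
    simp only at h1 h2
    rw [h1] at h2
    exact h2z h2.symm
  have hBl : (S0 ∪ S2).card ≤ (Bl ff n l).card := by
    apply Finset.card_le_card_of_injOn (fun u i => ((u i).val : ℤ))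
    · intro u hu
      rw [mem_coe, mem_union, hS0, hS2, mem_filter, mem_filter] at hu
      have hcast : ∀ i, ((((u i).val : ℤ) : ℤ) : ZMod l) = u i := by
        intro i
        push_cast
        exact ZMod.natCast_zmod_val (u i)
      have hs : s2 u = (n : ZMod l) := by
        rcases hu with hu | hu
        · exact congrArg Prod.fst hu.2
        · exact congrArg Prod.fst hu.2
      have hq : q2 u = 0 ∨ q2 u = 2 := by
        rcases hu with hu | hu
        · exact Or.inl (congrArg Prod.snd hu.2)
        · exact Or.inr (congrArg Prod.snd hu.2)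
      have hpf : ((pf (fun i => ((u i).val : ℤ)) : ℤ) : ZMod l) = q2 u := by
        unfold pf q2
        rw [Fin.sum_univ_four]
        push_cast
        simp only [ZMod.natCast_zmod_val]
        simp [co]
      rw [mem_coe, mem_Bl, mem_Gl]
      refine ⟨⟨fun i => ⟨by positivity, ?_⟩, ?_, ?_⟩, ?_⟩
      · have := ZMod.val_lt (u i)
        show ((u i).val : ℤ) < l
        exact_mod_cast this
      · rw [← ZMod.intCast_zmod_eq_zero_iff_dvd]
        push_cast
        simp only [ZMod.natCast_zmod_val]
        unfold s2 at hs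
        rw [hs, sub_self]
      · by_contra h
        push Not at h
        apply hnz
        rw [← hs]
        unfold s2
        apply Finset.sum_eq_zero
        intro i _
        have h1 := (ZMod.intCast_zmod_eq_zero_iff_dvd _ l).2 (h i)
        rw [hcast] at h1
        rw [h1]
        ring
      · rw [← ZMod.intCast_zmod_eq_zero_iff_dvd]
        unfold ff
        push_cast
        rw [hpf]
        rcases hq with hq | hq
        · rw [hq, zero_mul]
        · rw [hq, sub_self, mul_zero]
    · intro u _ u' _ huu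
      funext i
      have := congrFun huu i
      simp only [Nat.cast_inj] at this
      exact ZMod.val_injective _ this
  rw [Finset.card_union_of_disjoint hdisj] at hBl
  have hB0 := NN_lower l hl ((n : ZMod l), (0 : ZMod l)) hnz
  have hB2 := NN_lower l hl ((n : ZMod l), (2 : ZMod l)) hnz
  have e0 : NN ((n : ZMod l), (0 : ZMod l)) = S0.card := rfl
  have e2 : NN ((n : ZMod l), (2 : ZMod l)) = S2.card := rfl
  rw [e0] at hB0
  rw [e2] at hB2
  have hBr : (S0.card : ℝ) + (S2.card : ℝ) ≤ ((Bl ff n l).card : ℝ) := by exact_mod_cast hBl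
  have hr0 : 0 < (l : ℝ) ^ (3 / 2 : ℝ) := by positivity
  by_cases hcoef : 2 / (l : ℝ) - 20 / (l : ℝ) ^ (3 / 2 : ℝ) ≤ 0
  · have h1 : (0 : ℝ) ≤ ((Gl n l).card : ℝ) := Nat.cast_nonneg _
    have h2 : (0 : ℝ) ≤ ((Bl ff n l).card : ℝ) := Nat.cast_nonneg _
    have h3 := mul_nonpos_of_nonpos_of_nonneg hcoef h1
    linarith
  · push Not at hcoef
    have h1 := mul_le_mul_of_nonneg_left hGl hcoef.le
    have hr : ((l : ℝ) ^ (3 / 2 : ℝ)) * (l : ℝ) ^ (3 / 2 : ℝ) = (l : ℝ) ^ 3 := by
      rw [← Real.rpow_add hl0]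
      norm_num
    have h2 : (2 / (l : ℝ) - 20 / (l : ℝ) ^ (3 / 2 : ℝ)) * (l : ℝ) ^ 3 =
        2 * (l : ℝ) ^ 2 - 20 * (l : ℝ) ^ (3 / 2 : ℝ) := by
      rw [sub_mul]
      congr 1
      · field_simp
      · rw [← hr]
        field_simp
    rw [h2] at h1
    nlinarith

end Pool.Agent.R496.FP
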