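import Pool.Agent.R496.FP.Defs

/-!
# Project FP, piece LO: the lower bound for the number of representations of the members of a set
of primes
-/

set_option autoImplicit false
open Finset Complex MeasureTheory

namespace Pool.Agent.R496.FP

open Pool.Agent.W65.FS

lemma LO_row_sum (S : Finset ℕ) (f : ℕ → ℝ → ℂ) (hf : ∀ P ∈ S, Continuous (f P)) (H c : ℕ) :
    row (fun α => ∑ P ∈ S, f P α) H c = ∑ P ∈ S, row (f P) H c := by
  unfold row
  rw [Finset.sum_comm]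
  refine Finset.sum_congr rfl fun v _ => ?_
  rw [Finset.sum_add_distrib]
  congr 1
  · rw [intervalIntegral.integral_finsetSum]
    intro P hP
    exact ((hf P hP).comp (by fun_prop : Continuous fun β : ℝ => (aa c v : ℝ) / c + β)).intervalIntegrable _ _
  · rw [intervalIntegral.integral_finsetSum]
    intro P hP
    exact ((hf P hP).comp (by fun_prop : Continuous fun β : ℝ => -((aa c v : ℝ) / c + β))).intervalIntegrable _ _

lemma LO_ee_cont (P : ℕ) : Continuous fun α : ℝ => ee (-(P * α)) := by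
  unfold ee
  fun_prop

lemma LO_ee_per (P : ℕ) (x : ℝ) : ee (-(P * (x + 1))) = ee (-(P * x)) := by
  unfold ee
  rw [Complex.exp_eq_exp_iff_exists_int]
  refine ⟨-(P : ℤ), ?_⟩
  push_cast
  ring

/-- the asymptotics -/
lemma LO_large (K ε : ℝ) (hK : 0 < K) (hε : 0 < ε) (Q0 : ℕ) : ∃ X0 : ℕ, ∀ X : ℕ, X0 ≤ X →
    14 ≤ X ∧ (Q0 : ℝ) ≤ K * Real.log X ∧ K * Real.log X + 1 ≤ ε * Real.sqrt X := by
  have h1 : ∀ᶠ X : ℕ in Filter.atTop, 14 ≤ X := Filter.eventually_ge_atTop 14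
  have hcast : Filter.Tendsto (fun n : ℕ => (n : ℝ)) Filter.atTop Filter.atTop :=
    tendsto_natCast_atTop_atTop
  have h2 : ∀ᶠ X : ℕ in Filter.atTop, (Q0 : ℝ) ≤ K * Real.log X := by
    have : Filter.Tendsto (fun X : ℕ => K * Real.log X) Filter.atTop Filter.atTop :=
      (Real.tendsto_log_atTop.comp hcast).const_mul_atTop hK
    exact this.eventually_ge_atTop _
  have h3 : ∀ᶠ X : ℕ in Filter.atTop, K * Real.log X ≤ ε / 2 * Real.sqrt X := by
    have h := (isLittleO_log_rpow_atTop (by norm_num : (0:ℝ) < 1 / 2)).def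
      (by positivity : 0 < ε / (2 * K))
    filter_upwards [hcast.eventually h, h1] with X hX hX14
    have hX1 : (1:ℝ) ≤ X := by exact_mod_cast (by omega : 1 ≤ X)
    rw [Real.norm_of_nonneg (Real.log_nonneg hX1),
      Real.norm_of_nonneg (by positivity), ← Real.sqrt_eq_rpow] at hX
    calc K * Real.log X ≤ K * (ε / (2 * K) * Real.sqrt X) := by gcongr
      _ = ε / 2 * Real.sqrt X := by field_simp
  have h4 : ∀ᶠ X : ℕ in Filter.atTop, 1 ≤ ε / 2 * Real.sqrt X := by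
    have : Filter.Tendsto (fun X : ℕ => ε / 2 * Real.sqrt X) Filter.atTop Filter.atTop :=
      (Real.tendsto_sqrt_atTop.comp hcast).const_mul_atTop (by positivity)
    exact this.eventually_ge_atTop _
  obtain ⟨X0, hX0⟩ := Filter.eventually_atTop.1 (h1.and (h2.and (h3.and h4)))
  refine ⟨X0, fun X hX => ?_⟩
  obtain ⟨a, b, c, d⟩ := hX0 X hX
  exact ⟨a, b, by linarith⟩

theorem lo (hFA : FA) (hEX : EX) (hMI : MI) (hMA : MA) (hSG : SG) : LO := by
  intro κ hκ
  obtain ⟨C1, hC1, hMI⟩ := hMI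
  obtain ⟨C2, hC2, hMA⟩ := hMA
  obtain ⟨c0, hc0, Q0, hSG⟩ := hSG
  obtain ⟨A, hA⟩ : ∃ A : ℝ, A = Real.pi ^ 2 / Real.sqrt 105 * (1 / 2) * Real.exp (-(2 * Real.pi)) :=
    ⟨_, rfl⟩
  have hApos : 0 < A := by rw [hA]; positivity
  obtain ⟨B, hB⟩ : ∃ B : ℝ, B = A * c0 := ⟨_, rfl⟩
  have hBpos : 0 < B := by rw [hB]; positivity
  have hsκ : 0 < Real.sqrt κ := Real.sqrt_pos.2 hκ
  obtain ⟨K, hK⟩ : ∃ K : ℝ, K = 4 * C1 / (B * Real.sqrt κ) := ⟨_, rfl⟩
  have hKpos : 0 < K := by rw [hK]; positivity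
  obtain ⟨X0, hX0⟩ := LO_large K (min (1 / 2) (B / (4 * C2))) hKpos
    (by rw [lt_min_iff]; constructor <;> positivity) Q0
  refine ⟨B / 2, by positivity, X0, fun X hX S hS hcard => ?_⟩
  obtain ⟨hX14, hQ0, hKX⟩ := hX0 X hX
  have hXpos : (0:ℝ) < X := by exact_mod_cast (by omega : 0 < X)
  have hX1 : (1:ℝ) < X := by exact_mod_cast (by omega : 1 < X)
  have hlog : 0 < Real.log X := Real.log_pos hX1
  have hsX : 0 < Real.sqrt X := Real.sqrt_pos.2 hXpos
  have hsXX : Real.sqrt X * Real.sqrt X = X := Real.mul_self_sqrt hXpos.le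
  obtain ⟨Q, hQ⟩ : ∃ Q : ℕ, Q = ⌈K * Real.log X⌉₊ := ⟨_, rfl⟩
  have hQge : K * Real.log X ≤ Q := by rw [hQ]; exact Nat.le_ceil _
  have hQlt : (Q : ℝ) < K * Real.log X + 1 := by
    rw [hQ]; exact Nat.ceil_lt_add_one (by positivity)
  have hQpos : (0:ℝ) < Q := lt_of_lt_of_le (by positivity) hQge
  have hQ1 : 1 ≤ Q := by exact_mod_cast hQpos
  have hQQ0 : Q0 ≤ Q := by exact_mod_cast hQ0.trans hQge
  have hQs : (Q : ℝ) ≤ min (1 / 2) (B / (4 * C2)) * Real.sqrt X := (hQlt.le).trans hKX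
  have hQ2 : (Q : ℝ) ≤ 1 / 2 * Real.sqrt X :=
    hQs.trans (mul_le_mul_of_nonneg_right (min_le_left _ _) hsX.le)
  have hQ3 : (Q : ℝ) ≤ B / (4 * C2) * Real.sqrt X :=
    hQs.trans (mul_le_mul_of_nonneg_right (min_le_right _ _) hsX.le)
  have hsle : Real.sqrt X ≤ X := by
    rw [Real.sqrt_le_left hXpos.le]
    nlinarith
  have hQsq : Q ≤ Nat.sqrt X := by
    rw [Nat.le_sqrt]
    have : (Q : ℝ) * Q ≤ X := by nlinarith
    exact_mod_cast this
  have h2Q : 2 * Q ≤ X := by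
    have : (2 : ℝ) * Q ≤ X := by nlinarith
    exact_mod_cast this
  have hH1 : 1 ≤ Nat.sqrt X := hQ1.trans hQsq
  have hy : (0:ℝ) < 1 / X := by positivity
  obtain ⟨hFc, hFp, hFs⟩ := hFA (1 / (X : ℝ)) hy
  -- the function
  have hΦc : ∀ P : ℕ, Continuous fun α => Fth (1 / (X : ℝ)) α * ee (-(P * α)) :=
    fun P => hFc.mul (LO_ee_cont P)
  have hΦeq : (fun α => Fth (1 / (X : ℝ)) α * ∑ P ∈ S, ee (-(P * α))) =
      fun α => ∑ P ∈ S, Fth (1 / (X : ℝ)) α * ee (-(P * α)) := by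
    funext α
    rw [Finset.mul_sum]
  have hΦSc : Continuous fun α => ∑ P ∈ S, Fth (1 / (X : ℝ)) α * ee (-(P * α)) :=
    continuous_finsetSum _ fun P _ => hΦc P
  have hΦSp : ∀ x : ℝ, (fun α : ℝ => ∑ P ∈ S, Fth (1 / (X : ℝ)) α * ee (-(P * α))) (x + 1) =
      (fun α : ℝ => ∑ P ∈ S, Fth (1 / (X : ℝ)) α * ee (-(P * α))) x := by
    intro x
    refine Finset.sum_congr rfl fun P _ => ?_
    rw [hFp, LO_ee_per]
  have hint : ∫ α in (0:ℝ)..1, ∑ P ∈ S, Fth (1 / (X : ℝ)) α * ee (-(P * α)) =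
      ∑ P ∈ S, ((rp P).card : ℂ) * Real.exp (-(2 * Real.pi * (1 / (X : ℝ)) * P)) := by
    rw [intervalIntegral.integral_finsetSum]
    · exact Finset.sum_congr rfl fun P _ => hEX _ hy P
    · intro P _
      exact (hΦc P).intervalIntegrable _ _
  have hfar := farey _ hΦSc hΦSp (Nat.sqrt X) hH1
  rw [hint] at hfar
  have hfar' : ∑ P ∈ S, ((rp P).card : ℂ) * Real.exp (-(2 * Real.pi * (1 / (X : ℝ)) * P)) =
      ∑ c ∈ Icc 1 (Nat.sqrt X),
        row (fun α => ∑ P ∈ S, Fth (1 / (X : ℝ)) α * ee (-(P * α))) (Nat.sqrt X) c := by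
    rw [hfar]
    rfl
  have hsplit : Icc 1 (Nat.sqrt X) = Icc 1 Q ∪ Ioc Q (Nat.sqrt X) := by
    ext c
    simp only [Finset.mem_Icc, Finset.mem_union, Finset.mem_Ioc]
    omega
  have hdisj : Disjoint (Icc 1 Q) (Ioc Q (Nat.sqrt X)) := by
    rw [Finset.disjoint_left]
    intro c
    simp only [Finset.mem_Icc, Finset.mem_Ioc]
    omega
  rw [hsplit, Finset.sum_union hdisj] at hfar'
  have hmi := hMI X (by omega) S Q hQ1 hQsq
  rw [hΦeq] at hmi
  have hma := fun P : ℕ => hMA X (by omega) P Q hQ1 hQsq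
  have hmaj : ∑ c ∈ Icc 1 Q,
        row (fun α => ∑ P ∈ S, Fth (1 / (X : ℝ)) α * ee (-(P * α))) (Nat.sqrt X) c =
      ∑ P ∈ S, ∑ c ∈ Icc 1 Q, row (fun α => Fth (1 / (X : ℝ)) α * ee (-(P * α))) (Nat.sqrt X) c := by
    rw [Finset.sum_comm]
    refine Finset.sum_congr rfl fun c _ => ?_
    exact LO_row_sum S (fun P α => Fth (1 / (X : ℝ)) α * ee (-(P * α))) (fun P _ => hΦc P) _ c
  rw [hmaj] at hfar'
  -- real parts
  have hre : ∑ P ∈ S, ((rp P).card : ℝ) * Real.exp (-(2 * Real.pi * (1 / (X : ℝ)) * P)) =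
      ∑ P ∈ S, (∑ c ∈ Icc 1 Q,
        row (fun α => Fth (1 / (X : ℝ)) α * ee (-(P * α))) (Nat.sqrt X) c).re +
      (∑ c ∈ Ioc Q (Nat.sqrt X),
        row (fun α => ∑ P ∈ S, Fth (1 / (X : ℝ)) α * ee (-(P * α))) (Nat.sqrt X) c).re := by
    have h := congrArg Complex.re hfar'
    rw [Complex.add_re, Complex.re_sum, Complex.re_sum] at h
    rw [← h]
    refine Finset.sum_congr rfl fun P _ => ?_
    rw [← Complex.ofReal_natCast, ← Complex.ofReal_mul, Complex.ofReal_re]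
  have hminor : -(C1 * (X : ℝ) ^ (3 / 2 : ℝ) * Real.sqrt S.card / Q) ≤
      (∑ c ∈ Ioc Q (Nat.sqrt X),
        row (fun α => ∑ P ∈ S, Fth (1 / (X : ℝ)) α * ee (-(P * α))) (Nat.sqrt X) c).re :=
    neg_le_of_abs_le ((Complex.abs_re_le_norm _).trans hmi)
  have hmajor : ∀ P ∈ S, B * X - C2 * Q * Real.sqrt X ≤ (∑ c ∈ Icc 1 Q,
        row (fun α => Fth (1 / (X : ℝ)) α * ee (-(P * α))) (Nat.sqrt X) c).re := by
    intro P hP
    obtain ⟨hPp, hP1, hP2⟩ := hS P hP
    have h := neg_le_of_abs_le ((Complex.abs_re_le_norm _).trans (hma P))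
    rw [Complex.sub_re, Complex.re_ofReal_mul] at h
    have hss := hSG P hPp (by omega) Q hQQ0 (by omega)
    have hP1' : (X : ℝ) < 2 * P := by exact_mod_cast hP1
    have hP2' : (P : ℝ) ≤ X := by exact_mod_cast hP2
    have hPpos : (0:ℝ) < P := by linarith
    have hexp : Real.exp (-(2 * Real.pi)) ≤ Real.exp (-(2 * Real.pi * P / X)) := by
      apply Real.exp_le_exp.2
      rw [neg_le_neg_iff, div_le_iff₀ hXpos]
      have := Real.pi_pos
      nlinarith
    have hA1 : A * X ≤ Real.pi ^ 2 / Real.sqrt 105 * P * Real.exp (-(2 * Real.pi * P / X)) := by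
      rw [hA]
      have h1 : (1:ℝ) / 2 * X ≤ P := by linarith
      have h2 : (0:ℝ) ≤ Real.pi ^ 2 / Real.sqrt 105 := by positivity
      calc Real.pi ^ 2 / Real.sqrt 105 * (1 / 2) * Real.exp (-(2 * Real.pi)) * X
          = Real.pi ^ 2 / Real.sqrt 105 * (1 / 2 * X) * Real.exp (-(2 * Real.pi)) := by ring
        _ ≤ Real.pi ^ 2 / Real.sqrt 105 * P * Real.exp (-(2 * Real.pi * P / X)) := by
            gcongr
    have hA2 : B * X ≤ Real.pi ^ 2 / Real.sqrt 105 * P * Real.exp (-(2 * Real.pi * P / X)) *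
        (SS Q P).re := by
      rw [hB]
      calc A * c0 * X = (A * X) * c0 := by ring
        _ ≤ _ := by gcongr
    linarith
  -- the sum over the primes
  have hsum1 : (S.card : ℝ) * (B * X - C2 * Q * Real.sqrt X) ≤ ∑ P ∈ S, (∑ c ∈ Icc 1 Q,
        row (fun α => Fth (1 / (X : ℝ)) α * ee (-(P * α))) (Nat.sqrt X) c).re := by
    rw [← nsmul_eq_mul]
    exact Finset.card_nsmul_le_sum _ _ _ hmajor
  have hsum2 : ∑ P ∈ S, ((rp P).card : ℝ) * Real.exp (-(2 * Real.pi * (1 / (X : ℝ)) * P)) ≤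
      ∑ P ∈ S, ((rp P).card : ℝ) := by
    refine Finset.sum_le_sum fun P _ => ?_
    have : Real.exp (-(2 * Real.pi * (1 / (X : ℝ)) * P)) ≤ 1 := by
      rw [Real.exp_le_one_iff]
      have := Real.pi_pos
      have : 0 ≤ 2 * Real.pi * (1 / (X : ℝ)) * P := by positivity
      linarith
    nlinarith [(Nat.cast_nonneg (rp P).card : (0:ℝ) ≤ ((rp P).card : ℝ))]
  -- the errors
  have he1 : C2 * Q * Real.sqrt X ≤ B / 4 * X := by
    calc C2 * Q * Real.sqrt X ≤ C2 * (B / (4 * C2) * Real.sqrt X) * Real.sqrt X := by gcongr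
      _ = B / 4 * (Real.sqrt X * Real.sqrt X) := by field_simp
      _ = B / 4 * X := by rw [hsXX]
  have hcard0 : (0:ℝ) ≤ S.card := Nat.cast_nonneg _
  have hsc : Real.sqrt κ * Real.sqrt X / Real.log X ≤ Real.sqrt S.card := by
    apply Real.le_sqrt_of_sq_le
    rw [div_pow, mul_pow, Real.sq_sqrt hκ.le, Real.sq_sqrt hXpos.le]
    exact hcard
  have he2 : C1 * (X : ℝ) ^ (3 / 2 : ℝ) * Real.sqrt S.card / Q ≤ B / 4 * X * S.card := by
    have hX32 : (X : ℝ) ^ (3 / 2 : ℝ) = X * Real.sqrt X := by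
      rw [Real.sqrt_eq_rpow, show (3 / 2 : ℝ) = 1 + 1 / 2 by norm_num, Real.rpow_add hXpos,
        Real.rpow_one]
    have hss : Real.sqrt S.card * Real.sqrt S.card = S.card := Real.mul_self_sqrt hcard0
    rw [hX32, div_le_iff₀ hQpos]
    have h1 : Real.sqrt κ * Real.sqrt X * Real.sqrt S.card ≤ S.card * Real.log X := by
      have h0 : Real.sqrt κ * Real.sqrt X ≤ Real.sqrt S.card * Real.log X := by
        rwa [div_le_iff₀ hlog] at hsc
      calc Real.sqrt κ * Real.sqrt X * Real.sqrt S.card ≤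
          Real.sqrt S.card * Real.log X * Real.sqrt S.card := by gcongr
        _ = (Real.sqrt S.card * Real.sqrt S.card) * Real.log X := by ring
        _ = S.card * Real.log X := by rw [hss]
    have h2 : C1 = B / 4 * K * Real.sqrt κ := by
      rw [hK]; field_simp
    calc C1 * (X * Real.sqrt X) * Real.sqrt S.card
        = B / 4 * K * X * (Real.sqrt κ * Real.sqrt X * Real.sqrt S.card) := by rw [h2]; ring
      _ ≤ B / 4 * K * X * (S.card * Real.log X) := by gcongr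
      _ = B / 4 * X * S.card * (K * Real.log X) := by ring
      _ ≤ B / 4 * X * S.card * Q :=
          mul_le_mul_of_nonneg_left hQge
            (mul_nonneg (mul_nonneg (by linarith) hXpos.le) hcard0)
  have he1' : (S.card : ℝ) * (B * X - B / 4 * X) ≤ S.card * (B * X - C2 * Q * Real.sqrt X) := by
    gcongr
  calc B / 2 * X * S.card = S.card * (B * X - B / 4 * X) - B / 4 * X * S.card := by ring
    _ ≤ S.card * (B * X - C2 * Q * Real.sqrt X) -
        C1 * (X : ℝ) ^ (3 / 2 : ℝ) * Real.sqrt S.card / Q := by linarith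
    _ ≤ ∑ P ∈ S, ((rp P).card : ℝ) := by linarith

end Pool.Agent.R496.FP
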