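import Pool.Agent.R496.FP.Defs2

/-! M2: the second moment of the number of representations as a sum of four squares. -/

set_option autoImplicit false
open Finset

namespace Pool.Agent.R496.FP

namespace M2a

/-- the interval `[-B, B]` -/
noncomputable def box (B : ℕ) : Finset ℤ := Icc (-(B : ℤ)) B

lemma mem_box {B : ℕ} {z : ℤ} : z ∈ box B ↔ z.natAbs ≤ B := by
  unfold box
  rw [mem_Icc]
  omega

lemma cnt (B q : ℕ) (hq : 1 ≤ q) (hqB : q ≤ B) (a : ℤ) :
    (((box B).filter (fun z => (q : ℤ) ∣ z - a)).card : ℝ) ≤ 4 * B / q := by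
  have hq0 : (0 : ℤ) < q := by exact_mod_cast hq
  have h0 : (box B).filter (fun z => (q : ℤ) ∣ z - a) =
      (Ioc (-(B : ℤ) - 1) B).filter (fun z => z ≡ a [ZMOD q]) := by
    ext z
    unfold box
    rw [mem_filter, mem_filter, mem_Icc, mem_Ioc, Int.modEq_comm, Int.modEq_iff_dvd]
    constructor
    · rintro ⟨h1, h2⟩
      exact ⟨by omega, h2⟩
    · rintro ⟨h1, h2⟩
      exact ⟨by omega, h2⟩
  have h1 := Int.Ioc_filter_modEq_card (-(B : ℤ) - 1) B hq0 a
  rw [h0]
  set N := ((Ioc (-(B : ℤ) - 1) B).filter (fun z => z ≡ a [ZMOD q])).card with hN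
  have hqR : (0 : ℚ) < q := by exact_mod_cast hq
  have hqB' : (1 : ℚ) ≤ B / q := by
    rw [le_div_iff₀ hqR, one_mul]
    exact_mod_cast hqB
  have hq1 : (1 : ℚ) ≤ q := by exact_mod_cast hq
  have hle : ((N : ℤ) : ℚ) ≤ 4 * B / q := by
    rw [h1]
    push_cast
    apply max_le
    · have h2 := Int.floor_le ((((B : ℤ) : ℚ) - (a : ℚ)) / ((q : ℤ) : ℚ))
      have h3 := Int.lt_floor_add_one ((((-(B : ℤ) - 1 : ℤ) : ℚ) - (a : ℚ)) / ((q : ℤ) : ℚ))
      push_cast at h2 h3 ⊢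
      have h4 : ((B : ℚ) - a) / q - (-(B : ℚ) - 1 - a) / q = (2 * B + 1) / q := by
        rw [← sub_div]
        congr 1
        ring
      have h5 : (2 * (B : ℚ) + 1) / q + 1 ≤ 4 * B / q := by
        have h6 : (1 : ℚ) / q ≤ 1 := by
          rw [div_le_one hqR]
          exact hq1
        have h7 : (2 * (B : ℚ) + 1) / q = 2 * (B / q) + 1 / q := by ring
        have h8 : 4 * (B : ℚ) / q = 4 * (B / q) := by ring
        rw [h7, h8]
        linarith
      linarith
    · positivity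
  have : ((N : ℤ) : ℚ) ≤ ((4 * B / q : ℚ)) := hle
  have h9 : (((N : ℤ) : ℚ) : ℝ) ≤ ((4 * B / q : ℚ) : ℝ) := by exact_mod_cast this
  push_cast at h9
  exact h9

/-- the pairs on a line -/
noncomputable def F (B : ℕ) (x1 x2 m : ℤ) : Finset (ℤ × ℤ) :=
  (box B ×ˢ box B).filter (fun y => x1 * y.1 + x2 * y.2 = m)

/-- the divisors `≤ B` of `m` -/
noncomputable def Dv (B : ℕ) (m : ℤ) : Finset ℕ := (Icc 1 B).filter (fun g : ℕ => (g : ℤ) ∣ m)

lemma fiber (B : ℕ) (x1 x2 m : ℤ) (h1 : x1 ≠ 0) (hB : x1.natAbs ≤ B) :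
    ((F B x1 x2 m).card : ℝ) ≤
      ∑ g ∈ Dv B m, if (g : ℤ) ∣ x1 ∧ (g : ℤ) ∣ x2 then 4 * (B : ℝ) * g / x1.natAbs else 0 := by
  classical
  have hnn : ∀ g ∈ Dv B m, (0 : ℝ) ≤
      if (g : ℤ) ∣ x1 ∧ (g : ℤ) ∣ x2 then 4 * (B : ℝ) * g / x1.natAbs else 0 := by
    intro g _
    split_ifs
    · positivity
    · exact le_rfl
  rcases (F B x1 x2 m).eq_empty_or_nonempty with he | ⟨y0, hy0⟩
  · rw [he, card_empty, Nat.cast_zero]
    exact sum_nonneg hnn
  have hg0 : 0 < Int.gcd x1 x2 := Int.gcd_pos_of_ne_zero_left _ h1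
  obtain ⟨a1, a2, hcop, ha1, ha2⟩ := Int.exists_gcd_one hg0
  set g0 := Int.gcd x1 x2 with hg
  have hy0' : x1 * y0.1 + x2 * y0.2 = m := (mem_filter.mp hy0).2
  have hgm : (g0 : ℤ) ∣ m := by
    rw [← hy0']
    exact dvd_add (Dvd.dvd.mul_right (Int.gcd_dvd_left _ _) _)
      (Dvd.dvd.mul_right (Int.gcd_dvd_right _ _) _)
  have hx1 : x1.natAbs = a1.natAbs * g0 := by
    conv_lhs => rw [ha1]
    rw [Int.natAbs_mul, Int.natAbs_natCast]
  have ha1' : a1 ≠ 0 := by
    intro h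
    rw [h, zero_mul] at ha1
    exact h1 ha1
  have hq1 : 1 ≤ a1.natAbs := Int.natAbs_pos.mpr ha1'
  have hg1 : g0 ≤ x1.natAbs := by
    rw [hx1]
    exact Nat.le_mul_of_pos_left _ hq1
  have hqx : a1.natAbs ≤ x1.natAbs := by
    rw [hx1]
    exact Nat.le_mul_of_pos_right _ hg0
  have hmem : g0 ∈ Dv B m := by
    unfold Dv
    rw [mem_filter, mem_Icc]
    exact ⟨⟨hg0, by omega⟩, hgm⟩
  refine le_trans ?_ (single_le_sum hnn hmem)
  rw [if_pos ⟨Int.gcd_dvd_left _ _, Int.gcd_dvd_right _ _⟩]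
  have hcard : (F B x1 x2 m).card ≤
      ((box B).filter (fun z => (a1.natAbs : ℤ) ∣ z - y0.2)).card := by
    refine card_le_card_of_injOn (fun y => y.2) ?_ ?_
    · intro y hy
      rw [mem_coe] at hy
      unfold F at hy
      rw [mem_filter, mem_product] at hy
      rw [mem_coe, mem_filter]
      refine ⟨hy.1.2, ?_⟩
      have h2 : x1 * (y0.1 - y.1) = x2 * (y.2 - y0.2) := by linarith [hy.2]
      have h3 : a1 * (y0.1 - y.1) = a2 * (y.2 - y0.2) := by
        have hgz : (g0 : ℤ) ≠ 0 := by exact_mod_cast hg0.ne'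
        apply mul_left_cancel₀ hgz
        calc (g0 : ℤ) * (a1 * (y0.1 - y.1)) = (a1 * g0) * (y0.1 - y.1) := by ring
          _ = x1 * (y0.1 - y.1) := by rw [← ha1]
          _ = x2 * (y.2 - y0.2) := h2
          _ = (a2 * g0) * (y.2 - y0.2) := by rw [← ha2]
          _ = g0 * (a2 * (y.2 - y0.2)) := by ring
      rw [Int.natAbs_dvd]
      have h4 : a1 ∣ a2 * (y.2 - y0.2) := ⟨_, h3.symm⟩
      exact (Int.isCoprime_iff_gcd_eq_one.mpr hcop).dvd_of_dvd_mul_left h4
    · intro y hy y' hy' h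
      rw [mem_coe] at hy hy'
      unfold F at hy hy'
      rw [mem_filter] at hy hy'
      have h5 : y.2 = y'.2 := h
      have h6 : x1 * y.1 = x1 * y'.1 := by
        have := hy.2
        have := hy'.2
        rw [h5] at *
        linarith
      exact Prod.ext (mul_left_cancel₀ h1 h6) h5
  calc ((F B x1 x2 m).card : ℝ)
      ≤ (((box B).filter (fun z => (a1.natAbs : ℤ) ∣ z - y0.2)).card : ℝ) := by exact_mod_cast hcard
    _ ≤ 4 * B / a1.natAbs := cnt B _ hq1 (by omega) _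
    _ = 4 * (B : ℝ) * g0 / x1.natAbs := by
        rw [hx1]
        have h7 : (g0 : ℝ) ≠ 0 := by exact_mod_cast hg0.ne'
        have h8 : (a1.natAbs : ℝ) ≠ 0 := by
          have : a1.natAbs ≠ 0 := by omega
          exact_mod_cast this
        push_cast
        field_simp

/-- the divisor sum -/
noncomputable def b (B : ℕ) (m : ℤ) : ℝ := ∑ g ∈ Dv B m, (1 : ℝ) / g

lemma one_le_b {B : ℕ} (hB : 1 ≤ B) (m : ℤ) : 1 ≤ b B m := by
  unfold b
  have h : 1 ∈ Dv B m := by
    unfold Dv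
    rw [mem_filter, mem_Icc]
    exact ⟨⟨le_rfl, hB⟩, by simp⟩
  refine le_trans ?_ (single_le_sum (fun g _ => by positivity) h)
  simp

lemma b_neg (B : ℕ) (m : ℤ) : b B (-m) = b B m := by
  unfold b Dv
  congr 1
  exact filter_congr fun g _ => by rw [dvd_neg]

lemma sum1 (B : ℕ) (m : ℤ) :
    ∑ x1 ∈ (box B).filter (fun z => z ≠ 0), ∑ x2 ∈ box x1.natAbs, ((F B x1 x2 m).card : ℝ) ≤
      64 * B ^ 2 * b B m := by
  classical
  calc ∑ x1 ∈ (box B).filter (fun z => z ≠ 0), ∑ x2 ∈ box x1.natAbs, ((F B x1 x2 m).card : ℝ)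
      ≤ ∑ x1 ∈ (box B).filter (fun z => z ≠ 0), ∑ x2 ∈ box x1.natAbs,
          ∑ g ∈ Dv B m, (if (g : ℤ) ∣ x1 ∧ (g : ℤ) ∣ x2 then 4 * (B : ℝ) * g / x1.natAbs else 0) := by
        apply sum_le_sum
        intro x1 hx1
        rw [mem_filter, mem_box] at hx1
        apply sum_le_sum
        intro x2 _
        exact fiber B x1 x2 m hx1.2 hx1.1
    _ = ∑ g ∈ Dv B m, ∑ x1 ∈ (box B).filter (fun z => z ≠ 0), ∑ x2 ∈ box x1.natAbs,
          (if (g : ℤ) ∣ x1 ∧ (g : ℤ) ∣ x2 then 4 * (B : ℝ) * g / x1.natAbs else 0) := by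
        rw [sum_comm]
        apply sum_congr rfl
        intro x1 _
        rw [sum_comm]
    _ ≤ ∑ g ∈ Dv B m, 64 * B ^ 2 * ((1 : ℝ) / g) := by
        apply sum_le_sum
        intro g hg
        unfold Dv at hg
        rw [mem_filter, mem_Icc] at hg
        have hg0 : (0 : ℝ) < g := by exact_mod_cast hg.1.1
        calc ∑ x1 ∈ (box B).filter (fun z => z ≠ 0), ∑ x2 ∈ box x1.natAbs,
            (if (g : ℤ) ∣ x1 ∧ (g : ℤ) ∣ x2 then 4 * (B : ℝ) * g / x1.natAbs else 0)
            ≤ ∑ x1 ∈ (box B).filter (fun z => z ≠ 0), (if (g : ℤ) ∣ x1 then 16 * (B : ℝ) else 0) := by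
              apply sum_le_sum
              intro x1 hx1
              rw [mem_filter, mem_box] at hx1
              by_cases h : (g : ℤ) ∣ x1
              · have hx0 : 0 < x1.natAbs := Int.natAbs_pos.mpr hx1.2
                have hgx : g ≤ x1.natAbs := Nat.le_of_dvd hx0 (Int.natCast_dvd.mp h)
                have hc := cnt x1.natAbs g hg.1.1 hgx 0
                have hx0' : (0 : ℝ) < x1.natAbs := by exact_mod_cast hx0
                simp only [h, true_and, if_true]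
                rw [← sum_filter, sum_const, nsmul_eq_mul]
                simp only [sub_zero] at hc
                calc ((filter (fun a => (g : ℤ) ∣ a) (box x1.natAbs)).card : ℝ) *
                    (4 * (B : ℝ) * g / x1.natAbs)
                    ≤ (4 * x1.natAbs / g) * (4 * (B : ℝ) * g / x1.natAbs) :=
                      mul_le_mul_of_nonneg_right hc (by positivity)
                  _ = 16 * B := by field_simp; ring
              · simp [h]
          _ = ((filter (fun z : ℤ => (g : ℤ) ∣ z) ((box B).filter (fun z => z ≠ 0))).card : ℝ) *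
                (16 * (B : ℝ)) := by
              rw [← sum_filter, sum_const, nsmul_eq_mul]
          _ ≤ (((box B).filter (fun z => (g : ℤ) ∣ z - 0)).card : ℝ) * (16 * (B : ℝ)) := by
              apply mul_le_mul_of_nonneg_right _ (by positivity)
              have : (filter (fun z : ℤ => (g : ℤ) ∣ z) ((box B).filter (fun z => z ≠ 0))) ⊆
                  ((box B).filter (fun z => (g : ℤ) ∣ z - 0)) := by
                intro z hz
                rw [mem_filter, mem_filter] at hz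
                rw [mem_filter, sub_zero]
                exact ⟨hz.1.1, hz.2⟩
              exact_mod_cast card_le_card this
          _ ≤ (4 * B / g) * (16 * (B : ℝ)) :=
              mul_le_mul_of_nonneg_right (cnt B g hg.1.1 hg.1.2 0) (by positivity)
          _ = 64 * B ^ 2 * ((1 : ℝ) / g) := by ring
    _ = 64 * B ^ 2 * b B m := by
        unfold b
        rw [mul_sum]

/-- the solutions of `x₁ y₁ + x₂ y₂ = m`; order `x₁, x₂, y₁, y₂` -/
noncomputable def Q (B : ℕ) (m : ℤ) : Finset ((ℤ × ℤ) × (ℤ × ℤ)) :=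
  ((box B ×ˢ box B) ×ˢ (box B ×ˢ box B)).filter
    (fun t => t.1.1 * t.2.1 + t.1.2 * t.2.2 = m)

lemma cardQ1 {B : ℕ} (hB : 1 ≤ B) (m : ℤ) :
    (((Q B m).filter (fun t => t.1.2.natAbs ≤ t.1.1.natAbs)).card : ℝ) ≤ 73 * B ^ 2 * b B m := by
  classical
  have hB1 : (1 : ℝ) ≤ B := by exact_mod_cast hB
  have hsplit := card_filter_add_card_filter_not
    (s := (Q B m).filter (fun t => t.1.2.natAbs ≤ t.1.1.natAbs)) (p := fun t => t.1.1 ≠ 0)
  have h1 : ((((Q B m).filter (fun t => t.1.2.natAbs ≤ t.1.1.natAbs)).filter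
      (fun t => t.1.1 ≠ 0)).card : ℝ) ≤ 64 * B ^ 2 * b B m := by
    refine le_trans ?_ (sum1 B m)
    have h2 : (((Q B m).filter (fun t => t.1.2.natAbs ≤ t.1.1.natAbs)).filter
        (fun t => t.1.1 ≠ 0)).card ≤ (((box B).filter (fun z => z ≠ 0)).sigma
          (fun x1 => (box x1.natAbs).sigma (fun x2 => F B x1 x2 m))).card := by
      refine card_le_card_of_injOn (fun t => ⟨t.1.1, ⟨t.1.2, t.2⟩⟩) ?_ ?_
      · intro t ht
        rw [mem_coe, mem_filter, mem_filter] at ht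
        unfold Q at ht
        rw [mem_filter, mem_product, mem_product, mem_product] at ht
        rw [mem_coe, mem_sigma, mem_sigma]
        unfold F
        rw [mem_filter, mem_filter, mem_product]
        exact ⟨⟨ht.1.1.1.1.1, ht.2⟩, mem_box.mpr ht.1.2, ht.1.1.1.2, ht.1.1.2⟩
      · intro t _ t' _ h
        simp only [Sigma.mk.injEq] at h
        obtain ⟨ha, hb⟩ := h
        have hb' := eq_of_heq hb
        rw [Sigma.mk.injEq] at hb'
        obtain ⟨hb1, hb2⟩ := hb'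
        exact Prod.ext (Prod.ext ha hb1) (eq_of_heq hb2)
    calc _ ≤ ((((box B).filter (fun z => z ≠ 0)).sigma
          (fun x1 => (box x1.natAbs).sigma (fun x2 => F B x1 x2 m))).card : ℝ) := by exact_mod_cast h2
      _ = _ := by
          rw [card_sigma]
          push_cast
          apply sum_congr rfl
          intro x1 _
          rw [card_sigma]
          push_cast
          rfl
  have h3 : ((((Q B m).filter (fun t => t.1.2.natAbs ≤ t.1.1.natAbs)).filter
      (fun t => ¬ t.1.1 ≠ 0)).card : ℝ) ≤ 9 * B ^ 2 := by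
    have h4 : (((Q B m).filter (fun t => t.1.2.natAbs ≤ t.1.1.natAbs)).filter
        (fun t => ¬ t.1.1 ≠ 0)).card ≤ (box B ×ˢ box B).card := by
      refine card_le_card_of_injOn (fun t => t.2) ?_ ?_
      · intro t ht
        rw [mem_coe, mem_filter, mem_filter] at ht
        unfold Q at ht
        rw [mem_filter, mem_product] at ht
        exact ht.1.1.1.2
      · intro t ht t' ht' h
        rw [mem_coe, mem_filter, mem_filter] at ht ht'
        have h5 : t.1.1 = 0 := not_not.mp ht.2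
        have h6 : t'.1.1 = 0 := not_not.mp ht'.2
        have h7 := ht.1.2
        have h8 := ht'.1.2
        rw [h5] at h7
        rw [h6] at h8
        exact Prod.ext (Prod.ext (by omega) (by omega)) h
    have h9 : (box B ×ˢ box B).card = (2 * B + 1) ^ 2 := by
      rw [card_product]
      unfold box
      rw [Int.card_Icc]
      have : ((B : ℤ) + 1 - -(B : ℤ)).toNat = 2 * B + 1 := by omega
      rw [this]
      ring
    rw [h9] at h4
    calc _ ≤ (((2 * B + 1) ^ 2 : ℕ) : ℝ) := by exact_mod_cast h4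
      _ = (2 * (B : ℝ) + 1) ^ 2 := by push_cast; ring
      _ ≤ 9 * B ^ 2 := by nlinarith
  have h10 : (1 : ℝ) ≤ b B m := one_le_b hB m
  rw [← hsplit]
  push_cast
  have h11 : (9 : ℝ) * B ^ 2 ≤ 9 * B ^ 2 * b B m := le_mul_of_one_le_right (by positivity) h10
  linarith

lemma cardQ {B : ℕ} (hB : 1 ≤ B) (m : ℤ) : ((Q B m).card : ℝ) ≤ 146 * B ^ 2 * b B m := by
  classical
  have hsplit := card_filter_add_card_filter_not
    (s := Q B m) (p := fun t => t.1.2.natAbs ≤ t.1.1.natAbs)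
  have h1 := cardQ1 hB m
  have h2 : ((Q B m).filter (fun t => ¬ t.1.2.natAbs ≤ t.1.1.natAbs)).card ≤
      ((Q B m).filter (fun t => t.1.2.natAbs ≤ t.1.1.natAbs)).card := by
    refine card_le_card_of_injOn (fun t => (t.1.swap, t.2.swap)) ?_ ?_
    · intro t ht
      rw [mem_coe, mem_filter] at ht
      unfold Q at ht
      rw [mem_filter, mem_product, mem_product, mem_product] at ht
      rw [mem_coe, mem_filter]
      unfold Q
      rw [mem_filter, mem_product, mem_product, mem_product]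
      refine ⟨⟨⟨⟨ht.1.1.1.2, ht.1.1.1.1⟩, ⟨ht.1.1.2.2, ht.1.1.2.1⟩⟩, ?_⟩, ?_⟩
      · show t.1.2 * t.2.2 + t.1.1 * t.2.1 = m
        rw [add_comm]
        exact ht.1.2
      · show t.1.1.natAbs ≤ t.1.2.natAbs
        omega
    · intro t _ t' _ h
      simp only [Prod.mk.injEq] at h
      exact Prod.ext (Prod.swap_injective h.1) (Prod.swap_injective h.2)
  have h3 : (((Q B m).filter (fun t => ¬ t.1.2.natAbs ≤ t.1.1.natAbs)).card : ℝ) ≤
      ((Q B m).filter (fun t => t.1.2.natAbs ≤ t.1.1.natAbs)).card := by exact_mod_cast h2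
  rw [← hsplit]
  push_cast
  linarith

/-- the constant -/
noncomputable def Z : ℝ := ∑' g : ℕ, (1 : ℝ) / (g : ℝ) ^ (3 / 2 : ℝ)

lemma Z_pos : 0 < Z := by
  unfold Z
  have hs : Summable (fun g : ℕ => (1 : ℝ) / (g : ℝ) ^ (3 / 2 : ℝ)) :=
    Real.summable_one_div_nat_rpow.mpr (by norm_num)
  refine hs.tsum_pos (fun g => by positivity) 1 (by simp)

lemma le_Z (s : Finset ℕ) : ∑ g ∈ s, (1 : ℝ) / (g : ℝ) ^ (3 / 2 : ℝ) ≤ Z := by
  unfold Z
  have hs : Summable (fun g : ℕ => (1 : ℝ) / (g : ℝ) ^ (3 / 2 : ℝ)) :=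
    Real.summable_one_div_nat_rpow.mpr (by norm_num)
  exact hs.sum_le_tsum s (fun g _ => by positivity)

lemma sum_b {B : ℕ} (hB : 1 ≤ B) :
    ∑ m ∈ box (2 * B ^ 2), b B m ^ 2 ≤ 8 * B ^ 2 * Z ^ 2 := by
  classical
  have h1 : ∀ m : ℤ, b B m ^ 2 ≤ Z * ∑ g ∈ Dv B m, (1 : ℝ) / (g : ℝ) ^ (1 / 2 : ℝ) := by
    intro m
    unfold b
    have h2 := sum_sq_le_sum_mul_sum_of_sq_le_mul (Dv B m) (r := fun g : ℕ => (1 : ℝ) / g)
      (f := fun g : ℕ => (1 : ℝ) / (g : ℝ) ^ (3 / 2 : ℝ))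
      (g := fun g : ℕ => (1 : ℝ) / (g : ℝ) ^ (1 / 2 : ℝ)) (fun g _ => by positivity)
      (fun g _ => by positivity) ?_
    · refine h2.trans ?_
      apply mul_le_mul_of_nonneg_right (le_Z _)
      exact sum_nonneg fun g _ => by positivity
    · intro g hg
      unfold Dv at hg
      rw [mem_filter, mem_Icc] at hg
      have hg0 : (0 : ℝ) < g := by exact_mod_cast hg.1.1
      apply le_of_eq
      rw [div_mul_div_comm, ← Real.rpow_add hg0, one_mul, div_pow, one_pow]
      norm_num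
  calc ∑ m ∈ box (2 * B ^ 2), b B m ^ 2
      ≤ ∑ m ∈ box (2 * B ^ 2), Z * ∑ g ∈ Dv B m, (1 : ℝ) / (g : ℝ) ^ (1 / 2 : ℝ) :=
        sum_le_sum fun m _ => h1 m
    _ = Z * ∑ g ∈ Icc 1 B, ∑ m ∈ (box (2 * B ^ 2)).filter (fun m => (g : ℤ) ∣ m - 0),
          (1 : ℝ) / (g : ℝ) ^ (1 / 2 : ℝ) := by
        rw [← mul_sum]
        congr 1
        unfold Dv
        simp_rw [sum_filter]
        rw [sum_comm]
        apply sum_congr rfl
        intro g _
        apply sum_congr rfl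
        intro m _
        rw [sub_zero]
    _ ≤ Z * ∑ g ∈ Icc 1 B, 8 * B ^ 2 * ((1 : ℝ) / (g : ℝ) ^ (3 / 2 : ℝ)) := by
        apply mul_le_mul_of_nonneg_left _ Z_pos.le
        apply sum_le_sum
        intro g hg
        rw [mem_Icc] at hg
        have hg0 : (0 : ℝ) < g := by exact_mod_cast hg.1
        have hgB : g ≤ 2 * B ^ 2 := by nlinarith [hg.1, hg.2]
        rw [sum_const, nsmul_eq_mul]
        calc (((box (2 * B ^ 2)).filter (fun m => (g : ℤ) ∣ m - 0)).card : ℝ) *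
            (1 / (g : ℝ) ^ (1 / 2 : ℝ))
            ≤ (4 * ((2 * B ^ 2 : ℕ) : ℝ) / g) * (1 / (g : ℝ) ^ (1 / 2 : ℝ)) :=
              mul_le_mul_of_nonneg_right (cnt _ g hg.1 hgB 0) (by positivity)
          _ = 8 * B ^ 2 * ((1 : ℝ) / (g : ℝ) ^ (3 / 2 : ℝ)) := by
              have : (g : ℝ) ^ (3 / 2 : ℝ) = g * (g : ℝ) ^ (1 / 2 : ℝ) := by
                rw [← Real.rpow_one_add' hg0.le (by norm_num)]
                norm_num
              rw [this]
              push_cast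
              field_simp
              ring
    _ = 8 * B ^ 2 * Z * ∑ g ∈ Icc 1 B, ((1 : ℝ) / (g : ℝ) ^ (3 / 2 : ℝ)) := by
        rw [← mul_sum]
        ring
    _ ≤ 8 * B ^ 2 * Z * Z := by
        apply mul_le_mul_of_nonneg_left (le_Z _)
        have := Z_pos
        positivity
    _ = 8 * B ^ 2 * Z ^ 2 := by ring

/-- the second moment by the quadruples -/
lemma final (rr : ℕ → Finset (Fin 4 → ℤ)) (hrr : ∀ n X, X ∈ rr n ↔ ∑ i, X i ^ 2 = (n : ℤ)) (N : ℕ) :
    ∑ n ∈ range (N + 1), ((rr n).card : ℝ) ^ 2 ≤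
      (146 ^ 2 * 8 * Z ^ 2 * 729) * ((N : ℝ) + 1) ^ 3 := by
  classical
  set s := Nat.sqrt N with hs
  set B := 2 * s + 1 with hB
  have hB1 : 1 ≤ B := by omega
  have hsN : s * s ≤ N := Nat.sqrt_le N
  -- the coordinates are at most s
  have hco : ∀ n ∈ range (N + 1), ∀ X ∈ rr n, ∀ i, (X i).natAbs ≤ s := by
    intro n hn X hX i
    rw [mem_range] at hn
    have h1 : ∑ i, X i ^ 2 = (n : ℤ) := (hrr n X).mp hX
    have h2 : X i ^ 2 ≤ n := by
      rw [← h1]
      exact Finset.single_le_sum (f := fun i => X i ^ 2) (fun j _ => sq_nonneg _) (Finset.mem_univ i)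
    rw [hs, Nat.le_sqrt]
    have h3 : ((X i).natAbs * (X i).natAbs : ℤ) ≤ N := by
      have h4 : (((X i).natAbs : ℤ)) * ((X i).natAbs : ℤ) = X i ^ 2 := by
        rw [Int.natAbs_mul_self', sq]
      have h5 : (n : ℤ) ≤ N := by exact_mod_cast (by omega : n ≤ N)
      push_cast at h4 ⊢
      linarith
    exact_mod_cast h3
  have hcard : ∑ n ∈ range (N + 1), (rr n).card ^ 2 ≤
      ∑ m ∈ box (2 * B ^ 2), (Q B m).card * (Q B (-m)).card := by
    have e1 : ∑ n ∈ range (N + 1), (rr n).card ^ 2 =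
        ((range (N + 1)).sigma (fun n => rr n ×ˢ rr n)).card := by
      rw [card_sigma]
      apply sum_congr rfl
      intro n _
      rw [card_product, sq]
    have e2 : ∑ m ∈ box (2 * B ^ 2), (Q B m).card * (Q B (-m)).card =
        ((box (2 * B ^ 2)).sigma (fun m => Q B m ×ˢ Q B (-m))).card := by
      rw [card_sigma]
      apply sum_congr rfl
      intro n _
      rw [card_product]
    rw [e1, e2]
    refine card_le_card_of_injOn (fun t =>
      ⟨(t.2.1 0 - t.2.2 0) * (t.2.1 0 + t.2.2 0) + (t.2.1 1 - t.2.2 1) * (t.2.1 1 + t.2.2 1),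
        (((t.2.1 0 - t.2.2 0, t.2.1 1 - t.2.2 1), (t.2.1 0 + t.2.2 0, t.2.1 1 + t.2.2 1)),
        ((t.2.1 2 - t.2.2 2, t.2.1 3 - t.2.2 3), (t.2.1 2 + t.2.2 2, t.2.1 3 + t.2.2 3)))⟩) ?_ ?_
    · rintro ⟨n, X, Y⟩ ht
      rw [mem_coe, mem_sigma, mem_product] at ht
      obtain ⟨hn, hX, hY⟩ := ht
      simp only at hn hX hY
      have cX := hco n hn X hX
      have cY := hco n hn Y hY
      have sX : ∑ i, X i ^ 2 = (n : ℤ) := (hrr n X).mp hX
      have sY : ∑ i, Y i ^ 2 = (n : ℤ) := (hrr n Y).mp hY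
      rw [Fin.sum_univ_four] at sX sY
      have hm : ∀ i, X i - Y i ∈ box B ∧ X i + Y i ∈ box B := by
        intro i
        have h1 := cX i
        have h2 := cY i
        rw [mem_box, mem_box]
        constructor <;> omega
      have hmm : ∀ i, ((X i - Y i) * (X i + Y i)).natAbs ≤ B ^ 2 := by
        intro i
        rw [Int.natAbs_mul, sq]
        exact Nat.mul_le_mul (mem_box.mp (hm i).1) (mem_box.mp (hm i).2)
      rw [mem_coe, mem_sigma, mem_product]
      unfold Q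
      rw [mem_filter, mem_filter, mem_product, mem_product, mem_product, mem_product, mem_product,
        mem_product]
      refine ⟨?_, ⟨⟨⟨(hm 0).1, (hm 1).1⟩, ⟨(hm 0).2, (hm 1).2⟩⟩, rfl⟩,
        ⟨⟨⟨(hm 2).1, (hm 3).1⟩, ⟨(hm 2).2, (hm 3).2⟩⟩, ?_⟩⟩
      · rw [mem_box]
        have h1 := hmm 0
        have h2 := hmm 1
        have h3 := Int.natAbs_add_le ((X 0 - Y 0) * (X 0 + Y 0)) ((X 1 - Y 1) * (X 1 + Y 1))
        show ((X 0 - Y 0) * (X 0 + Y 0) + (X 1 - Y 1) * (X 1 + Y 1)).natAbs ≤ 2 * B ^ 2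
        omega
      · show (X 2 - Y 2) * (X 2 + Y 2) + (X 3 - Y 3) * (X 3 + Y 3) =
          -((X 0 - Y 0) * (X 0 + Y 0) + (X 1 - Y 1) * (X 1 + Y 1))
        linear_combination sX - sY
    · rintro ⟨n, X, Y⟩ ht ⟨n', X', Y'⟩ ht' h
      rw [mem_coe, mem_sigma, mem_product] at ht ht'
      simp only at ht ht'
      simp only [Sigma.mk.injEq] at h
      obtain ⟨_, h⟩ := h
      have h' := eq_of_heq h
      simp only [Prod.mk.injEq] at h'
      obtain ⟨⟨⟨a0, a1⟩, b0, b1⟩, ⟨a2, a3⟩, b2, b3⟩ := h'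
      have hXX : X = X' := by
        funext i
        fin_cases i <;> simp only [Fin.zero_eta, Fin.mk_one, Fin.reduceFinMk] <;> omega
      have hYY : Y = Y' := by
        funext i
        fin_cases i <;> simp only [Fin.zero_eta, Fin.mk_one, Fin.reduceFinMk] <;> omega
      subst hXX
      subst hYY
      have h1 : ∑ i, X i ^ 2 = (n : ℤ) := (hrr n X).mp ht.2.1
      have h2 : ∑ i, X i ^ 2 = (n' : ℤ) := (hrr n' X).mp ht'.2.1
      have h3 : (n : ℤ) = n' := by rw [← h1, ← h2]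
      have h4 : n = n' := by exact_mod_cast h3
      subst h4
      rfl
  have hZ := Z_pos
  have hBB : (B : ℝ) ^ 2 ≤ 9 * ((N : ℝ) + 1) := by
    have h1 : B ^ 2 ≤ 9 * (N + 1) := by
      rw [hB]
      nlinarith [Nat.le_mul_self s]
    exact_mod_cast h1
  calc ∑ n ∈ range (N + 1), ((rr n).card : ℝ) ^ 2
      = ((∑ n ∈ range (N + 1), (rr n).card ^ 2 : ℕ) : ℝ) := by push_cast; rfl
    _ ≤ ((∑ m ∈ box (2 * B ^ 2), (Q B m).card * (Q B (-m)).card : ℕ) : ℝ) := by
        exact_mod_cast hcard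
    _ = ∑ m ∈ box (2 * B ^ 2), ((Q B m).card : ℝ) * ((Q B (-m)).card : ℝ) := by push_cast; rfl
    _ ≤ ∑ m ∈ box (2 * B ^ 2), (146 ^ 2 * (B : ℝ) ^ 4) * b B m ^ 2 := by
        apply sum_le_sum
        intro m _
        have h1 := cardQ hB1 m
        have h2 := cardQ hB1 (-m)
        rw [b_neg] at h2
        calc ((Q B m).card : ℝ) * ((Q B (-m)).card : ℝ)
            ≤ (146 * B ^ 2 * b B m) * (146 * B ^ 2 * b B m) :=
              mul_le_mul h1 h2 (by positivity) ((by positivity : (0 : ℝ) ≤ _).trans h1)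
          _ = (146 ^ 2 * (B : ℝ) ^ 4) * b B m ^ 2 := by ring
    _ = (146 ^ 2 * (B : ℝ) ^ 4) * ∑ m ∈ box (2 * B ^ 2), b B m ^ 2 := by rw [mul_sum]
    _ ≤ (146 ^ 2 * (B : ℝ) ^ 4) * (8 * B ^ 2 * Z ^ 2) :=
        mul_le_mul_of_nonneg_left (sum_b hB1) (by positivity)
    _ = (146 ^ 2 * 8 * Z ^ 2) * ((B : ℝ) ^ 2) ^ 3 := by ring
    _ ≤ (146 ^ 2 * 8 * Z ^ 2) * (9 * ((N : ℝ) + 1)) ^ 3 := by
        apply mul_le_mul_of_nonneg_left _ (by positivity)
        exact pow_le_pow_left₀ (by positivity) hBB 3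
    _ = (146 ^ 2 * 8 * Z ^ 2 * 729) * ((N : ℝ) + 1) ^ 3 := by ring

end M2a

open Pool.Agent.W65.FS in
theorem m2 : M2 :=
  ⟨146 ^ 2 * 8 * M2a.Z ^ 2 * 729, by have := M2a.Z_pos; positivity,
    fun N => M2a.final reps mem_reps N⟩

end Pool.Agent.R496.FP
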