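import Pool.Agent.R496.FP.Defs

/-!
# FP-MA: the major arcs
-/

set_option autoImplicit false
set_option maxHeartbeats 1000000

open Finset Complex MeasureTheory

namespace Pool.Agent.R715.FPMA

open Pool.Agent.R496.FP Pool.Agent.W65.FS

/-! ### exponentials -/

theorem norm_ee (x : ℝ) : ‖ee x‖ = 1 := by
  unfold ee
  rw [show (2 * (Real.pi : ℂ) * I * x) = ((2 * Real.pi * x : ℝ) : ℂ) * I by push_cast; ring]
  exact Complex.norm_exp_ofReal_mul_I _

theorem ee_add (x y : ℝ) : ee (x + y) = ee x * ee y := by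
  unfold ee
  rw [← Complex.exp_add]
  congr 1
  push_cast; ring

theorem ee_conj (x : ℝ) : (starRingEnd ℂ) (ee x) = ee (-x) := by
  unfold ee
  rw [← Complex.exp_conj]
  congr 1
  simp only [map_mul, Complex.conj_ofReal, Complex.conj_I, map_ofNat, Complex.ofReal_neg]
  ring

theorem ee_cont : Continuous ee := by
  unfold ee
  fun_prop

theorem ee_std (c : ℕ) [NeZero c] (n : ℤ) : ee ((n : ℝ) / c) = ZMod.stdAddChar (n : ZMod c) := by
  rw [ZMod.stdAddChar_coe]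
  unfold ee
  congr 1
  push_cast; ring

/-! ### Gauss sums -/

theorem g0_eq (c : ℕ) [NeZero c] (b : ZMod c) : g0 c b = gs c 1 b 0 0 := by
  unfold g0 gs
  apply Finset.sum_congr rfl
  intro s _
  simp

theorem g0_bound (hGB : GB) (c : ℕ) [NeZero c] (a : ℤ) (ha : IsCoprime a (c : ℤ)) (j : ℕ)
    (h1 : 1 ≤ j) (h7 : j ≤ 7) : ‖g0 c ((j : ZMod c) * (a : ZMod c))‖ ≤ Real.sqrt (14 * c) := by
  rw [g0_eq]
  exact Real.le_sqrt_of_sq_le (hGB c a ha j h1 h7 0)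

theorem G4_bound (hGB : GB) (c : ℕ) [NeZero c] (a : ℤ) (ha : IsCoprime a (c : ℤ)) :
    ‖G4 c (a : ZMod c)‖ ≤ 196 * (c : ℝ) ^ 2 := by
  have b1 := g0_bound hGB c a ha 1 (by norm_num) (by norm_num)
  have b3 := g0_bound hGB c a ha 3 (by norm_num) (by norm_num)
  have b5 := g0_bound hGB c a ha 5 (by norm_num) (by norm_num)
  have b7 := g0_bound hGB c a ha 7 (by norm_num) (by norm_num)
  unfold G4
  push_cast at b1 b3 b5 b7
  rw [one_mul] at b1
  rw [norm_mul, norm_mul, norm_mul]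
  have h0 : (0 : ℝ) ≤ 14 * c := by positivity
  have h2 : ‖g0 c (a : ZMod c)‖ * ‖g0 c (3 * (a : ZMod c))‖ ≤ 14 * c := by
    calc _ ≤ Real.sqrt (14 * c) * Real.sqrt (14 * c) :=
          mul_le_mul b1 b3 (norm_nonneg _) (Real.sqrt_nonneg _)
      _ = _ := Real.mul_self_sqrt h0
  have h3 : ‖g0 c (5 * (a : ZMod c))‖ * ‖g0 c (7 * (a : ZMod c))‖ ≤ 14 * c := by
    calc _ ≤ Real.sqrt (14 * c) * Real.sqrt (14 * c) :=
          mul_le_mul b5 b7 (norm_nonneg _) (Real.sqrt_nonneg _)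
      _ = _ := Real.mul_self_sqrt h0
  calc _ ≤ (14 * (c : ℝ)) * (14 * c) := mul_le_mul h2 h3 (by positivity) h0
    _ = _ := by ring

theorem g0_conj (c : ℕ) [NeZero c] (b : ZMod c) : (starRingEnd ℂ) (g0 c b) = g0 c (-b) := by
  unfold g0
  rw [map_sum]
  apply Finset.sum_congr rfl
  intro s _
  rw [neg_mul, AddChar.map_neg_eq_conj]

theorem G4_conj (c : ℕ) [NeZero c] (b : ZMod c) : (starRingEnd ℂ) (G4 c b) = G4 c (-b) := by
  unfold G4
  rw [map_mul, map_mul, map_mul, g0_conj, g0_conj, g0_conj, g0_conj, mul_neg, mul_neg, mul_neg]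

/-- the summand of the singular series -/
noncomputable def tm (c : ℕ) [NeZero c] (P : ℕ) (x : ZMod c) : ℂ :=
  G4 c x * ZMod.stdAddChar (-(x * (P : ZMod c)))

theorem As_eq (c : ℕ) [NeZero c] (P : ℕ) :
    As c P = ((c : ℂ) ^ 4)⁻¹ * ∑ u : (ZMod c)ˣ, tm c P (u : ZMod c) := rfl

theorem tm_conj (c : ℕ) [NeZero c] (P : ℕ) (x : ZMod c) :
    (starRingEnd ℂ) (tm c P x) = tm c P (-x) := by
  unfold tm
  rw [map_mul, G4_conj, ← AddChar.map_neg_eq_conj, neg_mul]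

theorem As_conj (c : ℕ) [NeZero c] (P : ℕ) : (starRingEnd ℂ) (As c P) = As c P := by
  rw [As_eq, map_mul, map_sum]
  congr 1
  · simp
  · refine Fintype.sum_equiv (Equiv.neg (ZMod c)ˣ) _ _ ?_
    intro u
    rw [tm_conj]
    simp

theorem unit_coprime (c : ℕ) [NeZero c] (u : (ZMod c)ˣ) :
    ∃ a : ℤ, IsCoprime a (c : ℤ) ∧ (a : ZMod c) = (u : ZMod c) := by
  refine ⟨((u : ZMod c).val : ℤ), ?_, ?_⟩
  · rw [Nat.isCoprime_iff_coprime]
    exact ZMod.val_coe_unit_coprime u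
  · simp

theorem tm_bound (hGB : GB) (c : ℕ) [NeZero c] (P : ℕ) (a : ℤ) (ha : IsCoprime a (c : ℤ)) :
    ‖tm c P (a : ZMod c)‖ ≤ 196 * (c : ℝ) ^ 2 := by
  unfold tm
  rw [norm_mul, AddChar.norm_apply, mul_one]
  exact G4_bound hGB c a ha

theorem As_bound (hGB : GB) (c : ℕ) [NeZero c] (P : ℕ) : ‖As c P‖ ≤ 196 := by
  have hc : (0 : ℝ) < c := by exact_mod_cast Nat.pos_of_ne_zero (NeZero.ne c)
  have hc1 : (1 : ℝ) ≤ c := by exact_mod_cast Nat.pos_of_ne_zero (NeZero.ne c)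
  rw [As_eq, norm_mul]
  have h1 : ‖∑ u : (ZMod c)ˣ, tm c P (u : ZMod c)‖ ≤ c * (196 * (c : ℝ) ^ 2) := by
    refine (norm_sum_le _ _).trans ?_
    have h2 : ∀ u ∈ (Finset.univ : Finset (ZMod c)ˣ), ‖tm c P (u : ZMod c)‖ ≤ 196 * (c : ℝ) ^ 2 := by
      intro u _
      obtain ⟨a, ha, hau⟩ := unit_coprime c u
      rw [← hau]
      exact tm_bound hGB c P a ha
    refine (Finset.sum_le_card_nsmul _ _ _ h2).trans ?_
    rw [nsmul_eq_mul, Finset.card_univ, ZMod.card_units_eq_totient]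
    apply mul_le_mul_of_nonneg_right _ (by positivity)
    exact_mod_cast Nat.totient_le c
  have h3 : ‖((c : ℂ) ^ 4)⁻¹‖ = ((c : ℝ) ^ 4)⁻¹ := by
    rw [norm_inv, norm_pow, Complex.norm_natCast]
  rw [h3]
  calc ((c : ℝ) ^ 4)⁻¹ * _ ≤ ((c : ℝ) ^ 4)⁻¹ * (c * (196 * (c : ℝ) ^ 2)) :=
        mul_le_mul_of_nonneg_left h1 (by positivity)
    _ = 196 / c := by field_simp
    _ ≤ 196 := div_le_self (by norm_num) hc1

/-! ### the bijection with the units -/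

theorem aa_zmod (c v : ℕ) [NeZero c] (h : Nat.Coprime c v) :
    (aa c v : ZMod c) * (v : ZMod c) = -1 := by
  obtain ⟨b, hb⟩ := aa_spec c v h
  have h1 : ((b * c - aa c v * v : ℤ) : ZMod c) = 1 := by rw [hb]; simp
  push_cast at h1
  rw [ZMod.natCast_self, mul_zero, zero_sub] at h1
  linear_combination -h1

theorem sum_units (c H : ℕ) [NeZero c] (hcH : c ≤ H) (f : ZMod c → ℂ) :
    ∑ v ∈ (Ioc (H - c) H).filter (fun v => Nat.Coprime c v), f (aa c v : ZMod c) =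
      ∑ u : (ZMod c)ˣ, f (u : ZMod c) := by
  have hc : 0 < c := Nat.pos_of_ne_zero (NeZero.ne c)
  have hval : ∀ v : ℕ, ∀ h : Nat.Coprime c v,
      (((-(ZMod.unitOfCoprime v h.symm)⁻¹ : (ZMod c)ˣ)) : ZMod c) = (aa c v : ZMod c) := by
    intro v h
    have h1 := aa_zmod c v h
    have h2 : ((ZMod.unitOfCoprime v h.symm : (ZMod c)ˣ) : ZMod c) = (v : ZMod c) :=
      ZMod.coe_unitOfCoprime v h.symm
    have h3 : (v : ZMod c) * (((ZMod.unitOfCoprime v h.symm)⁻¹ : (ZMod c)ˣ) : ZMod c) = 1 := by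
      rw [← h2]; exact Units.mul_inv _
    rw [Units.val_neg]
    linear_combination (aa c v : ZMod c) * h3 -
      (((ZMod.unitOfCoprime v h.symm)⁻¹ : (ZMod c)ˣ) : ZMod c) * h1
  refine Finset.sum_bij (fun v hv => -(ZMod.unitOfCoprime v (mem_filter.1 hv).2.symm)⁻¹)
    (fun _ _ => mem_univ _) ?_ ?_ ?_
  · intro v hv w hw h
    rw [mem_filter, mem_Ioc] at hv hw
    have h1 := neg_injective h
    have h2 := inv_injective h1
    have h3 := congrArg (fun u : (ZMod c)ˣ => (u : ZMod c)) h2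
    simp only [ZMod.coe_unitOfCoprime] at h3
    rw [ZMod.natCast_eq_natCast_iff] at h3
    rcases le_total v w with h4 | h4
    · have h5 := (Nat.modEq_iff_dvd' h4).1 h3
      have h6 : w - v < c := by omega
      have := Nat.eq_zero_of_dvd_of_lt h5 h6
      omega
    · have h5 := (Nat.modEq_iff_dvd' h4).1 h3.symm
      have h6 : v - w < c := by omega
      have := Nat.eq_zero_of_dvd_of_lt h5 h6
      omega
  · intro u _
    set x : (ZMod c)ˣ := (-u)⁻¹ with hx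
    set t : ℕ := (((H : ℕ) : ZMod c) - (x : ZMod c)).val with ht
    have htc : t < c := ZMod.val_lt _
    have hvx : ((H - t : ℕ) : ZMod c) = (x : ZMod c) := by
      rw [Nat.cast_sub (by omega), ht, ZMod.natCast_val, ZMod.cast_id]
      ring
    have hcop : Nat.Coprime c (H - t) := by
      have h1 : IsUnit ((H - t : ℕ) : ZMod c) := by rw [hvx]; exact x.isUnit
      exact ((ZMod.isUnit_iff_coprime _ _).1 h1).symm
    have hmem : H - t ∈ (Ioc (H - c) H).filter (fun v => Nat.Coprime c v) := by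
      rw [mem_filter, mem_Ioc]
      exact ⟨⟨by omega, by omega⟩, hcop⟩
    refine ⟨H - t, hmem, ?_⟩
    have h2 : ZMod.unitOfCoprime (H - t) hcop.symm = x := by
      apply Units.ext
      rw [ZMod.coe_unitOfCoprime, hvx]
    rw [h2, hx, inv_inv, neg_neg]
  · intro v hv
    rw [hval v (mem_filter.1 hv).2]

/-! ### the singular integral -/

/-- the integrand -/
noncomputable def zi (y : ℝ) (P : ℕ) (β : ℝ) : ℂ := ee (-(P * β)) / ((y : ℂ) - β * I) ^ 2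

theorem w_ne (y : ℝ) (hy : 0 < y) (β : ℝ) : (y : ℂ) - β * I ≠ 0 := by
  intro h
  have := congrArg Complex.re h
  simp at this
  exact hy.ne' this

theorem w_norm_sq (y β : ℝ) : ‖((y : ℂ) - β * I) ^ 2‖ = y ^ 2 + β ^ 2 := by
  rw [norm_pow, ← Complex.normSq_eq_norm_sq, Complex.normSq_apply]
  simp
  ring

theorem zi_cont (y : ℝ) (hy : 0 < y) (P : ℕ) : Continuous (zi y P) := by
  unfold zi
  apply Continuous.div
  · exact ee_cont.comp (by fun_prop)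
  · fun_prop
  · intro β
    exact pow_ne_zero _ (w_ne y hy β)

theorem zi_norm (y : ℝ) (P : ℕ) (β : ℝ) : ‖zi y P β‖ = 1 / (y ^ 2 + β ^ 2) := by
  unfold zi
  rw [norm_div, norm_ee, w_norm_sq]

theorem zi_tail (y : ℝ) (hy : 0 < y) (P : ℕ) (δ : ℝ) (h0 : 0 < δ) (h1 : δ ≤ 1 / 2) :
    ‖(∫ β in (0:ℝ)..δ, zi y P β) - ∫ β in (0:ℝ)..(1 / 2), zi y P β‖ ≤ 1 / δ := by
  have hi : ∀ a b : ℝ, IntervalIntegrable (zi y P) volume a b :=
    fun a b => (zi_cont y hy P).intervalIntegrable a b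
  rw [intervalIntegral.integral_interval_sub_left (hi _ _) (hi _ _)]
  rw [intervalIntegral.integral_symm, norm_neg]
  have h2 : ‖∫ β in δ..(1 / 2), zi y P β‖ ≤ ∫ β in δ..(1 / 2), β ^ (-2 : ℤ) := by
    apply intervalIntegral.norm_integral_le_of_norm_le h1
    · refine Filter.Eventually.of_forall fun β hβ => ?_
      rw [zi_norm]
      have hb : 0 < β := lt_of_lt_of_le h0 hβ.1.le
      rw [zpow_neg, one_div]
      apply inv_anti₀ (by positivity)
      have : β ^ (2 : ℤ) = β ^ 2 := by norm_cast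
      rw [this]
      nlinarith [sq_nonneg y]
    · apply ContinuousOn.intervalIntegrable
      intro β hβ
      rw [Set.uIcc_of_le h1] at hβ
      have hb : 0 < β := lt_of_lt_of_le h0 hβ.1
      exact (continuousAt_zpow₀ β (-2) (Or.inl hb.ne')).continuousWithinAt
  refine h2.trans ?_
  rw [integral_zpow (Or.inr ⟨by norm_num, by
    rw [Set.uIcc_of_le h1]
    intro h
    exact absurd h.1 (not_le.2 h0)⟩)]
  have e1 : (-2 : ℤ) + 1 = -1 := by norm_num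
  rw [e1, zpow_neg_one, zpow_neg_one]
  have : 0 < δ⁻¹ := inv_pos.2 h0
  norm_num
  linarith

/-! ### the approximation on one arc -/

lemma aa_coprime (c v : ℕ) (h : Nat.Coprime c v) : IsCoprime (aa c v) (c : ℤ) := by
  obtain ⟨b, hb⟩ := aa_spec c v h
  exact ⟨-v, b, by linarith⟩

lemma integral_conj_interval (f : ℝ → ℂ) (b : ℝ) (hb : 0 ≤ b) :
    ∫ β in (0:ℝ)..b, (starRingEnd ℂ) (f β) = (starRingEnd ℂ) (∫ β in (0:ℝ)..b, f β) := by
  rw [intervalIntegral.integral_of_le hb, intervalIntegral.integral_of_le hb]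
  exact integral_conj

/-- the main term at `x` -/
noncomputable def Tv (c : ℕ) [NeZero c] (P : ℕ) (x : ZMod c) : ℂ :=
  ((c : ℂ) ^ 4)⁻¹ * tm c P x / (4 * (Real.sqrt 105 : ℂ))

theorem four_sqrt : (1 : ℝ) ≤ 4 * Real.sqrt 105 := by
  have : (1 : ℝ) ≤ Real.sqrt 105 := Real.one_le_sqrt.2 (by norm_num)
  linarith

theorem four_sqrt_norm : ‖(4 * (Real.sqrt 105 : ℂ))‖ = 4 * Real.sqrt 105 := by
  rw [norm_mul, Complex.norm_real, Real.norm_of_nonneg (Real.sqrt_nonneg _)]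
  norm_num

theorem four_sqrt_ne : (4 * (Real.sqrt 105 : ℂ)) ≠ 0 := by
  intro h
  have h1 := four_sqrt_norm
  rw [h, norm_zero] at h1
  have := four_sqrt
  linarith

theorem Tv_norm (hGB : GB) (c : ℕ) [NeZero c] (P : ℕ) (a : ℤ) (ha : IsCoprime a (c : ℤ)) :
    ‖Tv c P (a : ZMod c)‖ ≤ 196 / (c : ℝ) ^ 2 := by
  have hc : (0 : ℝ) < c := by exact_mod_cast Nat.pos_of_ne_zero (NeZero.ne c)
  unfold Tv
  rw [norm_div, four_sqrt_norm, norm_mul]
  have h3 : ‖((c : ℂ) ^ 4)⁻¹‖ = ((c : ℝ) ^ 4)⁻¹ := by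
    rw [norm_inv, norm_pow, Complex.norm_natCast]
  rw [h3]
  have h4 := tm_bound hGB c P a ha
  refine (div_le_self (by positivity) four_sqrt).trans ?_
  calc ((c : ℝ) ^ 4)⁻¹ * _ ≤ ((c : ℝ) ^ 4)⁻¹ * (196 * (c : ℝ) ^ 2) :=
        mul_le_mul_of_nonneg_left h4 (by positivity)
    _ = 196 / (c : ℝ) ^ 2 := by field_simp

theorem ee_split (c : ℕ) [NeZero c] (P : ℕ) (a : ℤ) (β : ℝ) :
    ee (-(P * ((a : ℝ) / c + β))) =
      ZMod.stdAddChar (-((a : ZMod c) * (P : ZMod c))) * ee (-(P * β)) := by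
  have h1 : -(P * ((a : ℝ) / c + β)) = ((-(a * P) : ℤ) : ℝ) / c + (-(P * β)) := by
    push_cast; ring
  rw [h1, ee_add, ee_std]
  congr 2
  push_cast
  rfl

theorem Phi_eq (c : ℕ) [NeZero c] (P : ℕ) (a : ℤ) (y β : ℝ) (F : ℂ) :
    F * ee (-(P * ((a : ℝ) / c + β))) - Tv c P (a : ZMod c) * zi y P β =
      (F - ((c : ℂ) ^ 4)⁻¹ * G4 c (a : ZMod c) / (4 * (Real.sqrt 105 : ℂ) * ((y : ℂ) - β * I) ^ 2)) *
        ee (-(P * ((a : ℝ) / c + β))) := by
  rw [ee_split]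
  unfold Tv tm zi
  rw [sub_mul]
  congr 1
  generalize ((y : ℂ) - β * I) ^ 2 = W
  ring

theorem Phi_approx (C1 : ℝ) (c : ℕ) [NeZero c] (P : ℕ) (a : ℤ) (y β : ℝ)
    (h : ‖Fth y ((a : ℝ) / c + β) -
      ((c : ℂ) ^ 4)⁻¹ * G4 c (a : ZMod c) / (4 * (Real.sqrt 105 : ℂ) * ((y : ℂ) - β * I) ^ 2)‖ ≤ C1 / y) :
    ‖Fth y ((a : ℝ) / c + β) * ee (-(P * ((a : ℝ) / c + β))) - Tv c P (a : ZMod c) * zi y P β‖ ≤
      C1 / y := by
  rw [Phi_eq, norm_mul, norm_ee, mul_one]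
  exact h

theorem I_approx (hFA : FA) (hGB : GB) (C1 : ℝ) (c : ℕ) [NeZero c] (P : ℕ) (a : ℤ)
    (ha : IsCoprime a (c : ℤ)) (y : ℝ) (hy : 0 < y) (δ : ℝ) (h0 : 0 < δ) (h1 : δ ≤ 1 / 2)
    (h : ∀ β : ℝ, 0 ≤ β → β ≤ δ → ‖Fth y ((a : ℝ) / c + β) -
      ((c : ℂ) ^ 4)⁻¹ * G4 c (a : ZMod c) / (4 * (Real.sqrt 105 : ℂ) * ((y : ℂ) - β * I) ^ 2)‖ ≤ C1 / y) :
    ‖(∫ β in (0:ℝ)..δ, Fth y ((a : ℝ) / c + β) * ee (-(P * ((a : ℝ) / c + β)))) -
      Tv c P (a : ZMod c) * ∫ β in (0:ℝ)..(1 / 2), zi y P β‖ ≤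
      C1 / y * δ + 196 / (c : ℝ) ^ 2 * (1 / δ) := by
  have hcont : Continuous (fun β : ℝ => Fth y ((a : ℝ) / c + β) * ee (-(P * ((a : ℝ) / c + β)))) := by
    apply Continuous.mul
    · exact (hFA y hy).1.comp (by fun_prop)
    · exact ee_cont.comp (by fun_prop)
  have hzi := zi_cont y hy P
  have hzi2 : Continuous (fun β : ℝ => Tv c P (a : ZMod c) * zi y P β) := continuous_const.mul hzi
  have e1 : (∫ β in (0:ℝ)..δ, Fth y ((a : ℝ) / c + β) * ee (-(P * ((a : ℝ) / c + β)))) -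
      Tv c P (a : ZMod c) * ∫ β in (0:ℝ)..(1 / 2), zi y P β =
      (∫ β in (0:ℝ)..δ, (Fth y ((a : ℝ) / c + β) * ee (-(P * ((a : ℝ) / c + β))) -
        Tv c P (a : ZMod c) * zi y P β)) +
      Tv c P (a : ZMod c) * ((∫ β in (0:ℝ)..δ, zi y P β) - ∫ β in (0:ℝ)..(1 / 2), zi y P β) := by
    rw [intervalIntegral.integral_sub (hcont.intervalIntegrable _ _)
      (hzi2.intervalIntegrable _ _), intervalIntegral.integral_const_mul]
    ring
  rw [e1]
  refine (norm_add_le _ _).trans (add_le_add ?_ ?_)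
  · have := intervalIntegral.norm_integral_le_of_norm_le_const (a := (0 : ℝ)) (b := δ)
      (f := fun β : ℝ => Fth y ((a : ℝ) / c + β) * ee (-(P * ((a : ℝ) / c + β))) -
        Tv c P (a : ZMod c) * zi y P β) (C := C1 / y) (by
        intro β hβ
        rw [Set.uIoc_of_le h0.le] at hβ
        exact Phi_approx C1 c P a y β (h β hβ.1.le hβ.2))
    rw [sub_zero, abs_of_pos h0] at this
    exact this
  · rw [norm_mul]
    exact mul_le_mul (Tv_norm hGB c P a ha) (zi_tail y hy P δ h0 h1) (norm_nonneg _) (by positivity)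

theorem sum_Tv (c H : ℕ) [NeZero c] (hcH : c ≤ H) (P : ℕ) :
    ∑ v ∈ (Ioc (H - c) H).filter (fun v => Nat.Coprime c v), Tv c P (aa c v : ZMod c) =
      As c P / (4 * (Real.sqrt 105 : ℂ)) := by
  rw [sum_units c H hcH (Tv c P), As_eq]
  unfold Tv
  rw [mul_sum, Finset.sum_div]

theorem arc_ineq (X c v : ℕ) (hX : 1 ≤ X) (hc : 1 ≤ c) (hcH : c ≤ Nat.sqrt X)
    (hv1 : Nat.sqrt X - c < v) (β : ℝ) (h0 : 0 ≤ β) (h1 : β ≤ 1 / ((c : ℝ) * (c + v))) :
    (c : ℝ) ^ 2 * ((1 / (X : ℝ)) ^ 2 + β ^ 2) ≤ 5 * (1 / (X : ℝ)) := by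
  have hX0 : (0 : ℝ) < X := by exact_mod_cast hX
  have hc0 : (0 : ℝ) < c := by exact_mod_cast hc
  have hcX : (c : ℝ) ^ 2 ≤ X := by
    have : c ^ 2 ≤ X := (Nat.pow_le_pow_left hcH 2).trans (Nat.sqrt_le' X)
    exact_mod_cast this
  have hcv : (X : ℝ) ≤ ((c : ℝ) + v) ^ 2 := by
    have h2 : X < (Nat.sqrt X + 1) ^ 2 := by
      have := Nat.lt_succ_sqrt' X
      simpa using this
    have h3 : Nat.sqrt X + 1 ≤ c + v := by omega
    have h4 : X ≤ (c + v) ^ 2 := h2.le.trans (Nat.pow_le_pow_left h3 2)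
    exact_mod_cast h4
  have hcvp : (0 : ℝ) < (c : ℝ) + v := by positivity
  have h2 : (c : ℝ) * β ≤ 1 / ((c : ℝ) + v) := by
    calc (c : ℝ) * β ≤ c * (1 / ((c : ℝ) * (c + v))) := mul_le_mul_of_nonneg_left h1 hc0.le
      _ = 1 / ((c : ℝ) + v) := by field_simp
  have h3 : (c : ℝ) ^ 2 * β ^ 2 ≤ 1 / X := by
    calc (c : ℝ) ^ 2 * β ^ 2 = ((c : ℝ) * β) ^ 2 := by ring
      _ ≤ (1 / ((c : ℝ) + v)) ^ 2 := pow_le_pow_left₀ (by positivity) h2 2
      _ = 1 / ((c : ℝ) + v) ^ 2 := by rw [div_pow, one_pow]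
      _ ≤ 1 / X := one_div_le_one_div_of_le hX0 hcv
  have h4 : (c : ℝ) ^ 2 * (1 / (X : ℝ)) ^ 2 ≤ 1 / X := by
    calc (c : ℝ) ^ 2 * (1 / (X : ℝ)) ^ 2 ≤ X * (1 / (X : ℝ)) ^ 2 :=
          mul_le_mul_of_nonneg_right hcX (by positivity)
      _ = 1 / X := by field_simp
  have h5 : (0 : ℝ) < 1 / X := by positivity
  rw [mul_add]
  linarith

theorem arc_err (C1 : ℝ) (hC1 : 0 < C1) (X c v : ℕ) (hX : 1 ≤ X) (hc : 1 ≤ c) (hcH : c ≤ Nat.sqrt X)
    (hv1 : Nat.sqrt X - c < v) (hv2 : v ≤ Nat.sqrt X) :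
    C1 / (1 / (X : ℝ)) * (1 / ((c : ℝ) * (c + v))) +
      196 / (c : ℝ) ^ 2 * (1 / (1 / ((c : ℝ) * (c + v)))) ≤ (C1 + 392) * Real.sqrt X / c := by
  have hX0 : (0 : ℝ) < X := by exact_mod_cast hX
  have hc0 : (0 : ℝ) < c := by exact_mod_cast hc
  have hcvp : (0 : ℝ) < (c : ℝ) + v := by positivity
  have hs0 : 0 < Real.sqrt X := Real.sqrt_pos.2 hX0
  have hss : Real.sqrt X * Real.sqrt X = X := Real.mul_self_sqrt hX0.le
  have hHs : (Nat.sqrt X : ℝ) ≤ Real.sqrt X := Real.nat_sqrt_le_real_sqrt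
  have hcv : Real.sqrt X ≤ (c : ℝ) + v := by
    have h2 : X < (Nat.sqrt X + 1) ^ 2 := by
      have := Nat.lt_succ_sqrt' X
      simpa using this
    have h3 : Nat.sqrt X + 1 ≤ c + v := by omega
    have h4 : X ≤ (c + v) ^ 2 := h2.le.trans (Nat.pow_le_pow_left h3 2)
    rw [Real.sqrt_le_left hcvp.le]
    exact_mod_cast h4
  have hcv2 : (c : ℝ) + v ≤ 2 * Real.sqrt X := by
    have h3 : (c : ℝ) ≤ Nat.sqrt X := by exact_mod_cast hcH
    have h4 : (v : ℝ) ≤ Nat.sqrt X := by exact_mod_cast hv2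
    linarith
  have e1 : C1 / (1 / (X : ℝ)) * (1 / ((c : ℝ) * (c + v))) ≤ C1 * Real.sqrt X / c := by
    have : C1 / (1 / (X : ℝ)) * (1 / ((c : ℝ) * (c + v))) = C1 * (X / (c + v)) / c := by
      field_simp
    rw [this]
    apply div_le_div_of_nonneg_right _ hc0.le
    apply mul_le_mul_of_nonneg_left _ hC1.le
    rw [div_le_iff₀ hcvp]
    nlinarith
  have e2 : 196 / (c : ℝ) ^ 2 * (1 / (1 / ((c : ℝ) * (c + v)))) ≤ 392 * Real.sqrt X / c := by
    have : 196 / (c : ℝ) ^ 2 * (1 / (1 / ((c : ℝ) * (c + v)))) = 196 * ((c : ℝ) + v) / c := by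
      field_simp
    rw [this]
    apply div_le_div_of_nonneg_right _ hc0.le
    linarith
  calc _ ≤ C1 * Real.sqrt X / c + 392 * Real.sqrt X / c := add_le_add e1 e2
    _ = _ := by ring

/-! ### one row -/

theorem row_approx (hFA : FA) (hGB : GB) (C1 C2 : ℝ) (hC1 : 0 < C1) (hC2 : 0 < C2)
    (hFB : ∀ (y : ℝ), 0 < y → y ≤ 1 → ∀ (c : ℕ) [NeZero c] (a : ℤ),
      IsCoprime a (c : ℤ) → ∀ β : ℝ, (c : ℝ) ^ 2 * (y ^ 2 + β ^ 2) ≤ 5 * y →
        ‖Fth y ((a : ℝ) / c + β) -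
          ((c : ℂ) ^ 4)⁻¹ * G4 c (a : ZMod c) / (4 * (Real.sqrt 105 : ℂ) * ((y : ℂ) - β * I) ^ 2)‖ ≤
            C1 / y)
    (hIN : ∀ (y : ℝ), 0 < y → y ≤ 1 → ∀ P : ℕ,
      |2 * (∫ β in (0:ℝ)..(1 / 2), ee (-(P * β)) / ((y : ℂ) - β * I) ^ 2).re -
        4 * Real.pi ^ 2 * P * Real.exp (-(2 * Real.pi * y * P))| ≤ C2)
    (X : ℕ) (hX : 1 ≤ X) (P : ℕ) (c : ℕ) [NeZero c] (hcH : c ≤ Nat.sqrt X) :
    ‖row (fun α => Fth (1 / (X : ℝ)) α * ee (-(P * α))) (Nat.sqrt X) c -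
      ((Real.pi ^ 2 / Real.sqrt 105 * P * Real.exp (-(2 * Real.pi * P / X)) : ℝ) : ℂ) * As c P‖ ≤
      (2 * (C1 + 392) + 196 * C2) * Real.sqrt X := by
  have hc : 1 ≤ c := Nat.one_le_iff_ne_zero.2 (NeZero.ne c)
  have hX0 : (0 : ℝ) < X := by exact_mod_cast hX
  have hX1 : (1 : ℝ) ≤ X := by exact_mod_cast hX
  have hc0 : (0 : ℝ) < c := by exact_mod_cast hc
  have hs1 : 1 ≤ Real.sqrt X := Real.one_le_sqrt.2 hX1
  set y : ℝ := 1 / (X : ℝ) with hy
  have hy0 : 0 < y := by positivity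
  have hy1 : y ≤ 1 := by
    rw [hy, div_le_one hX0]; exact hX1
  set Z : ℂ := ∫ β in (0:ℝ)..(1 / 2), zi y P β with hZ
  set A := (Ioc (Nat.sqrt X - c) (Nat.sqrt X)).filter (fun v => Nat.Coprime c v) with hA
  set J : ℕ → ℂ := fun v => ∫ β in (0:ℝ)..(1 / (c * (c + v))),
    Fth y ((aa c v : ℝ) / c + β) * ee (-(P * ((aa c v : ℝ) / c + β))) with hJ
  have hconj : ∀ v : ℕ, (∫ β in (0:ℝ)..(1 / ((c : ℝ) * (c + v))),
      Fth y (-((aa c v : ℝ) / c + β)) * ee (-(P * (-((aa c v : ℝ) / c + β))))) =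
      (starRingEnd ℂ) (J v) := by
    intro v
    rw [hJ]
    simp only
    rw [← integral_conj_interval _ _ (by positivity)]
    apply intervalIntegral.integral_congr
    intro β _
    simp only
    rw [map_mul, ee_conj, (hFA y hy0).2.2]
    congr 2
    ring
  have hrow : row (fun α => Fth y α * ee (-(P * α))) (Nat.sqrt X) c =
      ∑ v ∈ A, (J v + (starRingEnd ℂ) (J v)) := by
    unfold row
    apply Finset.sum_congr rfl
    intro v _
    rw [← hconj v]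
  have herr : ∀ v ∈ A, ‖J v - Tv c P (aa c v : ZMod c) * Z‖ ≤ (C1 + 392) * Real.sqrt X / c := by
    intro v hv
    rw [hA, mem_filter, mem_Ioc] at hv
    obtain ⟨⟨hv1, hv2⟩, hcop⟩ := hv
    have hv0 : 1 ≤ v := by omega
    have hv0' : (1 : ℝ) ≤ v := by exact_mod_cast hv0
    have hc1 : (1 : ℝ) ≤ c := by exact_mod_cast hc
    have hd0 : 0 < 1 / ((c : ℝ) * (c + v)) := by positivity
    have hd1 : 1 / ((c : ℝ) * (c + v)) ≤ 1 / 2 := by
      apply one_div_le_one_div_of_le (by norm_num)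
      nlinarith
    refine (I_approx hFA hGB C1 c P (aa c v) (aa_coprime c v hcop) y hy0 _ hd0 hd1 ?_).trans ?_
    · intro β h0 h1
      exact hFB y hy0 hy1 c (aa c v) (aa_coprime c v hcop) β
        (arc_ineq X c v hX hc hcH hv1 β h0 h1)
    · exact arc_err C1 hC1 X c v hX hc hcH hv1 hv2
  have hsumT : ∑ v ∈ A, (Tv c P (aa c v : ZMod c) * Z + (starRingEnd ℂ) (Tv c P (aa c v : ZMod c) * Z)) =
      As c P / (4 * (Real.sqrt 105 : ℂ)) * ((2 * Z.re : ℝ) : ℂ) := by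
    rw [Finset.sum_add_distrib, ← map_sum, ← Finset.sum_mul, sum_Tv c _ hcH P]
    have e1 : (starRingEnd ℂ) (As c P / (4 * (Real.sqrt 105 : ℂ)) * Z) =
        As c P / (4 * (Real.sqrt 105 : ℂ)) * (starRingEnd ℂ) Z := by
      rw [map_mul, map_div₀, As_conj, map_mul, Complex.conj_ofReal, map_ofNat]
    rw [e1, ← mul_add, Complex.add_conj]
  have hcard : (A.card : ℝ) ≤ c := by
    have h1 : A.card ≤ c := by
      refine (Finset.card_filter_le _ _).trans ?_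
      rw [Nat.card_Ioc]
      omega
    exact_mod_cast h1
  have hdiff : ‖(∑ v ∈ A, (J v + (starRingEnd ℂ) (J v))) -
      As c P / (4 * (Real.sqrt 105 : ℂ)) * ((2 * Z.re : ℝ) : ℂ)‖ ≤
        2 * (C1 + 392) * Real.sqrt X := by
    rw [← hsumT, ← Finset.sum_sub_distrib]
    refine (norm_sum_le _ _).trans ?_
    have h1 : ∀ v ∈ A, ‖(J v + (starRingEnd ℂ) (J v)) -
        (Tv c P (aa c v : ZMod c) * Z + (starRingEnd ℂ) (Tv c P (aa c v : ZMod c) * Z))‖ ≤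
        2 * ((C1 + 392) * Real.sqrt X / c) := by
      intro v hv
      have e2 : (J v + (starRingEnd ℂ) (J v)) -
        (Tv c P (aa c v : ZMod c) * Z + (starRingEnd ℂ) (Tv c P (aa c v : ZMod c) * Z)) =
        (J v - Tv c P (aa c v : ZMod c) * Z) +
          (starRingEnd ℂ) (J v - Tv c P (aa c v : ZMod c) * Z) := by
        rw [map_sub]; ring
      rw [e2]
      refine (norm_add_le _ _).trans ?_
      rw [Complex.norm_conj]
      have := herr v hv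
      linarith
    refine (Finset.sum_le_card_nsmul _ _ _ h1).trans ?_
    rw [nsmul_eq_mul]
    calc (A.card : ℝ) * (2 * ((C1 + 392) * Real.sqrt X / c)) ≤
          c * (2 * ((C1 + 392) * Real.sqrt X / c)) :=
          mul_le_mul_of_nonneg_right hcard (by positivity)
      _ = 2 * (C1 + 392) * Real.sqrt X := by field_simp
  have hmain : ‖As c P / (4 * (Real.sqrt 105 : ℂ)) * ((2 * Z.re : ℝ) : ℂ) -
      ((Real.pi ^ 2 / Real.sqrt 105 * P * Real.exp (-(2 * Real.pi * P / X)) : ℝ) : ℂ) * As c P‖ ≤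
      196 * C2 := by
    have h105 : (Real.sqrt 105 : ℂ) ≠ 0 := fun h => four_sqrt_ne (by rw [h, mul_zero])
    have e3 : As c P / (4 * (Real.sqrt 105 : ℂ)) * ((2 * Z.re : ℝ) : ℂ) -
      ((Real.pi ^ 2 / Real.sqrt 105 * P * Real.exp (-(2 * Real.pi * P / X)) : ℝ) : ℂ) * As c P =
      As c P / (4 * (Real.sqrt 105 : ℂ)) *
        ((2 * Z.re - 4 * Real.pi ^ 2 * P * Real.exp (-(2 * Real.pi * y * P)) : ℝ) : ℂ) := by
      have e4 : 2 * Real.pi * P / X = 2 * Real.pi * y * P := by rw [hy]; ring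
      rw [e4]
      push_cast
      field_simp
    rw [e3, norm_mul, norm_div, four_sqrt_norm, Complex.norm_real, Real.norm_eq_abs]
    apply mul_le_mul _ (hIN y hy0 hy1 P) (abs_nonneg _) (by norm_num)
    exact (div_le_self (norm_nonneg _) four_sqrt).trans (As_bound hGB c P)
  rw [hrow]
  calc _ ≤ 2 * (C1 + 392) * Real.sqrt X + 196 * C2 := by
        refine (norm_sub_le_norm_sub_add_norm_sub _
          (As c P / (4 * (Real.sqrt 105 : ℂ)) * ((2 * Z.re : ℝ) : ℂ)) _).trans ?_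
        exact add_le_add hdiff hmain
    _ ≤ (2 * (C1 + 392) + 196 * C2) * Real.sqrt X := by
        have : 196 * C2 ≤ 196 * C2 * Real.sqrt X := le_mul_of_one_le_right (by positivity) hs1
        nlinarith

end Pool.Agent.R715.FPMA

namespace Pool.Agent.R496.FP

open Pool.Agent.R715.FPMA

/-- the major arcs -/
theorem ma (hFA : FA) (hFB : FB) (hGB : GB) (hIN : IN) : MA := by
  obtain ⟨C1, hC1, hFB⟩ := hFB
  obtain ⟨C2, hC2, hIN⟩ := hIN
  refine ⟨2 * (C1 + 392) + 196 * C2, by positivity, ?_⟩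
  intro X hX P Q hQ hQX
  have e1 : ∑ c ∈ Icc 1 Q, row (fun α => Fth (1 / (X : ℝ)) α * ee (-(P * α))) (Nat.sqrt X) c =
      ∑ i ∈ range Q, row (fun α => Fth (1 / (X : ℝ)) α * ee (-(P * α))) (Nat.sqrt X) (i + 1) := by
    rw [Finset.range_eq_Ico, Finset.sum_Ico_add' (fun c =>
      row (fun α => Fth (1 / (X : ℝ)) α * ee (-(P * α))) (Nat.sqrt X) c) 0 Q 1]
    rfl
  rw [e1]
  unfold SS
  rw [Finset.mul_sum, ← Finset.sum_sub_distrib]
  refine (norm_sum_le _ _).trans ?_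
  have h1 : ∀ i ∈ range Q, ‖row (fun α => Fth (1 / (X : ℝ)) α * ee (-(P * α))) (Nat.sqrt X) (i + 1) -
      ((Real.pi ^ 2 / Real.sqrt 105 * P * Real.exp (-(2 * Real.pi * P / X)) : ℝ) : ℂ) * As (i + 1) P‖ ≤
      (2 * (C1 + 392) + 196 * C2) * Real.sqrt X := by
    intro i hi
    rw [mem_range] at hi
    exact row_approx hFA hGB C1 C2 hC1 hC2
      (fun y h0 h1 c _ a ha β hβ => (hFB y h0 h1 c a ha β hβ).2) hIN X hX P (i + 1) (by omega)
  refine (Finset.sum_le_card_nsmul _ _ _ h1).trans ?_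
  rw [nsmul_eq_mul, card_range]
  exact le_of_eq (by ring)

end Pool.Agent.R496.FP
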