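import Pool.Agent.R496.FP.Defs

/-!
# Project FP, piece MI: the minor arcs
-/

set_option autoImplicit false
open Finset Complex MeasureTheory

namespace Pool.Agent.R496.FP

open Pool.Agent.W65.FS

namespace MIP

lemma int_exp1 (k : ℤ) : ∫ α in (0:ℝ)..1, cexp (2 * Real.pi * I * k * α) = if k = 0 then 1 else 0 := by
  split_ifs with h
  · subst h
    simp
  · have hk : (2 * Real.pi * I * k : ℂ) ≠ 0 := by
      have : (k : ℂ) ≠ 0 := by exact_mod_cast h
      have h2 : (Real.pi : ℂ) ≠ 0 := by exact_mod_cast Real.pi_ne_zero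
      simp [this, h2]
    rw [integral_exp_mul_complex hk]
    have h1 : cexp (2 * Real.pi * I * k * ((1:ℝ) : ℂ)) = 1 := by
      rw [Complex.exp_eq_one_iff]
      exact ⟨k, by push_cast; ring⟩
    rw [h1]
    simp

/-- the exponential sum -/
noncomputable def sS (S : Finset ℕ) (α : ℝ) : ℂ := ∑ P ∈ S, ee (-(P * α))

lemma ee_continuous : Continuous ee := by
  unfold ee
  fun_prop

lemma sS_continuous (S : Finset ℕ) : Continuous (sS S) := by
  unfold sS
  apply continuous_finsetSum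
  intro P _
  exact ee_continuous.comp (by fun_prop)

lemma ee_sub_nat (x : ℝ) (n : ℕ) : ee (x - n) = ee x := by
  unfold ee
  rw [Complex.exp_eq_exp_iff_exists_int]
  exact ⟨-n, by push_cast; ring⟩

lemma sS_periodic (S : Finset ℕ) (α : ℝ) : sS S (α + 1) = sS S α := by
  unfold sS
  apply sum_congr rfl
  intro P _
  rw [show (-(P * (α + 1)) : ℝ) = -(P * α) - P by ring]
  exact ee_sub_nat _ _

lemma conj_ee (x : ℝ) : (starRingEnd ℂ) (ee x) = ee (-x) := by
  unfold ee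
  rw [← Complex.exp_conj]
  congr 1
  simp only [map_mul, Complex.conj_ofReal, Complex.conj_I, map_ofNat]
  push_cast
  ring

lemma int_sq (S : Finset ℕ) : ∫ α in (0:ℝ)..1, ((‖sS S α‖ ^ 2 : ℝ) : ℂ) = (S.card : ℂ) := by
  have h1 : ∀ α : ℝ, ((‖sS S α‖ ^ 2 : ℝ) : ℂ) =
      ∑ P ∈ S, ∑ R ∈ S, cexp (2 * Real.pi * I * ((R : ℤ) - (P : ℤ) : ℤ) * α) := by
    intro α
    have h2 : ((‖sS S α‖ ^ 2 : ℝ) : ℂ) = sS S α * (starRingEnd ℂ) (sS S α) := by
      rw [Complex.mul_conj, Complex.normSq_eq_norm_sq]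
    rw [h2]
    unfold sS
    rw [map_sum, sum_mul_sum]
    apply sum_congr rfl
    intro P _
    apply sum_congr rfl
    intro R _
    rw [conj_ee]
    unfold ee
    rw [← Complex.exp_add]
    congr 1
    push_cast
    ring
  simp_rw [h1]
  have hint : ∀ k : ℤ, IntervalIntegrable (fun α : ℝ => cexp (2 * Real.pi * I * k * α)) volume 0 1 :=
    fun k => (by fun_prop : Continuous (fun α : ℝ => cexp (2 * Real.pi * I * k * α))).intervalIntegrable _ _
  rw [intervalIntegral.integral_finsetSum (fun P _ => by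
    apply Continuous.intervalIntegrable
    fun_prop)]
  have h3 : ∀ P ∈ S, ∫ α in (0:ℝ)..1, ∑ R ∈ S, cexp (2 * Real.pi * I * ((R : ℤ) - (P : ℤ) : ℤ) * α) = 1 := by
    intro P hP
    rw [intervalIntegral.integral_finsetSum (fun R _ => hint _)]
    simp_rw [int_exp1]
    rw [sum_eq_single P]
    · simp
    · intro R _ hR
      rw [if_neg]
      intro h
      apply hR
      omega
    · intro h
      exact absurd hP h
  rw [sum_congr rfl h3]
  simp

lemma int_inv (y δ : ℝ) (hy : 0 < y) :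
    ∫ β in (0:ℝ)..δ, 1 / (y ^ 2 + β ^ 2) ≤ Real.pi / (2 * y) := by
  have hpos : ∀ β : ℝ, 0 < y ^ 2 + β ^ 2 := fun β => by positivity
  have hd : ∀ β : ℝ, HasDerivAt (fun β => y⁻¹ * Real.arctan (y⁻¹ * β)) (1 / (y ^ 2 + β ^ 2)) β := by
    intro β
    have h := ((Real.hasDerivAt_arctan (y⁻¹ * β)).comp β ((hasDerivAt_id β).const_mul y⁻¹)).const_mul y⁻¹
    have h0 := (hpos β).ne'
    have h2 : (1 + (y⁻¹ * β) ^ 2) ≠ 0 := by positivity
    have h3 : y⁻¹ * (1 / (1 + (y⁻¹ * β) ^ 2) * (y⁻¹ * 1)) = 1 / (y ^ 2 + β ^ 2) := by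
      have h4 : 1 + (y⁻¹ * β) ^ 2 = (y ^ 2 + β ^ 2) / y ^ 2 := by
        field_simp
      rw [h4]
      field_simp
    rw [← h3]
    exact h
  rw [intervalIntegral.integral_eq_sub_of_hasDerivAt (fun β _ => hd β)]
  · have h1 : Real.arctan (y⁻¹ * δ) < Real.pi / 2 := Real.arctan_lt_pi_div_two _
    simp only [mul_zero, Real.arctan_zero, sub_zero]
    have h2 : y⁻¹ * Real.arctan (y⁻¹ * δ) ≤ y⁻¹ * (Real.pi / 2) :=
      mul_le_mul_of_nonneg_left h1.le (by positivity)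
    refine h2.trans (le_of_eq ?_)
    field_simp
  · apply Continuous.intervalIntegrable
    exact continuous_const.div (by fun_prop) (fun β => (hpos β).ne')

/-- one arc -/
lemma arc (F s : ℝ → ℂ) (φ : ℝ → ℝ) (hF : Continuous F) (hs : Continuous s) (hφ : Continuous φ)
    (y δ C c lam : ℝ) (hy : 0 < y) (hδ : 0 ≤ δ) (hC : 0 < C) (hc : 0 < c) (hl : 0 < lam)
    (hb : ∀ β, 0 ≤ β → β ≤ δ → ‖F (φ β)‖ ≤ C / (c ^ 2 * (y ^ 2 + β ^ 2))) :
    ‖∫ β in (0:ℝ)..δ, F (φ β) * s (φ β)‖ ≤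
      lam / 2 * (C ^ 2 / (c ^ 4 * y ^ 2)) * (Real.pi / (2 * y)) +
        1 / (2 * lam) * ∫ β in (0:ℝ)..δ, ‖s (φ β)‖ ^ 2 := by
  have hpos : ∀ β : ℝ, 0 < y ^ 2 + β ^ 2 := fun β => by positivity
  refine (intervalIntegral.norm_integral_le_integral_norm hδ).trans ?_
  have hi1 : Continuous (fun β : ℝ => 1 / (y ^ 2 + β ^ 2)) :=
    continuous_const.div (by fun_prop) (fun β => (hpos β).ne')
  have hi2 : Continuous (fun β : ℝ => ‖s (φ β)‖ ^ 2) := by fun_prop
  have h1 : ∫ β in (0:ℝ)..δ, ‖F (φ β) * s (φ β)‖ ≤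
      ∫ β in (0:ℝ)..δ, (lam / 2 * (C ^ 2 / (c ^ 4 * y ^ 2)) * (1 / (y ^ 2 + β ^ 2)) +
        1 / (2 * lam) * ‖s (φ β)‖ ^ 2) := by
    apply intervalIntegral.integral_mono_on hδ
    · apply Continuous.intervalIntegrable
      fun_prop
    · apply Continuous.intervalIntegrable
      exact (continuous_const.mul hi1).add (continuous_const.mul hi2)
    · intro β hβ
      have hFb := hb β hβ.1 hβ.2
      rw [norm_mul]
      have h2 : ‖F (φ β)‖ ^ 2 ≤ C ^ 2 / (c ^ 4 * y ^ 2) * (1 / (y ^ 2 + β ^ 2)) := by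
        calc ‖F (φ β)‖ ^ 2 ≤ (C / (c ^ 2 * (y ^ 2 + β ^ 2))) ^ 2 :=
              pow_le_pow_left₀ (norm_nonneg _) hFb 2
          _ = C ^ 2 / (c ^ 4 * (y ^ 2 + β ^ 2)) * (1 / (y ^ 2 + β ^ 2)) := by
              have := (hpos β).ne'
              field_simp
          _ ≤ C ^ 2 / (c ^ 4 * y ^ 2) * (1 / (y ^ 2 + β ^ 2)) := by
              apply mul_le_mul_of_nonneg_right _ (one_div_pos.2 (hpos β)).le
              apply div_le_div_of_nonneg_left (by positivity) (by positivity)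
              apply mul_le_mul_of_nonneg_left _ (by positivity)
              nlinarith [sq_nonneg β]
      have h3 : ‖F (φ β)‖ * ‖s (φ β)‖ ≤ lam / 2 * ‖F (φ β)‖ ^ 2 + 1 / (2 * lam) * ‖s (φ β)‖ ^ 2 := by
        have h4 : 0 ≤ (lam * ‖F (φ β)‖ - ‖s (φ β)‖) ^ 2 := sq_nonneg _
        have h5 : lam / 2 * ‖F (φ β)‖ ^ 2 + 1 / (2 * lam) * ‖s (φ β)‖ ^ 2 - ‖F (φ β)‖ * ‖s (φ β)‖ =
            1 / (2 * lam) * (lam * ‖F (φ β)‖ - ‖s (φ β)‖) ^ 2 := by
          field_simp
          ring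
        have h6 : 0 ≤ 1 / (2 * lam) * (lam * ‖F (φ β)‖ - ‖s (φ β)‖) ^ 2 := by positivity
        linarith
      have h7 : lam / 2 * ‖F (φ β)‖ ^ 2 ≤
          lam / 2 * (C ^ 2 / (c ^ 4 * y ^ 2) * (1 / (y ^ 2 + β ^ 2))) :=
        mul_le_mul_of_nonneg_left h2 (by positivity)
      rw [← mul_assoc] at h7
      linarith
  refine h1.trans ?_
  have g1 : IntervalIntegrable (fun β : ℝ => lam / 2 * (C ^ 2 / (c ^ 4 * y ^ 2)) * (1 / (y ^ 2 + β ^ 2)))
      volume 0 δ := (continuous_const.mul hi1).intervalIntegrable _ _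
  have g2 : IntervalIntegrable (fun β : ℝ => 1 / (2 * lam) * ‖s (φ β)‖ ^ 2)
      volume 0 δ := (continuous_const.mul hi2).intervalIntegrable _ _
  rw [intervalIntegral.integral_add g1 g2,
    intervalIntegral.integral_const_mul, intervalIntegral.integral_const_mul]
  have h8 := mul_le_mul_of_nonneg_left (int_inv y δ hy)
    (by positivity : 0 ≤ lam / 2 * (C ^ 2 / (c ^ 4 * y ^ 2)))
  linarith

lemma sum_cube (Q H : ℕ) (hQ : 1 ≤ Q) (hQH : Q ≤ H) :
    ∑ c ∈ Ioc Q H, 1 / (c : ℝ) ^ 3 ≤ 1 / 2 * (1 / (Q : ℝ) ^ 2 - 1 / (H : ℝ) ^ 2) := by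
  induction H, hQH using Nat.le_induction with
  | base => simp
  | succ n hn ih =>
    rw [← Finset.insert_Ioc_right_eq_Ioc_add_one hn, sum_insert (by simp)]
    have hn0 : (1 : ℝ) ≤ n := by exact_mod_cast le_trans hQ hn
    have h1 : 1 / ((n + 1 : ℕ) : ℝ) ^ 3 ≤ 1 / 2 * (1 / (n : ℝ) ^ 2 - 1 / ((n + 1 : ℕ) : ℝ) ^ 2) := by
      push_cast
      rw [div_sub_div _ _ (by positivity) (by positivity), ← mul_div_assoc,
        div_le_div_iff₀ (by positivity) (by positivity)]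
      nlinarith [mul_pos (pow_pos (by linarith : (0:ℝ) < n) 2) (pow_pos (by linarith : (0:ℝ) < n + 1) 2),
        mul_pos (by linarith : (0:ℝ) < n) (pow_pos (by linarith : (0:ℝ) < n + 1) 2),
        pow_pos (by linarith : (0:ℝ) < n + 1) 2]
    linarith

lemma coprime_aa (c v : ℕ) (h : Nat.Coprime c v) : IsCoprime (aa c v) (c : ℤ) := by
  obtain ⟨b, hb⟩ := aa_spec c v h
  exact ⟨-v, b, by linarith⟩

end MIP

open MIP in
theorem mi (hFA : FA) (hFB : FB) : MI := by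
  obtain ⟨C, hC, hFB⟩ := hFB
  refine ⟨C ^ 2 * Real.pi / 4 + 1 / 2, by positivity, ?_⟩
  intro X hX S Q hQ hQX
  have hX0 : (0 : ℝ) < X := by exact_mod_cast hX
  have hQ0 : (0 : ℝ) < Q := by exact_mod_cast hQ
  by_cases hS : S.card = 0
  · rw [Finset.card_eq_zero] at hS
    subst hS
    simp [row]
  have hS0 : (0 : ℝ) < S.card := by exact_mod_cast Nat.pos_of_ne_zero hS
  set H := Nat.sqrt X with hH
  set y : ℝ := 1 / (X : ℝ) with hy
  have hy0 : 0 < y := by positivity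
  have hy1 : y ≤ 1 := by
    rw [hy, div_le_one hX0]
    exact_mod_cast hX
  obtain ⟨hFc, hFp, hFs⟩ := hFA y hy0
  have hH1 : (H : ℝ) ^ 2 ≤ X := by
    have : H ^ 2 ≤ X := Nat.sqrt_le' X
    exact_mod_cast this
  have hH2 : (X : ℝ) ≤ ((H : ℝ) + 1) ^ 2 := by
    have : X < (H + 1) ^ 2 := Nat.lt_succ_sqrt' X
    exact_mod_cast this.le
  have hHQ : 1 ≤ H := le_trans hQ hQX
  -- the parameter
  set r : ℝ := Real.sqrt S.card with hr
  have hr0 : 0 < r := Real.sqrt_pos.2 hS0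
  have hr2 : r ^ 2 = S.card := Real.sq_sqrt hS0.le
  set x : ℝ := (X : ℝ) ^ (3 / 2 : ℝ) with hx
  have hx0 : 0 < x := Real.rpow_pos_of_pos hX0 _
  have hx2 : x ^ 2 = (X : ℝ) ^ 3 := by
    rw [hx, ← Real.rpow_natCast, ← Real.rpow_mul hX0.le]
    norm_num
  set lam : ℝ := Q * r / x with hlam
  have hl0 : 0 < lam := by positivity
  -- the weights
  set NN : ℕ → ℝ := fun c => ∑ v ∈ (Ioc (H - c) H).filter (fun v => Nat.Coprime c v),
    ((∫ β in (0:ℝ)..(1 / (c * (c + v))), ‖sS S ((aa c v : ℝ) / c + β)‖ ^ 2) +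
      ∫ β in (0:ℝ)..(1 / (c * (c + v))), ‖sS S (-((aa c v : ℝ) / c + β))‖ ^ 2) with hNN
  have hsc := sS_continuous S
  have hNN0 : ∀ c : ℕ, 0 ≤ NN c := by
    intro c
    apply sum_nonneg
    intro v _
    apply add_nonneg
    · apply intervalIntegral.integral_nonneg (by positivity)
      intro β _
      positivity
    · apply intervalIntegral.integral_nonneg (by positivity)
      intro β _
      positivity
  have hNNs : ∑ c ∈ Icc 1 H, NN c = S.card := by
    have h1 := farey (fun α => ((‖sS S α‖ ^ 2 : ℝ) : ℂ)) (by fun_prop)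
      (fun x => by rw [sS_periodic]) H hHQ
    rw [int_sq] at h1
    simp only [intervalIntegral.integral_ofReal] at h1
    have h2 : ((∑ c ∈ Icc 1 H, NN c : ℝ) : ℂ) = (S.card : ℂ) := by
      rw [h1, hNN]
      push_cast
      rfl
    exact_mod_cast h2
  have hNNQ : ∑ c ∈ Ioc Q H, NN c ≤ S.card := by
    rw [← hNNs]
    apply sum_le_sum_of_subset_of_nonneg
    · intro c hc
      rw [mem_Ioc] at hc
      rw [mem_Icc]
      omega
    · intro c _ _
      exact hNN0 c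
  -- one denominator
  have hrow : ∀ c ∈ Ioc Q H, ‖row (fun α => Fth y α * ∑ P ∈ S, ee (-(P * α))) H c‖ ≤
      lam * C ^ 2 * Real.pi * (X : ℝ) ^ 3 / 2 * (1 / (c : ℝ) ^ 3) + 1 / (2 * lam) * NN c := by
    intro c hc
    rw [mem_Ioc] at hc
    have hc0 : (0 : ℝ) < c := by
      have : 0 < c := by omega
      exact_mod_cast this
    have : NeZero c := ⟨by omega⟩
    unfold row
    refine (norm_sum_le _ _).trans ?_
    have hone : ∀ v ∈ (Ioc (H - c) H).filter (fun v => Nat.Coprime c v),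
        ‖(∫ β in (0:ℝ)..(1 / (c * (c + v))), Fth y ((aa c v : ℝ) / c + β) *
            ∑ P ∈ S, ee (-(P * ((aa c v : ℝ) / c + β)))) +
          ∫ β in (0:ℝ)..(1 / (c * (c + v))), Fth y (-((aa c v : ℝ) / c + β)) *
            ∑ P ∈ S, ee (-(P * (-((aa c v : ℝ) / c + β))))‖ ≤
        lam * (C ^ 2 / ((c : ℝ) ^ 4 * y ^ 2)) * (Real.pi / (2 * y)) + 1 / (2 * lam) *
          ((∫ β in (0:ℝ)..(1 / (c * (c + v))), ‖sS S ((aa c v : ℝ) / c + β)‖ ^ 2) +
            ∫ β in (0:ℝ)..(1 / (c * (c + v))), ‖sS S (-((aa c v : ℝ) / c + β))‖ ^ 2) := by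
      intro v hv
      rw [mem_filter, mem_Ioc] at hv
      have hcv : (H : ℝ) + 1 ≤ c + v := by
        have : H + 1 ≤ c + v := by omega
        exact_mod_cast this
      have hcop := coprime_aa c v hv.2
      have hcv0 : (0 : ℝ) < c + v := by positivity
      have hδ : (0 : ℝ) ≤ 1 / (c * (c + v)) := by positivity
      have hFbound : ∀ β : ℝ, 0 ≤ β → β ≤ 1 / ((c : ℝ) * (c + v)) →
          ‖Fth y ((aa c v : ℝ) / c + β)‖ ≤ C / ((c : ℝ) ^ 2 * (y ^ 2 + β ^ 2)) := by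
        intro β hβ0 hβ
        refine (hFB y hy0 hy1 c (aa c v) hcop β ?_).1
        have h1 : (c : ℝ) * β ≤ 1 / (c + v) := by
          calc (c : ℝ) * β ≤ c * (1 / ((c : ℝ) * (c + v))) := mul_le_mul_of_nonneg_left hβ hc0.le
            _ = 1 / (c + v) := by field_simp
        have h2 : ((c : ℝ) * β) ^ 2 ≤ y := by
          calc ((c : ℝ) * β) ^ 2 ≤ (1 / ((c : ℝ) + v)) ^ 2 := pow_le_pow_left₀ (by positivity) h1 2
            _ = 1 / ((c : ℝ) + v) ^ 2 := by rw [div_pow, one_pow]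
            _ ≤ 1 / (X : ℝ) := by
                apply one_div_le_one_div_of_le hX0
                calc (X : ℝ) ≤ ((H : ℝ) + 1) ^ 2 := hH2
                  _ ≤ ((c : ℝ) + v) ^ 2 := pow_le_pow_left₀ (by positivity) hcv 2
        have h3 : (c : ℝ) ^ 2 * y ^ 2 ≤ y := by
          have h4 : (c : ℝ) ^ 2 ≤ X := by
            refine le_trans ?_ hH1
            apply pow_le_pow_left₀ hc0.le
            exact_mod_cast hc.2
          calc (c : ℝ) ^ 2 * y ^ 2 ≤ X * y ^ 2 := mul_le_mul_of_nonneg_right h4 (by positivity)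
            _ = y := by rw [hy]; field_simp
        nlinarith [h2, h3, hy0]
      have hA1 := arc (Fth y) (sS S) (fun β => (aa c v : ℝ) / c + β) hFc hsc (by fun_prop)
        y (1 / (c * (c + v))) C c lam hy0 hδ hC hc0 hl0 hFbound
      have hA2 := arc (Fth y) (sS S) (fun β => -((aa c v : ℝ) / c + β)) hFc hsc (by fun_prop)
        y (1 / (c * (c + v))) C c lam hy0 hδ hC hc0 hl0 (by
          intro β h1 h2
          rw [hFs, RCLike.norm_conj]
          exact hFbound β h1 h2)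
      refine (norm_add_le _ _).trans ?_
      refine (add_le_add hA1 hA2).trans (le_of_eq ?_)
      ring
    refine (sum_le_sum hone).trans ?_
    have e2 : ∑ v ∈ (Ioc (H - c) H).filter (fun v => Nat.Coprime c v), 1 / (2 * lam) *
          ((∫ β in (0:ℝ)..(1 / (c * (c + v))), ‖sS S ((aa c v : ℝ) / c + β)‖ ^ 2) +
            ∫ β in (0:ℝ)..(1 / (c * (c + v))), ‖sS S (-((aa c v : ℝ) / c + β))‖ ^ 2) =
        1 / (2 * lam) * NN c := by
      rw [hNN, mul_sum]
    rw [sum_add_distrib, e2, sum_const, nsmul_eq_mul]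
    refine add_le_add ?_ le_rfl
    have hcard : (((Ioc (H - c) H).filter (fun v => Nat.Coprime c v)).card : ℝ) ≤ c := by
      have h1 : ((Ioc (H - c) H).filter (fun v => Nat.Coprime c v)).card ≤ c := by
        refine (card_filter_le _ _).trans ?_
        rw [Nat.card_Ioc]
        omega
      exact_mod_cast h1
    calc (((Ioc (H - c) H).filter (fun v => Nat.Coprime c v)).card : ℝ) *
          (lam * (C ^ 2 / ((c : ℝ) ^ 4 * y ^ 2)) * (Real.pi / (2 * y)))
        ≤ c * (lam * (C ^ 2 / ((c : ℝ) ^ 4 * y ^ 2)) * (Real.pi / (2 * y))) :=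
          mul_le_mul_of_nonneg_right hcard (by positivity)
      _ = lam * C ^ 2 * Real.pi * (X : ℝ) ^ 3 / 2 * (1 / (c : ℝ) ^ 3) := by
          rw [hy]
          field_simp
  have h1 : ‖∑ c ∈ Ioc Q H, row (fun α => Fth y α * ∑ P ∈ S, ee (-(P * α))) H c‖ ≤
      lam * C ^ 2 * Real.pi * (X : ℝ) ^ 3 / 2 * (1 / 2 * (1 / (Q : ℝ) ^ 2)) + 1 / (2 * lam) * S.card := by
    refine (norm_sum_le _ _).trans ?_
    refine (sum_le_sum hrow).trans ?_
    rw [sum_add_distrib, ← mul_sum, ← mul_sum]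
    apply add_le_add
    · apply mul_le_mul_of_nonneg_left _ (by positivity)
      refine (sum_cube Q H hQ hQX).trans ?_
      apply mul_le_mul_of_nonneg_left _ (by norm_num)
      have : (0 : ℝ) ≤ 1 / (H : ℝ) ^ 2 := by positivity
      linarith
    · exact mul_le_mul_of_nonneg_left hNNQ (by positivity)
  refine h1.trans (le_of_eq ?_)
  rw [← hr2, ← hx2, hlam]
  field_simp
  ring

end Pool.Agent.R496.FP
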