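import Pool.Agent.R496.FP.Defs

set_option autoImplicit false
open Finset Complex

namespace Pool.Agent.R496.FP

namespace ORx

theorem sum_units (q : ℕ) [NeZero q] (g : ZMod q → ℂ) :
    ∑ u : (ZMod q)ˣ, g (u : ZMod q) = ∑ n ∈ (range q).filter (fun n => Nat.Coprime n q), g (n : ZMod q) := by
  refine Finset.sum_bij (fun u _ => ((u : ZMod q)).val) ?_ ?_ ?_ ?_
  · intro u _
    rw [mem_filter, mem_range]
    exact ⟨ZMod.val_lt _, ZMod.val_coe_unit_coprime u⟩
  · intro u _ v _ h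
    exact Units.ext (ZMod.val_injective q h)
  · intro n hn
    rw [mem_filter, mem_range] at hn
    refine ⟨ZMod.unitOfCoprime n hn.2, mem_univ _, ?_⟩
    rw [ZMod.coe_unitOfCoprime, ZMod.val_natCast, Nat.mod_eq_of_lt hn.1]
  · intro u _
    rw [ZMod.natCast_zmod_val]

theorem sum_zmod (d : ℕ) [NeZero d] (g : ZMod d → ℂ) :
    ∑ t : ZMod d, g t = ∑ n ∈ range d, g (n : ZMod d) := by
  refine Finset.sum_bij (fun u _ => u.val) ?_ ?_ ?_ ?_
  · intro u _
    rw [mem_range]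
    exact ZMod.val_lt _
  · intro u _ v _ h
    exact ZMod.val_injective d h
  · intro n hn
    rw [mem_range] at hn
    exact ⟨(n : ZMod d), mem_univ _, by rw [ZMod.val_natCast, Nat.mod_eq_of_lt hn]⟩
  · intro u _
    rw [ZMod.natCast_zmod_val]

theorem group (d : ℕ) (hd : 0 < d) (g : ℕ → ℂ) :
    ∑ n ∈ range d, g n = ∑ q ∈ d.divisors,
      ∑ u ∈ (range q).filter (fun n => Nat.Coprime n q), g (d / q * u) := by
  rw [Finset.sum_sigma']
  refine Finset.sum_bij' (fun n _ => (⟨d / Nat.gcd n d, n / Nat.gcd n d⟩ : (_ : ℕ) × ℕ))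
    (fun p _ => d / p.1 * p.2) ?_ ?_ ?_ ?_ ?_
  · intro n hn
    rw [mem_range] at hn
    have hg : 0 < Nat.gcd n d := Nat.gcd_pos_of_pos_right n hd
    have hgd := Nat.gcd_dvd_right n d
    rw [mem_sigma, mem_filter, mem_range, Nat.mem_divisors]
    refine ⟨⟨Nat.div_dvd_of_dvd hgd, hd.ne'⟩, ?_, ?_⟩
    · exact Nat.div_lt_div_of_lt_of_dvd hgd hn
    · exact Nat.coprime_div_gcd_div_gcd hg
  · rintro ⟨q, u⟩ hp
    rw [mem_sigma, mem_filter, mem_range, Nat.mem_divisors] at hp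
    obtain ⟨⟨hq, -⟩, hu, -⟩ := hp
    simp only at hq hu
    rw [mem_range]
    have h1 : d / q * q = d := Nat.div_mul_cancel hq
    have h2 : 0 < d / q := Nat.div_pos (Nat.le_of_dvd hd hq) (by omega)
    calc d / q * u < d / q * q := Nat.mul_lt_mul_of_pos_left hu h2
      _ = d := h1
  · intro n hn
    have hg : 0 < Nat.gcd n d := Nat.gcd_pos_of_pos_right n hd
    have hgd := Nat.gcd_dvd_right n d
    simp only
    rw [Nat.div_div_self hgd hd.ne', Nat.mul_div_cancel' (Nat.gcd_dvd_left n d)]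
  · rintro ⟨q, u⟩ hp
    rw [mem_sigma, mem_filter, mem_range, Nat.mem_divisors] at hp
    obtain ⟨⟨hq, -⟩, hu, hc⟩ := hp
    simp only at hq hu hc
    have h1 : d / q * q = d := Nat.div_mul_cancel hq
    have h2 : 0 < d / q := Nat.div_pos (Nat.le_of_dvd hd hq) (by omega)
    have h3 : Nat.gcd (d / q * u) d = d / q := by
      conv_lhs => rw [← h1, Nat.mul_div_cancel _ (by omega : 0 < q)]
      rw [Nat.gcd_mul_left, Nat.Coprime.gcd_eq_one hc, mul_one]
    simp only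
    rw [h3, Nat.div_div_self hq hd.ne', Nat.mul_div_cancel_left _ h2]
  · intro n hn
    have hgd := Nat.gcd_dvd_right n d
    simp only
    rw [Nat.div_div_self hgd hd.ne', Nat.mul_div_cancel' (Nat.gcd_dvd_left n d)]

theorem per (f : ℕ → ℂ) (q : ℕ) (hf : ∀ n, f (n + q) = f n) (k : ℕ) :
    ∑ n ∈ range (k * q), f n = k * ∑ n ∈ range q, f n := by
  have hf' : ∀ k n, f (k * q + n) = f n := by
    intro k
    induction k with
    | zero => intro n; simp
    | succ k ih =>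
      intro n
      rw [show (k + 1) * q + n = (k * q + n) + q by ring, hf, ih]
  induction k with
  | zero => simp
  | succ k ih =>
    rw [show (k + 1) * q = k * q + q by ring, Finset.sum_range_add, ih]
    simp only [hf']
    push_cast
    ring

theorem psi_int (k q d : ℕ) [NeZero q] [NeZero d] (hd : d = k * q) (x : ℤ) :
    (ZMod.stdAddChar (((k : ℤ) * x : ℤ) : ZMod d) : ℂ) = ZMod.stdAddChar ((x : ℤ) : ZMod q) := by
  rw [ZMod.stdAddChar_coe, ZMod.stdAddChar_coe]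
  have hq : (q : ℂ) ≠ 0 := by exact_mod_cast NeZero.ne q
  have hd0 : d ≠ 0 := NeZero.ne d
  have hk : (k : ℂ) ≠ 0 := by
    intro h
    have : k = 0 := by exact_mod_cast h
    rw [this, zero_mul] at hd
    exact hd0 hd
  congr 1
  rw [hd]
  push_cast
  field_simp

theorem g0_scale (k q d : ℕ) [NeZero q] [NeZero d] (hd : d = k * q) (b : ℕ) :
    g0 d ((k * b : ℕ) : ZMod d) = k * g0 q (b : ZMod q) := by
  unfold g0
  rw [sum_zmod d, sum_zmod q]
  have h1 : ∀ n : ℕ, (ZMod.stdAddChar (((k * b : ℕ) : ZMod d) * (n : ZMod d) ^ 2) : ℂ) =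
      ZMod.stdAddChar ((b : ZMod q) * (n : ZMod q) ^ 2) := by
    intro n
    have := psi_int k q d hd ((b : ℤ) * n ^ 2)
    push_cast at this ⊢
    rw [← this]
    congr 1
    ring
  simp only [h1]
  conv_lhs => rw [hd]
  exact per (fun n => (ZMod.stdAddChar ((b : ZMod q) * (n : ZMod q) ^ 2) : ℂ)) q
    (fun n => by push_cast; simp) k

theorem G4_scale (k q d : ℕ) [NeZero q] [NeZero d] (hd : d = k * q) (b : ℕ) :
    G4 d ((k * b : ℕ) : ZMod d) = (k : ℂ) ^ 4 * G4 q (b : ZMod q) := by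
  unfold G4
  have h3 : (3 : ZMod d) * ((k * b : ℕ) : ZMod d) = ((k * (3 * b) : ℕ) : ZMod d) := by
    push_cast; ring
  have h5 : (5 : ZMod d) * ((k * b : ℕ) : ZMod d) = ((k * (5 * b) : ℕ) : ZMod d) := by
    push_cast; ring
  have h7 : (7 : ZMod d) * ((k * b : ℕ) : ZMod d) = ((k * (7 * b) : ℕ) : ZMod d) := by
    push_cast; ring
  rw [h3, h5, h7, g0_scale k q d hd, g0_scale k q d hd, g0_scale k q d hd, g0_scale k q d hd]
  push_cast
  ring

theorem main_sum (d : ℕ) [NeZero d] (P : ℕ) :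
    (d : ℂ) * (Ns d P : ℂ) = ∑ t : ZMod d, G4 d t * ZMod.stdAddChar (-(t * (P : ZMod d))) := by
  classical
  have hprim := ZMod.isPrimitive_stdAddChar d
  have h1 : ∀ s : Fin 4 → ZMod d,
      (∑ t : ZMod d, (ZMod.stdAddChar (t * (s 0 ^ 2 + 3 * s 1 ^ 2 + 5 * s 2 ^ 2 + 7 * s 3 ^ 2 -
        (P : ZMod d))) : ℂ)) =
      if s 0 ^ 2 + 3 * s 1 ^ 2 + 5 * s 2 ^ 2 + 7 * s 3 ^ 2 = (P : ZMod d) then (d : ℂ) else 0 := by
    intro s
    rw [AddChar.sum_mulShift _ hprim]
    simp only [sub_eq_zero, ZMod.card]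
    split_ifs <;> simp
  have h2 : (d : ℂ) * (Ns d P : ℂ) = ∑ s : Fin 4 → ZMod d, ∑ t : ZMod d,
      (ZMod.stdAddChar (t * (s 0 ^ 2 + 3 * s 1 ^ 2 + 5 * s 2 ^ 2 + 7 * s 3 ^ 2 -
        (P : ZMod d))) : ℂ) := by
    simp only [h1]
    rw [← Finset.sum_filter, Finset.sum_const, nsmul_eq_mul, mul_comm]
    congr 1
  rw [h2, Finset.sum_comm]
  refine Finset.sum_congr rfl fun t _ => ?_
  have h3 : ∀ s : Fin 4 → ZMod d,
      (ZMod.stdAddChar (t * (s 0 ^ 2 + 3 * s 1 ^ 2 + 5 * s 2 ^ 2 + 7 * s 3 ^ 2 -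
        (P : ZMod d))) : ℂ) = (∏ i : Fin 4, (![fun x => ZMod.stdAddChar (t * x ^ 2),
          fun x => ZMod.stdAddChar (3 * t * x ^ 2), fun x => ZMod.stdAddChar (5 * t * x ^ 2),
          fun x => ZMod.stdAddChar (7 * t * x ^ 2)] : Fin 4 → ZMod d → ℂ) i (s i)) *
          ZMod.stdAddChar (-(t * (P : ZMod d))) := by
    intro s
    rw [Fin.prod_univ_four]
    simp only [Matrix.cons_val_zero, Matrix.cons_val_one, Matrix.cons_val]
    rw [← AddChar.map_add_eq_mul, ← AddChar.map_add_eq_mul, ← AddChar.map_add_eq_mul,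
      ← AddChar.map_add_eq_mul]
    congr 1
    ring
  simp only [h3]
  rw [← Finset.sum_mul]
  congr 1
  have h4 := Finset.prod_univ_sum (fun _ : Fin 4 => (univ : Finset (ZMod d)))
    (![fun x => ZMod.stdAddChar (t * x ^ 2),
          fun x => ZMod.stdAddChar (3 * t * x ^ 2), fun x => ZMod.stdAddChar (5 * t * x ^ 2),
          fun x => ZMod.stdAddChar (7 * t * x ^ 2)] : Fin 4 → ZMod d → ℂ)
  rw [Fintype.piFinset_univ] at h4
  rw [← h4, Fin.prod_univ_four]
  simp only [Matrix.cons_val_zero, Matrix.cons_val_one, Matrix.cons_val]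
  unfold G4 g0
  ring

end ORx

open ORx in
theorem orr : OR := by
  intro d _ P
  have hd : 0 < d := Nat.pos_of_ne_zero (NeZero.ne d)
  have hd0 : (d : ℂ) ≠ 0 := by exact_mod_cast hd.ne'
  have h1 := main_sum d P
  rw [sum_zmod, group d hd] at h1
  have h2 : (d : ℂ) * (Ns d P : ℂ) = (d : ℂ) ^ 4 * ∑ q ∈ d.divisors,
      if h : q = 0 then 0 else haveI : NeZero q := ⟨h⟩; As q P := by
    rw [h1, Finset.mul_sum]
    refine Finset.sum_congr rfl fun q hq => ?_
    have hqd := (Nat.mem_divisors.1 hq).1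
    have hq0 : q ≠ 0 := by
      rintro rfl
      exact hd.ne' (Nat.eq_zero_of_zero_dvd hqd)
    rw [dif_neg hq0]
    have : NeZero q := ⟨hq0⟩
    have hkq : d = d / q * q := (Nat.div_mul_cancel hqd).symm
    set k := d / q with hk
    have hqC : (q : ℂ) ≠ 0 := by exact_mod_cast hq0
    have hdk : (d : ℂ) = k * q := by exact_mod_cast hkq
    unfold As
    have h3 : ∀ u : ℕ, G4 d ((k * u : ℕ) : ZMod d) *
        (ZMod.stdAddChar (-(((k * u : ℕ) : ZMod d) * (P : ZMod d))) : ℂ) =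
        (k : ℂ) ^ 4 * (G4 q (u : ZMod q) * ZMod.stdAddChar (-((u : ZMod q) * (P : ZMod q)))) := by
      intro u
      rw [G4_scale k q d hkq, mul_assoc]
      congr 2
      have := psi_int k q d hkq (-((u : ℤ) * P))
      push_cast at this ⊢
      rw [← this]
      congr 1
      ring
    simp only [h3]
    rw [← Finset.mul_sum, ← sum_units q (fun u => G4 q u * ZMod.stdAddChar (-(u * (P : ZMod q))))]
    rw [hdk, mul_pow]
    field_simp
  have h5 : (d : ℂ) * (Ns d P : ℂ) = (d : ℂ) * ((d : ℂ) ^ 3 * ∑ q ∈ d.divisors,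
      if h : q = 0 then 0 else haveI : NeZero q := ⟨h⟩; As q P) := by
    rw [h2]; ring
  exact mul_left_cancel₀ hd0 h5

end Pool.Agent.R496.FP
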