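import Pool.Agent.R496.FP.Defs2

/-!
# Project FP: a moment of `n / φ(n)`
-/

set_option autoImplicit false
open Finset

namespace Pool.Agent.R496.FP

namespace PHAux

/-- `(1 - 1/p)^(-8) - 1` -/
noncomputable def h (p : ℕ) : ℝ := ((1 - (p : ℝ)⁻¹)⁻¹) ^ 8 - 1

theorem h_nonneg {p : ℕ} (hp : 2 ≤ p) : 0 ≤ h p := by
  have h1 : (2 : ℝ) ≤ p := by exact_mod_cast hp
  have h2 : (p : ℝ)⁻¹ ≤ 1 / 2 := by rw [inv_eq_one_div]; exact one_div_le_one_div_of_le two_pos h1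
  have h3 : 0 ≤ (p : ℝ)⁻¹ := by positivity
  have h4 : 1 ≤ (1 - (p : ℝ)⁻¹)⁻¹ := by
    rw [one_le_inv₀ (by linarith)]; linarith
  have := one_le_pow₀ h4 (n := 8)
  rw [h]; linarith

theorem h_le {p : ℕ} (hp : 2 ≤ p) : h p ≤ 510 / p := by
  have h1 : (2 : ℝ) ≤ p := by exact_mod_cast hp
  have h2 : (p : ℝ)⁻¹ ≤ 1 / 2 := by rw [inv_eq_one_div]; exact one_div_le_one_div_of_le two_pos h1
  have h3 : 0 ≤ (p : ℝ)⁻¹ := by positivity
  set x := (p : ℝ)⁻¹ with hx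
  have h4 : (510 : ℝ) / p = 510 * x := by rw [hx]; ring
  rw [h, h4, ← hx]
  have hpos : 0 < 1 - x := by linarith
  set y := (1 - x)⁻¹ with hy
  have y1 : 1 ≤ y := by rw [hy, one_le_inv₀ hpos]; linarith
  have y2 : y ≤ 2 := by rw [hy, inv_le_comm₀ hpos two_pos]; linarith
  have y3 : x = 1 - y⁻¹ := by rw [hy, inv_inv]; ring
  -- `y ^ 8 - 1 ≤ 510 (y - 1) / y`
  have y4 : y - 1 = x * y := by
    rw [y3]; field_simp
  have e : y ^ 8 - 1 = (y - 1) * (1 + y + y ^ 2 + y ^ 3 + y ^ 4 + y ^ 5 + y ^ 6 + y ^ 7) := by ring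
  rw [e, y4]
  have p2 : y ^ 2 ≤ 2 ^ 2 := pow_le_pow_left₀ (by linarith) y2 2
  have p3 : y ^ 3 ≤ 2 ^ 3 := pow_le_pow_left₀ (by linarith) y2 3
  have p4 : y ^ 4 ≤ 2 ^ 4 := pow_le_pow_left₀ (by linarith) y2 4
  have p5 : y ^ 5 ≤ 2 ^ 5 := pow_le_pow_left₀ (by linarith) y2 5
  have p6 : y ^ 6 ≤ 2 ^ 6 := pow_le_pow_left₀ (by linarith) y2 6
  have p7 : y ^ 7 ≤ 2 ^ 7 := pow_le_pow_left₀ (by linarith) y2 7
  have s : 1 + y + y ^ 2 + y ^ 3 + y ^ 4 + y ^ 5 + y ^ 6 + y ^ 7 ≤ 255 := by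
    norm_num at p2 p3 p4 p5 p6 p7; linarith
  calc x * y * (1 + y + y ^ 2 + y ^ 3 + y ^ 4 + y ^ 5 + y ^ 6 + y ^ 7) ≤ x * y * 255 :=
        mul_le_mul_of_nonneg_left s (by positivity)
    _ ≤ x * 2 * 255 := by
        refine mul_le_mul_of_nonneg_right (mul_le_mul_of_nonneg_left y2 h3) (by norm_num)
    _ = 510 * x := by ring

theorem ratio (n : ℕ) (hn : 0 < n) : ((n : ℝ) / Nat.totient n) ^ 8 =
    ∏ p ∈ n.primeFactors, (1 + h p) := by
  have h1 : (Nat.totient n : ℝ) = n * ∏ p ∈ n.primeFactors, (1 - (p : ℝ)⁻¹) := by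
    have := Nat.totient_eq_mul_prod_factors n
    have h2 := congrArg (fun x : ℚ => (x : ℝ)) this
    push_cast at h2
    exact h2
  have hn0 : (n : ℝ) ≠ 0 := by exact_mod_cast hn.ne'
  rw [h1, div_mul_eq_div_div, div_self hn0, one_div, ← prod_inv_distrib, ← prod_pow]
  refine prod_congr rfl fun p _ => ?_
  rw [h]; ring

end PHAux

open PHAux in
theorem ph : PH := by
  have hs : Summable fun n : ℕ => ((n : ℝ) ^ 2)⁻¹ := Real.summable_nat_pow_inv.2 one_lt_two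
  refine ⟨Real.exp (510 * ∑' n : ℕ, ((n : ℝ) ^ 2)⁻¹), Real.exp_pos _, fun N => ?_⟩
  set P := (Icc 1 N).filter Nat.Prime with hP
  have e1 : ∀ n ∈ Icc 1 N, ((n : ℝ) / Nat.totient n) ^ 8 =
      ∑ T ∈ P.powerset, if T ⊆ n.primeFactors then ∏ p ∈ T, h p else 0 := by
    intro n hn
    rw [mem_Icc] at hn
    rw [ratio n hn.1, prod_one_add, ← sum_filter]
    refine sum_congr ?_ fun _ _ => rfl
    ext T
    rw [mem_powerset, mem_filter, mem_powerset]
    refine ⟨fun hT => ⟨fun p hp => ?_, hT⟩, fun hT => hT.2⟩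
    have h1 := hT hp
    rw [Nat.mem_primeFactors] at h1
    rw [hP, mem_filter, mem_Icc]
    exact ⟨⟨h1.1.one_lt.le, (Nat.le_of_dvd hn.1 h1.2.1).trans hn.2⟩, h1.1⟩
  rw [sum_congr rfl e1, sum_comm]
  have e2 : ∀ T ∈ P.powerset, ∑ n ∈ Icc 1 N, (if T ⊆ n.primeFactors then ∏ p ∈ T, h p else 0) ≤
      N * ∏ p ∈ T, (h p / p) := by
    intro T hT
    rw [mem_powerset] at hT
    have hTp : ∀ p ∈ T, p.Prime := fun p hp => (mem_filter.1 (hT hp)).2
    have hnn : 0 ≤ ∏ p ∈ T, h p := prod_nonneg fun p hp => h_nonneg (hTp p hp).two_le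
    rw [← sum_filter, sum_const, nsmul_eq_mul, prod_div_distrib]
    have hc : (((Icc 1 N).filter fun n => T ⊆ n.primeFactors).card : ℝ) ≤
        (N : ℝ) / ∏ p ∈ T, (p : ℝ) := by
      have h1 : ((Icc 1 N).filter fun n => T ⊆ n.primeFactors).card ≤ N / ∏ p ∈ T, p := by
        rw [← Nat.Ioc_filter_dvd_card_eq_div]
        refine card_le_card fun n hn => ?_
        rw [mem_filter, mem_Icc] at hn
        rw [mem_filter, mem_Ioc]
        refine ⟨⟨hn.1.1, hn.1.2⟩, ?_⟩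
        refine Finset.prod_primes_dvd n (fun p hp => (hTp p hp).prime) fun p hp => ?_
        exact Nat.dvd_of_mem_primeFactors (hn.2 hp)
      calc (((Icc 1 N).filter fun n => T ⊆ n.primeFactors).card : ℝ) ≤
            ((N / ∏ p ∈ T, p : ℕ) : ℝ) := by exact_mod_cast h1
        _ ≤ (N : ℝ) / ((∏ p ∈ T, p : ℕ) : ℝ) := Nat.cast_div_le
        _ = _ := by push_cast; rfl
    calc _ ≤ (N : ℝ) / (∏ p ∈ T, (p : ℝ)) * ∏ p ∈ T, h p := mul_le_mul_of_nonneg_right hc hnn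
      _ = _ := by ring
  refine (sum_le_sum e2).trans ?_
  rw [← mul_sum, ← prod_one_add, mul_comm]
  refine mul_le_mul_of_nonneg_right ?_ (Nat.cast_nonneg N)
  have hPp : ∀ p ∈ P, p.Prime := fun p hp => (mem_filter.1 hp).2
  calc ∏ p ∈ P, (1 + h p / p) ≤ ∏ p ∈ P, Real.exp (h p / p) := by
        refine prod_le_prod (fun p hp => ?_) fun p _ => ?_
        · have := h_nonneg (hPp p hp).two_le
          positivity
        · rw [add_comm]; exact Real.add_one_le_exp _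
    _ = Real.exp (∑ p ∈ P, h p / p) := (Real.exp_sum _ _).symm
    _ ≤ _ := by
        rw [Real.exp_le_exp]
        calc ∑ p ∈ P, h p / p ≤ ∑ p ∈ P, 510 * ((p : ℝ) ^ 2)⁻¹ := by
              refine sum_le_sum fun p hp => ?_
              have h1 := h_le (hPp p hp).two_le
              have h2 : (0 : ℝ) < p := by exact_mod_cast (hPp p hp).pos
              calc h p / p ≤ 510 / p / p := div_le_div_of_nonneg_right h1 h2.le
                _ = _ := by field_simp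
          _ = 510 * ∑ p ∈ P, ((p : ℝ) ^ 2)⁻¹ := by rw [mul_sum]
          _ ≤ _ := mul_le_mul_of_nonneg_left (hs.sum_le_tsum _ fun n _ => by positivity)
              (by norm_num)

end Pool.Agent.R496.FP
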