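import Pool.Agent.R496.FP.Defs

/-!
# Project FP, part SG: the singular series is bounded below
-/

set_option autoImplicit false
open Finset Complex

namespace Pool.Agent.R496.FP

namespace SGp

/-- lower bounds for the local factors -/
noncomputable def g (p : ℕ) : ℝ := if p ≤ 7 then 1 / 512 else 1 - 1 / (p : ℝ) ^ 2

lemma g_pos (p : ℕ) : 0 < g p := by
  unfold g
  split_ifs with h
  · norm_num
  · have h1 : (8 : ℝ) ≤ p := by
      have : 8 ≤ p := by omega
      exact_mod_cast this
    have h2 : 1 / (p : ℝ) ^ 2 < 1 := by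
      rw [div_lt_one (by positivity)]
      nlinarith
    linarith

lemma g_le_one (p : ℕ) : g p ≤ 1 := by
  unfold g
  split_ifs with h
  · norm_num
  · have : 0 ≤ 1 / (p : ℝ) ^ 2 := by positivity
    linarith

/-- the constant -/
noncomputable def c1 : ℝ := (1 / 512) ^ 8 * (7 / 8)

lemma c1_pos : 0 < c1 := by unfold c1; positivity

lemma prod_g (N : ℕ) (hN : 8 ≤ N) : c1 * (N / (N - 1)) ≤ ∏ n ∈ range N, g n := by
  induction N, hN using Nat.le_induction with
  | base =>
    have h : ∏ n ∈ range 8, g n = (1 / 512) ^ 8 := by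
      rw [Finset.prod_congr rfl (g := fun _ => (1 / 512 : ℝ))]
      · rw [Finset.prod_const, Finset.card_range]
      · intro n hn
        rw [Finset.mem_range] at hn
        unfold g
        rw [if_pos (by omega)]
    rw [h]
    unfold c1
    norm_num
  | succ N hN ih =>
    rw [Finset.prod_range_succ]
    have h8 : (8 : ℝ) ≤ N := by exact_mod_cast hN
    have hg : g N = 1 - 1 / (N : ℝ) ^ 2 := by
      unfold g
      rw [if_neg (by omega)]
    refine le_trans (le_of_eq ?_) (mul_le_mul_of_nonneg_right ih (g_pos N).le)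
    rw [hg]
    have h1 : (N : ℝ) ≠ 0 := by positivity
    have h2 : (N : ℝ) - 1 ≠ 0 := by linarith
    push_cast
    rw [add_sub_cancel_right]
    field_simp
    ring

lemma prod_g' (N : ℕ) : c1 ≤ ∏ n ∈ range N, g n := by
  rcases le_or_gt 8 N with h | h
  · refine le_trans ?_ (prod_g N h)
    have h8 : (8 : ℝ) ≤ N := by exact_mod_cast h
    have h1 : 1 ≤ (N : ℝ) / (N - 1) := by
      rw [le_div_iff₀ (by linarith)]
      linarith
    have := c1_pos
    nlinarith
  · have h1 : c1 * ((8 : ℕ) / ((8 : ℕ) - 1)) ≤ ∏ n ∈ range 8, g n := prod_g 8 le_rfl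
    have h2 : ∏ n ∈ range 8, g n = (∏ n ∈ range N, g n) * ∏ n ∈ Finset.Ico N 8, g n :=
      (Finset.prod_range_mul_prod_Ico _ h.le).symm
    have h3 : ∏ n ∈ Finset.Ico N 8, g n ≤ 1 :=
      Finset.prod_le_one (fun n _ => (g_pos n).le) fun n _ => g_le_one n
    have h4 : 0 ≤ ∏ n ∈ range N, g n := Finset.prod_nonneg fun n _ => (g_pos n).le
    have h5 := c1_pos
    rw [h2] at h1
    have h6 := mul_le_mul_of_nonneg_left h3 h4
    push_cast at h1
    norm_num at h1
    nlinarith

lemma prod_primes (N : ℕ) (r : ℕ → ℝ) (hr : ∀ p ∈ N.primesBelow, g p ≤ r p) :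
    c1 ≤ ∏ p ∈ N.primesBelow, r p := by
  have h1 : ∏ p ∈ N.primesBelow, g p ≤ ∏ p ∈ N.primesBelow, r p :=
    Finset.prod_le_prod (fun p _ => (g_pos p).le) hr
  refine le_trans ?_ h1
  have h2 := Finset.prod_filter_mul_prod_filter_not (range N) (fun p => p.Prime) g
  have h3 : ∏ p ∈ range N with ¬ p.Prime, g p ≤ 1 :=
    Finset.prod_le_one (fun n _ => (g_pos n).le) fun n _ => g_le_one n
  have h4 : 0 ≤ ∏ p ∈ range N with p.Prime, g p := Finset.prod_nonneg fun n _ => (g_pos n).le
  have h5 := prod_g' N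
  rw [← h2] at h5
  have h6 := mul_le_mul_of_nonneg_left h3 h4
  rw [mul_one] at h6
  exact h5.trans h6

lemma tail_le {K : ℝ} (hK : 0 ≤ K) {Q : ℕ} (hQ : 1 ≤ Q) :
    ∑' m : ℕ, K / ((m + (Q + 1) : ℕ) : ℝ) ^ 2 ≤ K / Q := by
  refine Real.tsum_le_of_sum_range_le (fun n => by positivity) fun n => ?_
  have hQ' : (1 : ℝ) ≤ Q := by exact_mod_cast hQ
  have h1 : ∑ m ∈ range n, K / ((m + (Q + 1) : ℕ) : ℝ) ^ 2 ≤ K / Q - K / (Q + n) := by
    induction n with
    | zero => simp
    | succ n ih =>
      rw [Finset.sum_range_succ]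
      have h2 : K / ((n + (Q + 1) : ℕ) : ℝ) ^ 2 ≤ K / (Q + n) - K / (Q + (n + 1)) := by
        have hn : (0 : ℝ) ≤ n := Nat.cast_nonneg n
        rw [div_sub_div _ _ (by positivity) (by positivity)]
        push_cast
        rw [div_le_div_iff₀ (by positivity) (by positivity)]
        have e1 : K * (Q + (n + 1)) - (Q + n) * K = (K : ℝ) := by ring
        rw [e1]
        have e2 : ((Q : ℝ) + n) * (Q + (n + 1)) ≤ (n + (Q + 1)) ^ 2 := by nlinarith
        exact mul_le_mul_of_nonneg_left e2 hK
      push_cast at h2 ih ⊢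
      linarith
  have h3 : 0 ≤ K / ((Q : ℝ) + n) := by positivity
  linarith

lemma gen {f : ℕ → ℂ} (h0 : f 0 = 0) (h1 : f 1 = 1)
    (hmul : ∀ {m n : ℕ}, Nat.Coprime m n → f (m * n) = f m * f n)
    {K : ℝ} (hK0 : 0 ≤ K) (hK : ∀ c, ‖f c‖ ≤ K / (c : ℝ) ^ 2) {Q : ℕ} (hQ : 1 ≤ Q)
    (hr : ∀ p, p.Prime → p ≤ Q → ∃ x : ℝ, g p ≤ x ∧ ∑' n, f (p ^ n) = (x : ℂ)) :
    c1 - K / Q ≤ (∑ c ∈ range Q, f (c + 1)).re := by
  have hsumK : Summable fun c : ℕ => K / (c : ℝ) ^ 2 := by
    have := (Real.summable_one_div_nat_pow (p := 2)).2 (by norm_num)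
    refine (this.mul_left K).congr fun c => ?_
    ring
  have hsum : Summable (‖f ·‖) := Summable.of_nonneg_of_le (fun _ => norm_nonneg _) hK hsumK
  have hE := EulerProduct.prod_primesBelow_tsum_eq_tsum_smoothNumbers h1 hmul hsum (Q + 1)
  choose! r hr1 hr2 using hr
  have hprod : ∏ p ∈ (Q + 1).primesBelow, ∑' n : ℕ, f (p ^ n) =
      ((∏ p ∈ (Q + 1).primesBelow, r p : ℝ) : ℂ) := by
    rw [Complex.ofReal_prod]
    refine Finset.prod_congr rfl fun p hp => ?_
    exact hr2 p (Nat.prime_of_mem_primesBelow hp) (by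
      have := Nat.lt_of_mem_primesBelow hp
      omega)
  have hlow := prod_primes (Q + 1) r fun p hp => hr1 p (Nat.prime_of_mem_primesBelow hp) (by
      have := Nat.lt_of_mem_primesBelow hp
      omega)
  rw [hprod, tsum_subtype (Nat.smoothNumbers (Q + 1)) f] at hE
  set G : ℕ → ℂ := (Nat.smoothNumbers (Q + 1)).indicator f with hG
  have hGK : ∀ c, ‖G c‖ ≤ K / (c : ℝ) ^ 2 := by
    intro c
    refine le_trans ?_ (hK c)
    exact norm_indicator_le_norm_self _ _
  have hGs : Summable G := Summable.of_norm_bounded hsumK hGK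
  have hsplit := hGs.sum_add_tsum_nat_add (Q + 1)
  have hhead : ∑ m ∈ range (Q + 1), G m = ∑ c ∈ range Q, f (c + 1) := by
    rw [Finset.sum_range_succ']
    have e0 : G 0 = 0 := by
      rw [hG]
      by_cases h : (0 : ℕ) ∈ Nat.smoothNumbers (Q + 1)
      · rw [Set.indicator_of_mem h, h0]
      · rw [Set.indicator_of_notMem h]
    rw [e0, add_zero]
    refine Finset.sum_congr rfl fun c hc => ?_
    rw [Finset.mem_range] at hc
    rw [hG, Set.indicator_of_mem (Nat.mem_smoothNumbers_of_lt (by omega) (by omega))]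
  have htail : ‖∑' m : ℕ, G (m + (Q + 1))‖ ≤ K / Q := by
    have hs2 : Summable fun m : ℕ => K / ((m + (Q + 1) : ℕ) : ℝ) ^ 2 :=
      (summable_nat_add_iff (f := fun c : ℕ => K / (c : ℝ) ^ 2) (Q + 1)).2 hsumK
    refine (tsum_of_norm_bounded hs2.hasSum fun m => hGK (m + (Q + 1))).trans ?_
    exact tail_le hK0 hQ
  rw [hhead, ← hE] at hsplit
  have hre := congrArg Complex.re hsplit
  rw [Complex.add_re, Complex.ofReal_re] at hre
  have h5 := (Complex.abs_re_le_norm (∑' m : ℕ, G (m + (Q + 1)))).trans htail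
  rw [abs_le] at h5
  linarith [h5.2]

/-- the terms of the singular series as a function on `ℕ` -/
noncomputable def A (P c : ℕ) : ℂ := if h : c = 0 then 0 else haveI : NeZero c := ⟨h⟩; As c P

lemma A_eq (P c : ℕ) [NeZero c] : A P c = As c P := dif_neg (NeZero.ne c)

lemma A_zero (P : ℕ) : A P 0 = 0 := dif_pos rfl

lemma orA (hOR : OR) (d : ℕ) [NeZero d] (P : ℕ) :
    (Ns d P : ℂ) = (d : ℂ) ^ 3 * ∑ q ∈ d.divisors, A P q := hOR d P

lemma Ns_one (P : ℕ) : Ns 1 P = 1 := by
  classical
  unfold Ns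
  rw [Finset.filter_true_of_mem]
  · rw [Finset.card_univ]
    simp
  · intro s _
    exact Subsingleton.elim _ _

lemma A_one (hOR : OR) (P : ℕ) : A P 1 = 1 := by
  have h := orA hOR 1 P
  rw [Ns_one, Nat.divisors_one, Finset.sum_singleton] at h
  simpa using h.symm

lemma A_mul (hOR : OR) (hAM : AM) (P : ℕ) {m n : ℕ} (h : Nat.Coprime m n) :
    A P (m * n) = A P m * A P n := by
  rcases Nat.eq_zero_or_pos m with rfl | hm
  · rw [zero_mul, A_zero, zero_mul]
  rcases Nat.eq_zero_or_pos n with rfl | hn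
  · rw [mul_zero, A_zero, mul_zero]
  haveI : NeZero m := ⟨hm.ne'⟩
  haveI : NeZero n := ⟨hn.ne'⟩
  haveI : NeZero (m * n) := ⟨(Nat.mul_pos hm hn).ne'⟩
  rw [A_eq, A_eq, A_eq]
  exact hAM m n P h

/-- constants of the bound at the primes -/
noncomputable def kp (p : ℕ) : ℝ := if p ≤ 7 then 1568 else 1

lemma kp_pos (p : ℕ) : 0 < kp p := by
  unfold kp
  split_ifs <;> norm_num

lemma kp_ge (p : ℕ) : 1 ≤ kp p := by
  unfold kp
  split_ifs <;> norm_num

lemma prod_kp_le (s : Finset ℕ) : ∏ p ∈ s, kp p ≤ 1568 ^ 8 := by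
  classical
  have h1 : ∏ p ∈ s, kp p = ∏ p ∈ s with p ≤ 7, (1568 : ℝ) := by
    rw [Finset.prod_filter]
    rfl
  rw [h1, Finset.prod_const]
  refine pow_le_pow_right₀ (by norm_num) ?_
  have h2 : s.filter (fun p => p ≤ 7) ⊆ range 8 := by
    intro p hp
    rw [Finset.mem_filter] at hp
    rw [Finset.mem_range]
    omega
  exact (Finset.card_le_card h2).trans (le_of_eq (Finset.card_range 8))

end SGp

open SGp in
theorem sg (hOR : OR) (hCR : CR) (hLC : LC) (hAM : AM) (hAV : AV) : SG := by
  have _ := hCR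
  obtain ⟨hLC1, hLC2, hLC3⟩ := hLC
  obtain ⟨hAV1, hAV2, hAV3, hAV4⟩ := hAV
  refine ⟨c1 / 2, by have := c1_pos; positivity, ⌈1568 ^ 8 * 2 / c1⌉₊ + 1, ?_⟩
  intro P hP hP7 Q hQ0 hQP
  have hodd : Odd P := hP.odd_of_ne_two (by omega)
  have hQ1 : 1 ≤ Q := by omega
  set f : ℕ → ℂ := fun c => if P ∣ c then 0 else A P c with hf
  have hf0 : f 0 = 0 := by
    rw [hf]
    exact if_pos (dvd_zero P)
  have hf1 : f 1 = 1 := by
    rw [hf]
    beta_reduce
    rw [if_neg (fun h => by
      have := Nat.le_of_dvd one_pos h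
      omega), A_one hOR]
  have hmul : ∀ {m n : ℕ}, Nat.Coprime m n → f (m * n) = f m * f n := by
    intro m n h
    rw [hf]
    beta_reduce
    by_cases hm : P ∣ m
    · rw [if_pos hm, if_pos (hm.mul_right n), zero_mul]
    · by_cases hn : P ∣ n
      · rw [if_pos hn, if_pos (hn.mul_left m), mul_zero]
      · rw [if_neg hm, if_neg hn, if_neg (fun h' => by
          rcases hP.dvd_mul.1 h' with h' | h'
          · exact hm h'
          · exact hn h'), A_mul hOR hAM P h]
  have hndvd : ∀ p : ℕ, p.Prime → p ≠ P → ¬ p ∣ P := by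
    intro p hp hne h
    exact hne ((Nat.prime_dvd_prime_iff_eq hp hP).1 h)
  have hpp : ∀ p n : ℕ, p.Prime → 0 < n → ‖f (p ^ n)‖ ≤ kp p / ((p ^ n : ℕ) : ℝ) ^ 2 := by
    intro p n hp hn
    by_cases hd : P ∣ p ^ n
    · rw [hf]
      beta_reduce
      rw [if_pos hd, norm_zero]
      have := kp_pos p
      positivity
    · have hfe : f (p ^ n) = A P (p ^ n) := by
        rw [hf]
        exact if_neg hd
      have hne : p ≠ P := by
        rintro rfl
        exact hd (dvd_pow_self p hn.ne')
      haveI hnz : NeZero (p ^ n) := ⟨(pow_pos hp.pos n).ne'⟩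
      rw [hfe, A_eq]
      have hk := kp_pos p
      by_cases h2 : p = 2
      · subst h2
        by_cases h4 : 4 ≤ n
        · rw [hAV2 n P hodd h4, norm_zero]
          positivity
        · refine (hAV4 (2 ^ n) P).trans ?_
          have hk2 : kp 2 = 1568 := by
            unfold kp
            rw [if_pos (by norm_num)]
          rw [hk2, div_le_div_iff₀ (by positivity) (by positivity)]
          have h8 : (((2 ^ n : ℕ) : ℝ)) ≤ 8 := by
            have : 2 ^ n ≤ 2 ^ 3 := Nat.pow_le_pow_right (by norm_num) (by omega)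
            have h' : 2 ^ n ≤ 8 := by simpa using this
            exact_mod_cast h'
          have h0 : (0 : ℝ) ≤ ((2 ^ n : ℕ) : ℝ) := Nat.cast_nonneg _
          nlinarith
      · by_cases hn2 : 2 ≤ n
        · rw [hAV1 p n P hp h2 (hndvd p hp hne) hn2, norm_zero]
          positivity
        · have hn1 : n = 1 := by omega
          subst hn1
          haveI : NeZero p := ⟨hp.ne_zero⟩
          have hAe : As (p ^ 1) P = As p P := by
            rw [← A_eq, ← A_eq, pow_one]
          rw [hAe, pow_one]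
          by_cases h7 : 7 < p
          · have hk2 : kp p = 1 := by
              unfold kp
              rw [if_neg (by omega)]
            rw [hk2]
            exact hAV3 p P hp h7 (hndvd p hp hne)
          · refine (hAV4 p P).trans ?_
            have hk2 : kp p = 1568 := by
              unfold kp
              rw [if_pos (by omega)]
            have hp0 : (0 : ℝ) < p := by exact_mod_cast hp.pos
            rw [hk2, div_le_div_iff₀ (by positivity) (by positivity)]
            have h8 : (p : ℝ) ≤ 8 := by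
              have : p ≤ 8 := by omega
              exact_mod_cast this
            nlinarith
  have hbound : ∀ c : ℕ, ‖f c‖ ≤ (∏ p ∈ c.primeFactors, kp p) / (c : ℝ) ^ 2 := by
    intro c
    induction c using Nat.recOnPosPrimePosCoprime with
    | zero =>
      rw [hf0, norm_zero]
      simp
    | one =>
      rw [hf1]
      simp
    | prime_pow p n hp hn =>
      rw [Nat.primeFactors_prime_pow hn.ne' hp, Finset.prod_singleton]
      exact hpp p n hp hn
    | coprime a b ha hb hab iha ihb =>
      rw [hmul hab, norm_mul, hab.primeFactors_mul, Finset.prod_union hab.disjoint_primeFactors]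
      push_cast
      rw [mul_pow, mul_div_mul_comm]
      exact mul_le_mul iha ihb (norm_nonneg _) ((norm_nonneg _).trans iha)
  have hK : ∀ c : ℕ, ‖f c‖ ≤ 1568 ^ 8 / (c : ℝ) ^ 2 := by
    intro c
    refine (hbound c).trans ?_
    exact div_le_div_of_nonneg_right (prod_kp_le _) (by positivity)
  have hloc : ∀ p, p.Prime → p ≤ Q → ∃ x : ℝ, g p ≤ x ∧ ∑' n, f (p ^ n) = (x : ℂ) := by
    intro p hp hpQ
    have hne : p ≠ P := by omega
    have hnd := hndvd p hp hne
    have hfe : ∀ n, f (p ^ n) = A P (p ^ n) := by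
      intro n
      rw [hf]
      refine if_neg fun h => ?_
      have h1 := hP.dvd_of_dvd_pow h
      exact hne ((Nat.prime_dvd_prime_iff_eq hP hp).1 h1).symm
    have hp0 : (0 : ℝ) < p := by exact_mod_cast hp.pos
    have hp0' : (p : ℂ) ≠ 0 := by exact_mod_cast hp.ne_zero
    by_cases h2 : p = 2
    · subst h2
      refine ⟨(Ns 8 P : ℝ) / 512, ?_, ?_⟩
      · have h1 : (1 : ℝ) ≤ Ns 8 P := by exact_mod_cast hLC3 P hodd
        unfold g
        rw [if_pos (by norm_num)]
        linarith
      · rw [tsum_eq_sum (s := range 4)]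
        · have h3 := orA hOR 8 P
          have h4 : (8 : ℕ) = 2 ^ 3 := by norm_num
          have h5 : ∑ q ∈ (8 : ℕ).divisors, A P q = ∑ x ∈ range (3 + 1), A P (2 ^ x) := by
            conv_lhs => rw [h4]
            exact Nat.sum_divisors_prime_pow Nat.prime_two
          rw [h5] at h3
          simp only [hfe]
          push_cast
          rw [h3]
          norm_num
        · intro n hn
          rw [Finset.mem_range, not_lt] at hn
          rw [hfe]
          haveI : NeZero (2 ^ n) := ⟨by positivity⟩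
          rw [A_eq]
          exact hAV2 n P hodd hn
    · haveI : NeZero p := ⟨hp.ne_zero⟩
      refine ⟨(Ns p P : ℝ) / (p : ℝ) ^ 3, ?_, ?_⟩
      · rw [le_div_iff₀ (by positivity)]
        unfold g
        by_cases h7 : p ≤ 7
        · rw [if_pos h7]
          have h357 : p = 3 ∨ p = 5 ∨ p = 7 := by
            have h1 := hp.two_le
            interval_cases p
            · exact absurd rfl h2
            · left; rfl
            · exact absurd hp (by norm_num)
            · right; left; rfl
            · exact absurd hp (by norm_num)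
            · right; right; rfl
          have h1 : (1 : ℝ) ≤ Ns p P := by exact_mod_cast hLC2 p P h357 hnd
          have h3 : (p : ℝ) ≤ 7 := by exact_mod_cast h7
          have h4 : (p : ℝ) ^ 3 ≤ 7 ^ 3 := by gcongr
          linarith
        · rw [if_neg h7]
          have h1 := hLC1 p P hp (by omega) hnd
          rw [abs_le] at h1
          have h3 : (1 - 1 / (p : ℝ) ^ 2) * (p : ℝ) ^ 3 = (p : ℝ) ^ 3 - p := by
            field_simp
          rw [h3]
          linarith [h1.1]
      · rw [tsum_eq_sum (s := range 2)]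
        · have h3 := orA hOR p P
          rw [hp.sum_divisors] at h3
          rw [Finset.sum_range_succ, Finset.sum_range_one, hfe, hfe, pow_zero, pow_one]
          push_cast
          rw [h3]
          field_simp
          ring
        · intro n hn
          rw [Finset.mem_range, not_lt] at hn
          rw [hfe]
          haveI : NeZero (p ^ n) := ⟨(pow_pos hp.pos n).ne'⟩
          rw [A_eq]
          exact hAV1 p n P hp h2 hnd hn
  have hfin := gen hf0 hf1 hmul (by norm_num : (0 : ℝ) ≤ 1568 ^ 8) hK hQ1 hloc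
  have hSS : SS Q P = ∑ c ∈ range Q, f (c + 1) := by
    unfold SS
    refine Finset.sum_congr rfl fun c hc => ?_
    rw [Finset.mem_range] at hc
    rw [hf]
    beta_reduce
    rw [if_neg (fun h => by
      have := Nat.le_of_dvd (Nat.succ_pos c) h
      omega), A_eq]
  rw [hSS]
  refine le_trans ?_ hfin
  have hQr : 1568 ^ 8 * 2 / c1 ≤ (Q : ℝ) := by
    have h1 : (⌈1568 ^ 8 * 2 / c1⌉₊ : ℝ) ≤ Q := by
      have : ⌈1568 ^ 8 * 2 / c1⌉₊ ≤ Q := by omega
      exact_mod_cast this
    exact (Nat.le_ceil _).trans h1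
  have hc1 := c1_pos
  have hQ0' : (0 : ℝ) < Q := by exact_mod_cast hQ1
  rw [div_le_iff₀ hc1] at hQr
  have h9 : (1568 : ℝ) ^ 8 / Q ≤ c1 / 2 := by
    rw [div_le_iff₀ hQ0']
    linarith
  linarith

end Pool.Agent.R496.FP
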