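import Pool.Agent.R496.FP.Defs2

/-!
# Project FP, piece UP: upper bound of the right order in the sieve
-/

set_option autoImplicit false
open Finset

namespace Pool.Agent.R496.FP

open Pool.Agent.W65.FS

namespace UPx

/-- Euler product lower bound -/
lemma log_le_euler (y : ℕ) : Real.log y ≤ ∏ p ∈ (y + 1).primesBelow, (1 - (p : ℝ)⁻¹)⁻¹ := by
  let f : ℕ →* ℝ :=
    { toFun := fun n => (n : ℝ)⁻¹
      map_one' := by simp
      map_mul' := by intro a b; push_cast; rw [mul_inv] }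
  have hf : ∀ n, f n = (n : ℝ)⁻¹ := fun n => rfl
  have h := (EulerProduct.summable_and_hasSum_smoothNumbers_prod_primesBelow_geometric (f := f)
    (by
      intro p hp
      rw [hf, norm_inv, RCLike.norm_natCast]
      have : (1 : ℝ) < p := by exact_mod_cast hp.one_lt
      exact inv_lt_one_of_one_lt₀ this) (y + 1)).2
  have hmem : ∀ n ∈ Finset.Icc 1 y, n ∈ Nat.smoothNumbers (y + 1) := by
    intro n hn
    rw [Finset.mem_Icc] at hn
    rw [Nat.mem_smoothNumbers']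
    intro p hp hpn
    have := Nat.le_of_dvd (by omega) hpn
    omega
  classical
  have h2 := sum_le_hasSum ((Finset.Icc 1 y).subtype (· ∈ Nat.smoothNumbers (y + 1)))
    (fun i _ => by rw [hf]; positivity) h
  rw [Finset.sum_subtype_of_mem (fun n => f n) hmem] at h2
  have h3 : Real.log ((y + 1 : ℕ) : ℝ) ≤ ∑ n ∈ Finset.Icc 1 y, f n := by
    have := log_add_one_le_harmonic y
    rw [harmonic_eq_sum_Icc] at this
    push_cast at this ⊢
    simpa [hf] using this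
  have h4 : Real.log (y : ℝ) ≤ Real.log ((y + 1 : ℕ) : ℝ) := by
    rcases Nat.eq_zero_or_pos y with rfl | hy
    · simp
    · exact Real.log_le_log (by exact_mod_cast hy) (by push_cast; linarith)
  exact h4.trans (h3.trans h2)

lemma fac_pos {p : ℕ} (hp : p.Prime) : 0 < 1 - (p : ℝ)⁻¹ := by
  have h3 : (1 : ℝ) < p := by exact_mod_cast hp.one_lt
  rw [sub_pos]
  exact inv_lt_one_of_one_lt₀ h3

lemma fac_le {p : ℕ} (hp : p.Prime) : 1 - (p : ℝ)⁻¹ ≤ 1 := by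
  have : 0 ≤ (p : ℝ)⁻¹ := by positivity
  linarith

/-- constant of the small primes -/
noncomputable def K0 (z0 : ℕ) : ℝ := (∏ p ∈ (z0 + 1).primesBelow, (1 - (p : ℝ)⁻¹))⁻¹

lemma prodA_pos (A : Finset ℕ) (hA : ∀ p ∈ A, p.Prime) : 0 < ∏ p ∈ A, (1 - (p : ℝ)⁻¹) :=
  Finset.prod_pos fun p hp => fac_pos (hA p hp)

lemma prodA_le (A : Finset ℕ) (hA : ∀ p ∈ A, p.Prime) : ∏ p ∈ A, (1 - (p : ℝ)⁻¹) ≤ 1 :=
  Finset.prod_le_one (fun p hp => (fac_pos (hA p hp)).le) (fun p hp => fac_le (hA p hp))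

lemma K0_pos (z0 : ℕ) : 0 < K0 z0 := by
  unfold K0
  exact inv_pos.2 (prodA_pos _ (fun p hp => Nat.prime_of_mem_primesBelow hp))

lemma totient_prod (n : ℕ) (hn : 1 ≤ n) :
    ∏ p ∈ n.primeFactors, (1 - (p : ℝ)⁻¹) = (Nat.totient n : ℝ) / n := by
  have h := Nat.totient_eq_mul_prod_factors n
  have h2 : ((Nat.totient n : ℚ) : ℝ) =
      ((n * ∏ p ∈ n.primeFactors, (1 - (p : ℚ)⁻¹) : ℚ) : ℝ) := by rw [h]
  push_cast at h2
  have hn0 : (n : ℝ) ≠ 0 := by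
    have : (0 : ℝ) < n := by exact_mod_cast hn
    exact this.ne'
  rw [h2]
  field_simp

/-- Mertens product over the primes of the sieve -/
lemma mert (z0 z n : ℕ) (hz : 2 ≤ z) (hn : 1 ≤ n) (P : Finset ℕ)
    (hP : P = ((Ioc z0 z).filter Nat.Prime).filter (fun l => ¬ l ∣ n)) :
    ∏ p ∈ P, (1 - (p : ℝ)⁻¹) ≤ K0 z0 * ((n : ℝ) / Nat.totient n) / Real.log z := by
  classical
  set Q := (z + 1).primesBelow with hQ
  set A := (z0 + 1).primesBelow with hA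
  have hQp : ∀ p ∈ Q, p.Prime := fun p hp => Nat.prime_of_mem_primesBelow hp
  have hAp : ∀ p ∈ A, p.Prime := fun p hp => Nat.prime_of_mem_primesBelow hp
  have hBp : ∀ p ∈ n.primeFactors, p.Prime := fun p hp => Nat.prime_of_mem_primeFactors hp
  have hPQ : P ⊆ Q := by
    intro p hp
    rw [hP, mem_filter, mem_filter, mem_Ioc] at hp
    rw [hQ, Nat.mem_primesBelow]
    exact ⟨by omega, hp.1.2⟩
  have hsub : Q \ P ⊆ A ∪ n.primeFactors := by
    intro p hp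
    rw [mem_sdiff] at hp
    have hpp := hQp p hp.1
    rw [hQ, Nat.mem_primesBelow] at hp
    rw [mem_union, hA, Nat.mem_primesBelow]
    by_cases h1 : p ≤ z0
    · left
      exact ⟨by omega, hpp⟩
    · right
      rw [Nat.mem_primeFactors]
      refine ⟨hpp, ?_, by omega⟩
      by_contra h2
      apply hp.2
      rw [hP, mem_filter, mem_filter, mem_Ioc]
      exact ⟨⟨⟨by omega, by omega⟩, hpp⟩, h2⟩
  have hlogz : 0 < Real.log z := Real.log_pos (by exact_mod_cast (by omega : 1 < z))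
  have h1 := log_le_euler z
  rw [← hQ, prod_inv_distrib] at h1
  have hQpos := prodA_pos Q hQp
  have h2 : ∏ p ∈ Q, (1 - (p : ℝ)⁻¹) ≤ 1 / Real.log z := by
    rw [one_div]
    exact le_inv_of_le_inv₀ hlogz h1
  have h3 : ∏ p ∈ Q, (1 - (p : ℝ)⁻¹) = (∏ p ∈ Q \ P, (1 - (p : ℝ)⁻¹)) * ∏ p ∈ P, (1 - (p : ℝ)⁻¹) :=
    (Finset.prod_sdiff hPQ).symm
  have hApos := prodA_pos A hAp
  have hBpos := prodA_pos n.primeFactors hBp
  have hUp : ∀ p ∈ A ∪ n.primeFactors, p.Prime := by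
    intro p hp
    rcases mem_union.1 hp with h | h
    · exact hAp p h
    · exact hBp p h
  have h4 : (∏ p ∈ A, (1 - (p : ℝ)⁻¹)) * ∏ p ∈ n.primeFactors, (1 - (p : ℝ)⁻¹) ≤
      ∏ p ∈ Q \ P, (1 - (p : ℝ)⁻¹) := by
    have h5 := Finset.prod_union_inter (s₁ := A) (s₂ := n.primeFactors)
      (f := fun p : ℕ => (1 - (p : ℝ)⁻¹))
    rw [← h5]
    have h6 : ∏ p ∈ A ∩ n.primeFactors, (1 - (p : ℝ)⁻¹) ≤ 1 :=
      prodA_le _ (fun p hp => hAp p (mem_inter.1 hp).1)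
    have h7 := prodA_pos _ hUp
    have h8 : ∏ p ∈ A ∪ n.primeFactors, (1 - (p : ℝ)⁻¹) ≤ ∏ p ∈ Q \ P, (1 - (p : ℝ)⁻¹) := by
      rw [← Finset.prod_sdiff hsub]
      have h9 : ∏ p ∈ (A ∪ n.primeFactors) \ (Q \ P), (1 - (p : ℝ)⁻¹) ≤ 1 :=
        prodA_le _ (fun p hp => hUp p (mem_sdiff.1 hp).1)
      have h10 : 0 < ∏ p ∈ Q \ P, (1 - (p : ℝ)⁻¹) :=
        prodA_pos _ (fun p hp => hQp p (mem_sdiff.1 hp).1)
      nlinarith
    nlinarith
  have hPpos : 0 < ∏ p ∈ P, (1 - (p : ℝ)⁻¹) := prodA_pos P (fun p hp => hQp p (hPQ hp))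
  set a := ∏ p ∈ A, (1 - (p : ℝ)⁻¹) with ha
  set b := ∏ p ∈ n.primeFactors, (1 - (p : ℝ)⁻¹) with hb
  set x := ∏ p ∈ P, (1 - (p : ℝ)⁻¹) with hx
  have h11 : a * b * x ≤ 1 / Real.log z := by
    rw [h3] at h2
    refine le_trans ?_ h2
    exact mul_le_mul_of_nonneg_right h4 hPpos.le
  have h12 : (n : ℝ) / Nat.totient n = b⁻¹ := by
    rw [hb, totient_prod n hn, inv_div]
  rw [h12]
  have h13 : K0 z0 = a⁻¹ := rfl
  rw [h13]
  have h14 : x = (a * b)⁻¹ * (a * b * x) := by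
    field_simp
  calc x = (a * b)⁻¹ * (a * b * x) := h14
    _ ≤ (a * b)⁻¹ * (1 / Real.log z) := by
        apply mul_le_mul_of_nonneg_left h11
        positivity
    _ = _ := by
        rw [mul_inv]
        ring

lemma factor_bound {p : ℕ} (hp : 2 ≤ p) {g : ℝ}
    (hg : 2 / (p : ℝ) - 20 / (p : ℝ) ^ (3 / 2 : ℝ) ≤ g) :
    1 - g ≤ (1 - (p : ℝ)⁻¹) ^ 2 * Real.exp (80 / (p : ℝ) ^ (3 / 2 : ℝ)) := by
  have hp' : (2 : ℝ) ≤ p := by exact_mod_cast hp
  have hp0 : (0 : ℝ) < p := by linarith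
  set w : ℝ := 1 / (p : ℝ) ^ (3 / 2 : ℝ) with hw
  have hw0 : 0 < w := by positivity
  have e1 : 20 / (p : ℝ) ^ (3 / 2 : ℝ) = 20 * w := by rw [hw]; ring
  have e2 : 80 / (p : ℝ) ^ (3 / 2 : ℝ) = 80 * w := by rw [hw]; ring
  rw [e1] at hg
  rw [e2]
  have h1 : (1 : ℝ) / 2 ≤ 1 - (p : ℝ)⁻¹ := by
    have : (p : ℝ)⁻¹ ≤ 2⁻¹ := inv_anti₀ (by norm_num) hp'
    linarith
  have h2 : 1 + 80 * w ≤ Real.exp (80 * w) := by
    have := Real.add_one_le_exp (80 * w)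
    linarith
  have h3 : (1 - (p : ℝ)⁻¹) ^ 2 * (1 + 80 * w) ≤ (1 - (p : ℝ)⁻¹) ^ 2 * Real.exp (80 * w) := by
    gcongr
  refine le_trans ?_ h3
  have h4 : (1 / 4 : ℝ) ≤ (1 - (p : ℝ)⁻¹) ^ 2 := by nlinarith
  have h5 : 2 / (p : ℝ) = 2 * (p : ℝ)⁻¹ := by ring
  rw [h5] at hg
  have h6 : 0 ≤ ((p : ℝ)⁻¹) ^ 2 := by positivity
  nlinarith

/-- the sum of `n ^ (-3/2)` -/
noncomputable def K1 : ℝ := ∑' n : ℕ, 1 / (n : ℝ) ^ (3 / 2 : ℝ)

lemma sum_le_K1 (P : Finset ℕ) : ∑ p ∈ P, 1 / (p : ℝ) ^ (3 / 2 : ℝ) ≤ K1 := by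
  apply Summable.sum_le_tsum
  · intro i _
    positivity
  · exact Real.summable_one_div_nat_rpow.2 (by norm_num)

end UPx

open UPx

theorem up (hLD : LD) : UP := by
  classical
  intro η hη
  obtain ⟨C0, hC0, hFL⟩ := Pool.Agent.H20R2.fLem 8
  obtain ⟨C, hC, hdist⟩ := distribution
  obtain ⟨c1, hc1, hlow⟩ := preps_lower ((1 / 50 : ℝ) / 4) (by norm_num)
  set z0 : ℕ := C0 + 26 with hz0
  obtain ⟨B1, hB1⟩ := exists_nat_ge (1 / η)
  set B : ℕ := 100 * (16 * (C0 * C0) + 1) + 3200 + B1 with hB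
  have hBpos : 1 ≤ B := by omega
  have hBr : (0 : ℝ) < B := by exact_mod_cast hBpos
  have hBη : 1 / (B : ℝ) ≤ η := by
    have h1 : (B1 : ℝ) ≤ B := by exact_mod_cast (show B1 ≤ B by omega)
    rw [div_le_iff₀ hBr]
    rw [div_le_iff₀ hη] at hB1
    nlinarith
  set c3 : ℝ := Real.exp (-(2 * (8 : ℕ))) with hc3
  have hc3pos : 0 < c3 := Real.exp_pos _
  obtain ⟨n2, hn2⟩ := large_rpow ((2 * C) / (c1 * c3 / 2)) (3 / 100) (by norm_num)
  set K : ℝ := Real.exp (80 * K1) * K0 z0 ^ 2 * (4 * (B : ℝ) ^ 2) with hK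
  have hKpos : 0 < K := by
    have := K0_pos z0
    positivity
  refine ⟨2 * K, by positivity, n2 + 2 ^ B, ?_⟩
  intro n hno hnbig S hSsub hSav
  have hn : 1 ≤ n := hno.pos
  have hnr : (1 : ℝ) ≤ n := by exact_mod_cast hn
  have hn0 : (0 : ℝ) < n := by linarith
  have h2B : 0 < 2 ^ B := by positivity
  have hn2' := hn2 n (by omega)
  have hn2B : 2 ^ B ≤ n := by omega
  -- scale
  obtain ⟨J, hJ1, hJ2⟩ := exists_scale B n hBpos hn2B
  set z : ℕ := 2 ^ 2 ^ J with hz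
  have hz2 : 2 ≤ z := by
    have h1 : 1 ≤ 2 ^ J := Nat.one_le_two_pow
    calc 2 = 2 ^ 1 := rfl
      _ ≤ 2 ^ 2 ^ J := Nat.pow_le_pow_right (by norm_num) h1
  have hzr : (2 : ℝ) ≤ z := by exact_mod_cast hz2
  have hz0r : (0 : ℝ) < z := by linarith
  have hzB : (z : ℝ) ≤ (n : ℝ) ^ (1 / (B : ℝ)) := by
    have h1 : (z : ℝ) ^ B ≤ n := by exact_mod_cast hJ1
    calc (z : ℝ) = ((z : ℝ) ^ B) ^ (1 / (B : ℝ)) := by
          rw [← Real.rpow_natCast, ← Real.rpow_mul hz0r.le, mul_one_div_cancel hBr.ne',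
            Real.rpow_one]
      _ ≤ _ := Real.rpow_le_rpow (by positivity) h1 (by positivity)
  have hzη : (z : ℝ) ≤ (n : ℝ) ^ η :=
    hzB.trans (Real.rpow_le_rpow_of_exponent_le hnr hBη)
  have hlogz0 : 0 < Real.log z := Real.log_pos (by linarith)
  have hlogn : Real.log n ≤ 2 * B * Real.log z := by
    have h1 : (n : ℝ) < (z : ℝ) ^ (2 * B) := by
      have : (2 ^ 2 ^ (J + 1)) ^ B = z ^ (2 * B) := by
        rw [hz, pow_mul, ← pow_mul 2 (2 ^ J) 2, pow_succ]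
      rw [this] at hJ2
      exact_mod_cast hJ2
    have h2 := Real.log_le_log hn0 h1.le
    rw [Real.log_pow] at h2
    push_cast at h2
    exact h2
  have hlogn0 : 0 < Real.log n := by
    apply Real.log_pos
    have h1 : 2 ≤ n := by
      have h3 : 2 ^ 1 ≤ 2 ^ B := Nat.pow_le_pow_right (by norm_num) hBpos
      omega
    exact_mod_cast h1
  -- primes
  set P : Finset ℕ := ((Ioc z0 z).filter Nat.Prime).filter (fun l => ¬ l ∣ n) with hP
  have hPp : ∀ p ∈ P, p.Prime ∧ z0 < p ∧ p ≤ z ∧ ¬ p ∣ n := by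
    intro p hp
    rw [hP, Finset.mem_filter, Finset.mem_filter, Finset.mem_Ioc] at hp
    exact ⟨hp.1.2, hp.1.1.1, hp.1.1.2, hp.2⟩
  have hP2 : ∀ p ∈ P, p ≠ 2 := fun p hp => by have := (hPp p hp).2.1; omega
  have hgb : ∀ p ∈ P, 0 ≤ gg ff n p ∧ gg ff n p ≤ (8 : ℕ) / ((p : ℝ) - 1) := fun p hp =>
    gg_bound ff 8 n p (hPp p hp).1 (hP2 p hp) (Bl_card p (hPp p hp).1 (hP2 p hp) n)
  set A := prc n 1 0 with hA
  have hAeq : A = preps n := prc_one n
  obtain ⟨e, he⟩ := exists_injective_nat (Fin 4 → ℤ)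
  set Ω : Finset ℕ := A.map ⟨e, he⟩ with hΩ
  set hit : ℕ → ℕ → Prop := fun p m => ∀ X, e X = m → red p X ∈ Bl ff n p with hhit
  have hhit' : ∀ p X, hit p (e X) ↔ red p X ∈ Bl ff n p := by
    intro p X
    constructor
    · intro h; exact h X rfl
    · intro h Y hY
      rw [he hY]; exact h
  set err : Finset ℕ → ℝ := fun T => C * (((1 : ℕ)) : ℝ) ^ 11 * ((∏ l ∈ T, l : ℕ) : ℝ) ^ 15 *
    (n : ℝ) ^ (19 / 20 : ℝ) with herr
  have hfl := hFL C0 J z0 P (gg ff n) le_rfl (by omega)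
    (fun p hp => ⟨(hPp p hp).1, (hPp p hp).2.1, (hPp p hp).2.2.1⟩)
    (fun p hp => hgb p hp) Ω (fun _ => 1) hit (A.card : ℝ) err (fun _ _ => zero_le_one)
    (by positivity)
    (fun T hT _ => by
      have h1 := hdist n 1 hn one_pos odd_one squarefree_one 0 (good_one n) T
        (fun l hl => ⟨(hPp l (hT hl)).1,
          fun h => (hPp l (hT hl)).1.one_lt.ne' (Nat.dvd_one.1 h), hP2 l (hT hl), by
          obtain ⟨c, hc, _⟩ := local_ff l (hPp l (hT hl)).1 (hP2 l (hT hl)) n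
          exact ⟨c, hc⟩⟩)
        (fun l => Bl ff n l) (fun l _ c hc => ((mem_Bl ff n l c).1 hc).1)
      have h2 : ∑ m ∈ Ω.filter (fun m => ∀ p ∈ T, hit p m), (1 : ℝ) =
          (((prc n 1 0).filter (fun X => ∀ l ∈ T, red l X ∈ Bl ff n l)).card : ℝ) := by
        rw [Finset.sum_const, nsmul_eq_mul, mul_one, hΩ, Finset.filter_map, Finset.card_map]
        congr 2
        ext X
        simp only [Finset.mem_filter, Function.comp, Function.Embedding.coeFn_mk, hhit']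
        rfl
      rw [h2]
      exact h1)
  -- the sifted set
  set S0 : Finset (Fin 4 → ℤ) := A.filter (fun X => ∀ p ∈ P, red p X ∉ Bl ff n p) with hS0
  have hScard : ∑ m ∈ Ω.filter (fun m => ∀ p ∈ P, ¬ hit p m), (1 : ℝ) = (S0.card : ℝ) := by
    rw [Finset.sum_const, nsmul_eq_mul, mul_one, hΩ, Finset.filter_map, Finset.card_map]
    congr 2
    ext X
    simp only [Finset.mem_filter, Function.comp, Function.Embedding.coeFn_mk, hhit']
    rw [hS0, Finset.mem_filter]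
  have hfl' : |(S0.card : ℝ) - A.card * ∏ p ∈ P, (1 - gg ff n p)| ≤
      (1 / 2 : ℝ) ^ C0 * (A.card * ∏ p ∈ P, (1 - gg ff n p)) +
        ((J : ℝ) + 2) * ∑ T ∈ P.powerset.filter
          (fun T : Finset ℕ => ∏ p ∈ T, p ≤ z ^ (C0 * C0)), err T := by
    rw [← hScard]
    convert hfl using 3
  have hSS0 : S ⊆ S0 := by
    intro X hX
    have hXp : X ∈ prc n 1 0 := by
      rw [← hA, hAeq]
      exact hSsub hX
    rw [hS0, Finset.mem_filter]
    refine ⟨hXp, ?_⟩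
    intro p hp hred
    rw [mem_Bl] at hred
    have h3 := ff_congr p X (red p X) (red_dvd p X)
    have h4 := dvd_add h3 hred.2
    rw [sub_add_cancel] at h4
    refine hSav X hX p (hPp p hp).1 ?_ h4
    have h5 : (p : ℝ) ≤ z := by exact_mod_cast (hPp p hp).2.2.1
    linarith
  -- bounds
  have hz0le : (2 : ℝ) * 8 + 1 ≤ z0 := by
    rw [hz0]; push_cast
    have : (0:ℝ) ≤ C0 := by positivity
    linarith
  have hV : c3 * (z : ℝ) ^ (-(2 * (8 : ℕ) : ℝ)) ≤ ∏ p ∈ P, (1 - gg ff n p) := by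
    apply prod_lower 8 z (by omega) P (fun p hp => ⟨(hPp p hp).1.two_le, (hPp p hp).2.2.1⟩)
      (gg ff n) (fun p hp => (hgb p hp).1) (fun p hp => (hgb p hp).2)
    intro p hp
    refine (hgb p hp).2.trans ?_
    have h1 : (z0 : ℝ) < p := by exact_mod_cast (hPp p hp).2.1
    push_cast
    rw [div_le_div_iff₀ (by linarith) (by norm_num)]
    linarith
  set V := ∏ p ∈ P, (1 - gg ff n p) with hVdef
  have hV0 : 0 ≤ V := le_trans (by positivity) hV
  have hhalf : (1 / 2 : ℝ) ^ C0 ≤ 1 / 2 := by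
    calc (1 / 2 : ℝ) ^ C0 ≤ (1 / 2 : ℝ) ^ 1 := pow_le_pow_of_le_one (by norm_num) (by norm_num) hC0
      _ = 1 / 2 := pow_one _
  have hErr : ((J : ℝ) + 2) * ∑ T ∈ P.powerset.filter
        (fun T : Finset ℕ => ∏ p ∈ T, p ≤ z ^ (C0 * C0)), err T ≤
      2 * C * ((z : ℝ) ^ (16 * (C0 * C0) + 1) * (n : ℝ) ^ (19 / 20 : ℝ)) := by
    have h1 : ∀ T ∈ P.powerset.filter (fun T : Finset ℕ => ∏ p ∈ T, p ≤ z ^ (C0 * C0)), err T ≤
        C * ((z : ℝ) ^ (C0 * C0)) ^ 15 * (n : ℝ) ^ (19 / 20 : ℝ) := by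
      intro T hT
      have h2 := (Finset.mem_filter.1 hT).2
      have h3 : ((∏ l ∈ T, l : ℕ) : ℝ) ≤ (z : ℝ) ^ (C0 * C0) := by exact_mod_cast h2
      rw [herr]
      simp only [Nat.cast_one, one_pow, mul_one]
      gcongr
    have h2 := Finset.sum_le_sum h1
    rw [Finset.sum_const, nsmul_eq_mul] at h2
    have h3 := card_sets P (fun p hp => (hPp p hp).1) (z ^ (C0 * C0))
    have h4 : (((P.powerset.filter (fun T : Finset ℕ => ∏ p ∈ T, p ≤ z ^ (C0 * C0))).card : ℕ) : ℝ)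
        ≤ (z : ℝ) ^ (C0 * C0) := by
      exact_mod_cast h3
    have hJz : (J : ℝ) + 2 ≤ 2 * z := by
      have h5 : J + 2 ≤ 2 * z := by
        have h6 : J < 2 ^ J := Nat.lt_two_pow_self
        have h7 : 2 ^ J < 2 ^ 2 ^ J := Nat.lt_two_pow_self
        omega
      exact_mod_cast h5
    calc ((J : ℝ) + 2) * ∑ T ∈ P.powerset.filter
          (fun T : Finset ℕ => ∏ p ∈ T, p ≤ z ^ (C0 * C0)), err T
        ≤ (2 * z) * ((z : ℝ) ^ (C0 * C0) *
          (C * ((z : ℝ) ^ (C0 * C0)) ^ 15 * (n : ℝ) ^ (19 / 20 : ℝ))) := by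
          apply mul_le_mul hJz (h2.trans (by gcongr)) _ (by positivity)
          apply Finset.sum_nonneg
          intro T _
          rw [herr]
          positivity
      _ = _ := by ring
  have hzpow1 : (z : ℝ) ^ (16 * (C0 * C0) + 1) ≤ (n : ℝ) ^ (1 / 100 : ℝ) := by
    calc (z : ℝ) ^ (16 * (C0 * C0) + 1) ≤ ((n : ℝ) ^ (1 / (B : ℝ))) ^ (16 * (C0 * C0) + 1) := by
          gcongr
      _ = (n : ℝ) ^ ((16 * (C0 * C0) + 1 : ℕ) / (B : ℝ)) := by
        rw [← Real.rpow_natCast, ← Real.rpow_mul hn0.le]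
        congr 1
        ring
      _ ≤ _ := by
        apply Real.rpow_le_rpow_of_exponent_le hnr
        rw [div_le_div_iff₀ hBr (by norm_num)]
        have : (16 * (C0 * C0) + 1) * 100 ≤ 1 * B := by omega
        exact_mod_cast this
  have hzpow2 : (n : ℝ) ^ (-((1 / 50 : ℝ) / 4)) ≤ (z : ℝ) ^ (-(2 * (8 : ℕ) : ℝ)) := by
    rw [Real.rpow_neg hn0.le, Real.rpow_neg hz0r.le]
    apply inv_anti₀ (Real.rpow_pos_of_pos hz0r _)
    calc (z : ℝ) ^ (2 * (8 : ℕ) : ℝ) ≤ ((n : ℝ) ^ (1 / (B : ℝ))) ^ (2 * (8 : ℕ) : ℝ) :=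
          Real.rpow_le_rpow hz0r.le hzB (by positivity)
      _ = (n : ℝ) ^ (2 * (8 : ℕ) / (B : ℝ)) := by
        rw [← Real.rpow_mul hn0.le]
        congr 1
        ring
      _ ≤ _ := by
        apply Real.rpow_le_rpow_of_exponent_le hnr
        rw [div_le_iff₀ hBr]
        have h1 : (3200 : ℝ) ≤ B := by
          exact_mod_cast (show 3200 ≤ B by omega)
        push_cast
        linarith
  have hmain : c1 * c3 * (n : ℝ) ^ (1 - (1 / 50 : ℝ) / 2) ≤ A.card * V := by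
    calc c1 * c3 * (n : ℝ) ^ (1 - (1 / 50 : ℝ) / 2) =
        (c1 * (n : ℝ) ^ (1 - (1 / 50 : ℝ) / 4)) * (c3 * (n : ℝ) ^ (-((1 / 50 : ℝ) / 4))) := by
          have : (n : ℝ) ^ (1 - (1 / 50 : ℝ) / 2) =
              (n : ℝ) ^ (1 - (1 / 50 : ℝ) / 4) * (n : ℝ) ^ (-((1 / 50 : ℝ) / 4)) := by
            rw [← Real.rpow_add hn0]; congr 1; norm_num
          rw [this]; ring
      _ ≤ A.card * V := by
        apply mul_le_mul _ _ (by positivity) (by positivity)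
        · rw [hAeq]
          exact hlow n hno
        · exact le_trans (by gcongr) hV
  have hfin : (S0.card : ℝ) ≤ 2 * (A.card * V) := by
    have h1 := (abs_le.1 hfl').2
    have h2 : (1 / 2 : ℝ) ^ C0 * (A.card * V) ≤ 1 / 2 * (A.card * V) := by
      apply mul_le_mul_of_nonneg_right hhalf (by positivity)
    have h3 : 2 * C * ((z : ℝ) ^ (16 * (C0 * C0) + 1) * (n : ℝ) ^ (19 / 20 : ℝ)) ≤
        c1 * c3 / 2 * (n : ℝ) ^ (1 - (1 / 50 : ℝ) / 2) := by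
      rw [div_le_iff₀ (by positivity)] at hn2'
      have h4 : (n : ℝ) ^ (3 / 100 : ℝ) * ((n : ℝ) ^ (1 / 100 : ℝ) * (n : ℝ) ^ (19 / 20 : ℝ)) ≤
          (n : ℝ) ^ (1 - (1 / 50 : ℝ) / 2) := by
        rw [← Real.rpow_add hn0, ← Real.rpow_add hn0]
        apply Real.rpow_le_rpow_of_exponent_le hnr
        norm_num
      calc 2 * C * ((z : ℝ) ^ (16 * (C0 * C0) + 1) * (n : ℝ) ^ (19 / 20 : ℝ))
          ≤ ((n : ℝ) ^ (3 / 100 : ℝ) * (c1 * c3 / 2)) *
            ((n : ℝ) ^ (1 / 100 : ℝ) * (n : ℝ) ^ (19 / 20 : ℝ)) := by gcongr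
        _ = c1 * c3 / 2 * ((n : ℝ) ^ (3 / 100 : ℝ) *
            ((n : ℝ) ^ (1 / 100 : ℝ) * (n : ℝ) ^ (19 / 20 : ℝ))) := by ring
        _ ≤ _ := by gcongr
    linarith
  -- upper bound for V
  have hVup : V ≤ Real.exp (80 * K1) * (∏ p ∈ P, (1 - (p : ℝ)⁻¹)) ^ 2 := by
    have h1 : V ≤ ∏ p ∈ P, ((1 - (p : ℝ)⁻¹) ^ 2 * Real.exp (80 / (p : ℝ) ^ (3 / 2 : ℝ))) := by
      rw [hVdef]
      apply Finset.prod_le_prod
      · intro p hp
        have h2 := (hgb p hp).2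
        have h3 : (z0 : ℝ) < p := by exact_mod_cast (hPp p hp).2.1
        have h4 : ((8 : ℕ) : ℝ) / ((p : ℝ) - 1) ≤ 1 := by
          push_cast
          rw [div_le_one (by linarith)]
          linarith
        linarith
      · intro p hp
        apply factor_bound (hPp p hp).1.two_le
        have h2 := hLD p (hPp p hp).1 (by have := (hPp p hp).2.1; omega) n (hPp p hp).2.2.2
        unfold gg
        have h3 : 0 < ((Gl n p).card : ℝ) := by
          obtain ⟨c, hc, _⟩ := local_ff p (hPp p hp).1 (hP2 p hp) n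
          exact_mod_cast Finset.card_pos.2 ⟨c, hc⟩
        rw [le_div_iff₀ h3]
        exact h2
    refine h1.trans ?_
    rw [Finset.prod_mul_distrib, Finset.prod_pow, ← Real.exp_sum, mul_comm]
    apply mul_le_mul_of_nonneg_right _ (sq_nonneg _)
    apply Real.exp_le_exp.2
    have h2 := sum_le_K1 P
    have h3 : ∑ p ∈ P, 80 / (p : ℝ) ^ (3 / 2 : ℝ) = 80 * ∑ p ∈ P, 1 / (p : ℝ) ^ (3 / 2 : ℝ) := by
      rw [Finset.mul_sum]
      apply Finset.sum_congr rfl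
      intro p _
      ring
    rw [h3]
    linarith
  have hmert := mert z0 z n hz2 hn P hP
  have hprod0 : 0 ≤ ∏ p ∈ P, (1 - (p : ℝ)⁻¹) :=
    (prodA_pos P (fun p hp => (hPp p hp).1)).le
  have hVK : V ≤ K * ((n : ℝ) / Nat.totient n) ^ 2 / Real.log n ^ 2 := by
    have h1 : (∏ p ∈ P, (1 - (p : ℝ)⁻¹)) ^ 2 ≤
        (K0 z0 * ((n : ℝ) / Nat.totient n) / Real.log z) ^ 2 := by gcongr
    have h2 : 1 / Real.log z ≤ 2 * B / Real.log n := by
      rw [div_le_div_iff₀ hlogz0 hlogn0]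
      linarith
    have h3 : (1 / Real.log z) ^ 2 ≤ (2 * B / Real.log n) ^ 2 := by gcongr
    calc V ≤ Real.exp (80 * K1) * (K0 z0 * ((n : ℝ) / Nat.totient n) / Real.log z) ^ 2 :=
          hVup.trans (by gcongr)
      _ = Real.exp (80 * K1) * K0 z0 ^ 2 * ((n : ℝ) / Nat.totient n) ^ 2 *
            (1 / Real.log z) ^ 2 := by ring
      _ ≤ Real.exp (80 * K1) * K0 z0 ^ 2 * ((n : ℝ) / Nat.totient n) ^ 2 *
            (2 * B / Real.log n) ^ 2 := by gcongr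
      _ = _ := by
          rw [hK]
          ring
  have hS1 : (S.card : ℝ) ≤ S0.card := by exact_mod_cast Finset.card_le_card hSS0
  calc (S.card : ℝ) ≤ 2 * (A.card * V) := hS1.trans hfin
    _ ≤ 2 * (A.card * (K * ((n : ℝ) / Nat.totient n) ^ 2 / Real.log n ^ 2)) := by gcongr
    _ = _ := by
        rw [hAeq]
        ring

end Pool.Agent.R496.FP
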